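import Pool.Agent.PTH.GDefs
import Pool.Agent.RSG.SphA
import Pool.Agent.RSG.SphB
import Pool.Agent.RSG.LDc
import Pool.Agent.CSG.LDa

/-!
# GLB/Psi: coordinates of `S3`, the map `Ψ (z, β, γ) = (pS3 z (ex β), exp (2πiγ))`   (difficulty 2)

* `z_pS3`: `toSph_coe` with `v = toLp 2 ![a.re, a.im, b.re, b.im]`, `‖v‖ = √(‖a‖² + ‖b‖²)` (`EuclideanSpace.norm_eq`,
  `Fin.sum_univ_four`, `Complex.sq_norm`); compare coordinates (`Complex.ext`).  See RSG/SphB (`pS3_c`, `pS3_self`).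
* `pS3_smul`: both points have the same coordinates by `z_pS3` (`‖r a‖² + ‖r b‖² = r² (..)`, `√(r² s) = r √s`); `S3_ext`.
* `S3_ext`: `pS3_self`, or compare the four coordinates.
* `pS3_inj`: `a / √.. = a' / √.. ` and `b / √.. = b' / √..`; take `r = √(‖a'‖² + ‖b'‖²) / √(‖a‖² + ‖b‖²)`.
* `Psi_inj`: `pS3_inj`: `ex β' = r ex β`, norms give `r = 1`, then `z' = z`, `ex_eq_iff`.  `Circle.exp`:
  `Circle.exp_two_pi_mul_int`-like, or `Circle.ext_iff`, `Circle.coe_exp` and `ex_eq_iff` (`(Circle.exp (2 π γ) : ℂ) = ex γ`).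
* `Psi_smooth`: `pS3_smooth` (`‖z‖² + ‖ex β‖² ≥ 1 > 0`), `ex` is smooth, `Circle.exp` is smooth (`contMDiff_circleExp`),
  `ContMDiffAt.prodMk`.
* `Psi_ld` at `q₀ = (z₀, β₀, γ₀)`: `RSG.ld_two` with the local inverse
  `D (y, c) = (z1 y / ‖z2 y‖, β₀ + arg' (z2 y * ex (-β₀)) / (2π), γ₀ + arg' (c * ex (-γ₀)) / (2π))`, where `arg' w = (Complex.log w).im`.
  `‖z2 y‖ ≠ 0` near `pS3 z₀ (ex β₀)`, and `z2 y * ex (-β₀)` is a positive number there, `c ex (-γ₀) = 1`, so both are in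
  `Complex.slitPlane`, where `log` is smooth.  `D (Ψ q) = q` for `q` near `q₀` : `arg' (r ex x) = 2π x` for `|x| < 1/2`
  (`RSG.ex_log`), `z1 / ‖z2‖ = z` (`z_pS3`, `‖ex β‖ = 1`).  `Ψ (D p) = p` near `Ψ q₀`: `ex (arg' w / 2π) = w / ‖w‖`
  (`RSG.ex_arg`), so `Ψ (D (y, c)) = (pS3 (z1 y / ‖z2 y‖) (z2 y / ‖z2 y‖), c) = (pS3 (z1 y) (z2 y), c) = (y, c)` (`pS3_smul`,
  `pS3_z`).
* `perm_ld_of_involution`: `S ∘ S = id` and `S` smooth: `ld_two` with `g = S`.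
-/

open scoped Manifold ContDiff Topology
open Set Filter
open Complex (I)

namespace Pool.Agent.GLB

open Pool.Agent.PTH
open Pool.Agent.RSG (E4 S3 pS3 ex)

theorem z_pS3 {a b : ℂ} (h : 0 < ‖a‖ ^ 2 + ‖b‖ ^ 2) :
    z1 (pS3 a b) = (((Real.sqrt (‖a‖ ^ 2 + ‖b‖ ^ 2))⁻¹ : ℝ) : ℂ) * a ∧
      z2 (pS3 a b) = (((Real.sqrt (‖a‖ ^ 2 + ‖b‖ ^ 2))⁻¹ : ℝ) : ℂ) * b := by
  have hn2 : ‖(WithLp.toLp 2 ![a.re, a.im, b.re, b.im] : E4)‖ ^ 2 = ‖a‖ ^ 2 + ‖b‖ ^ 2 := by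
    rw [Pool.Agent.RSG.SphB_norm, Fin.sum_univ_four, ← Pool.Agent.RSG.SphB_cx',
      ← Pool.Agent.RSG.SphB_cx' b, ← add_assoc]
    rfl
  have hn : ‖(WithLp.toLp 2 ![a.re, a.im, b.re, b.im] : E4)‖ = Real.sqrt (‖a‖ ^ 2 + ‖b‖ ^ 2) := by
    rw [← hn2, Real.sqrt_sq (norm_nonneg _)]
  have h0 : (WithLp.toLp 2 ![a.re, a.im, b.re, b.im] : E4) ≠ 0 := by
    intro h1
    rw [h1, norm_zero] at hn2
    rw [← hn2] at h
    simp at h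
  have e : (pS3 a b : E4) = (Real.sqrt (‖a‖ ^ 2 + ‖b‖ ^ 2))⁻¹ •
      (WithLp.toLp 2 ![a.re, a.im, b.re, b.im] : E4) := by
    unfold Pool.Agent.RSG.pS3
    rw [Pool.Agent.RSG.toSph_coe _ h0, hn]
  refine ⟨?_, ?_⟩
  · unfold z1
    rw [e]
    apply Complex.ext
    · rw [Complex.re_ofReal_mul]
      rfl
    · rw [Complex.im_ofReal_mul]
      rfl
  · unfold z2
    rw [e]
    apply Complex.ext
    · rw [Complex.re_ofReal_mul]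
      rfl
    · rw [Complex.im_ofReal_mul]
      rfl

theorem pS3_z (y : S3) : pS3 (z1 y) (z2 y) = y := Pool.Agent.RSG.pS3_self y

theorem z_sq (y : S3) : ‖z1 y‖ ^ 2 + ‖z2 y‖ ^ 2 = 1 := Pool.Agent.RSG.S3_sq y

theorem S3_ext {y y' : S3} (h1 : z1 y = z1 y') (h2 : z2 y = z2 y') : y = y' := by
  rw [← pS3_z y, ← pS3_z y', h1, h2]

theorem pS3_smul {a b : ℂ} {r : ℝ} (hr : 0 < r) (h : 0 < ‖a‖ ^ 2 + ‖b‖ ^ 2) : pS3 (r * a) (r * b) = pS3 a b := by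
  have h1 : ‖(r : ℂ) * a‖ ^ 2 + ‖(r : ℂ) * b‖ ^ 2 = r ^ 2 * (‖a‖ ^ 2 + ‖b‖ ^ 2) := by
    rw [norm_mul, norm_mul, Complex.norm_real, Real.norm_of_nonneg hr.le]
    ring
  have h2 : 0 < ‖(r : ℂ) * a‖ ^ 2 + ‖(r : ℂ) * b‖ ^ 2 := by
    rw [h1]
    positivity
  have h3 : Real.sqrt (‖(r : ℂ) * a‖ ^ 2 + ‖(r : ℂ) * b‖ ^ 2) =
      r * Real.sqrt (‖a‖ ^ 2 + ‖b‖ ^ 2) := by
    rw [h1, Real.sqrt_mul (sq_nonneg r), Real.sqrt_sq hr.le]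
  have h4 : ∀ c : ℂ, (((r * Real.sqrt (‖a‖ ^ 2 + ‖b‖ ^ 2))⁻¹ : ℝ) : ℂ) * (r * c) =
      (((Real.sqrt (‖a‖ ^ 2 + ‖b‖ ^ 2))⁻¹ : ℝ) : ℂ) * c := by
    intro c
    have hr' : (r : ℂ) ≠ 0 := by exact_mod_cast hr.ne'
    push_cast
    rw [mul_inv]
    field_simp
  obtain ⟨a1, a2⟩ := z_pS3 h2
  obtain ⟨b1, b2⟩ := z_pS3 h
  apply S3_ext
  · rw [a1, b1, h3, h4]
  · rw [a2, b2, h3, h4]

theorem pS3_inj {a b a' b' : ℂ} (h : 0 < ‖a‖ ^ 2 + ‖b‖ ^ 2) (h' : 0 < ‖a'‖ ^ 2 + ‖b'‖ ^ 2)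
    (he : pS3 a b = pS3 a' b') : ∃ r : ℝ, 0 < r ∧ a' = r * a ∧ b' = r * b := by
  obtain ⟨a1, a2⟩ := z_pS3 h
  obtain ⟨b1, b2⟩ := z_pS3 h'
  have hs : 0 < Real.sqrt (‖a‖ ^ 2 + ‖b‖ ^ 2) := Real.sqrt_pos.2 h
  have hs' : 0 < Real.sqrt (‖a'‖ ^ 2 + ‖b'‖ ^ 2) := Real.sqrt_pos.2 h'
  have hc : ((Real.sqrt (‖a'‖ ^ 2 + ‖b'‖ ^ 2) : ℝ) : ℂ) ≠ 0 := by exact_mod_cast hs'.ne'
  have key : ∀ c c' : ℂ, (((Real.sqrt (‖a‖ ^ 2 + ‖b‖ ^ 2))⁻¹ : ℝ) : ℂ) * c =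
      (((Real.sqrt (‖a'‖ ^ 2 + ‖b'‖ ^ 2))⁻¹ : ℝ) : ℂ) * c' →
      c' = ((Real.sqrt (‖a'‖ ^ 2 + ‖b'‖ ^ 2) * (Real.sqrt (‖a‖ ^ 2 + ‖b‖ ^ 2))⁻¹ : ℝ) : ℂ) * c := by
    intro c c' h1
    rw [Complex.ofReal_mul, mul_assoc, h1, Complex.ofReal_inv, mul_inv_cancel_left₀ hc]
  refine ⟨Real.sqrt (‖a'‖ ^ 2 + ‖b'‖ ^ 2) * (Real.sqrt (‖a‖ ^ 2 + ‖b‖ ^ 2))⁻¹, by positivity,
    key _ _ ?_, key _ _ ?_⟩
  · rw [← a1, ← b1, he]
  · rw [← a2, ← b2, he]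

theorem z1_smooth : ContMDiff (𝓡 3) 𝓘(ℝ, ℂ) ∞ z1 := Pool.Agent.RSG.S3c_smooth.1
theorem z2_smooth : ContMDiff (𝓡 3) 𝓘(ℝ, ℂ) ∞ z2 := Pool.Agent.RSG.S3c_smooth.2

/-- `Ψ (z, β, γ)` -/
noncomputable def Psi (q : ℂ × ℝ × ℝ) : SP := (pS3 q.1 (ex q.2.1), Circle.exp (2 * Real.pi * q.2.2))

theorem circle_exp_eq (x : ℝ) : ((Circle.exp (2 * Real.pi * x) : Circle) : ℂ) = ex x := by
  rw [Circle.coe_exp]
  rfl

theorem circle_exp_add_int (x : ℝ) (m : ℤ) :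
    Circle.exp (2 * Real.pi * (x + m)) = Circle.exp (2 * Real.pi * x) := by
  apply Circle.ext
  rw [circle_exp_eq, circle_exp_eq, Pool.Agent.RSG.ex_add_int]

theorem circle_exp_inj {x y : ℝ} (h : Circle.exp (2 * Real.pi * x) = Circle.exp (2 * Real.pi * y)) :
    ∃ m : ℤ, y = x + m := by
  have h1 := congrArg (fun c : Circle => (c : ℂ)) h
  simp only [circle_exp_eq] at h1
  exact Pool.Agent.RSG.ex_eq_iff.1 h1

theorem Psi_pos (a : ℂ) (x : ℝ) : 0 < ‖a‖ ^ 2 + ‖ex x‖ ^ 2 := by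
  rw [Pool.Agent.RSG.ex_norm]
  positivity

theorem Psi_inj {q q' : ℂ × ℝ × ℝ} (h : Psi q = Psi q') :
    q'.1 = q.1 ∧ (∃ m : ℤ, q'.2.1 = q.2.1 + m) ∧ ∃ m : ℤ, q'.2.2 = q.2.2 + m := by
  have h1 : pS3 q.1 (ex q.2.1) = pS3 q'.1 (ex q'.2.1) := congrArg Prod.fst h
  have h2 : Circle.exp (2 * Real.pi * q.2.2) = Circle.exp (2 * Real.pi * q'.2.2) :=
    congrArg Prod.snd h
  obtain ⟨r, hr, e1, e2⟩ := pS3_inj (Psi_pos _ _) (Psi_pos _ _) h1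
  have h3 := congrArg norm e2
  rw [norm_mul, Pool.Agent.RSG.ex_norm, Pool.Agent.RSG.ex_norm, Complex.norm_real,
    Real.norm_of_nonneg hr.le, mul_one] at h3
  rw [← h3, Complex.ofReal_one, one_mul] at e1 e2
  exact ⟨e1, Pool.Agent.RSG.ex_eq_iff.1 e2.symm, circle_exp_inj h2⟩

theorem Psi_smooth : ContMDiff 𝓘(ℝ, ℂ × ℝ × ℝ) ISP ∞ Psi := by
  intro q
  have h1 : ContMDiffAt 𝓘(ℝ, ℂ × ℝ × ℝ) 𝓘(ℝ, ℂ) ∞ (fun q : ℂ × ℝ × ℝ => q.1) q :=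
    contMDiffAt_iff_contDiffAt.2 contDiffAt_fst
  have h2 : ContMDiffAt 𝓘(ℝ, ℂ × ℝ × ℝ) 𝓘(ℝ, ℂ) ∞ (fun q : ℂ × ℝ × ℝ => ex q.2.1) q :=
    contMDiffAt_iff_contDiffAt.2
      (Pool.Agent.RSG.ex_smooth.comp (contDiff_fst.comp contDiff_snd)).contDiffAt
  have h3 : ContMDiffAt 𝓘(ℝ, ℂ × ℝ × ℝ) 𝓘(ℝ, ℝ) ∞
      (fun q : ℂ × ℝ × ℝ => 2 * Real.pi * q.2.2) q :=
    contMDiffAt_iff_contDiffAt.2
      (contDiff_const.mul (contDiff_snd.comp contDiff_snd)).contDiffAt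
  exact (Pool.Agent.RSG.pS3_smooth h1 h2 (Psi_pos _ _)).prodMk
    (contMDiff_circleExp.contMDiffAt.comp q h3)

/-- the coordinates of `SP` -/
noncomputable def Psi_T (p : SP) : ℂ × ℂ × ℂ := (z1 p.1, z2 p.1, (p.2 : ℂ))

theorem Psi_T_smooth : ContMDiff ISP 𝓘(ℝ, ℂ × ℂ × ℂ) ∞ Psi_T := by
  have h1 : ContMDiff ISP 𝓘(ℝ, ℂ) ∞ (fun p : SP => z1 p.1) := z1_smooth.comp contMDiff_fst
  have h2 : ContMDiff ISP 𝓘(ℝ, ℂ) ∞ (fun p : SP => z2 p.1) := z2_smooth.comp contMDiff_fst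
  have h3 : ContMDiff (𝓡 1) 𝓘(ℝ, ℂ) ∞ (fun c : Circle => (c : ℂ)) := by
    have : Fact (Module.finrank ℝ ℂ = 1 + 1) := ⟨Complex.finrank_real_complex⟩
    exact contMDiff_coe_sphere
  have h4 : ContMDiff ISP 𝓘(ℝ, ℂ) ∞ (fun p : SP => (p.2 : ℂ)) := h3.comp contMDiff_snd
  exact h1.prodMk_space (h2.prodMk_space h4)

/-- the local inverse -/
noncomputable def Psi_R (β₀ γ₀ : ℝ) (w : ℂ × ℂ × ℂ) : ℂ × ℝ × ℝ :=
  (w.1 / (‖w.2.1‖ : ℂ), β₀ + (Complex.log (w.2.1 * ex (-β₀))).im / (2 * Real.pi),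
    γ₀ + (Complex.log (w.2.2 * ex (-γ₀))).im / (2 * Real.pi))

theorem Psi_R_smooth {β₀ γ₀ : ℝ} {w : ℂ × ℂ × ℂ} (h1 : w.2.1 * ex (-β₀) ∈ Complex.slitPlane)
    (h2 : w.2.2 * ex (-γ₀) ∈ Complex.slitPlane) : ContDiffAt ℝ ∞ (Psi_R β₀ γ₀) w := by
  have h0 : w.2.1 ≠ 0 := by
    intro h
    rw [h, zero_mul] at h1
    exact Complex.slitPlane_ne_zero h1 rfl
  have a1 : ContDiffAt ℝ ∞ (fun w : ℂ × ℂ × ℂ => w.2.1) w :=
    (contDiff_fst.comp contDiff_snd).contDiffAt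
  have a2 : ContDiffAt ℝ ∞ (fun w : ℂ × ℂ × ℂ => w.2.2) w :=
    (contDiff_snd.comp contDiff_snd).contDiffAt
  have b1 : ContDiffAt ℝ ∞ (fun w : ℂ × ℂ × ℂ => w.1 / (‖w.2.1‖ : ℂ)) w := by
    have e1 : ContDiffAt ℝ ∞ (fun w : ℂ × ℂ × ℂ => (‖w.2.1‖ : ℂ)) w :=
      Complex.ofRealCLM.contDiff.contDiffAt.comp w (a1.norm ℝ h0)
    have e2 : (‖w.2.1‖ : ℂ) ≠ 0 := by exact_mod_cast norm_ne_zero_iff.2 h0
    have e3 : ContDiffAt ℝ ∞ (fun w : ℂ × ℂ × ℂ => w.1 * (‖w.2.1‖ : ℂ)⁻¹) w :=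
      contDiffAt_fst.mul (e1.inv e2)
    exact e3
  have b2 : ContDiffAt ℝ ∞
      (fun w : ℂ × ℂ × ℂ => β₀ + (Complex.log (w.2.1 * ex (-β₀))).im / (2 * Real.pi)) w := by
    have e1 : ContDiffAt ℝ ∞ Complex.log (w.2.1 * ex (-β₀)) :=
      (Complex.contDiffAt_log h1).restrict_scalars ℝ
    have e2 : ContDiffAt ℝ ∞ (fun w : ℂ × ℂ × ℂ => Complex.log (w.2.1 * ex (-β₀))) w :=
      ContDiffAt.comp (g := Complex.log) (f := fun w : ℂ × ℂ × ℂ => w.2.1 * ex (-β₀)) w e1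
        (a1.mul contDiffAt_const)
    exact contDiffAt_const.add ((Complex.imCLM.contDiff.contDiffAt.comp _ e2).div_const _)
  have b3 : ContDiffAt ℝ ∞
      (fun w : ℂ × ℂ × ℂ => γ₀ + (Complex.log (w.2.2 * ex (-γ₀))).im / (2 * Real.pi)) w := by
    have e1 : ContDiffAt ℝ ∞ Complex.log (w.2.2 * ex (-γ₀)) :=
      (Complex.contDiffAt_log h2).restrict_scalars ℝ
    have e2 : ContDiffAt ℝ ∞ (fun w : ℂ × ℂ × ℂ => Complex.log (w.2.2 * ex (-γ₀))) w :=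
      ContDiffAt.comp (g := Complex.log) (f := fun w : ℂ × ℂ × ℂ => w.2.2 * ex (-γ₀)) w e1
        (a2.mul contDiffAt_const)
    exact contDiffAt_const.add ((Complex.imCLM.contDiff.contDiffAt.comp _ e2).div_const _)
  exact b1.prodMk (b2.prodMk b3)

theorem Psi_ang {r x x₀ : ℝ} (hr : 0 < r) (h : |x - x₀| < 1 / 2) :
    x₀ + (Complex.log (((r : ℂ) * ex x) * ex (-x₀))).im / (2 * Real.pi) = x := by
  obtain ⟨h1, h2⟩ := abs_lt.1 h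
  have hpi := Real.pi_pos
  rw [mul_assoc, ← Pool.Agent.RSG.ex_add, ← sub_eq_add_neg,
    Pool.Agent.RSG.ex_log hr (by linarith) h2]
  field_simp
  ring

theorem Psi_dir {w : ℂ} {x₀ : ℝ} (hw : w ≠ 0) :
    ex (x₀ + (Complex.log (w * ex (-x₀))).im / (2 * Real.pi)) = ((‖w‖⁻¹ : ℝ) : ℂ) * w := by
  have h0 : (‖w‖ : ℂ) ≠ 0 := by exact_mod_cast norm_ne_zero_iff.2 hw
  have h1 := Pool.Agent.RSG.ex_arg (p := w * ex (-x₀))
  rw [norm_mul, Pool.Agent.RSG.ex_norm, mul_one] at h1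
  rw [Pool.Agent.RSG.ex_add, Complex.log_im]
  have h2 : ex (Complex.arg (w * ex (-x₀)) / (2 * Real.pi)) = (‖w‖ : ℂ)⁻¹ * (w * ex (-x₀)) := by
    rw [← h1]
    rw [inv_mul_cancel_left₀ h0, h1]
  rw [h2]
  have h3 : ex x₀ * ex (-x₀) = 1 := by
    rw [← Pool.Agent.RSG.ex_add, add_neg_cancel, Pool.Agent.RSG.ex_zero]
  rw [Complex.ofReal_inv]
  linear_combination ((‖w‖ : ℂ)⁻¹ * w) * h3

theorem Psi_TPsi (q : ℂ × ℝ × ℝ) : ∃ r : ℝ, 0 < r ∧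
    Psi_T (Psi q) = ((r : ℂ) * q.1, (r : ℂ) * ex q.2.1, ex q.2.2) := by
  obtain ⟨a1, a2⟩ := z_pS3 (Psi_pos q.1 q.2.1)
  refine ⟨(Real.sqrt (‖q.1‖ ^ 2 + ‖ex q.2.1‖ ^ 2))⁻¹, ?_, ?_⟩
  · have := Real.sqrt_pos.2 (Psi_pos q.1 q.2.1)
    positivity
  · exact Prod.ext a1 (Prod.ext a2 (circle_exp_eq _))

theorem Psi_ld (q : ℂ × ℝ × ℝ) : IsLocalDiffeomorphAt 𝓘(ℝ, ℂ × ℝ × ℝ) ISP ∞ Psi q := by
  set β₀ := q.2.1 with hβ
  set γ₀ := q.2.2 with hγ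
  have hTc : Continuous Psi_T := Psi_T_smooth.continuous
  have hW : ∀ᶠ p in 𝓝 (Psi q), (Psi_T p).2.1 * ex (-β₀) ∈ Complex.slitPlane ∧
      (Psi_T p).2.2 * ex (-γ₀) ∈ Complex.slitPlane := by
    obtain ⟨r, hr, he⟩ := Psi_TPsi q
    have h3 : ∀ x : ℝ, ex x * ex (-x) = 1 := by
      intro x
      rw [← Pool.Agent.RSG.ex_add, add_neg_cancel, Pool.Agent.RSG.ex_zero]
    have c1 : Continuous fun p : SP => (Psi_T p).2.1 * ex (-β₀) :=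
      (continuous_fst.comp (continuous_snd.comp hTc)).mul continuous_const
    have c2 : Continuous fun p : SP => (Psi_T p).2.2 * ex (-γ₀) :=
      (continuous_snd.comp (continuous_snd.comp hTc)).mul continuous_const
    refine (c1.continuousAt.eventually_mem (Complex.isOpen_slitPlane.mem_nhds ?_)).and
      (c2.continuousAt.eventually_mem (Complex.isOpen_slitPlane.mem_nhds ?_))
    · rw [he]
      show (r : ℂ) * ex q.2.1 * ex (-β₀) ∈ Complex.slitPlane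
      rw [mul_assoc, h3, mul_one, Complex.ofReal_mem_slitPlane]
      exact hr
    · rw [he]
      show ex q.2.2 * ex (-γ₀) ∈ Complex.slitPlane
      rw [h3]
      exact Complex.one_mem_slitPlane
  refine Pool.Agent.RSG.ld_two (g := fun p => Psi_R β₀ γ₀ (Psi_T p))
    (Eventually.of_forall fun y => Psi_smooth y) ?_ ?_ ?_
  · filter_upwards [hW] with p hp
    exact (Psi_R_smooth hp.1 hp.2).contMDiffAt.comp p (Psi_T_smooth p)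
  · have c1 : ∀ᶠ y : ℂ × ℝ × ℝ in 𝓝 q, |y.2.1 - β₀| < 1 / 2 := by
      have : Continuous fun y : ℂ × ℝ × ℝ => |y.2.1 - β₀| := by fun_prop
      refine this.continuousAt.eventually_lt continuousAt_const ?_
      show |q.2.1 - β₀| < 1 / 2
      rw [← hβ, sub_self, abs_zero]
      norm_num
    have c2 : ∀ᶠ y : ℂ × ℝ × ℝ in 𝓝 q, |y.2.2 - γ₀| < 1 / 2 := by
      have : Continuous fun y : ℂ × ℝ × ℝ => |y.2.2 - γ₀| := by fun_prop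
      refine this.continuousAt.eventually_lt continuousAt_const ?_
      show |q.2.2 - γ₀| < 1 / 2
      rw [← hγ, sub_self, abs_zero]
      norm_num
    filter_upwards [c1, c2] with y h1 h2
    obtain ⟨r, hr, he⟩ := Psi_TPsi y
    rw [he]
    have hr' : (r : ℂ) ≠ 0 := by exact_mod_cast hr.ne'
    refine Prod.ext ?_ (Prod.ext ?_ ?_)
    · show (r : ℂ) * y.1 / (‖(r : ℂ) * ex y.2.1‖ : ℂ) = y.1
      rw [norm_mul, Pool.Agent.RSG.ex_norm, mul_one, Complex.norm_real,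
        Real.norm_of_nonneg hr.le, mul_div_cancel_left₀ _ hr']
    · exact Psi_ang hr h1
    · have h3 := Psi_ang (r := 1) one_pos h2
      rw [Complex.ofReal_one, one_mul] at h3
      exact h3
  · filter_upwards [hW] with p hp
    have h0 : z2 p.1 ≠ 0 := by
      intro h
      have h1 := hp.1
      have h2 : (Psi_T p).2.1 = z2 p.1 := rfl
      rw [h2, h, zero_mul] at h1
      exact Complex.slitPlane_ne_zero h1 rfl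
    have hc : ‖(p.2 : ℂ)‖ = 1 := Circle.norm_coe p.2
    have hc0 : (p.2 : ℂ) ≠ 0 := by
      intro h
      rw [h, norm_zero] at hc
      exact zero_ne_one hc
    refine Prod.ext ?_ ?_
    · show pS3 (z1 p.1 / (‖z2 p.1‖ : ℂ))
        (ex (β₀ + (Complex.log (z2 p.1 * ex (-β₀))).im / (2 * Real.pi))) = p.1
      rw [Psi_dir h0]
      have h1 : z1 p.1 / (‖z2 p.1‖ : ℂ) = ((‖z2 p.1‖⁻¹ : ℝ) : ℂ) * z1 p.1 := by
        rw [Complex.ofReal_inv, div_eq_inv_mul]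
      rw [h1, pS3_smul (inv_pos.2 (norm_pos_iff.2 h0)) (by rw [z_sq]; exact one_pos), pS3_z]
    · apply Circle.ext
      show ((Circle.exp (2 * Real.pi * (γ₀ + (Complex.log ((p.2 : ℂ) * ex (-γ₀))).im /
        (2 * Real.pi))) : Circle) : ℂ) = (p.2 : ℂ)
      rw [circle_exp_eq, Psi_dir hc0, hc, inv_one, Complex.ofReal_one, one_mul]

theorem ld_of_involution {E : Type*} [NormedAddCommGroup E] [NormedSpace ℝ E] {H : Type*} [TopologicalSpace H]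
    {J : ModelWithCorners ℝ E H} {M : Type*} [TopologicalSpace M] [ChartedSpace H M] {S : M → M}
    (hS : ContMDiff J J ∞ S) (h : ∀ x, S (S x) = x) (x : M) : IsLocalDiffeomorphAt J J ∞ S x :=
  Pool.Agent.RSG.ld_two (g := S) (Eventually.of_forall fun y => hS y)
    (Eventually.of_forall fun y => hS y) (Eventually.of_forall h) (Eventually.of_forall h)

end Pool.Agent.GLB
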