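import Pool.Agent.PTH.GDefs

/-!
# GLB/Prf: the radial profile `prf`   (difficulty 1-2)

`prf x = (1 - σ) x + σ`, `σ = Real.smoothTransition (3 x - 1)`: `σ = 0` for `x ≤ 1/3`, `σ = 1` for `x ≥ 2/3`, `0 ≤ σ ≤ 1`, `σ` is
monotone and smooth, `σ < 1` for `x < 2/3` (`Real.smoothTransition x = e x / (e x + e (1 - x))` with `e = expNegInvGlue`,
`e (1 - x) > 0` for `x < 1`).
* `prf_pos`: `x > 0`: `(1 - σ) x + σ ≥ min x 1 > 0`.
* `prf_deriv`: `prf' = (1 - σ) + σ' (1 - x)`, with `σ' ≥ 0` (`Monotone.derivWithin_nonneg`, or `Real.smoothTransition`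
  monotone), so `prf' ≥ 1 - σ > 0` for `x < 2/3` (`x ≤ 1`), and `prf' ≥ 0` for `x ≤ 1`.
* `prf_strict`: for `0 < ρ < ρ' < 1`: `prf ρ * prf (1 - ρ') < prf ρ' * prf (1 - ρ)`: `prf` is monotone on `[0, 1]` and strictly
  monotone on `[0, 2/3]`: if `ρ < 2/3` then `prf ρ < prf ρ'` and `prf (1 - ρ') ≤ prf (1 - ρ)`; if `ρ ≥ 2/3` then
  `1 - ρ' < 1 - ρ ≤ 1/3`, `prf (1 - ρ') < prf (1 - ρ)`, `prf ρ ≤ prf ρ'`.
* `prf_ratio`: from `prf_strict` by trichotomy.
* `prf_ratio_deriv`: `R ρ = prf ρ / prf (1 - ρ)`, `R' = (prf' ρ prf (1 - ρ) + prf ρ prf' (1 - ρ)) / prf (1 - ρ)²`, both terms `≥ 0`,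
  one of them `> 0` as `ρ < 2/3` or `1 - ρ < 2/3`.
-/

open scoped Manifold ContDiff Topology
open Set Filter
open Complex (I)

namespace Pool.Agent.GLB

open Pool.Agent.PTH

theorem Prf_st_nonneg (x : ℝ) : 0 ≤ Real.smoothTransition (3 * x - 1) := Real.smoothTransition.nonneg _

theorem Prf_st_le (x : ℝ) : Real.smoothTransition (3 * x - 1) ≤ 1 := Real.smoothTransition.le_one _

theorem Prf_st_mono : Monotone fun x : ℝ => Real.smoothTransition (3 * x - 1) := by
  intro x y h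
  exact Real.smoothTransition.monotone (by linarith)

theorem prf_small {x : ℝ} (h : x ≤ 1 / 3) : prf x = x := by
  unfold prf
  rw [Real.smoothTransition.zero_of_nonpos (by linarith)]
  ring

theorem prf_big {x : ℝ} (h : 2 / 3 ≤ x) : prf x = 1 := by
  unfold prf
  rw [Real.smoothTransition.one_of_one_le (by linarith)]
  ring

theorem prf_pos {x : ℝ} (h : 0 < x) : 0 < prf x := by
  rcases le_or_gt (2 / 3) x with h2 | h2
  · rw [prf_big h2]; exact one_pos
  · have h1 : Real.smoothTransition (3 * x - 1) < 1 :=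
      Real.smoothTransition.lt_one_of_lt_one (by linarith)
    have h0 := Prf_st_nonneg x
    unfold prf
    have := mul_pos (sub_pos.mpr h1) h
    linarith

theorem prf_zero : prf 0 = 0 := prf_small (by norm_num)

theorem prf_one : prf 1 = 1 := prf_big (by norm_num)

/-- `prf` vanishes only at `0` -/
theorem prf_ne {x : ℝ} (h : x ≠ 0) : prf x ≠ 0 := by
  rcases lt_or_gt_of_ne h with h1 | h1
  · rw [prf_small (by linarith)]; exact h
  · exact (prf_pos h1).ne'

theorem Prf_st_smooth : ContDiff ℝ ∞ fun x : ℝ => Real.smoothTransition (3 * x - 1) :=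
  Real.smoothTransition.contDiff.comp ((contDiff_const.mul contDiff_id).sub contDiff_const)

theorem prf_smooth : ContDiff ℝ ∞ prf := by
  unfold prf
  exact ((contDiff_const.sub Prf_st_smooth).mul contDiff_id).add Prf_st_smooth

/-- weak monotonicity on `x ≤ 1` -/
theorem Prf_mono {x y : ℝ} (h : x ≤ y) (h1 : y ≤ 1) : prf x ≤ prf y := by
  unfold prf
  have hm : Real.smoothTransition (3 * x - 1) ≤ Real.smoothTransition (3 * y - 1) := Prf_st_mono h
  have hy := Prf_st_le y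
  have hx0 := Prf_st_nonneg x
  nlinarith [mul_nonneg (sub_nonneg.mpr hm) (sub_nonneg.mpr (h.trans h1)),
    mul_nonneg (sub_nonneg.mpr hy) (sub_nonneg.mpr h)]

theorem Prf_strict {x y : ℝ} (h : x < y) (hx : x < 2 / 3) (h1 : y ≤ 1) : prf x < prf y := by
  rcases lt_or_ge y (2 / 3) with hy | hy
  · unfold prf
    have hm : Real.smoothTransition (3 * x - 1) ≤ Real.smoothTransition (3 * y - 1) := Prf_st_mono h.le
    have hy1 : Real.smoothTransition (3 * y - 1) < 1 :=
      Real.smoothTransition.lt_one_of_lt_one (by linarith)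
    nlinarith [mul_nonneg (sub_nonneg.mpr hm) (sub_nonneg.mpr (h.le.trans h1)),
      mul_pos (sub_pos.mpr hy1) (sub_pos.mpr h)]
  · rw [prf_big hy]
    have hx1 : Real.smoothTransition (3 * x - 1) < 1 :=
      Real.smoothTransition.lt_one_of_lt_one (by linarith)
    unfold prf
    nlinarith [mul_pos (sub_pos.mpr hx1) (sub_pos.mpr (h.trans_le h1))]

theorem prf_strict {ρ ρ' : ℝ} (h0 : 0 < ρ) (h : ρ < ρ') (h1 : ρ' < 1) :
    prf ρ * prf (1 - ρ') < prf ρ' * prf (1 - ρ) := by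
  have p1 := prf_pos h0
  have p2 : 0 < prf (1 - ρ') := prf_pos (by linarith)
  have p3 : 0 < prf ρ' := prf_pos (by linarith)
  have p4 : 0 < prf (1 - ρ) := prf_pos (by linarith)
  rcases lt_or_ge ρ (2 / 3) with h2 | h2
  · have a1 := Prf_strict h h2 h1.le
    have a2 : prf (1 - ρ') ≤ prf (1 - ρ) := Prf_mono (by linarith) (by linarith)
    calc prf ρ * prf (1 - ρ') < prf ρ' * prf (1 - ρ') := mul_lt_mul_of_pos_right a1 p2
      _ ≤ prf ρ' * prf (1 - ρ) := mul_le_mul_of_nonneg_left a2 p3.le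
  · have a1 : prf ρ ≤ prf ρ' := Prf_mono h.le h1.le
    have a2 : prf (1 - ρ') < prf (1 - ρ) := Prf_strict (by linarith) (by linarith) (by linarith)
    calc prf ρ * prf (1 - ρ') < prf ρ * prf (1 - ρ) := mul_lt_mul_of_pos_left a2 p1
      _ ≤ prf ρ' * prf (1 - ρ) := mul_le_mul_of_nonneg_right a1 p4.le

theorem prf_ratio {ρ ρ' : ℝ} (h0 : 0 < ρ) (h1 : ρ < 1) (h0' : 0 < ρ') (h1' : ρ' < 1)
    (h : prf ρ * prf (1 - ρ') = prf ρ' * prf (1 - ρ)) : ρ' = ρ := by
  rcases lt_trichotomy ρ ρ' with h2 | h2 | h2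
  · exact absurd h (prf_strict h0 h2 h1').ne
  · exact h2.symm
  · exact absurd h (prf_strict h0' h2 h1).ne'

theorem Prf_hasDeriv (x : ℝ) : HasDerivAt prf ((1 - Real.smoothTransition (3 * x - 1)) +
    deriv (fun x : ℝ => Real.smoothTransition (3 * x - 1)) x * (1 - x)) x := by
  have hd : DifferentiableAt ℝ (fun x : ℝ => Real.smoothTransition (3 * x - 1)) x :=
    (Prf_st_smooth.differentiable (by simp)) x
  have h := hd.hasDerivAt
  have h2 := ((h.const_sub 1).mul (hasDerivAt_id x)).add h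
  have h3 : HasDerivAt prf (-deriv (fun x : ℝ => Real.smoothTransition (3 * x - 1)) x * id x +
      (1 - Real.smoothTransition (3 * x - 1)) * 1 + deriv (fun x : ℝ => Real.smoothTransition (3 * x - 1)) x) x := h2
  convert h3 using 1
  simp only [id]
  ring

theorem Prf_deriv_nonneg {x : ℝ} (h : x ≤ 1) : 0 ≤ deriv prf x := by
  rw [(Prf_hasDeriv x).deriv]
  have h1 : 0 ≤ deriv (fun x : ℝ => Real.smoothTransition (3 * x - 1)) x := Prf_st_mono.deriv_nonneg
  have h2 := Prf_st_le x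
  have := mul_nonneg h1 (sub_nonneg.mpr h)
  linarith

theorem Prf_deriv_pos {x : ℝ} (h : x < 2 / 3) : 0 < deriv prf x := by
  rw [(Prf_hasDeriv x).deriv]
  have h1 : 0 ≤ deriv (fun x : ℝ => Real.smoothTransition (3 * x - 1)) x := Prf_st_mono.deriv_nonneg
  have h2 : Real.smoothTransition (3 * x - 1) < 1 :=
    Real.smoothTransition.lt_one_of_lt_one (by linarith)
  have := mul_nonneg h1 (show (0 : ℝ) ≤ 1 - x by linarith)
  linarith

theorem prf_ratio_deriv {ρ : ℝ} (h0 : 0 < ρ) (h1 : ρ < 1) :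
    0 < deriv (fun ρ => prf ρ / prf (1 - ρ)) ρ := by
  have p1 := prf_pos h0
  have p4 : 0 < prf (1 - ρ) := prf_pos (by linarith)
  have hd1 : HasDerivAt prf (deriv prf ρ) ρ := ((prf_smooth.differentiable (by simp)) ρ).hasDerivAt
  have hd2 : HasDerivAt prf (deriv prf (1 - ρ)) (1 - ρ) :=
    ((prf_smooth.differentiable (by simp)) (1 - ρ)).hasDerivAt
  have hd3 : HasDerivAt (fun ρ => prf (1 - ρ)) (-deriv prf (1 - ρ)) ρ := by
    have := HasDerivAt.comp_const_sub 1 ρ hd2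
    exact this
  have hd := hd1.div hd3 p4.ne'
  have e : deriv (fun ρ => prf ρ / prf (1 - ρ)) ρ = _ := hd.deriv
  rw [e]
  apply div_pos _ (by positivity)
  have d1 : 0 ≤ deriv prf ρ := Prf_deriv_nonneg h1.le
  have d2 : 0 ≤ deriv prf (1 - ρ) := Prf_deriv_nonneg (by linarith)
  rcases lt_or_ge ρ (2 / 3) with h2 | h2
  · have d3 := Prf_deriv_pos h2
    nlinarith [mul_pos d3 p4, mul_nonneg p1.le d2]
  · have d3 : 0 < deriv prf (1 - ρ) := Prf_deriv_pos (by linarith)
    nlinarith [mul_pos p1 d3, mul_nonneg d1 p4.le]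

end Pool.Agent.GLB
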