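import Pool.Agent.GLB.Defs
import Pool.Agent.GLB.Prf
import Pool.Agent.GLB.Psi

/-!
# GLB/GEa: the map `gE` and the action `gact`   (difficulty 2)

* `prf_pos_pair`: `prf ρ = 0` only for `ρ = 0`, and `prf 1 = 1`.
* `gact_pS3`: `z_pS3` and `pS3_smul`: `z1 (pS3 a b) = r a`, `z2 (pS3 a b) = r b` with `r > 0`, so
  `pS3 (e₁ r a) (e₂ r b) = pS3 (e₁ a) (e₂ b)`.
* `gact_gE`: `gact_pS3`, `ex_add`, `Circle.exp_add`.
* `gE_int`: `ex_add_int`, `circle_exp_add_int`.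
* `gE_Psi`: for `ρ < 1` (`prf (1 - ρ) > 0`): `pS3_smul` with `r = prf (1 - ρ)`.
* `gE_inj`: by `gE_Psi` and `Psi_inj`: `R(ρ) ex α = R(ρ') ex α'` with `R = prf ρ / prf (1 - ρ) > 0`: norms give `R(ρ) = R(ρ')`,
  `prf_ratio` gives `ρ = ρ'`, then `ex_eq_iff`.
* `gE_left`/`gE_right`: `ρ = 0`: `prf 0 = 0`, `prf 1 = 1`: the first coordinate disappears.
* `gE_z`: `z1` of `gE ρ x` vanishes iff `ρ = 0` (`z_pS3`, `prf_ne`), the same for `z2` and `ρ = 1`.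
* `gE_ne`: `0 < ρ < 1`, `ρ' = 0` or `1`.
-/

open scoped Manifold ContDiff Topology
open Set Filter
open Complex (I)

namespace Pool.Agent.GLB

open Pool.Agent.PTH
open Pool.Agent.RSG (E4 S3 pS3 ex)

theorem GEa_norm (r x : ℝ) : ‖((r : ℝ) : ℂ) * ex x‖ = |r| := by
  rw [norm_mul, RSG.ex_norm, mul_one, Complex.norm_real, Real.norm_eq_abs]

theorem prf_pos_pair (ρ : ℝ) (x y : ℝ) : 0 < ‖((prf ρ : ℝ) : ℂ) * ex x‖ ^ 2 + ‖((prf (1 - ρ) : ℝ) : ℂ) * ex y‖ ^ 2 := by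
  rw [GEa_norm, GEa_norm]
  by_cases h : ρ = 0
  · rw [h, sub_zero, prf_one, prf_zero]
    norm_num
  · have h1 := abs_pos.2 (prf_ne h)
    positivity

theorem gact_pS3 (v : ℤ × ℤ × ℤ) (t : ℝ) {a b : ℂ} (h : 0 < ‖a‖ ^ 2 + ‖b‖ ^ 2) (c : Circle) :
    gact v t (pS3 a b, c) = (pS3 (ex (v.1 * t) * a) (ex (v.2.1 * t) * b), Circle.exp (2 * Real.pi * (v.2.2 * t)) * c) := by
  obtain ⟨h1, h2⟩ := z_pS3 h
  unfold gact
  simp only [h1, h2]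
  have h3 : 0 < (Real.sqrt (‖a‖ ^ 2 + ‖b‖ ^ 2))⁻¹ := inv_pos.2 (Real.sqrt_pos.2 h)
  have h4 : 0 < ‖ex (v.1 * t) * a‖ ^ 2 + ‖ex (v.2.1 * t) * b‖ ^ 2 := by
    rw [norm_mul, norm_mul, RSG.ex_norm, RSG.ex_norm, one_mul, one_mul]
    exact h
  rw [← pS3_smul h3 h4]
  congr 2
  · ring
  · ring

theorem gact_gE (v : ℤ × ℤ × ℤ) (t ρ : ℝ) (x : ℝ × ℝ × ℝ) :
    gact v t (gE ρ x) = gE ρ (x.1 + t * v.1, x.2.1 + t * v.2.1, x.2.2 + t * v.2.2) := by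
  unfold gE
  rw [gact_pS3 v t (prf_pos_pair ρ x.1 x.2.1)]
  have e1 : ex (v.1 * t) * (((prf ρ : ℝ) : ℂ) * ex x.1) = ((prf ρ : ℝ) : ℂ) * ex (x.1 + t * v.1) := by
    rw [show x.1 + t * v.1 = v.1 * t + x.1 by ring, RSG.ex_add]
    ring
  have e2 : ex (v.2.1 * t) * (((prf (1 - ρ) : ℝ) : ℂ) * ex x.2.1) =
      ((prf (1 - ρ) : ℝ) : ℂ) * ex (x.2.1 + t * v.2.1) := by
    rw [show x.2.1 + t * v.2.1 = v.2.1 * t + x.2.1 by ring, RSG.ex_add]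
    ring
  have e3 : Circle.exp (2 * Real.pi * (v.2.2 * t)) * Circle.exp (2 * Real.pi * x.2.2) =
      Circle.exp (2 * Real.pi * (x.2.2 + t * v.2.2)) := by
    rw [← Circle.exp_add]
    congr 1
    ring
  rw [e1, e2, e3]

theorem gE_int (ρ : ℝ) (x : ℝ × ℝ × ℝ) (m : ℤ × ℤ × ℤ) : gE ρ (x + rv m) = gE ρ x := by
  unfold gE rv
  simp only [Prod.fst_add, Prod.snd_add, RSG.ex_add_int, circle_exp_add_int]

theorem gE_Psi {ρ : ℝ} (h : ρ < 1) (x : ℝ × ℝ × ℝ) :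
    gE ρ x = Psi (((prf ρ / prf (1 - ρ) : ℝ) : ℂ) * ex x.1, x.2.1, x.2.2) := by
  have h1 : 0 < prf (1 - ρ) := prf_pos (by linarith)
  unfold gE Psi
  have h2 : 0 < ‖((prf ρ / prf (1 - ρ) : ℝ) : ℂ) * ex x.1‖ ^ 2 + ‖ex x.2.1‖ ^ 2 := by
    rw [RSG.ex_norm]
    positivity
  simp only
  rw [← pS3_smul h1 h2]
  have e1 : ((prf (1 - ρ) : ℝ) : ℂ) * (((prf ρ / prf (1 - ρ) : ℝ) : ℂ) * ex x.1) =
      ((prf ρ : ℝ) : ℂ) * ex x.1 := by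
    rw [← mul_assoc, ← Complex.ofReal_mul]
    congr 2
    field_simp
  rw [e1]

theorem gE_inj {ρ ρ' : ℝ} {x x' : ℝ × ℝ × ℝ} (h0 : 0 < ρ) (h1 : ρ < 1) (h0' : 0 < ρ') (h1' : ρ' < 1)
    (h : gE ρ x = gE ρ' x') : ρ' = ρ ∧ ∃ m : ℤ × ℤ × ℤ, x' = x + rv m := by
  rw [gE_Psi h1, gE_Psi h1'] at h
  obtain ⟨e1, ⟨m2, e2⟩, ⟨m3, e3⟩⟩ := Psi_inj h
  simp only at e1 e2 e3
  have p1 : 0 < prf ρ := prf_pos h0
  have p2 : 0 < prf (1 - ρ) := prf_pos (by linarith)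
  have p1' : 0 < prf ρ' := prf_pos h0'
  have p2' : 0 < prf (1 - ρ') := prf_pos (by linarith)
  have e4 : prf ρ' / prf (1 - ρ') = prf ρ / prf (1 - ρ) := by
    have h5 := congrArg norm e1
    rw [GEa_norm, GEa_norm, abs_of_pos (div_pos p1' p2'), abs_of_pos (div_pos p1 p2)] at h5
    exact h5
  have e5 : ρ' = ρ := by
    apply prf_ratio h0 h1 h0' h1'
    rw [div_eq_div_iff p2'.ne' p2.ne'] at e4
    exact e4.symm
  refine ⟨e5, ?_⟩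
  rw [e4] at e1
  have h6 : (((prf ρ / prf (1 - ρ) : ℝ)) : ℂ) ≠ 0 := by
    exact_mod_cast (div_pos p1 p2).ne'
  have e6 := mul_left_cancel₀ h6 e1
  obtain ⟨m1, e7⟩ := RSG.ex_eq_iff.1 e6.symm
  refine ⟨(m1, m2, m3), ?_⟩
  unfold rv
  ext
  · exact e7
  · exact e2
  · exact e3

theorem gE_left (x : ℝ × ℝ × ℝ) : gE 0 x = (pS3 0 (ex x.2.1), Circle.exp (2 * Real.pi * x.2.2)) := by
  unfold gE
  rw [prf_zero, sub_zero, prf_one, Complex.ofReal_zero, Complex.ofReal_one, zero_mul, one_mul]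

theorem gE_right (x : ℝ × ℝ × ℝ) : gE 1 x = (pS3 (ex x.1) 0, Circle.exp (2 * Real.pi * x.2.2)) := by
  unfold gE
  rw [prf_one, sub_self, prf_zero, Complex.ofReal_zero, Complex.ofReal_one, zero_mul, one_mul]

theorem gE_z1 (ρ : ℝ) (x : ℝ × ℝ × ℝ) : z1 (gE ρ x).1 = 0 ↔ ρ = 0 := by
  have h := prf_pos_pair ρ x.1 x.2.1
  unfold gE
  simp only
  rw [(z_pS3 h).1]
  have h3 : (Real.sqrt (‖((prf ρ : ℝ) : ℂ) * ex x.1‖ ^ 2 +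
      ‖((prf (1 - ρ) : ℝ) : ℂ) * ex x.2.1‖ ^ 2))⁻¹ ≠ 0 := (inv_pos.2 (Real.sqrt_pos.2 h)).ne'
  rw [mul_eq_zero, mul_eq_zero, Complex.ofReal_eq_zero, Complex.ofReal_eq_zero]
  constructor
  · rintro (h4 | h4 | h4)
    · exact absurd h4 h3
    · by_contra h5
      exact prf_ne h5 h4
    · exact absurd h4 (RSG.ex_ne _)
  · intro h4
    right
    left
    rw [h4, prf_zero]

theorem gE_z2 (ρ : ℝ) (x : ℝ × ℝ × ℝ) : z2 (gE ρ x).1 = 0 ↔ ρ = 1 := by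
  have h := prf_pos_pair ρ x.1 x.2.1
  unfold gE
  simp only
  rw [(z_pS3 h).2]
  have h3 : (Real.sqrt (‖((prf ρ : ℝ) : ℂ) * ex x.1‖ ^ 2 +
      ‖((prf (1 - ρ) : ℝ) : ℂ) * ex x.2.1‖ ^ 2))⁻¹ ≠ 0 := (inv_pos.2 (Real.sqrt_pos.2 h)).ne'
  rw [mul_eq_zero, mul_eq_zero, Complex.ofReal_eq_zero, Complex.ofReal_eq_zero]
  constructor
  · rintro (h4 | h4 | h4)
    · exact absurd h4 h3
    · by_contra h5
      exact prf_ne (fun h6 => h5 (by linarith)) h4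
    · exact absurd h4 (RSG.ex_ne _)
  · intro h4
    right
    left
    rw [h4, sub_self, prf_zero]

theorem gE_ne {ρ ρ' : ℝ} {x x' : ℝ × ℝ × ℝ} (h0 : 0 < ρ) (h1 : ρ < 1) (h : ρ' = 0 ∨ ρ' = 1) : gE ρ x ≠ gE ρ' x' := by
  intro he
  rcases h with rfl | rfl
  · have h2 := (gE_z1 0 x').2 rfl
    rw [← he, gE_z1] at h2
    linarith
  · have h2 := (gE_z2 1 x').2 rfl
    rw [← he, gE_z2] at h2
    linarith

/-- smooth curves in `SP` -/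
theorem gE_smooth {ρ : ℝ → ℝ} {x : ℝ → ℝ × ℝ × ℝ} {l : ℝ} (hρ : ContDiffAt ℝ ∞ ρ l) (hx : ContDiffAt ℝ ∞ x l) :
    ContMDiffAt 𝓘(ℝ, ℝ) ISP ∞ (fun l => gE (ρ l) (x l)) l := by
  have hex : ∀ {f : ℝ → ℝ}, ContDiffAt ℝ ∞ f l → ContDiffAt ℝ ∞ (fun l => ex (f l)) l :=
    fun hf => RSG.ex_smooth.contDiffAt.comp l hf
  have hco : ∀ {f : ℝ → ℝ}, ContDiffAt ℝ ∞ f l → ContDiffAt ℝ ∞ (fun l => ((f l : ℝ) : ℂ)) l :=
    fun hf => Complex.ofRealCLM.contDiff.contDiffAt.comp l hf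
  have h1 : ContDiffAt ℝ ∞ (fun l => (x l).1) l := contDiffAt_fst.comp l hx
  have h2 : ContDiffAt ℝ ∞ (fun l => (x l).2.1) l := contDiffAt_fst.comp l (contDiffAt_snd.comp l hx)
  have h3 : ContDiffAt ℝ ∞ (fun l => (x l).2.2) l := contDiffAt_snd.comp l (contDiffAt_snd.comp l hx)
  have h4 : ContDiffAt ℝ ∞ (fun l => prf (ρ l)) l := prf_smooth.contDiffAt.comp l hρ
  have h5 : ContDiffAt ℝ ∞ (fun l => prf (1 - ρ l)) l :=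
    prf_smooth.contDiffAt.comp l (contDiffAt_const.sub hρ)
  have a1 : ContDiffAt ℝ ∞ (fun l => ((prf (ρ l) : ℝ) : ℂ) * ex (x l).1) l := (hco h4).mul (hex h1)
  have a2 : ContDiffAt ℝ ∞ (fun l => ((prf (1 - ρ l) : ℝ) : ℂ) * ex (x l).2.1) l :=
    (hco h5).mul (hex h2)
  have b1 : ContMDiffAt 𝓘(ℝ, ℝ) (𝓡 3) ∞ (fun l => pS3 (((prf (ρ l) : ℝ) : ℂ) * ex (x l).1)
      (((prf (1 - ρ l) : ℝ) : ℂ) * ex (x l).2.1)) l :=
    RSG.pS3_smooth a1.contMDiffAt a2.contMDiffAt (prf_pos_pair (ρ l) (x l).1 (x l).2.1)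
  have b2 : ContMDiffAt 𝓘(ℝ, ℝ) (𝓡 1) ∞ (fun l => Circle.exp (2 * Real.pi * (x l).2.2)) l :=
    (contMDiff_circleExp.contMDiffAt).comp l (contDiffAt_const.mul h3).contMDiffAt
  exact b1.prodMk b2

end Pool.Agent.GLB
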