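import Pool.Agent.GLB.GEa

/-!
# GLB/ActG: `gact v` is a free smooth action   (difficulty 2)

* `zero`: `ex 0 = 1`, `pS3_z`, `Circle.exp_zero`.
* `add`: `gact v t q = (pS3 a b, c)` with `‖a‖² + ‖b‖² = 1` (`z_sq`, `ex_norm`); `gact_pS3`, `ex_add`, `Circle.exp_add`.
* `per`: `ex (v.1 * 1) = 1` (`ex_int`), `Circle.exp (2π m) = 1`.
* `free`: `gact v t q = q`: the third coordinate gives `d t ∈ Z` (`circle_exp_inj`, cancel in the group `Circle`).  If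
  `z1 q.1 ≠ 0`: `z1` of both sides (`z_pS3`, the norm of the pair is `1`) gives `ex (a t) = 1`, `a t ∈ Z` (`ex_eq_iff`), and
  `u a + w d = 1` gives `t = u (a t) + w (d t) ∈ Z`.  Otherwise `z2 q.1 ≠ 0` (`z_sq`) and the same with `b`.
* `smooth`: `pS3_smooth` (`‖a‖² + ‖b‖² = 1 > 0`), `z1_smooth`, `z2_smooth`, `ex` smooth, `contMDiff_circleExp`, multiplication of
  `Circle` is smooth (`ContMDiff.mul`).
-/

open scoped Manifold ContDiff Topology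
open Set Filter
open Complex (I)

namespace Pool.Agent.GLB

open Pool.Agent.PTH
open Pool.Agent.RSG (E4 S3 pS3 ex)

theorem ActG_n (y : S3) (s t : ℝ) : ‖ex s * z1 y‖ ^ 2 + ‖ex t * z2 y‖ ^ 2 = 1 := by
  rw [norm_mul, norm_mul, Pool.Agent.RSG.ex_norm, Pool.Agent.RSG.ex_norm, one_mul, one_mul]
  exact z_sq y

theorem ActG_z (v : ℤ × ℤ × ℤ) (t : ℝ) (q : SP) :
    z1 (gact v t q).1 = ex (v.1 * t) * z1 q.1 ∧ z2 (gact v t q).1 = ex (v.2.1 * t) * z2 q.1 := by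
  have h := ActG_n q.1 (v.1 * t) (v.2.1 * t)
  have h1 := z_pS3 (a := ex (v.1 * t) * z1 q.1) (b := ex (v.2.1 * t) * z2 q.1) (by rw [h]; exact one_pos)
  rw [h, Real.sqrt_one, inv_one, Complex.ofReal_one, one_mul, one_mul] at h1
  exact h1

theorem ActG_ex {s : ℝ} {z : ℂ} (hz : z ≠ 0) (h : ex s * z = z) : ∃ m : ℤ, s = m := by
  have h1 : ex 0 = ex s := by
    rw [Pool.Agent.RSG.ex_zero]
    have h2 : ex s * z = 1 * z := by rw [h, one_mul]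
    exact (mul_right_cancel₀ hz h2).symm
  obtain ⟨m, hm⟩ := Pool.Agent.RSG.ex_eq_iff.1 h1
  exact ⟨m, by rw [hm, zero_add]⟩

theorem ActG_cop {t : ℝ} {a d : ℤ} (h : IsCoprime a d) (h1 : ∃ m : ℤ, (a : ℝ) * t = m)
    (h2 : ∃ m : ℤ, (d : ℝ) * t = m) : ∃ m : ℤ, t = m := by
  obtain ⟨u, w, huw⟩ := h
  obtain ⟨m, hm⟩ := h1
  obtain ⟨n, hn⟩ := h2
  refine ⟨u * m + w * n, ?_⟩
  have h3 : ((u : ℝ) * a + w * d) = 1 := by exact_mod_cast huw
  push_cast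
  rw [← hm, ← hn]
  linear_combination (-t) * h3

theorem gact_act {v : ℤ × ℤ × ℤ} (h1 : IsCoprime v.1 v.2.2) (h2 : IsCoprime v.2.1 v.2.2) : Act ISP (gact v) := by
  refine ⟨?_, ?_, ?_, ?_, ?_⟩
  · intro x
    obtain ⟨e1, e2⟩ := ActG_z v 0 x
    refine Prod.ext (S3_ext ?_ ?_) ?_
    · rw [e1, mul_zero, Pool.Agent.RSG.ex_zero, one_mul]
    · rw [e2, mul_zero, Pool.Agent.RSG.ex_zero, one_mul]
    · show Circle.exp (2 * Real.pi * (v.2.2 * 0)) * x.2 = x.2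
      rw [mul_zero, mul_zero, Circle.exp_zero, one_mul]
  · intro s t x
    obtain ⟨e1, e2⟩ := ActG_z v (s + t) x
    obtain ⟨f1, f2⟩ := ActG_z v s (gact v t x)
    obtain ⟨g1, g2⟩ := ActG_z v t x
    refine Prod.ext (S3_ext ?_ ?_) ?_
    · rw [e1, f1, g1, mul_add, Pool.Agent.RSG.ex_add, mul_assoc]
    · rw [e2, f2, g2, mul_add, Pool.Agent.RSG.ex_add, mul_assoc]
    · show Circle.exp (2 * Real.pi * (v.2.2 * (s + t))) * x.2 =
        Circle.exp (2 * Real.pi * (v.2.2 * s)) * (Circle.exp (2 * Real.pi * (v.2.2 * t)) * x.2)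
      rw [mul_add, mul_add, Circle.exp_add, mul_assoc]
  · intro x
    obtain ⟨e1, e2⟩ := ActG_z v 1 x
    refine Prod.ext (S3_ext ?_ ?_) ?_
    · rw [e1, mul_one, Pool.Agent.RSG.ex_int, one_mul]
    · rw [e2, mul_one, Pool.Agent.RSG.ex_int, one_mul]
    · show Circle.exp (2 * Real.pi * (v.2.2 * 1)) * x.2 = x.2
      have h3 := circle_exp_add_int 0 v.2.2
      rw [zero_add, mul_zero, Circle.exp_zero] at h3
      rw [mul_one, h3, one_mul]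
  · intro t x h
    obtain ⟨e1, e2⟩ := ActG_z v t x
    rw [h] at e1 e2
    have h3 : Circle.exp (2 * Real.pi * (v.2.2 * t)) * x.2 = x.2 := congrArg Prod.snd h
    have h4 : Circle.exp (2 * Real.pi * 0) = Circle.exp (2 * Real.pi * (v.2.2 * t)) := by
      rw [mul_zero, Circle.exp_zero]
      exact (mul_eq_right.1 h3).symm
    obtain ⟨k, hk⟩ := circle_exp_inj h4
    rw [zero_add] at hk
    by_cases hz : z1 x.1 = 0
    · have hz2 : z2 x.1 ≠ 0 := by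
        intro h5
        have h6 := z_sq x.1
        rw [hz, h5, norm_zero] at h6
        norm_num at h6
      exact ActG_cop h2 (ActG_ex hz2 e2.symm) ⟨k, hk⟩
    · exact ActG_cop h1 (ActG_ex hz e1.symm) ⟨k, hk⟩
  · have hm : ContDiff ℝ ∞ (fun p : ℂ × ℂ => p.1 * p.2) := by fun_prop
    have hex : ∀ c : ℤ, ContMDiff ((𝓘(ℝ, ℝ)).prod ISP) 𝓘(ℝ, ℂ) ∞ (fun q : ℝ × SP => ex (c * q.1)) := by
      intro c
      have h3 : ContDiff ℝ ∞ (fun t : ℝ => ex (c * t)) :=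
        Pool.Agent.RSG.ex_smooth.comp (contDiff_const.mul contDiff_id)
      exact h3.contMDiff.comp contMDiff_fst
    have hz1 : ContMDiff ((𝓘(ℝ, ℝ)).prod ISP) 𝓘(ℝ, ℂ) ∞ (fun q : ℝ × SP => z1 q.2.1) :=
      z1_smooth.comp (contMDiff_fst.comp contMDiff_snd)
    have hz2 : ContMDiff ((𝓘(ℝ, ℝ)).prod ISP) 𝓘(ℝ, ℂ) ∞ (fun q : ℝ × SP => z2 q.2.1) :=
      z2_smooth.comp (contMDiff_fst.comp contMDiff_snd)
    have hA : ContMDiff ((𝓘(ℝ, ℝ)).prod ISP) 𝓘(ℝ, ℂ) ∞ (fun q : ℝ × SP => ex (v.1 * q.1) * z1 q.2.1) :=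
      hm.contMDiff.comp ((hex v.1).prodMk_space hz1)
    have hB : ContMDiff ((𝓘(ℝ, ℝ)).prod ISP) 𝓘(ℝ, ℂ) ∞ (fun q : ℝ × SP => ex (v.2.1 * q.1) * z2 q.2.1) :=
      hm.contMDiff.comp ((hex v.2.1).prodMk_space hz2)
    have hC : ContMDiff ((𝓘(ℝ, ℝ)).prod ISP) (𝓡 1) ∞
        (fun q : ℝ × SP => Circle.exp (2 * Real.pi * (v.2.2 * q.1)) * q.2.2) := by
      have h3 : ContDiff ℝ ∞ (fun t : ℝ => 2 * Real.pi * (v.2.2 * t)) := by fun_prop
      have h4 : ContMDiff ((𝓘(ℝ, ℝ)).prod ISP) (𝓡 1) ∞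
          (fun q : ℝ × SP => Circle.exp (2 * Real.pi * (v.2.2 * q.1))) :=
        contMDiff_circleExp.comp (h3.contMDiff.comp contMDiff_fst)
      exact h4.mul (contMDiff_snd.comp contMDiff_snd)
    have hS : ContMDiff ((𝓘(ℝ, ℝ)).prod ISP) (𝓡 3) ∞
        (fun q : ℝ × SP => pS3 (ex (v.1 * q.1) * z1 q.2.1) (ex (v.2.1 * q.1) * z2 q.2.1)) := by
      intro q
      exact Pool.Agent.RSG.pS3_smooth (hA q) (hB q) (by rw [ActG_n]; exact one_pos)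
    exact hS.prodMk hC

end Pool.Agent.GLB
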