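import Pool.Agent.GLB.KSm
import Pool.Agent.GLB.ActG
import Pool.Agent.ISO.LiftA

/-!
# GLB/Gau: changing the path along `v`   (difficulty 1-2)

`gauge`: `w' ρ = w ρ + δ ρ v`, `δ` smooth, `δ = 0` for `ρ ≤ ε` and for `ρ ≥ 1 - ε`.  Let `τ l = δ (2 (l - round l))` if
`0 ≤ l - round l`, `0` otherwise.  `gK w' l = gact v (τ l) (gK w l)` (`gact_gE`; `gact v 0 = id`), `τ` has period `1` and is
smooth (near `l = 0, 1/2` it vanishes); `ISO.carries_gauge` (`gact_act`; `SP` is Hausdorff).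
`gcar_pl`: `w = LL (pl w) (cC w)` (`LL_pl`), `up .. (pl ∘ w) ρ = LL (pl (w ρ)) (cC (fin n₁) smoothTransition (8ρ - 6))`: `δ ρ` is the
difference of the `c`-coordinates (`LL_add_c`), it vanishes near the ends (`cC (1/2, 0, 0) = 0`, `cC (w ρ) = cC (fin n₁)`).
-/

open scoped Manifold ContDiff Topology
open Set Filter
open Complex (I)

namespace Pool.Agent.GLB

open Pool.Agent.PTH
open Pool.Agent.RSG (E4 S3 pS3 ex)

universe u

variable {v : ℤ × ℤ × ℤ} {p q : ℤ} {n₀ n₁ : ℤ × ℤ × ℤ} {w : ℝ → ℝ × ℝ × ℝ}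

theorem Gau_zero_right {δ : ℝ → ℝ} {ε : ℝ} (hε : 0 < ε) (h1 : ∀ ρ, 1 - ε ≤ ρ → δ ρ = 0) {l : ℝ}
    (h : 1 / 2 ≤ l) : δ (2 * l) = 0 := h1 _ (by linarith)

theorem Gau_smooth {δ : ℝ → ℝ} (hδ : ContDiff ℝ ∞ δ)
    {ε : ℝ} (hε : 0 < ε) (h0 : ∀ ρ ≤ ε, δ ρ = 0) (h1 : ∀ ρ, 1 - ε ≤ ρ → δ ρ = 0) :
    ContDiff ℝ ∞ fun l : ℝ => δ (2 * Int.fract l) := by
  rw [contDiff_iff_contDiffAt]
  intro l₀
  have hs : ContDiff ℝ ∞ fun l : ℝ => δ (2 * (l - ⌊l₀⌋)) :=
    hδ.comp (contDiff_const.mul (contDiff_id.sub contDiff_const))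
  rcases (Int.fract_nonneg l₀).eq_or_lt with hf | hf
  · -- an integer
    have hl : l₀ = ⌊l₀⌋ := by
      have := Int.fract_add_floor l₀
      rw [← hf, zero_add] at this
      exact this.symm
    refine (contDiffAt_const (c := (0 : ℝ))).congr_of_eventuallyEq ?_
    have hn : Ioo (l₀ - min (ε / 2) (1 / 2)) (l₀ + min (ε / 2) (1 / 2)) ∈ 𝓝 l₀ := by
      have : 0 < min (ε / 2) (1 / 2) := by positivity
      exact Ioo_mem_nhds (by linarith) (by linarith)
    filter_upwards [hn] with l hl'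
    have e1 := min_le_left (ε / 2) (1 / 2)
    have e2 := min_le_right (ε / 2) (1 / 2)
    rcases le_or_gt l₀ l with h | h
    · have hfl : ⌊l⌋ = ⌊l₀⌋ := by
        rw [Int.floor_eq_iff, ← hl]
        exact ⟨h, by linarith [hl'.2]⟩
      have hfr : Int.fract l = l - l₀ := by
        rw [← Int.self_sub_floor, hfl, ← hl]
      rw [hfr]
      exact h0 _ (by linarith [hl'.2])
    · have hfl : ⌊l⌋ = ⌊l₀⌋ - 1 := by
        rw [Int.floor_eq_iff]
        push_cast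
        rw [← hl]
        exact ⟨by linarith [hl'.1], by linarith⟩
      have hfr : Int.fract l = l - l₀ + 1 := by
        rw [← Int.self_sub_floor, hfl]
        push_cast
        rw [← hl]
        ring
      rw [hfr]
      exact h1 _ (by linarith [hl'.1])
  · refine hs.contDiffAt.congr_of_eventuallyEq ?_
    have e1 := Int.fract_add_floor l₀
    have e2 := Int.fract_lt_one l₀
    have hn : Ioo ((⌊l₀⌋ : ℤ) : ℝ) (⌊l₀⌋ + 1) ∈ 𝓝 l₀ := Ioo_mem_nhds (by linarith) (by linarith)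
    filter_upwards [hn] with l hl'
    have hfl : ⌊l⌋ = ⌊l₀⌋ := by
      rw [Int.floor_eq_iff]
      exact ⟨hl'.1.le, hl'.2⟩
    rw [← Int.self_sub_floor, hfl]

theorem gauge (hv : VGood v) (w : ℝ → ℝ × ℝ × ℝ) {δ : ℝ → ℝ} (hδ : ContDiff ℝ ∞ δ)
    {ε : ℝ} (hε : 0 < ε) (h0 : ∀ ρ ≤ ε, δ ρ = 0) (h1 : ∀ ρ, 1 - ε ≤ ρ → δ ρ = 0) :
    GEq.{u} v w (fun ρ => ((w ρ).1 + δ ρ * v.1, (w ρ).2.1 + δ ρ * v.2.1, (w ρ).2.2 + δ ρ * v.2.2)) := by
  intro n X _ _ _
  have hA := gact_act hv.cop1 hv.cop2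
  have hper : ∀ l : ℝ, (fun l : ℝ => δ (2 * Int.fract l)) (l + 1) =
      (fun l : ℝ => δ (2 * Int.fract l)) l := by
    intro l
    show δ (2 * Int.fract (l + 1)) = δ (2 * Int.fract l)
    rw [Int.fract_add_one]
  have hg := ISO.carries_gauge hA (n := n) (K := gK w) (X := X) (Gau_smooth hδ hε h0 h1) hper
  unfold GCar
  rw [hg]
  have e : (fun l => gact v ((fun l : ℝ => δ (2 * Int.fract l)) l) (gK w l)) =
      gK (fun ρ => ((w ρ).1 + δ ρ * v.1, (w ρ).2.1 + δ ρ * v.2.1, (w ρ).2.2 + δ ρ * v.2.2)) := by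
    funext l
    show gact v (δ (2 * Int.fract l)) (gK w l) = _
    have habs := abs_sub_round l
    rw [abs_le] at habs
    unfold gK
    by_cases h : 0 ≤ l - round l
    · have hfl : ⌊l⌋ = round l := by
        rw [Int.floor_eq_iff]
        exact ⟨by linarith, by linarith [habs.2]⟩
      have hfr : Int.fract l = l - round l := by
        rw [← Int.self_sub_floor, hfl]
      rw [if_pos h, if_pos h, hfr, gact_gE]
    · have h' : l - round l < 0 := not_le.1 h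
      have hfl : ⌊l⌋ = round l - 1 := by
        rw [Int.floor_eq_iff]
        push_cast
        exact ⟨by linarith [habs.1], by linarith⟩
      have hfr : Int.fract l = l - round l + 1 := by
        rw [← Int.self_sub_floor, hfl]
        push_cast
        ring
      rw [if_neg h, if_neg h, hfr, h1 _ (by linarith [habs.1]), hA.zero]
  rw [e]

theorem Gau_cC_smooth {w : ℝ → ℝ × ℝ × ℝ} (hw : ContDiff ℝ ∞ w) : ContDiff ℝ ∞ fun ρ => cC p q (w ρ) := by
  unfold cC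
  exact (contDiff_const.mul (contDiff_snd.comp (contDiff_snd.comp hw))).sub
    (contDiff_const.mul (contDiff_fst.comp (contDiff_snd.comp hw)))

theorem gcar_pl (hv : VGood v) (hb : VB v p q) (hw : GPath v 0 n₁ w) :
    GEq.{u} v w (up v p q n₁ (fun ρ => pl v p q (w ρ))) := by
  obtain ⟨ε₁, he1, s1⟩ := hw.start
  obtain ⟨ε₂, he2, s2⟩ := hw.stop
  obtain ⟨ε, hε, f1, f2, f3⟩ : ∃ ε : ℝ, 0 < ε ∧ ε ≤ ε₁ ∧ ε ≤ ε₂ ∧ ε ≤ 1 / 8 :=
    ⟨min (min ε₁ ε₂) (1 / 8), lt_min (lt_min he1 he2) (by norm_num),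
      (min_le_left _ _).trans (min_le_left _ _), (min_le_left _ _).trans (min_le_right _ _),
      min_le_right _ _⟩
  have hst : ContDiff ℝ ∞ fun ρ : ℝ => Real.smoothTransition (8 * ρ - 6) :=
    Real.smoothTransition.contDiff.comp ((contDiff_const.mul contDiff_id).sub contDiff_const)
  have hδ : ContDiff ℝ ∞ fun ρ : ℝ =>
      cC p q (fin n₁) * Real.smoothTransition (8 * ρ - 6) - cC p q (w ρ) :=
    (contDiff_const.mul hst).sub (Gau_cC_smooth hw.smooth)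
  have hg := gauge.{u} hv w hδ hε (by
    intro ρ hρ
    show cC p q (fin n₁) * Real.smoothTransition (8 * ρ - 6) - cC p q (w ρ) = 0
    rw [Real.smoothTransition.zero_of_nonpos (by linarith), s1 ρ (by linarith)]
    simp [cC]) (by
    intro ρ hρ
    show cC p q (fin n₁) * Real.smoothTransition (8 * ρ - 6) - cC p q (w ρ) = 0
    rw [Real.smoothTransition.one_of_one_le (by linarith), s2 ρ (by linarith), mul_one]
    exact sub_self _)
  have e : (fun ρ => ((w ρ).1 + (cC p q (fin n₁) * Real.smoothTransition (8 * ρ - 6) - cC p q (w ρ)) * v.1,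
      (w ρ).2.1 + (cC p q (fin n₁) * Real.smoothTransition (8 * ρ - 6) - cC p q (w ρ)) * v.2.1,
      (w ρ).2.2 + (cC p q (fin n₁) * Real.smoothTransition (8 * ρ - 6) - cC p q (w ρ)) * v.2.2)) =
      up v p q n₁ (fun ρ => pl v p q (w ρ)) := by
    funext ρ
    unfold up
    have h2 := LL_add_c (v := v) (p := p) (q := q) (pl v p q (w ρ)) (cC p q (w ρ))
      (cC p q (fin n₁) * Real.smoothTransition (8 * ρ - 6) - cC p q (w ρ))
    rw [LL_pl hb, add_sub_cancel] at h2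
    exact h2.symm
  rw [e] at hg
  exact hg

theorem geq_add (v : ℤ × ℤ × ℤ) (w : ℝ → ℝ × ℝ × ℝ) (m : ℤ × ℤ × ℤ) : GEq.{u} v (fun ρ => w ρ + rv m) w := by
  intro n X _ _ _
  unfold GCar
  rw [gK_add_int]

end Pool.Agent.GLB
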