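import Pool.Agent.GLB.Defs
import Pool.Agent.PTH.Hom

/-!
# GLB/LLm: coordinates of `R³ / R v`   (difficulty 1-2)

Everything is linear algebra with `v.2.2 * p - v.2.1 * q = 1` (cast to `R`):
* `pl_LL`, `cC_LL`: `cC (LL u c) = p (u.2 q + c d) - q (u.2 p + c b) = c (p d - q b) = c`, etc.
* `LL_pl`: `x.2.1 = Y p + c b`, `x.2.2 = Y q + c d` : with `Y = d x₂ - b x₃`, `c = p x₃ - q x₂`: `Y p + c b = x₂ (d p - b q)`.
* `obs_pl`: if `x = rv m + s v` then `pl x = (m₁ - 1/2 - a (p m₃ - q m₂), d m₂ - b m₃)` is an obstacle.  Conversely, if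
  `pl x = (k + 1/2, j)`, `x = LL (pl x) c = (1 + k + c a, j p + c b, j q + c d)`: `m = (k + 1, j p, j q)`, `s = c`.
* `spath_of_gpath`: `pl v p q` is affine, hence smooth; `pl (1/2, 0, 0) = (0, 0)`; `obs_pl`.
* `up_gpath`: start: `smoothTransition (8ρ - 6) = 0` for `ρ ≤ 3/4`: `LL (0, 0) 0 = (1/2, 0, 0)`; stop: it is `1` for
  `ρ ≥ 7/8`: `LL (pl (fin n₁)) (cC (fin n₁)) = fin n₁`; avoid: `obs_pl`, `pl_LL`.
-/

open scoped Manifold ContDiff Topology
open Set Filter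
open Complex (I)

namespace Pool.Agent.GLB

open Pool.Agent.PTH

variable {v : ℤ × ℤ × ℤ} {p q : ℤ}

theorem exists_vb (h : IsCoprime v.2.1 v.2.2) : ∃ p q : ℤ, VB v p q := by
  obtain ⟨a, b, hab⟩ := h
  exact ⟨b, -a, by unfold VB; linarith [hab, mul_comm a v.2.1, mul_comm b v.2.2, mul_comm v.2.1 a]⟩

theorem LLm_vbR (hb : VB v p q) : (v.2.2 : ℝ) * p - v.2.1 * q = 1 := by
  have h := hb
  unfold VB at h
  exact_mod_cast h

theorem cC_LL (hb : VB v p q) (u : ℝ × ℝ) (c : ℝ) : cC p q (LL v p q u c) = c := by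
  have h := LLm_vbR hb
  simp only [cC, LL]
  linear_combination c * h

theorem pl_LL (hb : VB v p q) (u : ℝ × ℝ) (c : ℝ) : pl v p q (LL v p q u c) = u := by
  have h := LLm_vbR hb
  have h1 := cC_LL hb u c
  refine Prod.ext ?_ ?_
  · show cX v p q (LL v p q u c) = u.1
    unfold cX
    rw [h1]
    simp only [LL]
    ring
  · show ht1 v (LL v p q u c) = u.2
    simp only [ht1, LL]
    linear_combination u.2 * h

theorem LL_pl (hb : VB v p q) (x : ℝ × ℝ × ℝ) : LL v p q (pl v p q x) (cC p q x) = x := by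
  have h := LLm_vbR hb
  obtain ⟨x1, x2, x3⟩ := x
  refine Prod.ext ?_ (Prod.ext ?_ ?_)
  · simp only [LL, pl, cX, cC]
    ring
  · simp only [LL, pl, cX, cC, ht1]
    linear_combination x2 * h
  · simp only [LL, pl, cX, cC, ht1]
    linear_combination x3 * h

theorem LL_add_c (u : ℝ × ℝ) (c t : ℝ) :
    LL v p q u (c + t) = ((LL v p q u c).1 + t * v.1, (LL v p q u c).2.1 + t * v.2.1, (LL v p q u c).2.2 + t * v.2.2) := by
  refine Prod.ext ?_ (Prod.ext ?_ ?_) <;> simp only [LL] <;> ring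

/-- integer translations -/
theorem LL_add_int (u : ℝ × ℝ) (c : ℝ) (i j k : ℤ) :
    LL v p q (u + ((i : ℝ), (j : ℝ))) (c + k) =
      LL v p q u c + rv (i + k * v.1, j * p + k * v.2.1, j * q + k * v.2.2) := by
  refine Prod.ext ?_ (Prod.ext ?_ ?_) <;>
    simp only [LL, rv, Prod.fst_add, Prod.snd_add] <;> push_cast <;> ring

theorem obs_pl (hb : VB v p q) (x : ℝ × ℝ × ℝ) :
    Obs (pl v p q x) ↔ ∃ (s : ℝ) (m : ℤ × ℤ × ℤ), x = ((m.1 : ℝ) + s * v.1, (m.2.1 : ℝ) + s * v.2.1, (m.2.2 : ℝ) + s * v.2.2) := by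
  have h := LLm_vbR hb
  constructor
  · rintro ⟨k, j, hkj⟩
    refine ⟨cC p q x, (k + 1, j * p, j * q), ?_⟩
    conv_lhs => rw [← LL_pl hb x, hkj]
    refine Prod.ext ?_ (Prod.ext ?_ ?_) <;> simp only [LL] <;> push_cast <;> ring
  · rintro ⟨s, m, rfl⟩
    refine ⟨m.1 - 1 - v.1 * (p * m.2.2 - q * m.2.1), v.2.2 * m.2.1 - v.2.1 * m.2.2, ?_⟩
    refine Prod.ext ?_ ?_
    · simp only [pl, cX, cC]
      push_cast
      linear_combination (-(s * (v.1 : ℝ))) * h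
    · simp only [pl, ht1]
      push_cast
      ring

theorem spath_of_gpath (hb : VB v p q) {n₁ : ℤ × ℤ × ℤ} {w : ℝ → ℝ × ℝ × ℝ} (hw : GPath v 0 n₁ w) :
    SPath (0, 0) (pl v p q (fin n₁)) (fun ρ => pl v p q (w ρ)) := by
  refine ⟨?_, ?_, ?_, ?_⟩
  · have hs := hw.smooth
    have h1 : ContDiff ℝ ∞ fun ρ => (w ρ).1 := hs.fst
    have h2 : ContDiff ℝ ∞ fun ρ => (w ρ).2.1 := hs.snd.fst
    have h3 : ContDiff ℝ ∞ fun ρ => (w ρ).2.2 := hs.snd.snd
    have hc : ContDiff ℝ ∞ fun ρ => cC p q (w ρ) :=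
      (contDiff_const.mul h3).sub (contDiff_const.mul h2)
    exact ((h1.sub contDiff_const).sub (contDiff_const.mul hc)).prodMk
      ((contDiff_const.mul h2).sub (contDiff_const.mul h3))
  · obtain ⟨ε, hε, h⟩ := hw.start
    refine ⟨ε, hε, fun ρ hρ => ?_⟩
    have := h ρ hρ
    show pl v p q (w ρ) = (0, 0)
    rw [this]
    simp [pl, cX, cC, ht1]
  · obtain ⟨ε, hε, h⟩ := hw.stop
    refine ⟨ε, hε, fun ρ hρ => ?_⟩
    show pl v p q (w ρ) = _
    rw [h ρ hρ]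
    rfl
  · intro ρ ho
    obtain ⟨s, m, hm⟩ := (obs_pl hb (w ρ)).1 ho
    exact hw.avoid ρ s m hm

theorem up_gpath (hb : VB v p q) {n₁ : ℤ × ℤ × ℤ} {u : ℝ → ℝ × ℝ} (hu : SPath (0, 0) (pl v p q (fin n₁)) u) :
    GPath v 0 n₁ (up v p q n₁ u) := by
  refine ⟨?_, ?_, ?_, ?_⟩
  · have hs := hu.smooth
    have h1 : ContDiff ℝ ∞ fun ρ => (u ρ).1 := hs.fst
    have h2 : ContDiff ℝ ∞ fun ρ => (u ρ).2 := hs.snd
    have h3 : ContDiff ℝ ∞ fun ρ : ℝ => cC p q (fin n₁) * Real.smoothTransition (8 * ρ - 6) :=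
      contDiff_const.mul (Real.smoothTransition.contDiff.comp
        ((contDiff_const.mul contDiff_id).sub contDiff_const))
    exact ((contDiff_const.add h1).add (h3.mul contDiff_const)).prodMk
      (((h2.mul contDiff_const).add (h3.mul contDiff_const)).prodMk
        ((h2.mul contDiff_const).add (h3.mul contDiff_const)))
  · obtain ⟨ε, hε, h⟩ := hu.start
    refine ⟨min ε (3 / 4), lt_min hε (by norm_num), fun ρ hρ => ?_⟩
    have h1 := h ρ (hρ.trans (min_le_left _ _))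
    have h2 : ρ ≤ 3 / 4 := hρ.trans (min_le_right _ _)
    have h3 : Real.smoothTransition (8 * ρ - 6) = 0 := Real.smoothTransition.zero_of_nonpos (by linarith)
    simp only [up, h1, h3, LL]
    simp
  · obtain ⟨ε, hε, h⟩ := hu.stop
    refine ⟨min ε (1 / 8), lt_min hε (by norm_num), fun ρ hρ => ?_⟩
    have h1 := h ρ (by have := min_le_left ε (1 / 8); linarith)
    have h2 : 1 - 1 / 8 ≤ ρ := by have := min_le_right ε (1 / 8); linarith
    have h3 : Real.smoothTransition (8 * ρ - 6) = 1 := Real.smoothTransition.one_of_one_le (by linarith)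
    have h4 := LL_pl hb (fin n₁)
    simp only [up, h1, h3, mul_one]
    rw [h4]
    rfl
  · intro ρ s m hm
    refine hu.avoid ρ ?_
    have h1 : Obs (pl v p q (up v p q n₁ u ρ)) := (obs_pl hb _).2 ⟨s, m, hm⟩
    rw [up, pl_LL hb] at h1
    exact h1

theorem pl_up (hb : VB v p q) (n₁ : ℤ × ℤ × ℤ) (u : ℝ → ℝ × ℝ) (ρ : ℝ) : pl v p q (up v p q n₁ u ρ) = u ρ :=
  pl_LL hb _ _

/-- translation of a global path -/
theorem GPath.add {n₀ n₁ : ℤ × ℤ × ℤ} {w : ℝ → ℝ × ℝ × ℝ} (hw : GPath v n₀ n₁ w) (m : ℤ × ℤ × ℤ) :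
    GPath v (n₀ + m) (n₁ + m) (fun ρ => w ρ + rv m) := by
  refine ⟨hw.smooth.add contDiff_const, ?_, ?_, ?_⟩
  · obtain ⟨ε, hε, h⟩ := hw.start
    refine ⟨ε, hε, fun ρ hρ => ?_⟩
    rw [h ρ hρ]
    refine Prod.ext ?_ (Prod.ext ?_ ?_) <;>
      simp only [rv, Prod.fst_add, Prod.snd_add] <;> push_cast <;> ring
  · obtain ⟨ε, hε, h⟩ := hw.stop
    refine ⟨ε, hε, fun ρ hρ => ?_⟩
    rw [h ρ hρ]
    refine Prod.ext ?_ (Prod.ext ?_ ?_) <;>
      simp only [rv, Prod.fst_add, Prod.snd_add] <;> push_cast <;> ring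
  · intro ρ s k hk
    refine hw.avoid ρ s (k - m) ?_
    have h1 : w ρ = ((k.1 : ℝ) + s * v.1, (k.2.1 : ℝ) + s * v.2.1, (k.2.2 : ℝ) + s * v.2.2) - rv m :=
      eq_sub_of_add_eq hk
    rw [h1]
    refine Prod.ext ?_ (Prod.ext ?_ ?_) <;>
      simp only [rv, Prod.fst_sub, Prod.snd_sub] <;> push_cast <;> ring

end Pool.Agent.GLB
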