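import Pool.Agent.GLB.GEa
import Pool.Agent.GLB.LLm

/-!
# GLB/KSm: the knot `gK w`   (difficulty 2)

`x = l - round l ∈ [-1/2, 1/2)`.
* `gK_per`: `round (l + 1) = round l + 1`.
* `gK_pos`: `0 ≤ l < 1/2`: `round l = 0`.  `gK_neg`: `-1/2 ≤ l < 0`: `round l = 0` (`round (-1/2) = 0`: `round x = ⌊x + 1/2⌋`).
* `gK_half`: `1/2 ≤ l < 1`: `round l = 1`, `gK w l = gE (2 - 2 l) (0, 0, 0)`.
* `gK_smooth`: by periodicity it is enough to look at `l ∈ [-1/4, 3/4)` (write `l = l₀ + k`; `ContMDiffAt` of a periodic function).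
  - near `l ∈ (0, 1/2)`: `gE (2 l) (w (2 l))`, `gE_smooth`;
  - near `l ∈ (1/2, 1)`: `gE (2 - 2 l) 0`;
  - near `l ∈ (-1/2, 0)`: `gE (-2 l) 0`;
  - near `0` (`|l| < min ε (1/3) / 2`): both formulas are `gE (-2 l) (n₀)`, more precisely
    `(pS3 (-2 l) 1, 1)`: for `l < 0`: `prf (-2l) = -2l`, `prf (1 + 2 l) = 1`; for `l ≥ 0`: `prf (2 l) ex (1/2 + n) = -2 l`,
    `prf (1 - 2 l) ex (n') = 1`, `Circle.exp (2π n'') = 1`.  So `gK w l = (pS3 (-2 l) 1, 1)`, smooth (`pS3_smooth`).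
  - near `1/2` (`|l - 1/2| < min ε (1/3) / 2`): for `l < 1/2`: `prf (2 l) = 1`, `prf (1 - 2 l) ex (1/2 + n) = 2 l - 1`; for `l ≥ 1/2`:
    `gE (2 - 2 l) 0 = (pS3 1 (prf (2 l - 1)), 1) = (pS3 1 (2 l - 1), 1)`.
-/

open scoped Manifold ContDiff Topology
open Set Filter
open Complex (I)

namespace Pool.Agent.GLB

open Pool.Agent.PTH
open Pool.Agent.RSG (E4 S3 pS3 ex)

theorem gK_per (w : ℝ → ℝ × ℝ × ℝ) (l : ℝ) : gK w (l + 1) = gK w l := by
  have e : l + 1 - ((round (l + 1) : ℤ) : ℝ) = l - round l := by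
    rw [round_add_one]
    push_cast
    ring
  simp only [gK, e]

theorem gK_pos (w : ℝ → ℝ × ℝ × ℝ) {l : ℝ} (h0 : 0 ≤ l) (h1 : l < 1 / 2) : gK w l = gE (2 * l) (w (2 * l)) := by
  have e : round l = 0 := round_eq_zero_iff.2 ⟨by linarith, h1⟩
  have e2 : l - ((round l : ℤ) : ℝ) = l := by rw [e]; simp
  simp only [gK, e2]
  rw [if_pos h0]

theorem gK_neg (w : ℝ → ℝ × ℝ × ℝ) {l : ℝ} (h0 : -(1 / 2) ≤ l) (h1 : l < 0) : gK w l = gE (-2 * l) (0, 0, 0) := by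
  have e : round l = 0 := round_eq_zero_iff.2 ⟨h0, by linarith⟩
  have e2 : l - ((round l : ℤ) : ℝ) = l := by rw [e]; simp
  simp only [gK, e2]
  rw [if_neg (not_le.2 h1)]

theorem gK_half (w : ℝ → ℝ × ℝ × ℝ) {l : ℝ} (h0 : 1 / 2 ≤ l) (h1 : l < 1) : gK w l = gE (2 - 2 * l) (0, 0, 0) := by
  have h2 := gK_per w (l - 1)
  rw [sub_add_cancel] at h2
  rw [h2, gK_neg w (by linarith) (by linarith)]
  congr 1
  ring

variable {v : ℤ × ℤ × ℤ} {n₀ n₁ : ℤ × ℤ × ℤ} {w : ℝ → ℝ × ℝ × ℝ}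

theorem KSm_per (w : ℝ → ℝ × ℝ × ℝ) (l : ℝ) (m : ℤ) : gK w (l - m) = gK w l := by
  have hp : Function.Periodic (gK w) 1 := gK_per w
  have := hp.sub_int_mul_eq m (x := l)
  rw [mul_one] at this
  exact this

theorem KSm_near0 (hw : GPath v n₀ n₁ w) : ∃ δ : ℝ, 0 < δ ∧ ∀ l : ℝ, |l| < δ →
    gK w l = (pS3 ((-2 * l : ℝ) : ℂ) 1, 1) := by
  obtain ⟨ε, hε, h⟩ := hw.start
  refine ⟨min ε (1 / 3) / 2, by positivity, fun l hl => ?_⟩
  have a1 := min_le_left ε (1 / 3)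
  have a2 := min_le_right ε (1 / 3)
  rw [abs_lt] at hl
  rcases lt_or_ge l 0 with h0 | h0
  · rw [gK_neg w (by linarith) h0, gE, prf_small (by linarith), prf_big (by linarith)]
    simp [RSG.ex_zero]
  · rw [gK_pos w h0 (by linarith), gE, h (2 * l) (by linarith), prf_small (by linarith), prf_big (by linarith)]
    have e1 : ex (1 / 2 + (n₀.1 : ℝ)) = -1 := by rw [RSG.ex_add_int, RSG.ex_half]
    have e2 : ex ((n₀.2.1 : ℝ)) = 1 := RSG.ex_int _
    have e3 : Circle.exp (2 * Real.pi * (n₀.2.2 : ℝ)) = 1 := by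
      have := circle_exp_add_int 0 n₀.2.2
      rw [zero_add, mul_zero, Circle.exp_zero] at this
      exact this
    simp only [e1, e2, e3]
    push_cast
    simp

theorem KSm_near1 (hw : GPath v n₀ n₁ w) : ∃ δ : ℝ, 0 < δ ∧ ∀ l : ℝ, |l - 1 / 2| < δ →
    gK w l = (pS3 1 ((2 * l - 1 : ℝ) : ℂ), 1) := by
  obtain ⟨ε, hε, h⟩ := hw.stop
  refine ⟨min ε (1 / 3) / 2, by positivity, fun l hl => ?_⟩
  have a1 := min_le_left ε (1 / 3)
  have a2 := min_le_right ε (1 / 3)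
  rw [abs_lt] at hl
  rcases lt_or_ge l (1 / 2) with h0 | h0
  · rw [gK_pos w (by linarith) h0, gE, h (2 * l) (by linarith), prf_big (by linarith), prf_small (by linarith)]
    have e1 : ex (1 / 2 + (n₁.2.1 : ℝ)) = -1 := by rw [RSG.ex_add_int, RSG.ex_half]
    have e2 : ex ((n₁.1 : ℝ)) = 1 := RSG.ex_int _
    have e3 : Circle.exp (2 * Real.pi * (n₁.2.2 : ℝ)) = 1 := by
      have := circle_exp_add_int 0 n₁.2.2
      rw [zero_add, mul_zero, Circle.exp_zero] at this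
      exact this
    simp only [e1, e2, e3]
    push_cast
    simp
  · rw [gK_half w h0 (by linarith), gE, prf_big (by linarith), prf_small (by linarith)]
    have e4 : (1 - (2 - 2 * l) : ℝ) = 2 * l - 1 := by ring
    rw [e4]
    simp [RSG.ex_zero]

theorem KSm_s0 (l : ℝ) : ContMDiffAt 𝓘(ℝ, ℝ) ISP ∞ (fun l : ℝ => ((pS3 ((-2 * l : ℝ) : ℂ) 1, 1) : SP)) l := by
  have h1 : ContDiff ℝ ∞ fun l : ℝ => ((-2 * l : ℝ) : ℂ) := Complex.ofRealCLM.contDiff.comp (contDiff_const.mul contDiff_id)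
  refine ContMDiffAt.prodMk (RSG.pS3_smooth h1.contMDiff.contMDiffAt contMDiffAt_const ?_) contMDiffAt_const
  rw [norm_one]
  positivity

theorem KSm_s1 (l : ℝ) : ContMDiffAt 𝓘(ℝ, ℝ) ISP ∞ (fun l : ℝ => ((pS3 1 ((2 * l - 1 : ℝ) : ℂ), 1) : SP)) l := by
  have h1 : ContDiff ℝ ∞ fun l : ℝ => ((2 * l - 1 : ℝ) : ℂ) :=
    Complex.ofRealCLM.contDiff.comp ((contDiff_const.mul contDiff_id).sub contDiff_const)
  refine ContMDiffAt.prodMk (RSG.pS3_smooth contMDiffAt_const h1.contMDiff.contMDiffAt ?_) contMDiffAt_const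
  rw [norm_one]
  positivity

theorem KSm_at (hw : GPath v n₀ n₁ w) {l : ℝ} (h0 : -(1 / 2) ≤ l) (h1 : l < 1 / 2) :
    ContMDiffAt 𝓘(ℝ, ℝ) ISP ∞ (gK w) l := by
  rcases lt_trichotomy l 0 with h | h | h
  · rcases eq_or_lt_of_le h0 with h2 | h2
    · -- near `-1/2`
      obtain ⟨δ, hδ, hn⟩ := KSm_near1 hw
      have e : gK w =ᶠ[𝓝 l] fun l : ℝ => ((pS3 1 ((2 * (l + 1) - 1 : ℝ) : ℂ), 1) : SP) := by
        filter_upwards [Metric.ball_mem_nhds l hδ] with x hx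
        rw [← gK_per w x]
        refine hn (x + 1) ?_
        rw [Metric.mem_ball, Real.dist_eq] at hx
        have : x + 1 - 1 / 2 = x - l := by rw [← h2]; ring
        rw [this]
        exact hx
      refine ContMDiffAt.congr_of_eventuallyEq ?_ e
      have h3 : ContMDiffAt 𝓘(ℝ, ℝ) 𝓘(ℝ, ℝ) ∞ (fun l : ℝ => l + 1) l :=
        (contDiff_id.add contDiff_const).contMDiff.contMDiffAt
      exact ContMDiffAt.comp l (KSm_s1 (l + 1)) h3
    · have e : gK w =ᶠ[𝓝 l] fun l : ℝ => gE (-2 * l) (0, 0, 0) := by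
        filter_upwards [Ioo_mem_nhds h2 h] with x hx
        exact gK_neg w hx.1.le hx.2
      refine ContMDiffAt.congr_of_eventuallyEq ?_ e
      exact gE_smooth (ρ := fun l => -2 * l) (x := fun _ => (0, 0, 0))
        (contDiff_const.mul contDiff_id).contDiffAt contDiffAt_const
  · obtain ⟨δ, hδ, hn⟩ := KSm_near0 hw
    have e : gK w =ᶠ[𝓝 l] fun l : ℝ => ((pS3 ((-2 * l : ℝ) : ℂ) 1, 1) : SP) := by
      filter_upwards [Metric.ball_mem_nhds l hδ] with x hx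
      refine hn x ?_
      rw [Metric.mem_ball, Real.dist_eq, h, sub_zero] at hx
      exact hx
    exact (KSm_s0 l).congr_of_eventuallyEq e
  · have e : gK w =ᶠ[𝓝 l] fun l : ℝ => gE (2 * l) (w (2 * l)) := by
      filter_upwards [Ioo_mem_nhds h h1] with x hx
      exact gK_pos w hx.1.le hx.2
    refine ContMDiffAt.congr_of_eventuallyEq ?_ e
    exact gE_smooth (ρ := fun l => 2 * l) (x := fun l => w (2 * l))
      (contDiff_const.mul contDiff_id).contDiffAt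
      (hw.smooth.comp (contDiff_const.mul contDiff_id)).contDiffAt

theorem gK_smooth (hw : GPath v n₀ n₁ w) : ContMDiff 𝓘(ℝ, ℝ) ISP ∞ (gK w) := by
  intro l
  have e : gK w = gK w ∘ fun x : ℝ => x - ((round l : ℤ) : ℝ) := by
    funext x
    exact (KSm_per w x (round l)).symm
  rw [e]
  have h1 : -(1 / 2) ≤ l - ((round l : ℤ) : ℝ) ∧ l - ((round l : ℤ) : ℝ) < 1 / 2 := by
    have h2 := round_eq l
    have h3 := Int.floor_le (l + 1 / 2)
    have h4 := Int.lt_floor_add_one (l + 1 / 2)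
    rw [← h2] at h3 h4
    constructor <;> linarith
  have h3 : ContMDiffAt 𝓘(ℝ, ℝ) 𝓘(ℝ, ℝ) ∞ (fun x : ℝ => x - ((round l : ℤ) : ℝ)) l :=
    (contDiff_id.sub contDiff_const).contMDiff.contMDiffAt
  exact ContMDiffAt.comp l (KSm_at hw h1.1 h1.2) h3

/-- lattice translations do not change the knot (`gE_int`) -/
theorem gK_add_int (w : ℝ → ℝ × ℝ × ℝ) (m : ℤ × ℤ × ℤ) : gK (fun ρ => w ρ + rv m) = gK w := by
  funext l
  simp only [gK]
  split_ifs
  · exact gE_int _ _ _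
  · rfl

end Pool.Agent.GLB
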