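import Pool.Agent.GLB.TwR
import Pool.Agent.GLB.KSm
import Pool.Agent.GLB.Gau

/-!
# GLB/Swp: exchange of the two solid tori   (difficulty 2)

`v = (a, b, d) ↦ swv v = (b, a, d)`; the path is reversed and translated so that it starts at the first foot again:
`sw n₁ w ρ = swap (w (1 - ρ)) - swap n₁`.
* `Ssw (y, c) = (pS3 (z2 y) (z1 y), c)`: smooth involution (`z_pS3` with norm `1`, `pS3_z`), `Ssw (gact v t p) = gact (swv v) t (Ssw p)`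
  (`gact` of a point, `z_pS3`), `Ssw (gE ρ x) = gE (1 - ρ) (x.2.1, x.1, x.2.2)` (`z_pS3`, `pS3_smul`).
* `gK_sw`: `gK (sw n₁ w) l = Ssw (gK w (1/2 - l))`: by periodicity `-1/2 ≤ l < 1/2`.  `0 < l < 1/2`: `gK_pos` for both (`1/2 - l ∈ (0, 1/2)`):
  `Ssw (gE (1 - 2l) (w (1 - 2l))) = gE (2l) (swap (w (1 - 2l)))`, and `gE_int`.  `-1/2 < l < 0`: `1/2 - l ∈ (1/2, 1)`, `gK_half`:
  `Ssw (gE (1 + 2l) 0) = gE (-2l) 0`.  `l = 0`: `gK w (1/2) = gE 1 0`, `Ssw` of it is `gE 0 0`, and `gK (sw ..) 0 = gE 0 (swap (w 1) - swap n₁) =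
  gE 0 (1/2, 0, 0) = gE 0 0` (`gE_left`).  `l = -1/2`: `gK w 1 = gK w 0 = gE 0 (w 0) = gE 0 0` (`gE_left`, `w 0 = (1/2, 0, 0)`), `Ssw` gives
  `gE 1 0 = gK (sw ..) (-1/2)` (`gK_neg`).
* `gcar_sw`: `Carries.rev` and `Carries.conj`.
* `sw_gpath`: start: `w (1 - ρ) = fin n₁`: `(1/2, 0, 0)`; stop: `w = (1/2, 0, 0)`: `(-n₁.2.1, 1/2 - n₁.1, -n₁.2.2) = fin (swn n₁)`; avoid: if
  `sw n₁ w ρ = m + s swv v` then `w (1 - ρ) = swap m + n₁ + s v`.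
* `sw_sw`: direct.  `ht1_sw`, `ht2_sw`: direct.
-/

open scoped Manifold ContDiff Topology
open Set Filter
open Complex (I)

namespace Pool.Agent.GLB

open Pool.Agent.PTH
open Pool.Agent.RSG (E4 S3 S4 pS3 pS4 ex)

universe u

def swv (v : ℤ × ℤ × ℤ) : ℤ × ℤ × ℤ := (v.2.1, v.1, v.2.2)

def swn (n₁ : ℤ × ℤ × ℤ) : ℤ × ℤ × ℤ := (-n₁.2.1, -n₁.1, -n₁.2.2)

def sw (n₁ : ℤ × ℤ × ℤ) (w : ℝ → ℝ × ℝ × ℝ) (ρ : ℝ) : ℝ × ℝ × ℝ :=
  ((w (1 - ρ)).2.1 - n₁.2.1, (w (1 - ρ)).1 - n₁.1, (w (1 - ρ)).2.2 - n₁.2.2)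

noncomputable def Ssw (p : SP) : SP := (pS3 (z2 p.1) (z1 p.1), p.2)

variable {v : ℤ × ℤ × ℤ} {n₁ : ℤ × ℤ × ℤ} {w w' : ℝ → ℝ × ℝ × ℝ}

theorem swv_swv (v : ℤ × ℤ × ℤ) : swv (swv v) = v := rfl

theorem swn_swn (n₁ : ℤ × ℤ × ℤ) : swn (swn n₁) = n₁ := by simp [swn]

theorem swv_good (hv : VGood v) : VGood (swv v) := ⟨hv.cop2, hv.cop1, hv.odd⟩

theorem sw_sw (n₁ : ℤ × ℤ × ℤ) (w : ℝ → ℝ × ℝ × ℝ) : sw (swn n₁) (sw n₁ w) = w := by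
  funext ρ
  have e : 1 - (1 - ρ) = ρ := by ring
  simp only [sw, swn, e]
  refine Prod.ext ?_ (Prod.ext ?_ ?_) <;> · push_cast; ring

theorem Swp_start (hw : GPath v 0 n₁ w) : ∃ ε : ℝ, 0 < ε ∧ ∀ ρ ≤ ε, w ρ = (1 / 2, 0, 0) := by
  obtain ⟨ε, hε, h⟩ := hw.start
  refine ⟨ε, hε, fun ρ hρ => ?_⟩
  rw [h ρ hρ]
  simp

theorem sw_gpath (hw : GPath v 0 n₁ w) : GPath (swv v) 0 (swn n₁) (sw n₁ w) := by
  have hs : ContDiff ℝ ∞ fun ρ : ℝ => w (1 - ρ) := hw.smooth.comp (contDiff_const.sub contDiff_id)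
  refine ⟨?_, ?_, ?_, ?_⟩
  · have h1 : ContDiff ℝ ∞ fun ρ : ℝ => (w (1 - ρ)).1 := contDiff_fst.comp hs
    have h2 : ContDiff ℝ ∞ fun ρ : ℝ => (w (1 - ρ)).2.1 := contDiff_fst.comp (contDiff_snd.comp hs)
    have h3 : ContDiff ℝ ∞ fun ρ : ℝ => (w (1 - ρ)).2.2 := contDiff_snd.comp (contDiff_snd.comp hs)
    exact (h2.sub contDiff_const).prodMk ((h1.sub contDiff_const).prodMk (h3.sub contDiff_const))
  · obtain ⟨ε, hε, h⟩ := hw.stop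
    refine ⟨ε, hε, fun ρ hρ => ?_⟩
    simp only [sw]
    rw [h (1 - ρ) (by linarith)]
    refine Prod.ext ?_ (Prod.ext ?_ ?_) <;> simp
  · obtain ⟨ε, hε, h⟩ := Swp_start hw
    refine ⟨ε, hε, fun ρ hρ => ?_⟩
    simp only [sw]
    rw [h (1 - ρ) (by linarith)]
    refine Prod.ext ?_ (Prod.ext ?_ ?_)
    · simp [swn]
    · simp [swn]; ring
    · simp [swn]
  · intro ρ s m he
    have e1 := congrArg Prod.fst he
    have e2 := congrArg (fun x => x.2.1) he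
    have e3 := congrArg (fun x => x.2.2) he
    simp only [sw, swv] at e1 e2 e3
    refine hw.avoid (1 - ρ) s (m.2.1 + n₁.1, m.1 + n₁.2.1, m.2.2 + n₁.2.2) ?_
    refine Prod.ext ?_ (Prod.ext ?_ ?_)
    · push_cast; linarith
    · push_cast; linarith
    · push_cast; linarith

theorem ht1_sw (v n₁ : ℤ × ℤ × ℤ) (w : ℝ → ℝ × ℝ × ℝ) (ρ : ℝ) :
    ht1 (swv v) (sw n₁ w ρ) = ht2 v (w (1 - ρ)) - hz2 v n₁ := by
  simp only [ht1, ht2, hz2, sw, swv]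
  push_cast
  ring

theorem ht2_sw (v n₁ : ℤ × ℤ × ℤ) (w : ℝ → ℝ × ℝ × ℝ) (ρ : ℝ) :
    ht2 (swv v) (sw n₁ w ρ) = ht1 v (w (1 - ρ)) - hz1 v n₁ := by
  simp only [ht1, ht2, hz1, sw, swv]
  push_cast
  ring

theorem hz1_swn (v n₁ : ℤ × ℤ × ℤ) : hz1 (swv v) (swn n₁) = -hz2 v n₁ := by simp [hz1, hz2, swv, swn]; ring

theorem hz2_swn (v n₁ : ℤ × ℤ × ℤ) : hz2 (swv v) (swn n₁) = -hz1 v n₁ := by simp [hz1, hz2, swv, swn]; ring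

theorem Swp_z {a b : ℂ} (h : ‖a‖ ^ 2 + ‖b‖ ^ 2 = 1) : z1 (pS3 a b) = a ∧ z2 (pS3 a b) = b := by
  have h1 := z_pS3 (a := a) (b := b) (by rw [h]; exact one_pos)
  rw [h] at h1
  simpa using h1

theorem Ssw_Ssw (p : SP) : Ssw (Ssw p) = p := by
  have h : ‖z2 p.1‖ ^ 2 + ‖z1 p.1‖ ^ 2 = 1 := by rw [add_comm]; exact z_sq p.1
  have h1 := Swp_z h
  refine Prod.ext ?_ rfl
  change pS3 (z2 (pS3 (z2 p.1) (z1 p.1))) (z1 (pS3 (z2 p.1) (z1 p.1))) = p.1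
  rw [h1.1, h1.2]
  exact pS3_z p.1

theorem Swp_smooth : ContMDiff ISP ISP ∞ Ssw := by
  intro p
  have h1 : ContMDiffAt ISP 𝓘(ℝ, ℂ) ∞ (fun p : SP => z1 p.1) p := (z1_smooth.comp contMDiff_fst) p
  have h2 : ContMDiffAt ISP 𝓘(ℝ, ℂ) ∞ (fun p : SP => z2 p.1) p := (z2_smooth.comp contMDiff_fst) p
  have h3 : 0 < ‖z2 p.1‖ ^ 2 + ‖z1 p.1‖ ^ 2 := by
    have := z_sq p.1
    linarith
  exact (Pool.Agent.RSG.pS3_smooth h2 h1 h3).prodMk contMDiffAt_snd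

theorem Ssw_ld (p : SP) : IsLocalDiffeomorphAt ISP ISP ∞ Ssw p :=
  ld_of_involution Swp_smooth Ssw_Ssw p

theorem Ssw_act (v : ℤ × ℤ × ℤ) (t : ℝ) (p : SP) : Ssw (gact v t p) = gact (swv v) t (Ssw p) := by
  have h : ‖z2 p.1‖ ^ 2 + ‖z1 p.1‖ ^ 2 = 1 := by rw [add_comm]; exact z_sq p.1
  have h1 := Swp_z h
  have h2 : ‖ex (v.1 * t) * z1 p.1‖ ^ 2 + ‖ex (v.2.1 * t) * z2 p.1‖ ^ 2 = 1 := by
    rw [norm_mul, norm_mul, Pool.Agent.RSG.ex_norm, Pool.Agent.RSG.ex_norm, one_mul, one_mul]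
    exact z_sq p.1
  have h3 := Swp_z h2
  refine Prod.ext ?_ rfl
  change pS3 (z2 (pS3 (ex (v.1 * t) * z1 p.1) (ex (v.2.1 * t) * z2 p.1)))
      (z1 (pS3 (ex (v.1 * t) * z1 p.1) (ex (v.2.1 * t) * z2 p.1))) =
    pS3 (ex (v.2.1 * t) * z1 (pS3 (z2 p.1) (z1 p.1))) (ex (v.1 * t) * z2 (pS3 (z2 p.1) (z1 p.1)))
  rw [h1.1, h1.2, h3.1, h3.2]

theorem Swp_gE (ρ : ℝ) (x : ℝ × ℝ × ℝ) : Ssw (gE ρ x) = gE (1 - ρ) (x.2.1, x.1, x.2.2) := by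
  have h := prf_pos_pair ρ x.1 x.2.1
  have h1 := z_pS3 h
  have h2 : 0 < ‖((prf (1 - ρ) : ℝ) : ℂ) * ex x.2.1‖ ^ 2 + ‖((prf ρ : ℝ) : ℂ) * ex x.1‖ ^ 2 := by
    rw [add_comm]; exact h
  refine Prod.ext ?_ rfl
  change pS3 (z2 (pS3 (prf ρ * ex x.1) (prf (1 - ρ) * ex x.2.1)))
      (z1 (pS3 (prf ρ * ex x.1) (prf (1 - ρ) * ex x.2.1))) =
    pS3 (prf (1 - ρ) * ex x.2.1) (prf (1 - (1 - ρ)) * ex x.1)
  rw [h1.1, h1.2, sub_sub_cancel]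
  exact pS3_smul (inv_pos.mpr (Real.sqrt_pos.mpr h)) h2

theorem Swp_per (w : ℝ → ℝ × ℝ × ℝ) (l : ℝ) (n : ℤ) : gK w (l + n) = gK w l := by
  have h : Function.Periodic (gK w) 1 := fun l => gK_per w l
  have := h.int_mul n l
  simpa using this

theorem Swp_gK (hw : GPath v 0 n₁ w) {l : ℝ} (h1 : -(1 / 2) ≤ l) (h2 : l < 1 / 2) :
    gK (sw n₁ w) l = Ssw (gK w (1 / 2 - l)) := by
  obtain ⟨ε, hε, hst⟩ := Swp_start hw
  obtain ⟨ε', hε', hsp⟩ := hw.stop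
  rcases lt_trichotomy l 0 with h | h | h
  · rcases eq_or_lt_of_le h1 with h3 | h3
    · subst h3
      have e : (1 / 2 - -(1 / 2) : ℝ) = 0 + 1 := by norm_num
      rw [gK_neg _ le_rfl h, e, gK_per, gK_pos w le_rfl (by norm_num), mul_zero, hst 0 hε.le, Swp_gE]
      have e1 : (-2 * -(1 / 2) : ℝ) = 1 := by norm_num
      have e2 : (1 - 0 : ℝ) = 1 := by norm_num
      rw [e1, e2, gE_right, gE_right]
    · rw [gK_neg _ h1 h, gK_half w (by linarith) (by linarith), Swp_gE]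
      have e : 1 - (2 - 2 * (1 / 2 - l)) = -2 * l := by ring
      rw [e]
  · subst h
    rw [gK_pos _ le_rfl (by norm_num), gK_half w (by norm_num) (by norm_num), Swp_gE]
    have e : 1 - (2 - 2 * (1 / 2 - (0 : ℝ))) = 0 := by norm_num
    rw [e, mul_zero, gE_left, gE_left]
    have h3 : w (1 - 0) = _ := hsp (1 - 0) (by linarith)
    simp only [sw]
    rw [h3]
    simp
  · rw [gK_pos _ h.le h2, gK_pos w (by linarith) (by linarith), Swp_gE]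
    have e1 : 1 - 2 * (1 / 2 - l) = 2 * l := by ring
    have e2 : 2 * (1 / 2 - l) = 1 - 2 * l := by ring
    rw [e1, e2, ← gE_int (2 * l) (sw n₁ w (2 * l)) (n₁.2.1, n₁.1, n₁.2.2)]
    congr 1
    refine Prod.ext ?_ (Prod.ext ?_ ?_) <;> simp [sw, rv]

theorem gK_sw (hw : GPath v 0 n₁ w) (l : ℝ) : gK (sw n₁ w) l = Ssw (gK w (1 / 2 - l)) := by
  have e : l = (Int.fract (l + 1 / 2) - 1 / 2) + ((⌊l + 1 / 2⌋ : ℤ) : ℝ) := by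
    have := Int.fract_add_floor (l + 1 / 2)
    linarith
  have h0 := Int.fract_nonneg (l + 1 / 2)
  have h1 := Int.fract_lt_one (l + 1 / 2)
  have h := Swp_gK hw (l := Int.fract (l + 1 / 2) - 1 / 2) (by linarith) (by linarith)
  have e2 : 1 / 2 - l = (1 / 2 - (Int.fract (l + 1 / 2) - 1 / 2)) + ((-⌊l + 1 / 2⌋ : ℤ) : ℝ) := by
    push_cast
    linarith
  rw [e2, Swp_per, ← h]
  conv_lhs => rw [e]
  exact Swp_per _ _ _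

theorem gcar_sw {X : Type*} [TopologicalSpace X] [ChartedSpace E4 X] {n : ℤ} (hw : GPath v 0 n₁ w)
    (h : GCar v n w X) : GCar (swv v) (-n) (sw n₁ w) X := by
  have h0 := Carries.rev h
  have h1 := Carries.conj (a' := gact (swv v)) Ssw_ld Ssw_Ssw (Ssw_act v) h0
  have e : (fun l => Ssw (gK w (1 / 2 - l))) = gK (sw n₁ w) := funext fun l => (gK_sw hw l).symm
  rw [e] at h1
  exact h1

theorem geq_sw {n₁' : ℤ × ℤ × ℤ} (hw : GPath v 0 n₁ w) (hw' : GPath v 0 n₁' w') (h : GEq.{u} v w w') :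
    GEq.{u} (swv v) (sw n₁ w) (sw n₁' w') := by
  have key : ∀ {n₁ n₁' : ℤ × ℤ × ℤ} {w w' : ℝ → ℝ × ℝ × ℝ}, GPath v 0 n₁ w → GPath v 0 n₁' w' → GEq.{u} v w w' →
      ∀ (n : ℤ) (X : Type u) [TopologicalSpace X] [ChartedSpace E4 X] [T2Space X],
        GCar (swv v) n (sw n₁ w) X → GCar (swv v) n (sw n₁' w') X := by
    intro n₁ n₁' w w' hw hw' h n X _ _ _ hc
    have h1 := gcar_sw (sw_gpath hw) hc
    rw [sw_sw, swv_swv] at h1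
    have h2 := (h (-n) X).1 h1
    have h3 := gcar_sw hw' h2
    rw [neg_neg] at h3
    exact h3
  intro n X _ _ _
  exact ⟨key hw hw' h n X, key hw' hw h.symm n X⟩

end Pool.Agent.GLB
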