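import Pool.Agent.GLB.GEa
import Pool.Agent.GLB.LLm
import Pool.Agent.PTH.TC

/-!
# GLB/TCg: the torus chart of `SP`   (difficulty 2-3)

`Eg v p q (x, ρ, t) = gE ρ (LL v p q (x.re, x.im) t)`, `0 < ρ < 1`.
* `perx`: `LL_add_int` (`k = 0`), `gE_int`.
* `equiv`: `gact_gE`, `LL_add_c` (`c = 0`).
* `inj`: `gE_inj`: `LL u' t' = LL u t + rv m`; apply `pl` and `cC` (`pl_LL`, `cC_LL`): `u' = u + (m₁ - a (p m₃ - q m₂), d m₂ - b m₃)`,
  `t' = t + (p m₃ - q m₂)`.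
* `loc`: near a point with `0 < ρ < 1`, `Eg = Psi ∘ Θ`, `Θ (x, ρ, t) = (R ρ ex (1/2 + re x + a t), p im x + b t, q im x + d t)`,
  `R ρ = prf ρ / prf (1 - ρ)` (`gE_Psi`; the equality holds for `ρ < 1`).  `Psi_ld`; `Θ` is a local diffeomorphism by
  `CSG.ld_of_fderiv`: if the derivative kills `(X', Y', ρ', t')`, then `p Y' + b t' = 0 = q Y' + d t'`, so `Y' = t' = 0`
  (`d p - b q = 1`), and then `R' ρ' ex (..) + 2πi R X' ex (..) = 0` gives `ρ' = X' = 0` as `R > 0`, `R' > 0`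
  (`prf_ratio_deriv`).  (Alternative: give the derivative as an explicit linear equivalence.)
-/

open scoped Manifold ContDiff Topology
open Set Filter
open Complex (I)

namespace Pool.Agent.GLB

open Pool.Agent.PTH
open Pool.Agent.RSG (E4 S3 pS3 ex)

/-- the torus chart -/
noncomputable def Eg (v : ℤ × ℤ × ℤ) (p q : ℤ) (y : ℂ × ℝ × ℝ) : SP := gE y.2.1 (LL v p q (y.1.re, y.1.im) y.2.2)

variable {v : ℤ × ℤ × ℤ} {p q : ℤ}

theorem TCg_perx (x : ℂ) (ρ t : ℝ) (m n : ℤ) :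
    Eg v p q (x + (m + n * I), ρ, t) = Eg v p q (x, ρ, t) := by
  unfold Eg
  have e1 : (x + ((m : ℂ) + n * I)).re = x.re + m := by simp
  have e2 : (x + ((m : ℂ) + n * I)).im = x.im + n := by simp
  have e3 : (((x + ((m : ℂ) + n * I)).re, (x + ((m : ℂ) + n * I)).im) : ℝ × ℝ) = (x.re, x.im) + ((m : ℝ), (n : ℝ)) := by
    rw [e1, e2]; rfl
  have e4 := LL_add_int (v := v) (p := p) (q := q) (x.re, x.im) t m n 0
  rw [Int.cast_zero, add_zero] at e4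
  show gE ρ (LL v p q (((x + ((m : ℂ) + n * I)).re, (x + ((m : ℂ) + n * I)).im) : ℝ × ℝ) t) = gE ρ (LL v p q (x.re, x.im) t)
  rw [e3, e4, gE_int]

theorem TCg_equiv (x : ℂ) (ρ t : ℝ) : Eg v p q (x, ρ, t) = gact v t (Eg v p q (x, ρ, 0)) := by
  unfold Eg
  rw [gact_gE]
  have e4 := LL_add_c (v := v) (p := p) (q := q) (x.re, x.im) 0 t
  rw [zero_add] at e4
  show gE ρ (LL v p q (x.re, x.im) t) = _
  rw [e4]

theorem TCg_inj (hb : VB v p q) (x : ℂ) (ρ t : ℝ) (x' : ℂ) (ρ' t' : ℝ) (h0 : 0 < ρ) (h1 : ρ < 1) (h0' : 0 < ρ')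
    (h1' : ρ' < 1) (h : Eg v p q (x, ρ, t) = Eg v p q (x', ρ', t')) :
    (∃ m n : ℤ, x' = x + (m + n * I)) ∧ ρ' = ρ ∧ ∃ k : ℤ, t' = t + k := by
  have h2 : gE ρ (LL v p q (x.re, x.im) t) = gE ρ' (LL v p q (x'.re, x'.im) t') := h
  obtain ⟨h3, m, h4⟩ := gE_inj h0 h1 h0' h1' h2
  have hc := congrArg (cC p q) h4
  have hp := congrArg (pl v p q) h4
  rw [cC_LL hb] at hc
  rw [pl_LL hb] at hp
  have hc2 : cC p q (LL v p q (x.re, x.im) t + rv m) = t + (p * m.2.2 - q * m.2.1) := by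
    have e := cC_LL hb (x.re, x.im) t
    have e' : cC p q (LL v p q (x.re, x.im) t + rv m) = cC p q (LL v p q (x.re, x.im) t) + (p * m.2.2 - q * m.2.1) := by
      unfold cC rv
      simp only [Prod.snd_add, Prod.fst_add]
      ring
    rw [e', e]
  have hp2 : pl v p q (LL v p q (x.re, x.im) t + rv m) =
      (x.re + (m.1 - v.1 * (p * m.2.2 - q * m.2.1)), x.im + (v.2.2 * m.2.1 - v.2.1 * m.2.2)) := by
    have e := pl_LL hb (x.re, x.im) t
    have e1 : cX v p q (LL v p q (x.re, x.im) t) = x.re := congrArg Prod.fst e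
    have e2 : ht1 v (LL v p q (x.re, x.im) t) = x.im := congrArg Prod.snd e
    have e3 : cX v p q (LL v p q (x.re, x.im) t + rv m) = cX v p q (LL v p q (x.re, x.im) t) +
        (m.1 - v.1 * (p * m.2.2 - q * m.2.1)) := by
      unfold cX cC rv
      simp only [Prod.snd_add, Prod.fst_add]
      ring
    have e4 : ht1 v (LL v p q (x.re, x.im) t + rv m) = ht1 v (LL v p q (x.re, x.im) t) +
        (v.2.2 * m.2.1 - v.2.1 * m.2.2) := by
      unfold ht1 rv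
      simp only [Prod.snd_add, Prod.fst_add]
      ring
    unfold pl
    rw [e3, e4, e1, e2]
  rw [hc2] at hc
  rw [hp2] at hp
  have hp3 := congrArg Prod.fst hp
  have hp4 := congrArg Prod.snd hp
  simp only at hp3 hp4
  refine ⟨⟨m.1 - v.1 * (p * m.2.2 - q * m.2.1), v.2.2 * m.2.1 - v.2.1 * m.2.2, ?_⟩, h3, p * m.2.2 - q * m.2.1, ?_⟩
  · apply Complex.ext
    · rw [hp3]; push_cast; simp
    · rw [hp4]; push_cast; simp
  · rw [hc]; push_cast; ring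

/-- radius of the first coordinate -/
noncomputable def TCgR (ρ : ℝ) : ℝ := prf ρ / prf (1 - ρ)

theorem TCgR_pos {ρ : ℝ} (h0 : 0 < ρ) (h1 : ρ < 1) : 0 < TCgR ρ := div_pos (prf_pos h0) (prf_pos (by linarith))

theorem TCgR_smooth {ρ : ℝ} (h1 : ρ < 1) : ContDiffAt ℝ ∞ TCgR ρ := by
  unfold TCgR
  refine ContDiffAt.div prf_smooth.contDiffAt ?_ (prf_pos (by linarith)).ne'
  exact (prf_smooth.comp (contDiff_const.sub contDiff_id)).contDiffAt

theorem TCgR_deriv {ρ : ℝ} (h0 : 0 < ρ) (h1 : ρ < 1) : HasDerivAt TCgR (deriv TCgR ρ) ρ ∧ 0 < deriv TCgR ρ :=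
  ⟨((TCgR_smooth h1).differentiableAt (by simp)).hasDerivAt, prf_ratio_deriv h0 h1⟩

/-- the map `Θ` -/
noncomputable def TCgT (v : ℤ × ℤ × ℤ) (p q : ℤ) (y : ℂ × ℝ × ℝ) : ℂ × ℝ × ℝ :=
  ((TCgR y.2.1 : ℂ) * ex (1 / 2 + y.1.re + y.2.2 * v.1), y.1.im * p + y.2.2 * v.2.1, y.1.im * q + y.2.2 * v.2.2)

theorem TCgT_smooth (v : ℤ × ℤ × ℤ) (p q : ℤ) {y : ℂ × ℝ × ℝ} (h1 : y.2.1 < 1) : ContDiffAt ℝ ∞ (TCgT v p q) y := by
  have e0 : ContDiffAt ℝ ∞ (fun y : ℂ × ℝ × ℝ => TCgR y.2.1) y :=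
    (TCgR_smooth h1).comp y (contDiff_fst.comp contDiff_snd).contDiffAt
  have e1 : ContDiffAt ℝ ∞ (fun y : ℂ × ℝ × ℝ => ((TCgR y.2.1 : ℝ) : ℂ)) y :=
    Complex.ofRealCLM.contDiff.contDiffAt.comp y e0
  have ere : ContDiff ℝ ∞ fun y : ℂ × ℝ × ℝ => y.1.re := Complex.reCLM.contDiff.comp contDiff_fst
  have eim : ContDiff ℝ ∞ fun y : ℂ × ℝ × ℝ => y.1.im := Complex.imCLM.contDiff.comp contDiff_fst
  have et : ContDiff ℝ ∞ fun y : ℂ × ℝ × ℝ => y.2.2 := contDiff_snd.comp contDiff_snd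
  have e2 : ContDiff ℝ ∞ fun y : ℂ × ℝ × ℝ => ex (1 / 2 + y.1.re + y.2.2 * v.1) :=
    RSG.ex_smooth.comp ((contDiff_const.add ere).add (et.mul contDiff_const))
  have e3 : ContDiff ℝ ∞ fun y : ℂ × ℝ × ℝ => y.1.im * p + y.2.2 * v.2.1 :=
    (eim.mul contDiff_const).add (et.mul contDiff_const)
  have e4 : ContDiff ℝ ∞ fun y : ℂ × ℝ × ℝ => y.1.im * q + y.2.2 * v.2.2 :=
    (eim.mul contDiff_const).add (et.mul contDiff_const)
  exact (e1.mul e2.contDiffAt).prodMk (e3.contDiffAt.prodMk e4.contDiffAt)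

theorem TCgT_ld (hb : VB v p q) (x : ℂ) (ρ t : ℝ) (h0 : 0 < ρ) (h1 : ρ < 1) :
    IsLocalDiffeomorphAt 𝓘(ℝ, ℂ × ℝ × ℝ) 𝓘(ℝ, ℂ × ℝ × ℝ) ∞ (TCgT v p q) (x, ρ, t) := by
  have hop : ∀ᶠ y : ℂ × ℝ × ℝ in 𝓝 (x, ρ, t), y.2.1 < 1 := by
    have : ContinuousAt (fun y : ℂ × ℝ × ℝ => y.2.1) (x, ρ, t) := (continuous_fst.comp continuous_snd).continuousAt
    exact this.eventually (gt_mem_nhds h1)
  refine CSG.ld_of_fderiv (hop.mono fun y hy => TCgT_smooth v p q hy) rfl ?_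
  rintro ⟨z, r, s⟩ hv
  have hd : HasFDerivAt (TCgT v p q) (fderiv ℝ (TCgT v p q) (x, ρ, t)) ((x, ρ, t) + (0 : ℝ) • (z, r, s)) := by
    rw [zero_smul, add_zero]
    exact ((TCgT_smooth v p q (y := (x, ρ, t)) h1).differentiableAt (by simp)).hasFDerivAt
  have hl : HasDerivAt (fun τ : ℝ => ((x, ρ, t) : ℂ × ℝ × ℝ) + τ • (z, r, s)) (z, r, s) 0 := by
    have := ((hasDerivAt_id (0 : ℝ)).smul_const ((z, r, s) : ℂ × ℝ × ℝ)).const_add ((x, ρ, t) : ℂ × ℝ × ℝ)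
    simpa using this
  have k1 : HasDerivAt (fun τ : ℝ => TCgT v p q (((x, ρ, t) : ℂ × ℝ × ℝ) + τ • (z, r, s)))
      (fderiv ℝ (TCgT v p q) (x, ρ, t) (z, r, s)) 0 := by
    have k0 := HasFDerivAt.comp_hasDerivAt (0 : ℝ) hd hl
    exact k0
  rw [hv] at k1
  obtain ⟨hR, hR0⟩ := TCgR_deriv h0 h1
  set R' := deriv TCgR ρ with hR'
  set A : ℝ := 1 / 2 + x.re + t * v.1 with hA
  have h2 : HasDerivAt (fun τ : ℝ => (((TCgR (ρ + τ * r) : ℝ) : ℂ) * ex (1 / 2 + (x.re + τ * z.re) + (t + τ * s) * v.1),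
      (x.im + τ * z.im) * p + (t + τ * s) * v.2.1, (x.im + τ * z.im) * q + (t + τ * s) * v.2.2))
      (((R' * r : ℝ) : ℂ) * ex A + TCgR ρ * (2 * Real.pi * I * ex A * (z.re + s * v.1 : ℝ)), z.im * p + s * v.2.1,
        z.im * q + s * v.2.2) 0 := by
    have a1 : HasDerivAt (fun τ : ℝ => ρ + τ * r) r 0 := by
      simpa using ((hasDerivAt_id (0 : ℝ)).mul_const r).const_add ρ
    have a1' : HasDerivAt (fun τ : ℝ => ((TCgR (ρ + τ * r) : ℝ) : ℂ)) ((R' * r : ℝ) : ℂ) 0 := by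
      have b : HasDerivAt TCgR R' (ρ + 0 * r) := by rw [zero_mul, add_zero]; exact hR
      exact (HasDerivAt.comp (0 : ℝ) b a1).ofReal_comp
    have a2 : HasDerivAt (fun τ : ℝ => x.re + τ * z.re) z.re 0 := by
      simpa using ((hasDerivAt_id (0 : ℝ)).mul_const z.re).const_add x.re
    have a4 : HasDerivAt (fun τ : ℝ => x.im + τ * z.im) z.im 0 := by
      simpa using ((hasDerivAt_id (0 : ℝ)).mul_const z.im).const_add x.im
    have a5 : HasDerivAt (fun τ : ℝ => t + τ * s) s 0 := by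
      simpa using ((hasDerivAt_id (0 : ℝ)).mul_const s).const_add t
    have a3' : HasDerivAt (fun τ : ℝ => 1 / 2 + (x.re + τ * z.re) + (t + τ * s) * v.1) (z.re + s * v.1) 0 :=
      (a2.const_add (1 / 2)).add (a5.mul_const _)
    have a3 : HasDerivAt (fun τ : ℝ => ex (1 / 2 + (x.re + τ * z.re) + (t + τ * s) * v.1))
        (2 * Real.pi * I * ex A * (z.re + s * v.1 : ℝ)) 0 := by
      have b1 : HasDerivAt ex (2 * Real.pi * I * ex A) (1 / 2 + (x.re + 0 * z.re) + (t + 0 * s) * v.1) := by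
        rw [zero_mul, add_zero, zero_mul, add_zero]; exact TC_ex_deriv A
      have b2 := HasDerivAt.scomp (𝕜 := ℝ) (𝕜' := ℝ) (0 : ℝ) (g₁ := ex)
        (h := fun τ : ℝ => 1 / 2 + (x.re + τ * z.re) + (t + τ * s) * v.1) b1 a3'
      refine b2.congr_deriv ?_
      rw [Complex.real_smul]
      ring
    have a6 := a1'.mul a3
    have a8 : HasDerivAt (fun τ : ℝ => (x.im + τ * z.im) * p + (t + τ * s) * v.2.1) (z.im * p + s * v.2.1) 0 :=
      (a4.mul_const _).add (a5.mul_const _)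
    have a9 : HasDerivAt (fun τ : ℝ => (x.im + τ * z.im) * q + (t + τ * s) * v.2.2) (z.im * q + s * v.2.2) 0 :=
      (a4.mul_const _).add (a5.mul_const _)
    have a7 := a6.prodMk (a8.prodMk a9)
    refine a7.congr_deriv ?_
    have e1 : ρ + 0 * r = ρ := by ring
    have e2 : 1 / 2 + (x.re + 0 * z.re) + (t + 0 * s) * v.1 = A := by rw [hA]; ring
    simp only [e1, e2]
  have h3 : (fun τ : ℝ => TCgT v p q (((x, ρ, t) : ℂ × ℝ × ℝ) + τ • (z, r, s))) =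
      fun τ : ℝ => (((TCgR (ρ + τ * r) : ℝ) : ℂ) * ex (1 / 2 + (x.re + τ * z.re) + (t + τ * s) * v.1),
      (x.im + τ * z.im) * p + (t + τ * s) * v.2.1, (x.im + τ * z.im) * q + (t + τ * s) * v.2.2) := by
    funext τ
    simp [TCgT]
  rw [h3] at k1
  have h4 := k1.unique h2
  have h5 : ((R' * r : ℝ) : ℂ) * ex A + TCgR ρ * (2 * Real.pi * I * ex A * (z.re + s * v.1 : ℝ)) = 0 :=
    (congrArg Prod.fst h4).symm
  have h6 : (0 : ℝ) = z.im * p + s * v.2.1 := congrArg (fun q : ℂ × ℝ × ℝ => q.2.1) h4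
  have h7 : (0 : ℝ) = z.im * q + s * v.2.2 := congrArg (fun q : ℂ × ℝ × ℝ => q.2.2) h4
  have hbR : (v.2.2 : ℝ) * p - v.2.1 * q = 1 := by
    have := hb
    unfold VB at this
    exact_mod_cast this
  have h8 : z.im = 0 := by
    have : z.im * ((v.2.2 : ℝ) * p - v.2.1 * q) = 0 := by
      linear_combination (-(v.2.2 : ℝ)) * h6 + (v.2.1 : ℝ) * h7
    rwa [hbR, mul_one] at this
  have h9 : s = 0 := by
    have : s * ((v.2.2 : ℝ) * p - v.2.1 * q) = 0 := by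
      linear_combination (q : ℝ) * h6 - (p : ℝ) * h7
    rwa [hbR, mul_one] at this
  have h10 : ex A * ((R' * r : ℝ) + TCgR ρ * (2 * Real.pi * I * (z.re + s * v.1 : ℝ))) = 0 := by
    rw [← h5]; ring
  have h11 : ((R' * r : ℝ) : ℂ) + TCgR ρ * (2 * Real.pi * I * (z.re + s * v.1 : ℝ)) = 0 :=
    (mul_eq_zero.1 h10).resolve_left (RSG.ex_ne _)
  have h12 : r = 0 := by
    have := congrArg Complex.re h11
    simp at this
    exact this.resolve_left hR0.ne'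
  have h13 : z.re = 0 := by
    have := congrArg Complex.im h11
    rw [h9] at this
    simp at this
    exact this.resolve_left (TCgR_pos h0 h1).ne'
  exact Prod.ext (Complex.ext h13 h8) (Prod.ext h12 h9)

theorem TCg_loc (hb : VB v p q) (x : ℂ) (ρ t : ℝ) (h0 : 0 < ρ) (h1 : ρ < 1) :
    IsLocalDiffeomorphAt 𝓘(ℝ, ℂ × ℝ × ℝ) ISP ∞ (Eg v p q) (x, ρ, t) := by
  have hop : ∀ᶠ y : ℂ × ℝ × ℝ in 𝓝 (x, ρ, t), y.2.1 < 1 := by
    have : ContinuousAt (fun y : ℂ × ℝ × ℝ => y.2.1) (x, ρ, t) := (continuous_fst.comp continuous_snd).continuousAt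
    exact this.eventually (gt_mem_nhds h1)
  have h2 : IsLocalDiffeomorphAt 𝓘(ℝ, ℂ × ℝ × ℝ) ISP ∞ (Psi ∘ TCgT v p q) (x, ρ, t) :=
    IsLocalDiffeomorphAt.comp (hf := TCgT_ld hb x ρ t h0 h1) (hg := Psi_ld _)
  refine CSG.ld_congr h2 (hop.mono fun y hy => ?_)
  show _ = _
  unfold Eg
  rw [gE_Psi hy]
  rfl

theorem tchart (hb : VB v p q) : TChart ISP (gact v) (Eg v p q) 0 1 :=
  ⟨TCg_perx, TCg_equiv, TCg_loc hb, TCg_inj hb⟩

end Pool.Agent.GLB
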