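import Pool.Agent.GLB.TwR
import Pool.Agent.GLB.KSm
import Pool.Agent.GLB.Gau

/-!
# GLB/Sgn: reflections   (difficulty 2)

`ε = (ε₁, ε₂, ε₃)`, `ε_i = ±1` (`sm ε x` multiplies the coordinates).  `Ssg ε (y, c)`: complex conjugation of the coordinates `z1`, `z2`, `c` for which
`ε_i = -1`: `(pS3 (z1 or conj z1) (z2 or conj z2), c or c⁻¹)`.
* smooth involution (`z_pS3`, `pS3_z`; conjugation is linear; `c⁻¹` is smooth on the Lie group `Circle`), `Ssg (gact v t p) = gact (ε v) t (Ssg p)`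
  (`ex (-x) = conj (ex x)`, `Circle.exp (-x) = (Circle.exp x)⁻¹`), `Ssg (gE ρ x) = gE ρ (ε x)`.
* `gK_sg`: `gK (ε w) l = Ssg (gK w l)`.
* `gcar_sg`: `Carries.conj`.
* `sg_gpath`: `ε (1/2 + n) = 1/2 + n'` with `n' = n` or `-1 - n`: so `GPath v n₀ n₁ w` gives `GPath (ε v) (sg0 ε n₀) (sg1 ε n₁) (ε w)`,
  `sg0 ε n₀ = (n₀.1 or -1 - n₀.1, ε₂ n₀.2.1, ε₃ n₀.2.2)`, `sg1 ε n₁ = (ε₁ n₁.1, n₁.2.1 or -1 - n₁.2.1, ε₃ n₁.2.2)`.
-/

open scoped Manifold ContDiff Topology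
open Set Filter
open Complex (I)

namespace Pool.Agent.GLB

open Pool.Agent.PTH
open Pool.Agent.RSG (E4 S3 S4 pS3 pS4 ex)

universe u

/-- signs: `true` is `+`, `false` is `-` -/
abbrev Sg3 := Bool × Bool × Bool

def sz (s : Bool) (m : ℤ) : ℤ := if s then m else -m
def sr (s : Bool) (x : ℝ) : ℝ := if s then x else -x
/-- the foot coordinate -/
def sf (s : Bool) (m : ℤ) : ℤ := if s then m else -1 - m

def smz (e : Sg3) (m : ℤ × ℤ × ℤ) : ℤ × ℤ × ℤ := (sz e.1 m.1, sz e.2.1 m.2.1, sz e.2.2 m.2.2)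
def smr (e : Sg3) (x : ℝ × ℝ × ℝ) : ℝ × ℝ × ℝ := (sr e.1 x.1, sr e.2.1 x.2.1, sr e.2.2 x.2.2)
def sg0 (e : Sg3) (m : ℤ × ℤ × ℤ) : ℤ × ℤ × ℤ := (sf e.1 m.1, sz e.2.1 m.2.1, sz e.2.2 m.2.2)
def sg1 (e : Sg3) (m : ℤ × ℤ × ℤ) : ℤ × ℤ × ℤ := (sz e.1 m.1, sf e.2.1 m.2.1, sz e.2.2 m.2.2)

open Classical in
noncomputable def Ssg (e : Sg3) (p : SP) : SP :=
  (pS3 (if e.1 then z1 p.1 else (starRingEnd ℂ) (z1 p.1)) (if e.2.1 then z2 p.1 else (starRingEnd ℂ) (z2 p.1)),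
    if e.2.2 then p.2 else p.2⁻¹)

variable {v : ℤ × ℤ × ℤ} {n₀ n₁ : ℤ × ℤ × ℤ} {w w' : ℝ → ℝ × ℝ × ℝ}

/-- conjugation if the sign is negative -/
noncomputable def Sgn_cj (s : Bool) (z : ℂ) : ℂ := bif s then z else (starRingEnd ℂ) z

/-- inversion if the sign is negative -/
noncomputable def Sgn_ci (s : Bool) (c : Circle) : Circle := bif s then c else c⁻¹

theorem Sgn_eq (e : Sg3) (p : SP) :
    Ssg e p = (pS3 (Sgn_cj e.1 (z1 p.1)) (Sgn_cj e.2.1 (z2 p.1)), Sgn_ci e.2.2 p.2) := by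
  obtain ⟨e1, e2, e3⟩ := e
  cases e1 <;> cases e2 <;> cases e3 <;> simp [Ssg, Sgn_cj, Sgn_ci]

theorem Sgn_cj_norm (s : Bool) (z : ℂ) : ‖Sgn_cj s z‖ = ‖z‖ := by
  cases s <;> simp [Sgn_cj]

theorem Sgn_cj_cj (s : Bool) (z : ℂ) : Sgn_cj s (Sgn_cj s z) = z := by
  cases s <;> simp [Sgn_cj]

theorem Sgn_cj_mul (s : Bool) (x z : ℂ) : Sgn_cj s (x * z) = Sgn_cj s x * Sgn_cj s z := by
  cases s <;> simp [Sgn_cj]

theorem Sgn_cj_real (s : Bool) (r : ℝ) : Sgn_cj s (r : ℂ) = r := by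
  cases s <;> simp [Sgn_cj]

theorem Sgn_cj_ex (s : Bool) (x : ℝ) : Sgn_cj s (ex x) = ex (sr s x) := by
  cases s
  · simp [Sgn_cj, sr, Pool.Agent.RSG.ex_neg]
  · simp [Sgn_cj, sr]

theorem Sgn_ci_ci (s : Bool) (c : Circle) : Sgn_ci s (Sgn_ci s c) = c := by
  cases s <;> simp [Sgn_ci]

theorem Sgn_ci_mul (s : Bool) (x c : Circle) : Sgn_ci s (x * c) = Sgn_ci s x * Sgn_ci s c := by
  cases s <;> simp [Sgn_ci, mul_comm]

theorem Sgn_sr_mul (s : Bool) (x y : ℝ) : x * sr s y = sr s (x * y) := by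
  cases s <;> simp [sr]

theorem Sgn_sr_mul' (s : Bool) (x y : ℝ) : sr s x * y = sr s (x * y) := by
  cases s <;> simp [sr]

theorem Sgn_sz_cast (s : Bool) (m : ℤ) : ((sz s m : ℤ) : ℝ) = sr s (m : ℝ) := by
  cases s <;> simp [sz, sr]

theorem Sgn_ci_exp (s : Bool) (x : ℝ) : Sgn_ci s (Circle.exp x) = Circle.exp (sr s x) := by
  cases s
  · simp [Sgn_ci, sr, Circle.exp_neg]
  · simp [Sgn_ci, sr]

theorem Sgn_pS3 (e : Sg3) {a b : ℂ} (h : 0 < ‖a‖ ^ 2 + ‖b‖ ^ 2) (c : Circle) :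
    Ssg e (pS3 a b, c) = (pS3 (Sgn_cj e.1 a) (Sgn_cj e.2.1 b), Sgn_ci e.2.2 c) := by
  rw [Sgn_eq]
  obtain ⟨h1, h2⟩ := z_pS3 h
  have hr : 0 < (Real.sqrt (‖a‖ ^ 2 + ‖b‖ ^ 2))⁻¹ := inv_pos.2 (Real.sqrt_pos.2 h)
  show (pS3 (Sgn_cj e.1 (z1 (pS3 a b))) (Sgn_cj e.2.1 (z2 (pS3 a b))), Sgn_ci e.2.2 c) = _
  rw [h1, h2, Sgn_cj_mul, Sgn_cj_mul, Sgn_cj_real, Sgn_cj_real,
    pS3_smul hr (by rw [Sgn_cj_norm, Sgn_cj_norm]; exact h)]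

theorem Sgn_z_pos (y : S3) : 0 < ‖z1 y‖ ^ 2 + ‖z2 y‖ ^ 2 := by
  rw [z_sq]
  exact one_pos

theorem smz_smz (e : Sg3) (m : ℤ × ℤ × ℤ) : smz e (smz e m) = m := by
  obtain ⟨e1, e2, e3⟩ := e
  cases e1 <;> cases e2 <;> cases e3 <;> simp [smz, sz]

theorem smr_smr (e : Sg3) (x : ℝ × ℝ × ℝ) : smr e (smr e x) = x := by
  obtain ⟨e1, e2, e3⟩ := e
  cases e1 <;> cases e2 <;> cases e3 <;> simp [smr, sr]

theorem Sgn_cop (s s' : Bool) {a b : ℤ} (h : IsCoprime a b) : IsCoprime (sz s a) (sz s' b) := by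
  cases s <;> cases s'
  · simpa [sz] using h.neg_neg
  · simpa [sz] using h.neg_left
  · simpa [sz] using h.neg_right
  · simpa [sz] using h

theorem Sgn_av (s : Bool) (a b : ℤ) (c : ℝ) :
    sr s ((a : ℝ) + c * ((sz s b : ℤ) : ℝ)) = ((sz s a : ℤ) : ℝ) + c * b := by
  rw [Sgn_sz_cast, Sgn_sz_cast, Sgn_sr_mul]
  cases s
  · simp only [sr]
    rw [if_neg (by simp), if_neg (by simp), if_neg (by simp)]
    ring
  · simp only [sr, if_true]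

theorem smz_good (e : Sg3) (hv : VGood v) : VGood (smz e v) where
  cop1 := Sgn_cop _ _ hv.cop1
  cop2 := Sgn_cop _ _ hv.cop2
  odd := by
    have h := hv.odd
    show (sz e.2.2 v.2.2) % 2 = 1
    unfold sz
    split_ifs <;> omega

theorem Ssg_Ssg (e : Sg3) (p : SP) : Ssg e (Ssg e p) = p := by
  have h1 : Ssg e p = (pS3 (Sgn_cj e.1 (z1 p.1)) (Sgn_cj e.2.1 (z2 p.1)), Sgn_ci e.2.2 p.2) := Sgn_eq e p
  rw [h1, Sgn_pS3 e (by rw [Sgn_cj_norm, Sgn_cj_norm]; exact Sgn_z_pos _), Sgn_cj_cj, Sgn_cj_cj, Sgn_ci_ci, pS3_z]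

theorem Sgn_cj_smooth (s : Bool) : ContMDiff 𝓘(ℝ, ℂ) 𝓘(ℝ, ℂ) ∞ (Sgn_cj s) := by
  cases s
  · exact Complex.conjCLE.contDiff.contMDiff
  · exact contMDiff_id

theorem Sgn_ci_smooth (s : Bool) : ContMDiff (𝓡 1) (𝓡 1) ∞ (Sgn_ci s) := by
  cases s
  · exact contMDiff_inv (𝓡 1) ∞
  · exact contMDiff_id

theorem Sgn_smooth (e : Sg3) : ContMDiff ISP ISP ∞ (Ssg e) := by
  have h : Ssg e = fun p : SP =>
      (pS3 (Sgn_cj e.1 (z1 p.1)) (Sgn_cj e.2.1 (z2 p.1)), Sgn_ci e.2.2 p.2) := by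
    funext p
    exact Sgn_eq e p
  rw [h]
  apply ContMDiff.prodMk
  · intro p
    apply Pool.Agent.RSG.pS3_smooth
    · exact ((Sgn_cj_smooth e.1).comp (z1_smooth.comp contMDiff_fst)) p
    · exact ((Sgn_cj_smooth e.2.1).comp (z2_smooth.comp contMDiff_fst)) p
    · rw [Sgn_cj_norm, Sgn_cj_norm]
      exact Sgn_z_pos _
  · exact (Sgn_ci_smooth e.2.2).comp contMDiff_snd

theorem Ssg_ld (e : Sg3) (p : SP) : IsLocalDiffeomorphAt ISP ISP ∞ (Ssg e) p :=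
  ld_of_involution (Sgn_smooth e) (Ssg_Ssg e) p

theorem Ssg_act (e : Sg3) (v : ℤ × ℤ × ℤ) (t : ℝ) (p : SP) : Ssg e (gact v t p) = gact (smz e v) t (Ssg e p) := by
  have h0 := Sgn_z_pos p.1
  have h1 : gact v t p = (pS3 (ex (v.1 * t) * z1 p.1) (ex (v.2.1 * t) * z2 p.1),
    Circle.exp (2 * Real.pi * (v.2.2 * t)) * p.2) := rfl
  rw [h1, Sgn_pS3 e (by rw [norm_mul, norm_mul, Pool.Agent.RSG.ex_norm, Pool.Agent.RSG.ex_norm, one_mul, one_mul]; exact h0),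
    Sgn_eq e p, gact_pS3 _ _ (by rw [Sgn_cj_norm, Sgn_cj_norm]; exact h0)]
  have e1 : (((smz e v).1 : ℤ) : ℝ) * t = sr e.1 (v.1 * t) := by
    show ((sz e.1 v.1 : ℤ) : ℝ) * t = _
    rw [Sgn_sz_cast, Sgn_sr_mul']
  have e2 : (((smz e v).2.1 : ℤ) : ℝ) * t = sr e.2.1 (v.2.1 * t) := by
    show ((sz e.2.1 v.2.1 : ℤ) : ℝ) * t = _
    rw [Sgn_sz_cast, Sgn_sr_mul']
  have e3 : (((smz e v).2.2 : ℤ) : ℝ) * t = sr e.2.2 (v.2.2 * t) := by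
    show ((sz e.2.2 v.2.2 : ℤ) : ℝ) * t = _
    rw [Sgn_sz_cast, Sgn_sr_mul']
  rw [e1, e2, e3, Sgn_sr_mul, ← Sgn_ci_exp, ← Sgn_cj_ex, ← Sgn_cj_ex, ← Sgn_cj_mul, ← Sgn_cj_mul, ← Sgn_ci_mul]

theorem Sgn_sr_smooth (s : Bool) : ContDiff ℝ ∞ (sr s) := by
  cases s
  · have : sr false = fun x => -x := by funext x; simp [sr]
    rw [this]
    exact contDiff_neg
  · have : sr true = fun x => x := by funext x; simp [sr]
    rw [this]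
    exact contDiff_id

theorem sg_gpath (e : Sg3) (hw : GPath v n₀ n₁ w) :
    GPath (smz e v) (sg0 e n₀) (sg1 e n₁) (fun ρ => smr e (w ρ)) where
  smooth := by
    have h := hw.smooth
    exact ((Sgn_sr_smooth _).comp h.fst).prodMk
      (((Sgn_sr_smooth _).comp h.snd.fst).prodMk ((Sgn_sr_smooth _).comp h.snd.snd))
  start := by
    obtain ⟨ε, hε, h⟩ := hw.start
    refine ⟨ε, hε, fun ρ hρ => ?_⟩
    obtain ⟨e1, e2, e3⟩ := e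
    rw [h ρ hρ]
    cases e1 <;> cases e2 <;> cases e3 <;> simp [smr, sr, sg0, sf, sz] <;> ring
  stop := by
    obtain ⟨ε, hε, h⟩ := hw.stop
    refine ⟨ε, hε, fun ρ hρ => ?_⟩
    obtain ⟨e1, e2, e3⟩ := e
    rw [h ρ hρ]
    cases e1 <;> cases e2 <;> cases e3 <;> simp [smr, sr, sg1, sf, sz] <;> ring
  avoid := by
    intro ρ s m hcon
    have h1 := congrArg (smr e) hcon
    rw [smr_smr] at h1
    refine hw.avoid ρ s (smz e m) (h1.trans ?_)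
    exact Prod.ext (Sgn_av _ _ _ _) (Prod.ext (Sgn_av _ _ _ _) (Sgn_av _ _ _ _))

theorem Sgn_gE (e : Sg3) (ρ : ℝ) (x : ℝ × ℝ × ℝ) : gE ρ (smr e x) = Ssg e (gE ρ x) := by
  have h1 : gE ρ x = (pS3 (prf ρ * ex x.1) (prf (1 - ρ) * ex x.2.1), Circle.exp (2 * Real.pi * x.2.2)) := rfl
  rw [h1, Sgn_pS3 e (prf_pos_pair ρ x.1 x.2.1), Sgn_cj_mul, Sgn_cj_mul, Sgn_cj_real, Sgn_cj_real, Sgn_cj_ex,
    Sgn_cj_ex, Sgn_ci_exp, ← Sgn_sr_mul]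
  rfl

theorem Sgn_smr_zero (e : Sg3) : smr e (0, 0, 0) = (0, 0, 0) := by
  obtain ⟨e1, e2, e3⟩ := e
  cases e1 <;> cases e2 <;> cases e3 <;> simp [smr, sr]

theorem gK_sg (e : Sg3) (w : ℝ → ℝ × ℝ × ℝ) (l : ℝ) : gK (fun ρ => smr e (w ρ)) l = Ssg e (gK w l) := by
  unfold gK
  split_ifs
  · exact Sgn_gE e _ _
  · have h := Sgn_gE e (-2 * (l - round l)) (0, 0, 0)
    rw [Sgn_smr_zero] at h
    exact h

theorem gcar_sg {X : Type*} [TopologicalSpace X] [ChartedSpace E4 X] {n : ℤ} (e : Sg3) (w : ℝ → ℝ × ℝ × ℝ) :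
    GCar v n w X ↔ GCar (smz e v) n (fun ρ => smr e (w ρ)) X := by
  have key : ∀ (v : ℤ × ℤ × ℤ) (w : ℝ → ℝ × ℝ × ℝ), GCar v n w X →
      GCar (smz e v) n (fun ρ => smr e (w ρ)) X := by
    intro v w h
    have h1 := Carries.conj (S := Ssg e) (a' := gact (smz e v)) (Ssg_ld e) (Ssg_Ssg e) (Ssg_act e v) h
    have h2 : gK (fun ρ => smr e (w ρ)) = fun l => Ssg e (gK w l) := funext fun l => gK_sg e w l
    show Carries ISP (gact (smz e v)) n (gK (fun ρ => smr e (w ρ))) X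
    rw [h2]
    exact h1
  refine ⟨key v w, fun h => ?_⟩
  have h1 := key _ _ h
  rw [smz_smz] at h1
  have h2 : (fun ρ => smr e (smr e (w ρ))) = w := funext fun ρ => smr_smr e (w ρ)
  rw [h2] at h1
  exact h1

theorem ht1_sg (e : Sg3) (v : ℤ × ℤ × ℤ) (x : ℝ × ℝ × ℝ) :
    ht1 (smz e v) (smr e x) = sr e.2.1 (sr e.2.2 (ht1 v x)) := by
  obtain ⟨e1, e2, e3⟩ := e
  cases e1 <;> cases e2 <;> cases e3 <;> simp [ht1, smz, smr, sr, sz] <;> ring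

theorem ht2_sg (e : Sg3) (v : ℤ × ℤ × ℤ) (x : ℝ × ℝ × ℝ) :
    ht2 (smz e v) (smr e x) = sr e.1 (sr e.2.2 (ht2 v x)) := by
  obtain ⟨e1, e2, e3⟩ := e
  cases e1 <;> cases e2 <;> cases e3 <;> simp [ht2, smz, smr, sr, sz] <;> ring

end Pool.Agent.GLB
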