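import Pool.Agent.PTH.GDefs
import Pool.Agent.PTH.Hom
import Pool.Agent.PTH.WEq
import Pool.Agent.PTH.Gap
import Pool.Agent.CSW.Young
import Pool.Agent.CSW.Gap

/-!
# GLB/Defs: the global part of (II)(c): coordinates of `R³ / R v`, planar paths and global paths

`v = (a, b, d)`, `gcd (a, d) = gcd (b, d) = 1`, `d p - b q = 1`: `e₁, (0, p, q), v` is a basis of `Z³`.
A point of `R³` is `LL v p q (X, Y) c = (1/2, 0, 0) + X e₁ + Y (0, p, q) + c v`, where `Y = ht1 v`, `c = cC p q`,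
`X = cX v p q`.  It is in `Z³ + R v` iff `(X, Y)` is an obstacle, i.e. in `(1/2, 0) + Z²`.
-/

open scoped Manifold ContDiff
open Complex (I)

namespace Pool.Agent.GLB

open Pool.Agent.PTH

/-- the direction `v = (a, b, d)` is primitive in both solid tori, and `d` is odd -/
structure VGood (v : ℤ × ℤ × ℤ) : Prop where
  cop1 : IsCoprime v.1 v.2.2
  cop2 : IsCoprime v.2.1 v.2.2
  odd : v.2.2 % 2 = 1

/-- `e₁, (0, p, q), v` is a basis of `Z³` -/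
def VB (v : ℤ × ℤ × ℤ) (p q : ℤ) : Prop := v.2.2 * p - v.2.1 * q = 1

/-- the integer vector `m` as a real vector -/
def rv (m : ℤ × ℤ × ℤ) : ℝ × ℝ × ℝ := ((m.1 : ℝ), (m.2.1 : ℝ), (m.2.2 : ℝ))

/-- coordinate along `v` -/
def cC (p q : ℤ) (x : ℝ × ℝ × ℝ) : ℝ := p * x.2.2 - q * x.2.1

/-- coordinate along `e₁` (of `x - (1/2, 0, 0)`) -/
noncomputable def cX (v : ℤ × ℤ × ℤ) (p q : ℤ) (x : ℝ × ℝ × ℝ) : ℝ := x.1 - 1 / 2 - v.1 * cC p q x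

/-- the planar coordinates of `x` -/
noncomputable def pl (v : ℤ × ℤ × ℤ) (p q : ℤ) (x : ℝ × ℝ × ℝ) : ℝ × ℝ := (cX v p q x, ht1 v x)

/-- the point with coordinates `u = (X, Y)` and `c` -/
noncomputable def LL (v : ℤ × ℤ × ℤ) (p q : ℤ) (u : ℝ × ℝ) (c : ℝ) : ℝ × ℝ × ℝ :=
  (1 / 2 + u.1 + c * v.1, u.2 * p + c * v.2.1, u.2 * q + c * v.2.2)

/-- the second foot -/
noncomputable def fin (n₁ : ℤ × ℤ × ℤ) : ℝ × ℝ × ℝ := ((n₁.1 : ℝ), 1 / 2 + (n₁.2.1 : ℝ), (n₁.2.2 : ℝ))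

/-- The global path with planar path `u`, end point `fin n₁`. -/
noncomputable def up (v : ℤ × ℤ × ℤ) (p q : ℤ) (n₁ : ℤ × ℤ × ℤ) (u : ℝ → ℝ × ℝ) (ρ : ℝ) : ℝ × ℝ × ℝ :=
  LL v p q (u ρ) (cC p q (fin n₁) * Real.smoothTransition (8 * ρ - 6))

/-- the height of an integer vector -/
def hz1 (v m : ℤ × ℤ × ℤ) : ℤ := v.2.2 * m.2.1 - v.2.1 * m.2.2
def hz2 (v m : ℤ × ℤ × ℤ) : ℤ := v.2.2 * m.1 - v.1 * m.2.2

/-! ## planar paths -/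

/-- continuous paths from `s₀` to `s₁`, constant for `ρ ≤ ε` and for `ρ ≥ 1 - ε` -/
structure CPath (s₀ s₁ : ℝ × ℝ) (ε : ℝ) (u : ℝ → ℝ × ℝ) : Prop where
  cont : Continuous u
  start : ∀ ρ ≤ ε, u ρ = s₀
  stop : ∀ ρ, 1 - ε ≤ ρ → u ρ = s₁
  avoid : ∀ ρ, ¬ Obs (u ρ)

/-- homotopic planar paths -/
def PH (s₀ s₁ : ℝ × ℝ) (u u' : ℝ → ℝ × ℝ) : Prop :=
  ∃ (H : ℝ → ℝ → ℝ × ℝ) (ε : ℝ), 0 < ε ∧ Continuous (fun q : ℝ × ℝ => H q.1 q.2) ∧ H 0 = u ∧ H 1 = u' ∧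
    ∀ l, 0 ≤ l → l ≤ 1 → CPath s₀ s₁ ε (H l)

/-- gap data: the path crosses the row `j` in the gap `G j` -/
def Gaps (u : ℝ → ℝ × ℝ) (G : ℕ → ℤ) : Prop := ∀ (j : ℕ) (ρ : ℝ), (u ρ).2 = j → |(u ρ).1 - G j| < 1 / 2

/-- the path of the word `L` on `[0, 1/2]`, then a segment to `s₁` -/
noncomputable def cmpr (L : List (Bool × Bool)) (s₁ : ℝ × ℝ) (ρ : ℝ) : ℝ × ℝ :=
  wpath L (2 * ρ) + Real.smoothTransition (4 * ρ - 5 / 2) • (s₁ - ((((sumZ L).1 : ℤ) : ℝ), (((sumZ L).2 : ℤ) : ℝ)))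

/-! ## global paths -/

universe u

/-- `w` and `w'` carry the same manifolds -/
def GEq (v : ℤ × ℤ × ℤ) (w w' : ℝ → ℝ × ℝ × ℝ) : Prop :=
  ∀ (n : ℤ) (X : Type u) [TopologicalSpace X] [ChartedSpace Pool.Agent.RSG.E4 X] [T2Space X],
    GCar v n w X ↔ GCar v n w' X

theorem GEq.refl (v : ℤ × ℤ × ℤ) (w : ℝ → ℝ × ℝ × ℝ) : GEq.{u} v w w := fun _ _ _ _ _ => Iff.rfl

theorem GEq.symm {v : ℤ × ℤ × ℤ} {w w' : ℝ → ℝ × ℝ × ℝ} (h : GEq.{u} v w w') : GEq.{u} v w' w :=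
  fun n X _ _ _ => (h n X).symm

theorem GEq.trans {v : ℤ × ℤ × ℤ} {w w' w'' : ℝ → ℝ × ℝ × ℝ} (h : GEq.{u} v w w') (h' : GEq.{u} v w' w'') :
    GEq.{u} v w w'' := fun n X _ _ _ => (h n X).trans (h' n X)

end Pool.Agent.GLB
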