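import Pool.Agent.GLB.YwE

/-!
# GLB/BMo: bi-monotone paths, monotone paths   (difficulty 3)

* `bm_yw`: `w` bi-monotone.  For `1 ≤ j ≤ N` choose `ρ_j` with `ht1 v (w ρ_j) = j` (intermediate value theorem: from `0` to `N + 1/2`), `y_j = ht2 v
  (w ρ_j) - c₂ ∈ [0, M + 1/2]` (antitone, from `M + 1/2` to `0`), `k j = ⌊y_j⌋ ∈ [0, M]`; `YD`: `i < j` gives `ρ_i < ρ_j`, so `y_j ≤ y_i`.  `w` and
  `yw k` have the same gaps at `j` (by `cols_gap` at `ρ_j` and `yw_col`, `exists_gaps`: `G j` is the same integer, as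
  `|x - G| < 1/2` and `|x - g| < 1/2` with integers gives `G = g`; for a height which is attained), so `v1eq` with `k = 0` and `G - G = 0`.
  (Do not use `ColD` for `w`: it may fail, as `w` may run vertically along the column `j`.)
* `mono_bm`: `w` with `ht1` monotone, `N + 1/2 = ht1 v (fin n₁)`; `n₁' = n₁ + (i, 0, 0)` with `NM v n₁' N M'`, `M' ≥ d`.  `w' = yw v n₁' N M' k'` with
  `k' = 0` or `k' = rect 1 d` (`CSW.rect`).  Let `G` be the gaps of `w` (`exists_gaps`), `G'`, `G''` those of the two candidates (by `cols_gap`,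
  `yw_col`: `G' j = (0 + s' j) / d`, `G'' 1 = (d + s' 1) / d = G' 1 + 1`, `G'' j = G' j` for `j ≥ 2`, `G' 0 = G'' 0 = 0`).  The sums
  `Σ_{odd i ≤ N} (G i - (G' i - k))` for the two candidates differ by `1` if `N ≥ 1`, so one of them is even; if `N = 0` the sum is empty.
  `v1eq`.
* `anti_bm`: apply `mono_bm` to `sw n₁ w` (direction `swv v`, `swn (n₁ + (0, i, 0)) = swn n₁ + (-i, 0, 0)`), and swap back (`sw_gpath`, `geq_sw`,
  `sw_sw`; the swapped path of a bi-monotone path is bi-monotone: `ht1_sw`, `ht2_sw`).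
-/

open scoped Manifold ContDiff Topology
open Set Filter

namespace Pool.Agent.GLB

open Pool.Agent.PTH
open Pool.Agent.CSW (YD trp n1 n2 cnt)

universe u

variable {v : ℤ × ℤ × ℤ} {n₁ : ℤ × ℤ × ℤ} {N M : ℕ} {w w' : ℝ → ℝ × ℝ × ℝ}

/-- bi-monotone paths -/
structure BM (v n₁ : ℤ × ℤ × ℤ) (w : ℝ → ℝ × ℝ × ℝ) : Prop where
  path : GPath v 0 n₁ w
  mono : Monotone fun ρ => ht1 v (w ρ)
  anti : Antitone fun ρ => ht2 v (w ρ)

theorem BM.sw (h : BM v n₁ w) : BM (swv v) (swn n₁) (sw n₁ w) := by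
  refine ⟨sw_gpath h.path, ?_, ?_⟩
  · intro x y hxy
    have := h.anti (show 1 - y ≤ 1 - x by linarith)
    simp only [ht1_sw] at this ⊢
    linarith
  · intro x y hxy
    have := h.mono (show 1 - y ≤ 1 - x by linarith)
    simp only [ht2_sw] at this ⊢
    linarith

theorem BMo_ends (hw : GPath v 0 n₁ w) : w 0 = (1 / 2, 0, 0) ∧ w 1 = fin n₁ := by
  obtain ⟨ε, hε, h0⟩ := hw.start
  obtain ⟨ε', hε', h1⟩ := hw.stop
  refine ⟨?_, ?_⟩
  · rw [h0 0 hε.le]
    simp
  · rw [h1 1 (by linarith), fin]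

theorem BMo_cont1 (hw : GPath v 0 n₁ w) : Continuous fun ρ => ht1 v (w ρ) := by
  have h := hw.smooth.continuous
  unfold ht1
  fun_prop

theorem BMo_hit (hw : GPath v 0 n₁ w) {y : ℝ} (h0 : 0 ≤ y) (h1 : y ≤ ht1 v (fin n₁)) :
    ∃ ρ, 0 ≤ ρ ∧ ρ ≤ 1 ∧ ht1 v (w ρ) = y := by
  obtain ⟨e0, e1⟩ := BMo_ends hw
  have h2 := intermediate_value_Icc (zero_le_one : (0 : ℝ) ≤ 1) (BMo_cont1 hw).continuousOn
  have h3 : y ∈ Icc (ht1 v (w 0)) (ht1 v (w 1)) := by
    rw [e0, e1]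
    refine ⟨?_, h1⟩
    simpa [ht1] using h0
  obtain ⟨ρ, hρ, hy⟩ := h2 h3
  exact ⟨ρ, hρ.1, hρ.2, hy⟩

theorem BMo_gap {p q : ℤ} (hb : VB v p q) (hd : 0 < v.2.2) (hw : GPath v 0 n₁ w) {G : ℕ → ℤ}
    (hG : Gaps (fun ρ => pl v p q (w ρ)) G) {j : ℕ} {k : ℤ} {ρ : ℝ} (h1 : ht1 v (w ρ) = j)
    (h2 : (k : ℝ) ≤ ht2 v (w ρ) - hz2 v n₁) (h3 : ht2 v (w ρ) - hz2 v n₁ < k + 1) :
    G j = (k + (hz2 v n₁ + v.1 * q * j)) / v.2.2 := by
  have hx : ¬ Obs (pl v p q (w ρ)) := by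
    rw [obs_pl hb]
    rintro ⟨s, m, hm⟩
    exact hw.avoid ρ s m hm
  have h4 := cols_gap (j := (j : ℤ)) (k := k) (c := hz2 v n₁) hb hd hx (by rw [h1]; norm_cast) h2 h3
  have h5 : |cX v p q (w ρ) - G j| < 1 / 2 := hG j ρ h1
  have h6 : |((G j - (k + (hz2 v n₁ + v.1 * q * j)) / v.2.2 : ℤ) : ℝ)| < 1 := by
    rw [abs_lt] at h4 h5 ⊢
    push_cast [Int.cast_sub]
    constructor
    · have := h4.2
      have := h5.1
      have := h4.1
      have := h5.2
      linarith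
    · have := h4.2
      have := h5.1
      have := h4.1
      have := h5.2
      linarith
  have h7 : |G j - (k + (hz2 v n₁ + v.1 * q * j)) / v.2.2| < 1 := by exact_mod_cast h6
  rw [Int.abs_lt_one_iff] at h7
  linarith

theorem bm_yw (hΓ : CSW.WIn Gam.{u}) (hv : VGood v) (hd : 0 < v.2.2) (h : NM v n₁ N M) (hw : BM v n₁ w) :
    ∃ k : ℕ → ℕ, YD N M k ∧ GEq.{u} v w (yw v n₁ N M k) := by
  obtain ⟨p, q, hb⟩ := exists_vb hv.cop2
  obtain ⟨e0, e1⟩ := BMo_ends hw.path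
  have hend := h.fin1
  have hhit : ∀ j : ℕ, ∃ ρ, j ≤ N → 0 ≤ ρ ∧ ρ ≤ 1 ∧ ht1 v (w ρ) = j := by
    intro j
    by_cases hj : j ≤ N
    · obtain ⟨ρ, h1, h2, h3⟩ := BMo_hit hw.path (y := j) (Nat.cast_nonneg j) (by
        rw [hend]
        have : (j : ℝ) ≤ N := by exact_mod_cast hj
        linarith)
      exact ⟨ρ, fun _ => ⟨h1, h2, h3⟩⟩
    · exact ⟨0, fun h => absurd h hj⟩
  choose r hr using hhit
  set y : ℕ → ℝ := fun j => ht2 v (w (r j)) - hz2 v n₁ with hy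
  have hy0 : ∀ j, j ≤ N → 0 ≤ y j := by
    intro j hj
    have h1 := hw.anti (hr j hj).2.1
    simp only [e1, ht2_fin] at h1
    rw [hy]
    linarith
  have hyM : ∀ j, j ≤ N → y j ≤ M + 1 / 2 := by
    intro j hj
    have h1 := hw.anti (hr j hj).1
    simp only [e0, h.start2] at h1
    rw [hy]
    linarith
  set k : ℕ → ℕ := fun j => ⌊y j⌋₊ with hk
  have hk1 : ∀ j, j ≤ N → (k j : ℝ) ≤ y j := fun j hj => Nat.floor_le (hy0 j hj)
  have hk2 : ∀ j, y j < k j + 1 := fun j => Nat.lt_floor_add_one (y j)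
  have hY : YD N M k := by
    refine ⟨?_, ?_⟩
    · intro i j h1 hij hj
      rcases hij.eq_or_lt with rfl | hlt
      · exact le_rfl
      · apply Nat.floor_le_floor
        have hρ : r i ≤ r j := by
          by_contra hcon
          push Not at hcon
          have h2 := hw.mono hcon.le
          simp only [(hr i (hij.trans hj)).2.2, (hr j hj).2.2] at h2
          have h3 : j ≤ i := by exact_mod_cast h2
          omega
        have h4 := hw.anti hρ
        simp only [hy]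
        simp only at h4
        linarith
    · intro j h1 hj
      have h2 : y j < (M : ℝ) + 1 := by linarith [hyM j hj]
      have h3 : k j < M + 1 := by
        rw [hk, Nat.floor_lt (hy0 j hj)]
        push_cast
        exact h2
      omega
  have hz : GPath v 0 n₁ (yw v n₁ N M k) := yw_gpath hd.ne' h hY
  have zm : Monotone fun ρ => ht1 v (yw v n₁ N M k ρ) := yw_mono hd.ne'
  have hcont : ∀ {z : ℝ → ℝ × ℝ × ℝ}, GPath v 0 n₁ z → Monotone (fun ρ => ht1 v (z ρ)) →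
      ∃ G : ℕ → ℤ, Gaps (fun ρ => pl v p q (z ρ)) G := by
    intro z hz hm
    refine exists_gaps ?_ ?_ hm
    · exact (spath_of_gpath hb hz).smooth.continuous
    · intro ρ
      rw [obs_pl hb]
      rintro ⟨s, m, hm⟩
      exact hz.avoid ρ s m hm
  obtain ⟨G, hG⟩ := hcont hw.path hw.mono
  obtain ⟨G', hG'⟩ := hcont hz zm
  have hGG : ∀ j, 1 ≤ j → j ≤ N → G j = G' j := by
    intro j h1 hj
    have a1 := BMo_gap hb hd hw.path hG (j := j) (k := k j) (ρ := r j) (hr j hj).2.2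
      (by have := hk1 j hj; simpa [hy] using this) (by have := hk2 j; simpa [hy] using this)
    obtain ⟨ρ, -, -, hρ⟩ := BMo_hit hz (y := j) (Nat.cast_nonneg j) (by
        rw [hend]
        have : (j : ℝ) ≤ N := by exact_mod_cast hj
        linarith)
    have hc := yw_col hd.ne' h1 hj hρ
    have a2 := BMo_gap hb hd hz hG' (j := j) (k := k j) (ρ := ρ) hρ
      (by rw [hc]; push_cast; linarith) (by rw [hc]; push_cast; linarith)
    rw [a1, a2]
  refine ⟨k, hY, ?_⟩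
  refine v1eq hΓ hv hb (k := 0) (N := N) (G := G) (G' := G') hw.path ?_ hw.mono zm ?_ ?_ hG hG' ?_
  · have : n₁ + ((0 : ℤ), (0 : ℤ), (0 : ℤ)) = n₁ := by ext <;> simp
    rw [this]
    exact hz
  · rw [hend]; linarith
  · rw [hend]; linarith
  · have : (∑ i ∈ Finset.range (N + 1), if i % 2 = 1 then G i - (G' i - 0) else 0) = 0 := by
      apply Finset.sum_eq_zero
      intro i hi
      rw [Finset.mem_range] at hi
      split_ifs with h1
      · rw [hGG i (by omega) (by omega)]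
        ring
      · rfl
    rw [this]
    exact Even.zero

/-- all bi-monotone paths (with far away feet) carry the same manifolds -/
theorem bm_eq (hΓ : CSW.WIn Gam.{u}) (hv : VGood v) (hd : 0 < v.2.2) (h : NM v n₁ N M) (h1 : 1 ≤ N)
    (h2 : 2 * v.2.2 ≤ M) (hw : BM v n₁ w) (hw' : BM v n₁ w') : GEq.{u} v w w' := by
  obtain ⟨k, hk, e⟩ := bm_yw hΓ hv hd h hw
  obtain ⟨k', hk', e'⟩ := bm_yw hΓ hv hd h hw'
  exact e.trans ((yw_all hΓ hv hd h h1 h2 hk hk').trans e'.symm)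

theorem mono_bm (hΓ : CSW.WIn Gam.{u}) (hv : VGood v) (hd : 0 < v.2.2) (hw : GPath v 0 n₁ w)
    (hm : Monotone fun ρ => ht1 v (w ρ)) {i : ℤ} (h : NM v (n₁ + (i, 0, 0)) N M) (h2 : v.2.2 ≤ M) :
    ∃ w', BM v (n₁ + (i, 0, 0)) w' ∧ GEq.{u} v w w' := by
  obtain ⟨p, q, hb⟩ := exists_vb hv.cop2
  have hY0 : YD N M (fun _ => 0) := ⟨fun _ _ _ _ _ => le_rfl, fun _ _ _ => Nat.zero_le _⟩
  have hY1 : YD N M (CSW.rect 1 v.2.2.toNat) := CSW.rect_yd (by omega)
  have hbm : ∀ {k : ℕ → ℕ}, YD N M k → BM v (n₁ + (i, 0, 0)) (yw v (n₁ + (i, 0, 0)) N M k) :=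
    fun hk => ⟨yw_gpath hd.ne' h hk, yw_mono hd.ne', yw_anti hd.ne' hk⟩
  have hcont : ∀ {m : ℤ × ℤ × ℤ} {z : ℝ → ℝ × ℝ × ℝ}, GPath v 0 m z →
      Monotone (fun ρ => ht1 v (z ρ)) → ∃ G : ℕ → ℤ, Gaps (fun ρ => pl v p q (z ρ)) G := by
    intro m z hz hm
    refine exists_gaps ?_ ?_ hm
    · exact (spath_of_gpath hb hz).smooth.continuous
    · intro ρ
      rw [obs_pl hb]
      rintro ⟨s, m, hm⟩
      exact hz.avoid ρ s m hm
  have hend' := h.fin1
  have hend : ht1 v (fin n₁) = N + 1 / 2 := by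
    rw [← hend']
    simp [ht1, fin]
  obtain ⟨G, hG⟩ := hcont hw hm
  obtain ⟨G', hG'⟩ := hcont (hbm hY0).path (hbm hY0).mono
  obtain ⟨G'', hG''⟩ := hcont (hbm hY1).path (hbm hY1).mono
  have hval : ∀ {k : ℕ → ℕ} {K : ℕ → ℤ}, YD N M k →
      Gaps (fun ρ => pl v p q (yw v (n₁ + (i, 0, 0)) N M k ρ)) K → ∀ j, 1 ≤ j → j ≤ N →
      K j = (k j + (hz2 v (n₁ + (i, 0, 0)) + v.1 * q * j)) / v.2.2 := by
    intro k K hk hK j h1 hj
    obtain ⟨ρ, -, -, hρ⟩ := BMo_hit (hbm hk).path (y := j) (Nat.cast_nonneg j) (by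
        rw [hend']
        have : (j : ℝ) ≤ N := by exact_mod_cast hj
        linarith)
    have hc := yw_col hd.ne' h1 hj hρ
    exact BMo_gap hb hd (hbm hk).path hK (j := j) (k := k j) (ρ := ρ) hρ
      (by rw [hc]; push_cast; linarith) (by rw [hc]; push_cast; linarith)
  have hdiff : ∀ j, 1 ≤ j → j ≤ N → G'' j = G' j + if j = 1 then 1 else 0 := by
    intro j h1 hj
    rw [hval hY1 hG'' j h1 hj, hval hY0 hG' j h1 hj]
    by_cases hj1 : j = 1
    · rw [if_pos hj1]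
      have e : ((CSW.rect 1 v.2.2.toNat j : ℕ) : ℤ) = v.2.2 := by
        rw [CSW.rect, if_pos (by omega)]
        omega
      rw [e, Int.add_comm v.2.2, Int.add_ediv_of_dvd_right (dvd_refl _), Int.ediv_self hd.ne']
      simp
    · rw [if_neg hj1]
      have e : CSW.rect 1 v.2.2.toNat j = 0 := by
        rw [CSW.rect, if_neg (by omega)]
      rw [e]
      simp
  have fin_step : ∀ {k : ℕ → ℕ} {K : ℕ → ℤ}, YD N M k →
      Gaps (fun ρ => pl v p q (yw v (n₁ + (i, 0, 0)) N M k ρ)) K →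
      Even (∑ t ∈ Finset.range (N + 1), if t % 2 = 1 then G t - (K t - i) else 0) →
      ∃ w', BM v (n₁ + (i, 0, 0)) w' ∧ GEq.{u} v w w' := by
    intro k K hk hK he
    refine ⟨_, hbm hk, ?_⟩
    exact v1eq hΓ hv hb (k := i) (N := N) hw (hbm hk).path hm (hbm hk).mono
      (by rw [hend]; linarith) (by rw [hend]; linarith) hG hK he
  by_cases hN : N = 0
  · refine fin_step hY0 hG' ?_
    subst hN
    simp
  · have hsum : (∑ t ∈ Finset.range (N + 1), if t % 2 = 1 then G t - (G' t - i) else 0) =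
        (∑ t ∈ Finset.range (N + 1), if t % 2 = 1 then G t - (G'' t - i) else 0) + 1 := by
      have e : (1 : ℤ) = ∑ t ∈ Finset.range (N + 1), if t = 1 then 1 else 0 := by
        rw [Finset.sum_ite_eq' (Finset.range (N + 1)) 1 (fun _ => (1 : ℤ)),
          if_pos (Finset.mem_range.2 (by omega))]
      conv_rhs => rw [e, ← Finset.sum_add_distrib]
      apply Finset.sum_congr rfl
      intro t ht
      rw [Finset.mem_range] at ht
      by_cases h1 : t % 2 = 1
      · rw [if_pos h1, if_pos h1, hdiff t (by omega) (by omega)]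
        split_ifs <;> ring
      · rw [if_neg h1, if_neg h1, if_neg (by rintro rfl; exact h1 rfl)]
        ring
    rcases Int.even_or_odd
      (∑ t ∈ Finset.range (N + 1), if t % 2 = 1 then G t - (G' t - i) else 0) with he | he
    · exact fin_step hY0 hG' he
    · refine fin_step hY1 hG'' ?_
      rw [hsum] at he
      generalize (∑ t ∈ Finset.range (N + 1), if t % 2 = 1 then G t - (G'' t - i) else 0) = Z at he ⊢
      rcases he with ⟨b, hb⟩
      exact ⟨b, by linarith⟩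

theorem anti_bm (hΓ : CSW.WIn Gam.{u}) (hv : VGood v) (hd : 0 < v.2.2) (hw : GPath v 0 n₁ w)
    (hm : Antitone fun ρ => ht2 v (w ρ)) {i : ℤ} (h : NM v (n₁ + (0, i, 0)) N M) (h2 : v.2.2 ≤ N) :
    ∃ w', BM v (n₁ + (0, i, 0)) w' ∧ GEq.{u} v w w' := by
  have e : swn n₁ + (-i, 0, 0) = swn (n₁ + (0, i, 0)) := by
    simp only [swn]
    ext
    · simp
      ring
    · simp
    · simp
  have hm' : Monotone fun ρ => ht1 (swv v) (sw n₁ w ρ) := by
    intro x y hxy
    have := hm (show 1 - y ≤ 1 - x by linarith)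
    simp only [ht1_sw] at this ⊢
    linarith
  obtain ⟨w1, hb1, he1⟩ := mono_bm hΓ (swv_good hv) (show 0 < (swv v).2.2 from hd)
    (sw_gpath hw) hm' (i := -i) (N := M) (M := N) (by rw [e]; exact h.sw) h2
  rw [e] at hb1
  refine ⟨sw (swn (n₁ + (0, i, 0))) w1, ?_, ?_⟩
  · have := hb1.sw
    rwa [swv_swv, swn_swn] at this
  · have := geq_sw (sw_gpath hw) hb1.path he1
    rwa [swv_swv, sw_sw] at this

end Pool.Agent.GLB
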