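import Pool.Agent.GLB.V1c
import Pool.Agent.GLB.KSm
import Pool.Agent.PTH.Repl

/-!
# GLB/Cmp: paths which differ by a word in `V₁`   (difficulty 2-3)

* `vknot1`: `K = gK w`, `C = C1 v p q`, `γ = arc (wpath L)`: `per`, `smooth`: KSm.  `inner`: `|l| < 1/4`: the norm of
  `(arc (wpath L) l).1 = 4 l ex (..)` is `|4 l| < 1`.  For `0 ≤ l < 1/4`: `gK w l = gE (2l) (w (2l)) = gE (4l / 2) (LL (wpath L (4 l)) 0)`
  `= C1 (4 l ex X, Y, 0)` (`C1_pol`, `r = 4 l`).  For `-1/4 < l < 0`: `wpath L (4 l) = (0, 0)`, `arc .. l = (4 l, 0)`,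
  `4 l = (-4 l) ex (1/2)`, `C1 = gE (-2 l) (LL (1/2, 0) 0) = gE (-2 l) (1, 0, 0) = gE (-2 l) (0, 0, 0)` (`gE_int`).
  `outer`: for `1/4 ≤ l ≤ 3/4`, `gK w l = gE ρ x` with `1/2 ≤ ρ ≤ 1` (`gK_pos`, `gK_half`), and `C1 (z, Y, t) = gE (‖z‖/2) x'` with
  `‖z‖/2 < 1/2` (`C1_pol`, `z = ‖z‖ ex X`): if equal: `ρ = 1` is impossible by `gE_z2`, `‖z‖ = 0` by `gE_z1`, otherwise `gE_inj` gives
  `ρ = ‖z‖ / 2`.
* `gcar_pathEq`: `PathEq` with `a = gact v`, `C = C1 v p q`, `K = gK w`, `K' = gK w'`; the tails agree: for `1/4 ≤ l < 1/2`: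
  `gE (2l) (w (2l) + rv m) = gE (2l) (w (2l))`; for `1/2 ≤ l ≤ 3/4`: `gK_half` for both.
* `geq_cmpr`: `up (cmpr L s₁) ρ = LL (wpath L (2ρ)) 0` for `ρ ≤ 1/2` (the transition functions `st (4ρ - 5/2)`, `st (8ρ - 6)` vanish
  for `ρ ≤ 5/8`); for `ρ ≥ 1/2`, `wpath L (2ρ) = sumZ L =: (i, N)` (`wpath_isPath`; more precisely `wpath L ρ = sumZ L` for `ρ ≥ 3/4`), so
  `cmpr L s₁ ρ = (i, N) + st (s₁ - (i, N))`, `cmpr L' s₁' ρ = (i', N) + st (s₁' - (i', N))` and `s₁' - s₁ = (i' - i, 0)` implies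
  `cmpr L' s₁' ρ = cmpr L s₁ ρ + (i' - i, 0)`, and `up .. = up .. + rv (i' - i, 0, 0)` (`LL_add_int`; `cC (fin n₁') = cC (fin n₁)`).
-/

open scoped Manifold ContDiff Topology
open Set Filter
open Complex (I)

namespace Pool.Agent.GLB

open Pool.Agent.PTH
open Pool.Agent.RSG (E4 S3 pS3 ex)

universe u

variable {v : ℤ × ℤ × ℤ} {p q : ℤ} {n₁ n₁' : ℤ × ℤ × ℤ} {w w' : ℝ → ℝ × ℝ × ℝ}

theorem vknot1 (hv : VGood v) (hb : VB v p q) (hw : GPath v 0 n₁ w) (L : List (Bool × Bool))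
    (e : ∀ ρ, ρ < 1 / 2 → w ρ = LL v p q (wpath L (2 * ρ)) 0) : VKnot ISP (C1 v p q) (arc (wpath L)) (gK w) := by
  refine ⟨gK_per w, gK_smooth hw, ?_, ?_⟩
  · intro l hl
    refine ⟨arc_norm hl, ?_⟩
    rw [abs_lt] at hl
    rcases le_or_gt 0 l with h0 | h0
    · rw [gK_pos w h0 (by linarith), e _ (by linarith)]
      have h1 := C1_pol v p q (r := 4 * l) (by linarith) (wpath L (4 * l)).1 (wpath L (4 * l)).2 0
      have e1 : 4 * l / 2 = 2 * l := by ring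
      have e2 : 2 * (2 * l) = 4 * l := by ring
      rw [e1] at h1
      rw [e2]
      exact h1.symm
    · rw [gK_neg w (by linarith) h0]
      obtain ⟨ε, hε, hs⟩ := (wpath_isPath L).start
      have hz : wpath L (4 * l) = (0, 0) := hs _ (by linarith)
      have h1 := C1_pol v p q (r := -4 * l) (by linarith) (1 / 2) 0 0
      have e1 : -4 * l / 2 = -2 * l := by ring
      rw [e1] at h1
      have e3 : LL v p q ((1 / 2 : ℝ), (0 : ℝ)) 0 = (0, 0, 0) + rv (1, 0, 0) := by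
        unfold LL rv
        ext <;> simp
        norm_num
      rw [e3, gE_int] at h1
      rw [← h1]
      unfold arc
      rw [hz]
      congr 2
      rw [RSG.ex_zero, RSG.ex_half]
      push_cast
      ring
  · intro l h1 h2 z Y t hz he
    obtain ⟨ρ, x, hρ1, hρ2, hρ3⟩ : ∃ (ρ : ℝ) (x : ℝ × ℝ × ℝ), 1 / 2 ≤ ρ ∧ ρ ≤ 1 ∧ gK w l = gE ρ x := by
      rcases lt_or_ge l (1 / 2) with h | h
      · exact ⟨2 * l, _, by linarith, by linarith, gK_pos w (by linarith) h⟩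
      · exact ⟨2 - 2 * l, _, by linarith, by linarith, gK_half w h (by linarith)⟩
    obtain ⟨X, hX⟩ : ∃ X : ℝ, (‖z‖ : ℂ) * ex X = z := ⟨_, RSG.ex_arg⟩
    have h3 := C1_pol v p q (norm_nonneg z) X Y t
    rw [hX] at h3
    rw [hρ3, h3] at he
    have hn := norm_nonneg z
    rcases eq_or_lt_of_le hρ2 with h4 | h4
    · have h5 := (gE_z2 ρ x).2 h4
      rw [he] at h5
      have := (gE_z2 _ _).1 h5
      linarith
    · rcases eq_or_lt_of_le hn with h5 | h5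
      · have h6 := (gE_z1 (‖z‖ / 2) (LL v p q (X, Y) t)).2 (by rw [← h5]; norm_num)
        rw [← he] at h6
        have := (gE_z1 _ _).1 h6
        linarith
      · have := (gE_inj (by linarith) h4 (by linarith) (by linarith) he).1
        linarith

theorem gcar_pathEq (hv : VGood v) (hb : VB v p q) (hw : GPath v 0 n₁ w) (hw' : GPath v 0 n₁' w')
    {L L' : List (Bool × Bool)} (h : PathEq.{u} (wpath L) (wpath L'))
    (e : ∀ ρ, ρ < 1 / 2 → w ρ = LL v p q (wpath L (2 * ρ)) 0)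
    (e' : ∀ ρ, ρ < 1 / 2 → w' ρ = LL v p q (wpath L' (2 * ρ)) 0)
    (m : ℤ × ℤ × ℤ) (ht : ∀ ρ, 1 / 2 ≤ ρ → w' ρ = w ρ + rv m) : GEq.{u} v w w' := by
  intro n X _ _ _
  refine h (gact v) (C1 v p q) (gK w) (gK w') n X (gact_act hv.cop1 hv.cop2)
    (vchart1 hb hv.cop1 hv.cop2) (vknot1 hv hb hw L e) (vknot1 hv hb hw' L' e') ?_
  intro l h1 h2
  rcases lt_or_ge l (1 / 2) with h3 | h3
  · rw [gK_pos w (by linarith) h3, gK_pos w' (by linarith) h3, ht _ (by linarith), gE_int]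
  · rw [gK_half w h3 (by linarith), gK_half w' h3 (by linarith)]

/-- the compressed paths of the words `L`, `L'` -/
theorem geq_cmpr (hv : VGood v) (hb : VB v p q) {n₁ : ℤ × ℤ × ℤ} {k : ℤ} {L L' : List (Bool × Bool)}
    (h : PathEq.{u} (wpath L) (wpath L')) (hs : sumZ L' = sumZ L + (k, 0))
    (hu : SPath (0, 0) (pl v p q (fin n₁)) (cmpr L (pl v p q (fin n₁))))
    (hu' : SPath (0, 0) (pl v p q (fin (n₁ + (k, 0, 0)))) (cmpr L' (pl v p q (fin (n₁ + (k, 0, 0)))))) :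
    GEq.{u} v (up v p q n₁ (cmpr L (pl v p q (fin n₁))))
      (up v p q (n₁ + (k, 0, 0)) (cmpr L' (pl v p q (fin (n₁ + (k, 0, 0)))))) := by
  have key : ∀ (n : ℤ × ℤ × ℤ) (M : List (Bool × Bool)) (s : ℝ × ℝ) (ρ : ℝ), ρ < 1 / 2 →
      up v p q n (cmpr M s) ρ = LL v p q (wpath M (2 * ρ)) 0 := by
    intro n M s ρ hρ
    unfold up cmpr
    rw [Real.smoothTransition.zero_of_nonpos (x := 8 * ρ - 6) (by linarith),
      Real.smoothTransition.zero_of_nonpos (x := 4 * ρ - 5 / 2) (by linarith), mul_zero, zero_smul,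
      add_zero]
  have hend : ∀ (M : List (Bool × Bool)) (ρ : ℝ), 1 / 2 ≤ ρ →
      wpath M (2 * ρ) = (((sumZ M).1 : ℝ), ((sumZ M).2 : ℝ)) := by
    intro M ρ hρ
    obtain ⟨ε, hε, hs⟩ := (wpath_isPath M).stop
    exact hs _ (by linarith)
  refine gcar_pathEq hv hb (up_gpath hb hu) (up_gpath hb hu') h (key _ _ _) (key _ _ _) (k, 0, 0) ?_
  intro ρ hρ
  have hc : cC p q (fin (n₁ + (k, 0, 0))) = cC p q (fin n₁) := by
    unfold cC fin
    simp
  have hX : cX v p q (fin (n₁ + (k, 0, 0))) = cX v p q (fin n₁) + k := by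
    unfold cX
    rw [hc]
    unfold fin
    simp
    ring
  have hY : ht1 v (fin (n₁ + (k, 0, 0))) = ht1 v (fin n₁) := by
    unfold ht1 fin
    simp
  have hc1 : cmpr L' (pl v p q (fin (n₁ + (k, 0, 0)))) ρ =
      cmpr L (pl v p q (fin n₁)) ρ + ((k : ℝ), 0) := by
    unfold cmpr
    rw [hend _ _ hρ, hend _ _ hρ, hs]
    unfold pl
    rw [hX, hY]
    ext
    · simp
      ring
    · simp
  unfold up
  rw [hc1, hc]
  unfold LL rv
  ext
  · simp
    ring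
  · simp
  · simp

end Pool.Agent.GLB
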