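import Pool.Agent.GLB.V1E
import Pool.Agent.GLB.Swp

/-!
# GLB/Col: gaps in terms of the second height   (difficulty 2)

`d = v.2.2 > 0`, `c₂ = hz2 v n₁`, `s j = c₂ + a q j`.  The abscissa is `cX v p q x + 1/2 = (ht2 v x + a q ht1 v x) / d`: indeed
`ht2 + a q ht1 = d x₁ - a x₃ + a q (d x₂ - b x₃) = d x₁ + a q d x₂ - a x₃ (1 + q b)` and `1 + q b = d p`, so it is `d (x₁ - a (p x₃ - q x₂))`.
* `cols_gap`: `k ≤ ht2 v x - c₂ < k + 1`, `ht1 v x = j`, `g = (k + s j) / d` (integer division, `d > 0`): `d g ≤ k + s j < d g + d`, so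
  `g ≤ (ht2 + a q j) / d < g + 1` (`k + s j ≤ ht2 + a q j < k + s j + 1 ≤ d (g + 1)`), i.e. `-1/2 ≤ cX - g < 1/2`, and `cX - g = -1/2` would be an
  obstacle.
* `NM v n₁ N M`: `2 N + 1 = d + 2 hz1 v n₁`, `2 M + 1 + 2 hz2 v n₁ = d`: the path goes from `(0, M + 1/2)` to `(N + 1/2, 0)` in the coordinates
  `(ht1, ht2 - c₂)`.  `ht1 v (fin n₁) = d / 2 + hz1 v n₁ = N + 1/2`; `ht2 v (1/2, 0, 0) = d/2 = M + 1/2 + c₂`; `ht2 v (fin n₁) = c₂`.
* `Lob v n₁ j i`: the point `(j, i)` (in these coordinates) is an obstacle.  `lob_iff`: `hz2 m + a q hz1 m = d (m₁ + a q m₂ - a p m₃)`;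
  conversely `m = (r, j p, j q)` with `d r = i + c₂ + a q j` (`hz1 m = j (d p - b q) = j`, `hz2 m = d r - a j q = i + c₂`).
* `lob_sw`: `m' = (m₂ - n₂, m₁ - n₁, m₃ - n₃)`.
* `div_cnt`: `(k + s) / d - s / d` = number of `i ∈ [1, k]` with `d ∣ i + s`: induction on `k` (`(x + 1) / d = x / d + 1` iff `d ∣ x + 1`; for `d > 0`).
-/

open scoped Manifold ContDiff Topology
open Set Filter

namespace Pool.Agent.GLB

open Pool.Agent.PTH

universe u

variable {v : ℤ × ℤ × ℤ} {p q : ℤ} {n₁ : ℤ × ℤ × ℤ}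

theorem cols_gap (hb : VB v p q) (hd : 0 < v.2.2) {x : ℝ × ℝ × ℝ} (hx : ¬ Obs (pl v p q x)) {j k c : ℤ}
    (h1 : ht1 v x = j) (h2 : (k : ℝ) ≤ ht2 v x - c) (h3 : ht2 v x - c < k + 1) :
    |cX v p q x - (((k + (c + v.1 * q * j)) / v.2.2 : ℤ) : ℝ)| < 1 / 2 := by
  have hb' : (v.2.2 : ℝ) * p - v.2.1 * q = 1 := by exact_mod_cast hb
  have hd' : (0 : ℝ) < v.2.2 := by exact_mod_cast hd
  have e1 : (v.2.2 : ℝ) * (cX v p q x + 1 / 2) = ht2 v x + v.1 * q * ht1 v x := by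
    unfold cX cC ht1 ht2
    linear_combination (-(v.1 : ℝ) * x.2.2) * hb'
  rw [h1] at e1
  obtain ⟨n, hn⟩ : ∃ n : ℤ, n = k + (c + v.1 * q * j) := ⟨_, rfl⟩
  rw [← hn]
  have hn' : (n : ℝ) = k + (c + v.1 * q * j) := by
    rw [hn]
    push_cast
    ring
  have g1 : v.2.2 * (n / v.2.2) ≤ n := Int.mul_ediv_self_le (by omega)
  have g2 : n < v.2.2 * (n / v.2.2) + v.2.2 := Int.lt_mul_ediv_self_add hd
  have g1' : (v.2.2 : ℝ) * ((n / v.2.2 : ℤ) : ℝ) ≤ n := by exact_mod_cast g1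
  have g2' : (n : ℝ) + 1 ≤ v.2.2 * ((n / v.2.2 : ℤ) : ℝ) + v.2.2 := by exact_mod_cast g2
  have k1 : ((n / v.2.2 : ℤ) : ℝ) ≤ cX v p q x + 1 / 2 := by
    by_contra hc
    push Not at hc
    have := mul_lt_mul_of_pos_left hc hd'
    linarith
  have k2 : cX v p q x + 1 / 2 < ((n / v.2.2 : ℤ) : ℝ) + 1 := by
    by_contra hc
    push Not at hc
    have := mul_le_mul_of_nonneg_left hc hd'.le
    linarith
  have k3 : cX v p q x + 1 / 2 ≠ ((n / v.2.2 : ℤ) : ℝ) := by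
    intro h4
    refine hx ⟨n / v.2.2 - 1, j, ?_⟩
    unfold pl
    rw [h1, Prod.mk.injEq]
    refine ⟨?_, rfl⟩
    push_cast
    linarith
  rw [abs_lt]
  constructor
  · have := lt_of_le_of_ne k1 (Ne.symm k3)
    linarith
  · linarith

/-- The path goes from `(0, M + 1/2)` to `(N + 1/2, 0)`. -/
structure NM (v n₁ : ℤ × ℤ × ℤ) (N M : ℕ) : Prop where
  hN : 2 * (N : ℤ) + 1 = v.2.2 + 2 * hz1 v n₁
  hM : 2 * (M : ℤ) + 1 + 2 * hz2 v n₁ = v.2.2

theorem NM.fin1 {N M : ℕ} (h : NM v n₁ N M) : ht1 v (fin n₁) = N + 1 / 2 := by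
  have h1 := h.hN
  have h2 : 2 * (N : ℝ) + 1 = v.2.2 + 2 * (v.2.2 * n₁.2.1 - v.2.1 * n₁.2.2) := by
    unfold hz1 at h1
    exact_mod_cast h1
  unfold ht1 fin
  simp only
  linarith

theorem ht2_fin (v n₁ : ℤ × ℤ × ℤ) : ht2 v (fin n₁) = hz2 v n₁ := by
  unfold ht2 fin hz2
  push_cast
  ring

theorem NM.start2 {N M : ℕ} (h : NM v n₁ N M) : ht2 v (1 / 2, 0, 0) = M + 1 / 2 + hz2 v n₁ := by
  have h1 := h.hM
  have h2 : 2 * (M : ℝ) + 1 + 2 * hz2 v n₁ = v.2.2 := by exact_mod_cast h1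
  unfold ht2
  simp only
  linarith

theorem NM.sw {N M : ℕ} (h : NM v n₁ N M) : NM (swv v) (swn n₁) M N := by
  have h1 := h.hN
  have h2 := h.hM
  constructor
  · rw [hz1_swn]
    change 2 * (M : ℤ) + 1 = v.2.2 + 2 * -hz2 v n₁
    omega
  · rw [hz2_swn]
    change 2 * (N : ℤ) + 1 + 2 * -hz1 v n₁ = v.2.2
    omega

/-- `(j, i)` is an obstacle -/
def Lob (v n₁ : ℤ × ℤ × ℤ) (j i : ℕ) : Prop := ∃ m : ℤ × ℤ × ℤ, hz1 v m = j ∧ hz2 v m = i + hz2 v n₁

theorem lob_iff (hb : VB v p q) (n₁ : ℤ × ℤ × ℤ) (j i : ℕ) :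
    Lob v n₁ j i ↔ v.2.2 ∣ (i : ℤ) + (hz2 v n₁ + v.1 * q * j) := by
  unfold VB at hb
  constructor
  · rintro ⟨m, h1, h2⟩
    refine ⟨m.1 + v.1 * q * m.2.1 - v.1 * p * m.2.2, ?_⟩
    unfold hz1 at h1
    have h3 : (i : ℤ) = (v.2.2 * m.1 - v.1 * m.2.2) - hz2 v n₁ := by
      unfold hz2 at h2 ⊢
      linarith
    rw [h3, ← h1]
    linear_combination (v.1 * m.2.2) * hb
  · rintro ⟨r, hr⟩
    refine ⟨(r, j * p, j * q), ?_, ?_⟩
    · unfold hz1
      simp only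
      linear_combination (j : ℤ) * hb
    · unfold hz2 at hr ⊢
      simp only
      linear_combination -hr

theorem lob_sw (v n₁ : ℤ × ℤ × ℤ) (i j : ℕ) : Lob (swv v) (swn n₁) i j ↔ Lob v n₁ j i := by
  unfold Lob
  constructor
  · rintro ⟨m, h1, h2⟩
    refine ⟨(m.2.1 + n₁.1, m.1 + n₁.2.1, m.2.2 + n₁.2.2), ?_, ?_⟩
    · rw [hz2_swn] at h2
      unfold hz1 hz2 swv at *
      simp only at *
      linear_combination h2
    · unfold hz1 hz2 swv at *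
      simp only at *
      linear_combination h1
  · rintro ⟨m, h1, h2⟩
    refine ⟨(m.2.1 - n₁.2.1, m.1 - n₁.1, m.2.2 - n₁.2.2), ?_, ?_⟩
    · unfold hz1 hz2 swv at *
      simp only at *
      linear_combination h2
    · rw [hz2_swn]
      unfold hz1 hz2 swv at *
      simp only at *
      linear_combination h1

theorem Col_div {d : ℤ} (hd : 0 < d) (x : ℤ) :
    (x + 1) / d = x / d + if d ∣ x + 1 then 1 else 0 := by
  have h1 := Int.mul_ediv_add_emod x d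
  have h2 := Int.emod_nonneg x (by omega : d ≠ 0)
  have h3 := Int.emod_lt_of_pos x hd
  by_cases h4 : x % d + 1 = d
  · have h5 : x + 1 = d * (x / d + 1) := by
      rw [mul_add, mul_one]
      omega
    have h6 : d ∣ x + 1 := ⟨_, h5⟩
    rw [if_pos h6]
    conv_lhs => rw [h5]
    exact Int.mul_ediv_cancel_left _ (by omega)
  · have h5 : (x + 1) / d = x / d ∧ (x + 1) % d = x % d + 1 := by
      rw [Int.ediv_emod_unique hd]
      exact ⟨by omega, by omega, by omega⟩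
    have h6 : ¬ d ∣ x + 1 := by
      intro h7
      have h8 := Int.emod_eq_zero_of_dvd h7
      omega
    rw [if_neg h6, add_zero, h5.1]

theorem div_cnt (hb : VB v p q) (hd : 0 < v.2.2) (n₁ : ℤ × ℤ × ℤ) (j k : ℕ) :
    ((k : ℤ) + (hz2 v n₁ + v.1 * q * j)) / v.2.2 =
      (hz2 v n₁ + v.1 * q * j) / v.2.2 + (CSW.cnt (Lob v n₁) j k : ℤ) := by
  classical
  induction k with
  | zero =>
    have h1 : CSW.cnt (Lob v n₁) j 0 = 0 := by
      unfold CSW.cnt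
      simp
    rw [h1]
    push_cast
    rw [zero_add, add_zero]
  | succ k ih =>
    have h1 : CSW.cnt (Lob v n₁) j (k + 1) =
        CSW.cnt (Lob v n₁) j k + if Lob v n₁ j (k + 1) then 1 else 0 := by
      unfold CSW.cnt
      have h2 : Finset.Icc 1 (k + 1) = insert (k + 1) (Finset.Icc 1 k) := by
        ext x
        simp only [Finset.mem_Icc, Finset.mem_insert]
        omega
      rw [h2, Finset.filter_insert]
      split_ifs with h3
      · rw [Finset.card_insert_of_notMem]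
        simp
      · rfl
    have h4 : (((k + 1 : ℕ) : ℤ) + (hz2 v n₁ + v.1 * q * j)) =
        ((k : ℤ) + (hz2 v n₁ + v.1 * q * j)) + 1 := by
      push_cast
      ring
    have h5 : Lob v n₁ j (k + 1) ↔ v.2.2 ∣ ((k : ℤ) + (hz2 v n₁ + v.1 * q * j)) + 1 := by
      rw [lob_iff hb, ← h4]
    rw [h4, Col_div hd, ih, h1]
    by_cases h6 : Lob v n₁ j (k + 1)
    · rw [if_pos h6, if_pos (h5.1 h6)]
      push_cast
      ring
    · rw [if_neg h6, if_neg (fun h7 => h6 (h5.2 h7))]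
      push_cast
      ring

end Pool.Agent.GLB
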