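import Pool.Agent.GLB.TCg
import Pool.Agent.GLB.KSm
import Pool.Agent.GLB.ActG
import Pool.Agent.COR.Defs

/-!
# GLB/FgA: the box of the 4-move in `S3 × S1`   (difficulty 2-3)

(The same as PTH/FourE.lean, with the torus chart `Eg` of `S3 × S1` in place of a V-chart.)
`bxg (z, s, t) = Eg ((m + 7/16) + n i + z/16, ρ₀ + ε s, t)`: `z = 1` is the obstacle `(m + 1/2, n)` (the first strand), `z = -1` is `(m + 3/8, n)`.
* `bxg_box`: `Eg ∘ A`, `A` an affine isomorphism (`CSG.ld_of_perm`), `tchart`; `inj`: the real and imaginary parts of `z`, `z'` differ by less than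
  `10 < 16`, so the periods vanish.  `per`: `tchart.equiv`, `Act.per`, `Act.add`.
* `bxg_equi`: `tchart.equiv`.
* `bxg_two`: `K = gK (up .. u)`, `f₁ x = (-ρ₀ + ε x) / 2`, `f₂ x = (ρ₀ + ε x) / 2`.  `strand₁`: `l = f₁ x ∈ (-1/2, 0)`: `gK_neg`: `gE (-2 l) 0`, `-2 l = ρ₀ + ε (-x)`;
  `bxg (1, -x, 0) = gE (ρ₀ - ε x) (LL (m + 1/2, n) 0) = gE .. (m + 1, n p, n q)` (`gE_int`).  `strand₂`: `gK_pos`: `gE ρ (up u ρ)`, `ρ = ρ₀ + ε x ≤ 3/4`, so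
  `smoothTransition (8ρ - 6) = 0`, `up u ρ = LL (m + 3/8, n) 0`.
  `off`: `f₁ 1 ≤ l ≤ f₂ (-1)`: `K l = gE |2 l| ..`, `|2 l| ≤ ρ₀ - ε`, while the points of the box have `ρ ∈ (ρ₀ - ε, ρ₀ + ε)` (`gE_inj`, `gE_ne`); `f₂ 1 ≤ l ≤ f₁ (-1) + 1`:
  `ρ ≥ ρ₀ + ε` (`gK_pos` for `l < 1/2`, `gK_half` for `l ≥ 1/2`).
-/

open scoped Manifold ContDiff Topology
open Set Filter
open Complex (I)

namespace Pool.Agent.GLB

open Pool.Agent.PTH
open Pool.Agent.RSG (E4 S3 pS3 ex)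
open Pool.Agent.RBM (Box)
open Pool.Agent.COR (TwoStrands EquiB)

/-- the box -/
noncomputable def bxg (v : ℤ × ℤ × ℤ) (p q m n : ℤ) (ρ₀ ε : ℝ) (y : ℂ × ℝ × ℝ) : SP :=
  Eg v p q (⟨m + 7 / 16 + y.1.re / 16, n + y.1.im / 16⟩, ρ₀ + ε * y.2.1, y.2.2)

variable {v : ℤ × ℤ × ℤ} {p q m n : ℤ} {ρ₀ ε : ℝ} {n₁ : ℤ × ℤ × ℤ}

/-- the affine isomorphism -/
noncomputable def FgA_A (c : ℂ) (ρ₀ : ℝ) {ε : ℝ} (hε : ε ≠ 0) : (ℂ × ℝ × ℝ) ≃ (ℂ × ℝ × ℝ) where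
  toFun q := (c + (1 / 16 : ℂ) * q.1, ρ₀ + ε * q.2.1, q.2.2)
  invFun q := (16 * (q.1 - c), ε⁻¹ * (q.2.1 - ρ₀), q.2.2)
  left_inv q := by
    rcases q with ⟨z, s, t⟩
    refine Prod.ext ?_ (Prod.ext ?_ rfl)
    · show 16 * (c + (1 / 16 : ℂ) * z - c) = z
      ring
    · show ε⁻¹ * (ρ₀ + ε * s - ρ₀) = s
      field_simp
      ring
  right_inv q := by
    rcases q with ⟨z, s, t⟩
    refine Prod.ext ?_ (Prod.ext ?_ rfl)
    · show c + (1 / 16 : ℂ) * (16 * (z - c)) = z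
      ring
    · show ρ₀ + ε * (ε⁻¹ * (s - ρ₀)) = s
      field_simp
      ring

theorem FgA_A_ld (c : ℂ) (ρ₀ : ℝ) {ε : ℝ} (hε : ε ≠ 0) (x : ℂ × ℝ × ℝ) :
    IsLocalDiffeomorphAt 𝓘(ℝ, ℂ × ℝ × ℝ) 𝓘(ℝ, ℂ × ℝ × ℝ) ∞ (FgA_A c ρ₀ hε) x := by
  apply Pool.Agent.CSG.ld_of_perm
  · show ContDiff ℝ ∞ fun q : ℂ × ℝ × ℝ => (c + (1 / 16 : ℂ) * q.1, ρ₀ + ε * q.2.1, q.2.2)
    fun_prop
  · show ContDiff ℝ ∞ fun q : ℂ × ℝ × ℝ => (16 * (q.1 - c), ε⁻¹ * (q.2.1 - ρ₀), q.2.2)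
    fun_prop

theorem FgA_re (c z : ℂ) : (c + (1 / 16 : ℂ) * z).re = c.re + z.re / 16 := by
  have h : (c + (1 / 16 : ℂ) * z) = (c + ((1 / 16 : ℝ) : ℂ) * z) := by
    push_cast
    ring
  rw [h, Complex.add_re, Complex.re_ofReal_mul]
  ring

theorem FgA_im (c z : ℂ) : (c + (1 / 16 : ℂ) * z).im = c.im + z.im / 16 := by
  have h : (c + (1 / 16 : ℂ) * z) = (c + ((1 / 16 : ℝ) : ℂ) * z) := by
    push_cast
    ring
  rw [h, Complex.add_im, Complex.im_ofReal_mul]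
  ring

theorem FgA_eq (v : ℤ × ℤ × ℤ) (p q m n : ℤ) (ρ₀ : ℝ) {ε : ℝ} (hε : ε ≠ 0) :
    bxg v p q m n ρ₀ ε = Eg v p q ∘ FgA_A (⟨m + 7 / 16, n⟩ : ℂ) ρ₀ hε := by
  funext y
  show Eg v p q (⟨m + 7 / 16 + y.1.re / 16, n + y.1.im / 16⟩, ρ₀ + ε * y.2.1, y.2.2) =
    Eg v p q ((⟨m + 7 / 16, n⟩ : ℂ) + (1 / 16 : ℂ) * y.1, ρ₀ + ε * y.2.1, y.2.2)
  congr 2
  apply Complex.ext
  · rw [FgA_re]
  · rw [FgA_im]

theorem FgA_range {ρ₀ ε s : ℝ} (hε : 0 < ε) (h1 : 0 < ρ₀ - ε) (h2 : ρ₀ + ε < 1) (hs : |s| < 1) :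
    ρ₀ - ε < ρ₀ + ε * s ∧ ρ₀ + ε * s < ρ₀ + ε ∧ 0 < ρ₀ + ε * s ∧ ρ₀ + ε * s < 1 := by
  have h := abs_lt.1 hs
  have h3 : ε * s < ε := by nlinarith
  have h4 : -ε < ε * s := by nlinarith
  exact ⟨by linarith, by linarith, by linarith, by linarith⟩

theorem FgA_ne {ρ ρ' : ℝ} {x x' : ℝ × ℝ × ℝ} (h0 : 0 < ρ) (h1 : ρ < 1) (h0' : 0 ≤ ρ') (h1' : ρ' ≤ 1)
    (hne : ρ' ≠ ρ) : gE ρ' x' ≠ gE ρ x := by
  intro h
  rcases eq_or_lt_of_le h0' with h2 | h2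
  · exact gE_ne (x := x) (x' := x') h0 h1 (Or.inl h2.symm) h.symm
  · rcases eq_or_lt_of_le h1' with h3 | h3
    · exact gE_ne (x := x) (x' := x') h0 h1 (Or.inr h3) h.symm
    · exact hne (gE_inj h0 h1 h2 h3 h.symm).1

theorem bxg_box (hv : VGood v) (hb : VB v p q) (hε : 0 < ε) (h1 : 0 < ρ₀ - ε) (h2 : ρ₀ + ε < 1) :
    Box ISP (bxg v p q m n ρ₀ ε) 5 := by
  have hE := tchart (v := v) (p := p) (q := q) hb
  have ha := gact_act hv.cop1 hv.cop2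
  refine ⟨?_, ?_, ?_⟩
  · intro z s t
    show Eg v p q (_, _, t + 1) = Eg v p q (_, _, t)
    rw [hE.equiv _ _ (t + 1), hE.equiv _ _ t, ha.add, ha.per]
  · intro z s t _ hs
    obtain ⟨-, -, h3, h4⟩ := FgA_range hε h1 h2 hs
    rw [FgA_eq v p q m n ρ₀ hε.ne']
    exact IsLocalDiffeomorphAt.comp ISP SP (FgA_A_ld _ ρ₀ hε.ne' (z, s, t))
      (hE.loc ((⟨m + 7 / 16, n⟩ : ℂ) + (1 / 16 : ℂ) * z) (ρ₀ + ε * s) t h3 h4)
  · intro z s t z' s' t' hz hs hz' hs' h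
    obtain ⟨-, -, h3, h4⟩ := FgA_range hε h1 h2 hs
    obtain ⟨-, -, h3', h4'⟩ := FgA_range hε h1 h2 hs'
    rw [FgA_eq v p q m n ρ₀ hε.ne'] at h
    obtain ⟨⟨m', n', hmn⟩, hρ, hk⟩ := hE.inj ((⟨m + 7 / 16, n⟩ : ℂ) + (1 / 16 : ℂ) * z) (ρ₀ + ε * s) t
      ((⟨m + 7 / 16, n⟩ : ℂ) + (1 / 16 : ℂ) * z') (ρ₀ + ε * s') t' h3 h4 h3' h4' h
    have hre := congrArg Complex.re hmn
    have him := congrArg Complex.im hmn
    rw [FgA_re _ z', Complex.add_re (_ + (1 / 16 : ℂ) * z), FgA_re _ z] at hre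
    rw [FgA_im _ z', Complex.add_im (_ + (1 / 16 : ℂ) * z), FgA_im _ z] at him
    simp only [Complex.add_re, Complex.add_im, Complex.intCast_re, Complex.intCast_im,
      Complex.mul_re, Complex.mul_im, Complex.I_re, Complex.I_im, mul_zero, mul_one,
      sub_zero, add_zero, zero_add] at hre him
    have b1 := abs_lt.1 (lt_of_le_of_lt (Complex.abs_re_le_norm z) hz)
    have b2 := abs_lt.1 (lt_of_le_of_lt (Complex.abs_re_le_norm z') hz')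
    have b3 := abs_lt.1 (lt_of_le_of_lt (Complex.abs_im_le_norm z) hz)
    have b4 := abs_lt.1 (lt_of_le_of_lt (Complex.abs_im_le_norm z') hz')
    have hm : m' = 0 := by
      have c1 : (m' : ℝ) < 1 := by linarith
      have c2 : (-1 : ℝ) < m' := by linarith
      have c3 : m' < 1 := by exact_mod_cast c1
      have c4 : -1 < m' := by exact_mod_cast c2
      omega
    have hn : n' = 0 := by
      have c1 : (n' : ℝ) < 1 := by linarith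
      have c2 : (-1 : ℝ) < n' := by linarith
      have c3 : n' < 1 := by exact_mod_cast c1
      have c4 : -1 < n' := by exact_mod_cast c2
      omega
    rw [hm] at hre
    rw [hn] at him
    refine ⟨?_, ?_, hk⟩
    · apply Complex.ext
      · have : z'.re = z.re := by
          push_cast at hre
          linarith
        exact this.symm
      · have : z'.im = z.im := by
          push_cast at him
          linarith
        exact this.symm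
    · have h5 : ε * s' = ε * s := by linarith
      exact (mul_left_cancel₀ hε.ne' h5).symm

theorem bxg_equi (hb : VB v p q) : EquiB (gact v) (bxg v p q m n ρ₀ ε) := by
  intro z s t
  exact (tchart (v := v) (p := p) (q := q) hb).equiv _ _ _

theorem bxg_two (hb : VB v p q) (hε : 0 < ε) (h1 : 0 < ρ₀ - ε) (h2 : ρ₀ + ε ≤ 3 / 4) {u : ℝ → ℝ × ℝ}
    (hu : ∀ ρ, |ρ - ρ₀| ≤ ε → u ρ = ((m : ℝ) + 3 / 8, (n : ℝ))) :
    TwoStrands (bxg v p q m n ρ₀ ε) (gK (up v p q n₁ u)) (fun x => (-ρ₀ + ε * x) / 2) (fun x => (ρ₀ + ε * x) / 2)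
      (-1) 1 := by
  have hd : ∀ c u : ℝ, deriv (fun u : ℝ => (c + ε * u) / 2) u = ε / 2 := by
    intro c u
    have h3 : HasDerivAt (fun u : ℝ => (c + ε * u) / 2) ((ε * 1) / 2) u :=
      (((hasDerivAt_id u).const_mul ε).const_add c).div_const 2
    rw [h3.deriv, mul_one]
  refine ⟨?_, ?_, ?_, ?_, Or.inr rfl, Or.inl rfl, ?_, ?_, ?_, ?_, ?_⟩
  · fun_prop
  · fun_prop
  · intro u
    rw [hd]
    positivity
  · intro u
    rw [hd]
    positivity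
  · show (-ρ₀ + ε * 1) / 2 < (ρ₀ + ε * (-1)) / 2
    linarith
  · show (ρ₀ + ε * 1) / 2 < (-ρ₀ + ε * (-1)) / 2 + 1
    linarith
  · intro x hx
    obtain ⟨r1, r2, r3, r4⟩ := FgA_range (ρ₀ := ρ₀) (ε := ε) hε h1 (by linarith) (show |(-x)| < 1 by rwa [abs_neg])
    show gK (up v p q n₁ u) ((-ρ₀ + ε * x) / 2) = bxg v p q m n ρ₀ ε (1, -1 * x, 0)
    rw [gK_neg _ (by linarith) (by linarith)]
    show gE (-2 * ((-ρ₀ + ε * x) / 2)) (0, 0, 0) = gE (ρ₀ + ε * (-1 * x))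
      (LL v p q (m + 7 / 16 + (1 : ℂ).re / 16, n + (1 : ℂ).im / 16) 0)
    have e1 : -2 * ((-ρ₀ + ε * x) / 2) = ρ₀ + ε * (-1 * x) := by ring
    have e2 : LL v p q ((m : ℝ) + 7 / 16 + (1 : ℂ).re / 16, (n : ℝ) + (1 : ℂ).im / 16) 0 =
        (0, 0, 0) + rv (m + 1, n * p, n * q) := by
      rw [Complex.one_re, Complex.one_im]
      refine Prod.ext ?_ (Prod.ext ?_ ?_)
      · show 1 / 2 + ((m : ℝ) + 7 / 16 + 1 / 16) + 0 * (v.1 : ℝ) = 0 + ((m + 1 : ℤ) : ℝ)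
        push_cast
        ring
      · show ((n : ℝ) + 0 / 16) * p + 0 * (v.2.1 : ℝ) = 0 + ((n * p : ℤ) : ℝ)
        push_cast
        ring
      · show ((n : ℝ) + 0 / 16) * q + 0 * (v.2.2 : ℝ) = 0 + ((n * q : ℤ) : ℝ)
        push_cast
        ring
    rw [e1, e2, gE_int]
  · intro x hx
    obtain ⟨r1, r2, r3, r4⟩ := FgA_range (ρ₀ := ρ₀) (ε := ε) hε h1 (by linarith) hx
    show gK (up v p q n₁ u) ((ρ₀ + ε * x) / 2) = bxg v p q m n ρ₀ ε (-1, 1 * x, 0)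
    rw [gK_pos _ (by linarith) (by linarith)]
    have e1 : 2 * ((ρ₀ + ε * x) / 2) = ρ₀ + ε * (1 * x) := by ring
    rw [e1]
    show gE (ρ₀ + ε * (1 * x)) (LL v p q (u (ρ₀ + ε * (1 * x)))
      (cC p q (fin n₁) * Real.smoothTransition (8 * (ρ₀ + ε * (1 * x)) - 6))) =
      gE (ρ₀ + ε * (1 * x)) (LL v p q ((m : ℝ) + 7 / 16 + (-1 : ℂ).re / 16, (n : ℝ) + (-1 : ℂ).im / 16) 0)
    rw [one_mul, Real.smoothTransition.zero_of_nonpos (by linarith), mul_zero, hu _ (by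
      rw [abs_le]
      constructor <;> linarith)]
    have e2 : ((m : ℝ) + 7 / 16 + (-1 : ℂ).re / 16, (n : ℝ) + (-1 : ℂ).im / 16) =
        ((m : ℝ) + 3 / 8, (n : ℝ)) := by
      rw [Complex.neg_re, Complex.one_re, Complex.neg_im, Complex.one_im]
      refine Prod.ext ?_ ?_
      · show (m : ℝ) + 7 / 16 + -1 / 16 = (m : ℝ) + 3 / 8
        ring
      · show (n : ℝ) + -0 / 16 = (n : ℝ)
        ring
    rw [e2]
  · intro l hl z s t _ hs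
    obtain ⟨r1, r2, r3, r4⟩ := FgA_range (ρ₀ := ρ₀) (ε := ε) hε h1 (by linarith) hs
    have hl' : (-ρ₀ + ε * 1) / 2 ≤ l ∧ l ≤ (ρ₀ + ε * (-1)) / 2 ∨
        (ρ₀ + ε * 1) / 2 ≤ l ∧ l ≤ (-ρ₀ + ε * (-1)) / 2 + 1 := hl
    show gK (up v p q n₁ u) l ≠ gE (ρ₀ + ε * s) _
    rcases hl' with ⟨c1, c2⟩ | ⟨c1, c2⟩
    · rcases le_or_gt 0 l with c3 | c3
      · rw [gK_pos _ c3 (by linarith)]
        exact FgA_ne r3 r4 (by linarith) (by linarith) (by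
          intro he
          linarith)
      · rw [gK_neg _ (by linarith) c3]
        exact FgA_ne r3 r4 (by linarith) (by linarith) (by
          intro he
          linarith)
    · rcases lt_or_ge l (1 / 2) with c3 | c3
      · rw [gK_pos _ (by linarith) c3]
        exact FgA_ne r3 r4 (by linarith) (by linarith) (by
          intro he
          linarith)
      · rw [gK_half _ c3 (by linarith)]
        exact FgA_ne r3 r4 (by linarith) (by linarith) (by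
          intro he
          linarith)

end Pool.Agent.GLB
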