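import Pool.Agent.GLB.FgA
import Pool.Agent.PTH.FourF

/-!
# GLB/FgB: the 4-move at an obstacle, global version   (difficulty 3)

(The same as PTH/FourF.lean.)  `four_core` for `b = bxg v p q m n ρ₀ ε` and `bxg_two` gives `M`: `M (half 1 b (y, s, t)) = half 1 b (MsDo o (y, s), s, t)` for `‖y‖ < 4`,
`|s| < 1/8`, identity off these points (`half 1 b (y, s, t) = b (cj 1 y, s / 2, t)`, `cj 1 y = y`).  `g ρ = gs (2 (ρ - ρ₀) / ε)`: `0` for `ρ ≤ ρ₀ - ε/16`, `1` for `ρ ≥ ρ₀ + ε/32`.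
(A) for `y = ±1`, `|σ| < 1`, `ρ = ρ₀ + ε σ`: `M (b (y, σ, t)) = b (ex (2 o g ρ) y, σ, t)`: if `|2 σ| < 1/8` it is `IsM.ball` at `s = 2 σ` and `MsDo_low` (`‖y‖ ≤ 17/5`); otherwise
the point is not of the form `half 1 b (y', s', t')` with `‖y'‖ < 4`, `|s'| < 1/8` (injectivity of the box), `IsM.out`, and `g ρ` is `0` or `1`, `ex (± 2) = 1`.
`exists_tlift` with `E = Eg v p q` (`tchart`), `φ ρ x = x - (ex (2 o g ρ) - 1) / 16` (`Equiv.subRight`), `α' = ρ₀ - ε/2`, `β' = ρ₀ + ε/2` gives `F`.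
(B) `F (b (z, σ, t)) = Eg (m + 7/16 + n i + z/16 - (ex (2 o g) - 1)/16, ρ, t)`.  For `z = ex (2 o g)`: the obstacle; for `z = - ex (2 o g)`: `(m + 1/2) + n i - ex (2 o g) / 8`.
(C) `gK (up u') l = F (M (gK (up u) l))` for all `l` (by periodicity `-1/2 ≤ l < 1/2`):
* `|2 l - ρ₀| < ε`, `ρ = 2 l`: `K l = b (-1, σ, 0)` (`TwoStrands.strand₂`), so `F (M (K l)) = Eg ((m + 1/2) + n i - ex (2 o g) / 8, ρ, 0)`, and `u' ρ = (m, n) + Sp 1 (- o 2 g) =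
  (m + 1/2 - cos (2π · 2 o g) / 8, n - sin (2π · 2 o g) / 8)`.
* `|-2 l - ρ₀| < ε`: `K l = b (1, σ, 0)`, `F (M (K l)) = Eg ((m + 1/2) + n i, ρ, 0) = gE ρ 0 = K l`, and `gK (up u') l = K l` for `l < 0`.
* other `l`: `u' (2 l) = u (2 l)`, so `gK (up u') l = K l` with `ρ` not in `(ρ₀ - ε, ρ₀ + ε)`: it is not in the box, so `M` fixes it; it is not `Eg (x, ρ, t)` with
  `α' ≤ ρ ≤ β'`, so `F` fixes it (`gE_inj`, `gE_ne`).
Hence `Carries K → Carries (M ∘ K) → Carries (F ∘ M ∘ K)` (`Carries.map`).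
-/

open scoped Manifold ContDiff Topology
open Set Filter
open Complex (I)

namespace Pool.Agent.GLB

open Pool.Agent.PTH
open Pool.Agent.RSG (E4 S3 pS3 ex)
open Pool.Agent.RBM (gs MsDo IsM)

theorem FgB_per {K : ℝ → SP} (h : ∀ l, K (l + 1) = K l) (l : ℝ) (m : ℤ) : K (l + m) = K l := by
  have hp : Function.Periodic K 1 := h
  have := hp.int_mul m l
  simpa using this

theorem FgB_ex_two {o : ℝ} (ho : o = 1 ∨ o = -1) : ex (2 * o * 1) = 1 := by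
  rcases ho with rfl | rfl
  · have h := RSG.ex_int 2
    rw [← h]
    norm_num
  · have h := RSG.ex_int (-2)
    rw [← h]
    norm_num

theorem FgB_gs0 {s : ℝ} (h : s ≤ -(1 / 8)) : gs s = 0 := CSG.stp_zero (by norm_num) h

theorem FgB_gs1 {s : ℝ} (h : 1 / 16 ≤ s) : gs s = 1 := CSG.stp_one (by norm_num) h

theorem FgB_gs_smooth : ContDiff ℝ ∞ gs := CSG.stp_smooth _ _

theorem FgB_cj (y : ℂ) : RSG.cj 1 y = y := by
  apply Complex.ext <;> simp [RSG.cj]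

/-- the action of `M` on the strands -/
theorem FgB_M {b : ℂ × ℝ × ℝ → SP} (hb : RBM.Box ISP b 5) {o : ℝ} (ho : o = 1 ∨ o = -1)
    {M : Equiv.Perm SP} (hM : IsM 4 (COR.half 1 b) (MsDo o) M) {y : ℂ} (hy : ‖y‖ ≤ 17 / 5) {σ : ℝ}
    (hσ : |σ| < 1) : M (b (y, σ, 0)) = b (ex (2 * o * gs (2 * σ)) * y, σ, 0) := by
  have hy4 : ‖y‖ < 4 := by linarith
  have e1 : ∀ (z : ℂ), COR.half 1 b (z, 2 * σ, 0) = b (z, σ, 0) := by
    intro z
    show b (RSG.cj 1 z, 2 * σ / 2, 0) = b (z, σ, 0)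
    rw [FgB_cj, mul_div_cancel_left₀ σ (two_ne_zero)]
  by_cases h : |2 * σ| < 1 / 8
  · rw [← e1 y, hM.ball y (2 * σ) 0 hy4 h, RBM.MsDo_low hy, e1]
  · have h' : 1 / 8 ≤ |2 * σ| := not_lt.1 h
    have hfix : ex (2 * o * gs (2 * σ)) = 1 := by
      rw [le_abs] at h'
      rcases h' with h' | h'
      · rw [FgB_gs1 (by linarith)]
        exact FgB_ex_two ho
      · rw [FgB_gs0 (by linarith), mul_zero, RSG.ex_zero]
    rw [hfix, one_mul]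
    refine hM.out _ ?_
    intro y' s' t' hy' hs' he
    have he' : b (y, σ, 0) = b (y', s' / 2, t') := by
      rw [he]
      show b (RSG.cj 1 y', s' / 2, t') = _
      rw [FgB_cj]
    have hs2 : |s' / 2| < 1 := by
      rw [abs_div, abs_two]
      linarith
    obtain ⟨-, h2, -⟩ := hb.inj y σ 0 y' (s' / 2) t' (by linarith) hσ (by linarith) hs2 he'
    apply h
    rw [h2, mul_div_cancel₀]
    · exact hs'
    · exact two_ne_zero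

/-- the translation -/
noncomputable def FgB_phi (o ρ₀ ε ρ : ℝ) : Equiv.Perm ℂ :=
  Equiv.subRight ((ex (2 * o * gs (2 * (ρ - ρ₀) / ε)) - 1) / 16)

theorem FgB_tr_smooth (o ρ₀ ε : ℝ) :
    ContDiff ℝ ∞ fun q : ℂ × ℝ => (ex (2 * o * gs (2 * (q.2 - ρ₀) / ε)) - 1) / 16 := by
  have h1 : ContDiff ℝ ∞ fun q : ℂ × ℝ => 2 * (q.2 - ρ₀) / ε :=
    (contDiff_const.mul (contDiff_snd.sub contDiff_const)).div_const _
  have h2 : ContDiff ℝ ∞ fun q : ℂ × ℝ => 2 * o * gs (2 * (q.2 - ρ₀) / ε) :=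
    contDiff_const.mul (FgB_gs_smooth.comp h1)
  exact ((RSG.ex_smooth.comp h2).sub contDiff_const).div_const _

theorem FgB_phi_smooth (o ρ₀ ε : ℝ) : ContDiff ℝ ∞ fun q : ℂ × ℝ => FgB_phi o ρ₀ ε q.2 q.1 :=
  contDiff_fst.sub (FgB_tr_smooth o ρ₀ ε)

theorem FgB_phi_smooth' (o ρ₀ ε : ℝ) :
    ContDiff ℝ ∞ fun q : ℂ × ℝ => (FgB_phi o ρ₀ ε q.2).symm q.1 :=
  contDiff_fst.add (FgB_tr_smooth o ρ₀ ε)

theorem FgB_phi_apply (o ρ₀ ε ρ : ℝ) (x : ℂ) :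
    FgB_phi o ρ₀ ε ρ x = x - (ex (2 * o * gs (2 * (ρ - ρ₀) / ε)) - 1) / 16 := rfl

theorem FgB_phi_id {o ρ₀ ε : ℝ} (ho : o = 1 ∨ o = -1) (hε : 0 < ε) (ρ : ℝ)
    (h : ρ ≤ ρ₀ - ε / 2 ∨ ρ₀ + ε / 2 ≤ ρ) (x : ℂ) : FgB_phi o ρ₀ ε ρ x = x := by
  have key : ex (2 * o * gs (2 * (ρ - ρ₀) / ε)) = 1 := by
    rcases h with h | h
    · have h1 : 2 * (ρ - ρ₀) / ε ≤ -(1 / 8) := by
        rw [div_le_iff₀ hε]
        linarith
      rw [FgB_gs0 h1, mul_zero, RSG.ex_zero]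
    · have h1 : 1 / 16 ≤ 2 * (ρ - ρ₀) / ε := by
        rw [le_div_iff₀ hε]
        linarith
      rw [FgB_gs1 h1]
      exact FgB_ex_two ho
  rw [FgB_phi_apply, key, sub_self, zero_div, sub_zero]

variable {v : ℤ × ℤ × ℤ} {p q : ℤ} {n₁ : ℤ × ℤ × ℤ}

/-- the action of `F` on the box -/
theorem FgB_F {m n : ℤ} {o ρ₀ ε : ℝ} (hε : 0 < ε) (h1 : 0 < ρ₀ - ε) (h2 : ρ₀ + ε < 1)
    {F : Equiv.Perm SP}
    (hF : ∀ (x : ℂ) (ρ t : ℝ), 0 < ρ → ρ < 1 → F (Eg v p q (x, ρ, t)) = Eg v p q (FgB_phi o ρ₀ ε ρ x, ρ, t))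
    {σ : ℝ} (hσ : |σ| < 1) (z : ℂ) :
    F (bxg v p q m n ρ₀ ε (z, σ, 0)) = gE (ρ₀ + ε * σ) (LL v p q
      (m + 7 / 16 + z.re / 16 - ((ex (2 * o * gs (2 * σ))).re - 1) / 16,
      n + z.im / 16 - (ex (2 * o * gs (2 * σ))).im / 16) 0) := by
  rw [abs_lt] at hσ
  have h3 : -ε < ε * σ := by nlinarith
  have h4 : ε * σ < ε := by nlinarith
  have e1 : bxg v p q m n ρ₀ ε (z, σ, 0) =
      Eg v p q (⟨m + 7 / 16 + z.re / 16, n + z.im / 16⟩, ρ₀ + ε * σ, 0) := rfl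
  rw [e1, hF _ _ _ (by linarith) (by linarith)]
  have e5 : 2 * (ρ₀ + ε * σ - ρ₀) / ε = 2 * σ := by
    field_simp
    ring
  rw [FgB_phi_apply, e5]
  show gE (ρ₀ + ε * σ) (LL v p q (_, _) 0) = _
  congr 3
  · simp
  · simp

/-- points far from the torus are not in the box -/
theorem FgB_far {ρ₀ ε ρ ρ' : ℝ} {x x' : ℝ × ℝ × ℝ} (h1 : 0 < ρ₀ - ε) (h2 : ρ₀ + ε < 1) (h0 : 0 ≤ ρ')
    (h0' : ρ' ≤ 1) (hf : ε ≤ |ρ' - ρ₀|) (hρ : |ρ - ρ₀| < ε) : gE ρ' x ≠ gE ρ x' := by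
  have hρ2 := abs_lt.1 hρ
  intro he
  by_cases h3 : ρ' = 0 ∨ ρ' = 1
  · exact gE_ne (x := x') (x' := x) (by linarith) (by linarith) h3 he.symm
  · have h4 : ρ' ≠ 0 := fun h => h3 (Or.inl h)
    have h5 : ρ' ≠ 1 := fun h => h3 (Or.inr h)
    obtain ⟨h6, -⟩ := gE_inj (lt_of_le_of_ne h0 (Ne.symm h4)) (lt_of_le_of_ne h0' h5) (by linarith) (by linarith) he
    rw [h6] at hρ
    linarith

/-- points far from the torus are fixed by `M` -/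
theorem FgB_fixM {m n : ℤ} {o ρ₀ ε : ℝ} (hε : 0 < ε) (h1 : 0 < ρ₀ - ε) (h2 : ρ₀ + ε < 1) {M : Equiv.Perm SP}
    (hM : IsM 4 (COR.half 1 (bxg v p q m n ρ₀ ε)) (MsDo o) M) {ρ' : ℝ} {x : ℝ × ℝ × ℝ} (h0 : 0 ≤ ρ')
    (h0' : ρ' ≤ 1) (hf : ε ≤ |ρ' - ρ₀|) : M (gE ρ' x) = gE ρ' x := by
  refine hM.out _ ?_
  intro y s t hy hs he
  have e : COR.half 1 (bxg v p q m n ρ₀ ε) (y, s, t) =
      gE (ρ₀ + ε * (s / 2)) (LL v p q (m + 7 / 16 + (RSG.cj 1 y).re / 16, n + (RSG.cj 1 y).im / 16) t) := rfl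
  rw [e] at he
  refine FgB_far h1 h2 h0 h0' hf ?_ he
  rw [add_sub_cancel_left]
  rw [abs_lt] at hs ⊢
  constructor <;> nlinarith

/-- points far from the torus are fixed by `F` -/
theorem FgB_fixF {ρ₀ ε : ℝ} (hε : 0 < ε) (h1 : 0 < ρ₀ - ε) (h2 : ρ₀ + ε < 1) {F : Equiv.Perm SP}
    (hF : ∀ p', (∀ (x : ℂ) (ρ t : ℝ), ρ₀ - ε / 2 ≤ ρ → ρ ≤ ρ₀ + ε / 2 → p' ≠ Eg v p q (x, ρ, t)) → F p' = p')
    {ρ' : ℝ} {x : ℝ × ℝ × ℝ} (h0 : 0 ≤ ρ') (h0' : ρ' ≤ 1) (hf : ε ≤ |ρ' - ρ₀|) : F (gE ρ' x) = gE ρ' x := by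
  refine hF _ ?_
  intro x' ρ t h3 h4 he
  have e : Eg v p q (x', ρ, t) = gE ρ (LL v p q (x'.re, x'.im) t) := rfl
  rw [e] at he
  refine FgB_far h1 h2 h0 h0' hf ?_ he
  rw [abs_lt]
  constructor <;> linarith

theorem FgB_up {n₁ : ℤ × ℤ × ℤ} {u : ℝ → ℝ × ℝ} {ρ : ℝ} (h : ρ ≤ 3 / 4) :
    up v p q n₁ u ρ = LL v p q (u ρ) 0 := by
  unfold up
  rw [Real.smoothTransition.zero_of_nonpos (by linarith), mul_zero]

theorem FgB_key {u u' : ℝ → ℝ × ℝ} {m n : ℤ} {ρ₀ ε : ℝ} (hε : 0 < ε) (h1 : 0 < ρ₀ - ε)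
    (h2 : ρ₀ + ε ≤ 3 / 4) {o : ℝ} (ho : o = 1 ∨ o = -1)
    (hu' : ∀ ρ, |ρ - ρ₀| ≤ ε → u' ρ = ((m : ℝ), (n : ℝ)) + Sp 1 (-o * (2 * gs (2 * (ρ - ρ₀) / ε))))
    (he : ∀ ρ, ε ≤ |ρ - ρ₀| → u' ρ = u ρ) (hb : RBM.Box ISP (bxg v p q m n ρ₀ ε) 5)
    (hs : COR.TwoStrands (bxg v p q m n ρ₀ ε) (gK (up v p q n₁ u)) (fun x => (-ρ₀ + ε * x) / 2)
      (fun x => (ρ₀ + ε * x) / 2) (-1) 1)
    {M F : Equiv.Perm SP} (hM : IsM 4 (COR.half 1 (bxg v p q m n ρ₀ ε)) (MsDo o) M)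
    (hF : ∀ (x : ℂ) (ρ t : ℝ), 0 < ρ → ρ < 1 → F (Eg v p q (x, ρ, t)) = Eg v p q (FgB_phi o ρ₀ ε ρ x, ρ, t))
    (hF' : ∀ p', (∀ (x : ℂ) (ρ t : ℝ), ρ₀ - ε / 2 ≤ ρ → ρ ≤ ρ₀ + ε / 2 → p' ≠ Eg v p q (x, ρ, t)) → F p' = p')
    {l : ℝ} (hl : -(1 / 2) ≤ l) (hl' : l < 1 / 2) :
    F (M (gK (up v p q n₁ u) l)) = gK (up v p q n₁ u') l := by
  have h2' : ρ₀ + ε < 1 := by linarith
  by_cases h0 : 0 ≤ l
  · by_cases hA : |2 * l - ρ₀| < ε
    · -- the second strand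
      obtain ⟨x, hx⟩ : ∃ x, x = (2 * l - ρ₀) / ε := ⟨_, rfl⟩
      have hx1 : |x| < 1 := by
        rw [hx, abs_div, abs_of_pos hε, div_lt_one hε]
        exact hA
      have hlx : ρ₀ + ε * x = 2 * l := by
        rw [hx]
        field_simp
        ring
      have e1 := hs.strand₂ x hx1
      have e2 : (ρ₀ + ε * x) / 2 = l := by
        rw [hlx]
        ring
      rw [one_mul] at e1
      simp only [e2] at e1
      have hA2 := abs_lt.1 hA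
      rw [e1, FgB_M hb ho hM (by simp; norm_num) hx1, FgB_F hε h1 h2' hF hx1, gK_pos _ h0 hl', hlx,
        FgB_up (by linarith)]
      have e3 : u' (2 * l) = ((m : ℝ), (n : ℝ)) + Sp 1 (-o * (2 * gs (2 * x))) := by
        rw [hu' _ hA.le]
        congr 5
        rw [hx]
        ring
      rw [e3]
      have e6 : 2 * Real.pi * (-o * (2 * gs (2 * x))) = -(2 * Real.pi * (2 * o * gs (2 * x))) := by ring
      congr 2
      refine Prod.ext ?_ ?_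
      · show _ = (m : ℝ) + (3 / 8 * 1 + 1 / 8 * (1 - Real.cos (2 * Real.pi * (-o * (2 * gs (2 * x))))))
        rw [e6, Real.cos_neg]
        simp only [mul_neg, mul_one, Complex.neg_re, RSG.ex_re]
        ring
      · show _ = (n : ℝ) + 1 / 8 * Real.sin (2 * Real.pi * (-o * (2 * gs (2 * x))))
        rw [e6, Real.sin_neg]
        simp only [mul_neg, mul_one, Complex.neg_im, RSG.ex_im]
        ring
    · have hA' : ε ≤ |2 * l - ρ₀| := not_lt.1 hA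
      rw [gK_pos _ h0 hl', gK_pos _ h0 hl', FgB_fixM hε h1 h2' hM (by linarith) (by linarith) hA',
        FgB_fixF hε h1 h2' hF' (by linarith) (by linarith) hA']
      unfold up
      rw [he _ hA']
  · have h0' : l < 0 := not_le.1 h0
    by_cases hA : |-2 * l - ρ₀| < ε
    · -- the first strand
      obtain ⟨x, hx⟩ : ∃ x, x = (2 * l + ρ₀) / ε := ⟨_, rfl⟩
      have hx1 : |x| < 1 := by
        rw [hx, abs_div, abs_of_pos hε, div_lt_one hε]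
        rw [← abs_neg] at hA
        have : -(-2 * l - ρ₀) = 2 * l + ρ₀ := by ring
        rwa [this] at hA
      have hx2 : |-1 * x| < 1 := by
        rw [neg_one_mul, abs_neg]
        exact hx1
      have hlx : ρ₀ + ε * (-1 * x) = -2 * l := by
        rw [hx]
        field_simp
        ring
      have e1 := hs.strand₁ x hx1
      have e2 : (-ρ₀ + ε * x) / 2 = l := by
        have : -ρ₀ + ε * x = 2 * l := by linarith
        rw [this]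
        ring
      simp only [e2] at e1
      rw [e1, FgB_M hb ho hM (by simp; norm_num) hx2, FgB_F hε h1 h2' hF hx2, gK_neg _ hl h0', hlx]
      have e3 := gE_int (-2 * l) (0, 0, 0) ((m : ℤ) + 1, (n : ℤ) * p, (n : ℤ) * q)
      rw [← e3]
      congr 1
      unfold LL rv
      simp only [mul_one]
      refine Prod.ext ?_ (Prod.ext ?_ ?_)
      · simp
        ring
      · simp
      · simp
    · have hA' : ε ≤ |-2 * l - ρ₀| := not_lt.1 hA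
      rw [gK_neg _ hl h0', gK_neg _ hl h0', FgB_fixM hε h1 h2' hM (by linarith) (by linarith) hA',
        FgB_fixF hε h1 h2' hF' (by linarith) (by linarith) hA']

theorem four_glob (hv : VGood v) (hb : VB v p q) {u u' : ℝ → ℝ × ℝ} {m n : ℤ} {ρ₀ ε : ℝ} (hε : 0 < ε)
    (h1 : 0 < ρ₀ - ε) (h2 : ρ₀ + ε ≤ 3 / 4) {o : ℝ} (ho : o = 1 ∨ o = -1)
    (hu : ∀ ρ, |ρ - ρ₀| ≤ ε → u ρ = ((m : ℝ) + 3 / 8, (n : ℝ)))
    (hu' : ∀ ρ, |ρ - ρ₀| ≤ ε → u' ρ = ((m : ℝ), (n : ℝ)) + Sp 1 (-o * (2 * gs (2 * (ρ - ρ₀) / ε))))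
    (he : ∀ ρ, ε ≤ |ρ - ρ₀| → u' ρ = u ρ) (k : ℤ) (X : Type*) [TopologicalSpace X] [ChartedSpace E4 X] [T2Space X]
    (h : GCar v k (up v p q n₁ u) X) : GCar v k (up v p q n₁ u') X := by
  have hA : Act ISP (gact v) := gact_act hv.cop1 hv.cop2
  have hbox := bxg_box (m := m) (n := n) hv hb hε h1 (by linarith)
  have hs := bxg_two (n₁ := n₁) hb hε h1 h2 hu
  obtain ⟨M, hM, hMc⟩ := COR.four_core hA hbox (bxg_equi hb) hs ho
  obtain ⟨F, hF1, hF2, hF3, hF4⟩ := exists_tlift hA (tchart hb) (FgB_phi o ρ₀ ε)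
    (FgB_phi_smooth o ρ₀ ε) (FgB_phi_smooth' o ρ₀ ε)
    (fun ρ x m n => by rw [FgB_phi_apply, FgB_phi_apply]; ring) (α' := ρ₀ - ε / 2)
    (β' := ρ₀ + ε / 2) (by linarith) (by linarith) (fun ρ hρ x => FgB_phi_id ho hε ρ hρ x)
  have hFM := (hMc k X h).map F hF1 hF4
  have key : (fun l => F (M (gK (up v p q n₁ u) l))) = gK (up v p q n₁ u') := by
    funext l
    have p1 := FgB_per (gK_per (up v p q n₁ u)) (l - round l) (round l)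
    have p2 := FgB_per (gK_per (up v p q n₁ u')) (l - round l) (round l)
    rw [sub_add_cancel] at p1 p2
    rw [p1, p2]
    have hbd := abs_le.1 (abs_sub_round l)
    have hbd2 : l - round l < 1 / 2 := by
      rw [round_eq]
      have := Int.lt_floor_add_one (l + 1 / 2)
      linarith
    exact FgB_key hε h1 h2 ho hu' he hbox hs hM hF2 hF3 hbd.1 hbd2
  show Carries ISP (gact v) k (gK (up v p q n₁ u')) X
  rw [← key]
  exact hFM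

end Pool.Agent.GLB
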