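import Pool.Agent.GLB.TCg
import Pool.Agent.GLB.KSm
import Pool.Agent.GLB.ActG
import Pool.Agent.PTH.TStep
import Pool.Agent.PTH.Car
import Pool.Agent.PTH.Hom

/-!
# GLB/HomG: homotopic planar paths carry the same manifolds   (difficulty 3)

`gstep` (as PTH/Step): `η` from `PTH.exists_tstep μ`.  Let `w, w'` be `SPath`s from `(0, 0)` to `s₁ = pl (fin n₁)`, `Dd (w ρ) ≥ μ`,
`‖w' ρ - w ρ‖ ≤ η`; `ε` = the minimum of the four constants and `1/4` (`w = w' = 0` for `ρ ≤ ε`, `= s₁` for `ρ ≥ 1 - ε`).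
Apply `exists_tstep` with the chart `Eg v p q` (`tchart`), `α = 0`, `β = 1`, `α' = ε`, `β' = 1 - ε`: `F`.  Then
`gK (up w') l = F (gK (up w) l)` for all `l`; by periodicity `-1/2 ≤ l < 1/2`:
* `0 < l < 1/2`, `ρ = 2 l`: `gK (up w) l = gE ρ (LL (w ρ) (c₁ st(8ρ - 6))) = Eg (cx (w ρ), ρ, c₁ st(..))` (`gK_pos`, def of `up`), `F` of
  it is `Eg (cx (w' ρ), ρ, ..)`;
* `-1/2 < l < 0`, `ρ = -2 l`: `gK .. l = gE ρ (0, 0, 0) = Eg (cx (-1/2, 0), ρ, 0)` (`LL (-1/2, 0) 0 = (0, 0, 0)`), a fixed point of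
  `F` (the obstacle `m = -1`, `n = 0`);
* `l = 0`: `gE 0 (w 0)` (`w 0 = w' 0`); `F` fixes it as it is not `Eg (x, ρ, t)` with `ε ≤ ρ ≤ 1 - ε` (`gE_ne`);
  `l = -1/2`: `gE 1 (0, 0, 0)`, the same.
`Carries.map` (`F` commutes with `gact v`).
`hom_gcar`: `PTH.hom_abs` with `Q u = GCar v n (up v p q n₁ u) X` (for one implication; the homotopy `H (1 - l)` gives the other,
or use `PH` in both directions).
-/

open scoped Manifold ContDiff Topology
open Set Filter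
open Complex (I)

namespace Pool.Agent.GLB

open Pool.Agent.PTH
open Pool.Agent.RSG (E4 S3 pS3 ex)

universe u

variable {v : ℤ × ℤ × ℤ} {p q : ℤ} {n₁ : ℤ × ℤ × ℤ}

theorem HomG_obs : LL v p q (-(1 / 2), 0) 0 = (0, 0, 0) := by
  unfold LL
  simp only [zero_mul, add_zero]
  norm_num

theorem HomG_Eg (x : ℝ × ℝ) (ρ t : ℝ) : Eg v p q (cx x, ρ, t) = gE ρ (LL v p q x t) := rfl

theorem gstep (hv : VGood v) (hb : VB v p q) (n₁ : ℤ × ℤ × ℤ) {μ : ℝ} (hμ : 0 < μ) :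
    ∃ η : ℝ, 0 < η ∧ ∀ (n : ℤ) (X : Type u) [TopologicalSpace X] [ChartedSpace E4 X] (w w' : ℝ → ℝ × ℝ),
      SPath (0, 0) (pl v p q (fin n₁)) w → SPath (0, 0) (pl v p q (fin n₁)) w' →
      (∀ ρ, μ ≤ Dd (w ρ)) → (∀ ρ, ‖w' ρ - w ρ‖ ≤ η) →
      GCar v n (up v p q n₁ w) X → GCar v n (up v p q n₁ w') X := by
  obtain ⟨η, hη, H⟩ := exists_tstep hμ
  refine ⟨η, hη, ?_⟩
  intro n X _ _ w w' hw hw' hmu hn hcar
  obtain ⟨ε₁, h1, s1⟩ := hw.start
  obtain ⟨ε₂, h2, s2⟩ := hw.stop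
  obtain ⟨ε₃, h3, s3⟩ := hw'.start
  obtain ⟨ε₄, h4, s4⟩ := hw'.stop
  obtain ⟨ε, hε, e1, e2, e3, e4⟩ : ∃ ε : ℝ, 0 < ε ∧ ε ≤ ε₁ ∧ ε ≤ ε₂ ∧ ε ≤ ε₃ ∧ ε ≤ ε₄ :=
    ⟨min (min ε₁ ε₂) (min ε₃ ε₄), lt_min (lt_min h1 h2) (lt_min h3 h4),
      (min_le_left _ _).trans (min_le_left _ _), (min_le_left _ _).trans (min_le_right _ _),
      (min_le_right _ _).trans (min_le_left _ _), (min_le_right _ _).trans (min_le_right _ _)⟩
  have hww : ∀ ρ, ρ ≤ ε ∨ 1 - ε ≤ ρ → w' ρ = w ρ := by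
    rintro ρ (h | h)
    · rw [s1 ρ (h.trans e1), s3 ρ (h.trans e3)]
    · rw [s2 ρ (by linarith), s4 ρ (by linarith)]
  obtain ⟨F, hF, hFw, hFo, hFid, hFa⟩ := H (gact_act hv.cop1 hv.cop2) (tchart hb) w w' hw.smooth
    hw'.smooth (α' := ε) (β' := 1 - ε) hε (by linarith) hww hmu hn
  have hfix : ∀ (ρ' : ℝ) (x' : ℝ × ℝ × ℝ), ρ' = 0 ∨ ρ' = 1 → F (gE ρ' x') = gE ρ' x' := by
    intro ρ' x' hρ'
    refine hFid _ (fun x ρ t ha hb he => ?_)
    exact gE_ne (show 0 < ρ by linarith) (show ρ < 1 by linarith) hρ' he.symm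
  have key1 : ∀ l, -(1 / 2) ≤ l → l < 1 / 2 → F (gK (up v p q n₁ w) l) = gK (up v p q n₁ w') l := by
    intro l hl1 hl2
    rcases lt_trichotomy l 0 with h0 | h0 | h0
    · rw [gK_neg _ hl1 h0, gK_neg _ hl1 h0]
      rcases hl1.eq_or_lt with h5 | h5
      · exact hfix _ _ (Or.inr (by rw [← h5]; norm_num))
      · have h6 := hFo (-1) 0 (-2 * l) 0 (by linarith) (by linarith)
        have h7 : (((-1 : ℤ) : ℝ) + 1 / 2, ((0 : ℤ) : ℝ)) = ((-(1 / 2) : ℝ), (0 : ℝ)) := by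
          norm_num
        rw [h7, HomG_Eg, HomG_obs] at h6
        exact h6
    · subst h0
      rw [gK_pos _ le_rfl (by norm_num), gK_pos _ le_rfl (by norm_num)]
      have h5 : up v p q n₁ w (2 * 0) = up v p q n₁ w' (2 * 0) := by
        unfold up
        rw [hww (2 * 0) (Or.inl (by linarith))]
      rw [h5]
      exact hfix _ _ (Or.inl (by norm_num))
    · rw [gK_pos _ h0.le hl2, gK_pos _ h0.le hl2]
      exact hFw (2 * l) (cC p q (fin n₁) * Real.smoothTransition (8 * (2 * l) - 6)) (by linarith)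
        (by linarith)
  have hper : ∀ (u : ℝ → ℝ × ℝ × ℝ) (l : ℝ) (m : ℤ), gK u (l - m) = gK u l := by
    intro u l m
    have h1 : Function.Periodic (gK u) 1 := gK_per u
    have h2 := h1.sub_int_mul_eq (x := l) m
    rwa [mul_one] at h2
  have key : (fun l => F (gK (up v p q n₁ w) l)) = gK (up v p q n₁ w') := by
    funext l
    have h5 := Int.floor_le (l + 1 / 2)
    have h6 := Int.lt_floor_add_one (l + 1 / 2)
    rw [← hper _ l ⌊l + 1 / 2⌋, ← hper _ l ⌊l + 1 / 2⌋]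
    exact key1 _ (by linarith) (by linarith)
  have h9 := Carries.map F hF hFa hcar
  unfold GCar
  rwa [key] at h9

/-- **Homotopic planar paths carry the same manifolds.** -/
theorem hom_gcar (hv : VGood v) (hb : VB v p q) {u u' : ℝ → ℝ × ℝ}
    (hu : SPath (0, 0) (pl v p q (fin n₁)) u) (hu' : SPath (0, 0) (pl v p q (fin n₁)) u')
    (h : PH (0, 0) (pl v p q (fin n₁)) u u') :
    GEq.{u} v (up v p q n₁ u) (up v p q n₁ u') := by
  intro n X _ _ _
  obtain ⟨H, ε, hε, hc, h0, h1, hH⟩ := h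
  have hstep : ∀ μ : ℝ, 0 < μ → ∃ η : ℝ, 0 < η ∧ ∀ w w' : ℝ → ℝ × ℝ,
      SPath (0, 0) (pl v p q (fin n₁)) w → SPath (0, 0) (pl v p q (fin n₁)) w' →
      (∀ ρ, μ ≤ Dd (w ρ)) → (∀ ρ, ‖w' ρ - w ρ‖ ≤ η) →
      GCar v n (up v p q n₁ w) X → GCar v n (up v p q n₁ w') X := by
    intro μ hμ
    obtain ⟨η, hη, hst⟩ := gstep.{u} hv hb n₁ hμ
    exact ⟨η, hη, fun w w' => hst n X w w'⟩
  constructor
  · intro hQ
    have := hom_abs (fun u => GCar v n (up v p q n₁ u) X) hstep H hc (by rw [h0]; exact hu)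
      (by rw [h1]; exact hu') hε (fun l a b => (hH l a b).start) (fun l a b => (hH l a b).stop)
      (fun l a b => (hH l a b).avoid) (by
        show GCar v n (up v p q n₁ (H 0)) X
        rw [h0]
        exact hQ)
    have h2 : GCar v n (up v p q n₁ (H 1)) X := this
    rwa [h1] at h2
  · intro hQ
    have hc' : Continuous fun q : ℝ × ℝ => H (1 - q.1) q.2 :=
      hc.comp (f := fun q : ℝ × ℝ => (1 - q.1, q.2)) (by fun_prop)
    have := hom_abs (fun u => GCar v n (up v p q n₁ u) X) hstep (fun l => H (1 - l)) hc'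
      (by
        show SPath _ _ (H (1 - 0))
        rw [sub_zero, h1]
        exact hu')
      (by
        show SPath _ _ (H (1 - 1))
        rw [sub_self, h0]
        exact hu) hε (fun l a b => (hH (1 - l) (by linarith) (by linarith)).start)
      (fun l a b => (hH (1 - l) (by linarith) (by linarith)).stop)
      (fun l a b => (hH (1 - l) (by linarith) (by linarith)).avoid) (by
        show GCar v n (up v p q n₁ (H (1 - 0))) X
        rw [sub_zero, h1]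
        exact hQ)
    have h2 : GCar v n (up v p q n₁ (H (1 - 1))) X := this
    rwa [sub_self, h0] at h2

end Pool.Agent.GLB
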