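import Pool.Agent.GLB.Defs
import Pool.Agent.PTH.Bas

/-!
# GLB/PHa: homotopies of planar paths   (difficulty 2)

* `PH.refl`, `PH.symm` (`H (1 - l)`), `PH.trans` (`H (2 l)`, `H' (2 l - 1)`, `ε` the minimum, as `sh_trans` of PTH/Seg; `CPath.mono`).
* `ph_linear`: `H l ρ = (1 - l) u ρ + l u' ρ`, `ε` the minimum.
* `ph_clock`: `H l ρ = c ((1 - l) θ ρ + l θ' ρ)`: `c : ℝ → ℝ × ℝ` continuous, avoiding the obstacles on `[0, T]`, `θ, θ'` clocks with values in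
  `[0, T]`, `0` for `ρ ≤ ε`, `T` for `ρ ≥ 1 - ε`.
* `ph_strip`: `u = u'` on `ρ ≤ ρ₀`, and for `ρ ≥ ρ₀` both have second coordinate in `[N, N + 1)` (`N` an integer).  Let `ε` be such that both
  are equal to `s₁` for `ρ ≥ 1 - ε`, and `ψ ρ = 0` for `ρ ≤ ρ₀`, `ρ ≥ 1 - ε`, `0 < ψ ρ ≤ 1` for `ρ₀ < ρ < 1 - ε` (e.g.
  `ψ ρ = (max 0 (min (ρ - ρ₀) (1 - ε - ρ)))` truncated by `1`).  Three homotopies: `u ~ U` with `U = (u₁, (1 - ψ) u₂ + ψ (N + 1/2))`,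
  `H l = (u₁, (1 - l ψ) u₂ + l ψ (N + 1/2))`: for `l = 0` it is `u`; for `ψ ρ = 0` it is `u ρ`; for `l, ψ > 0` the second coordinate is in
  `(N, N + 1)`: no obstacle.  `U ~ U'` linear: where `ψ ρ = 0` both are equal (`ρ ≤ ρ₀` or `ρ ≥ 1 - ε`), where `ψ ρ > 0` both second
  coordinates are in `(N, N + 1)`.  `U' ~ u'` as the first one.  (If `1 - ε ≤ ρ₀` then `u = u'`.)
-/

open scoped Manifold ContDiff Topology
open Set Filter

namespace Pool.Agent.GLB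

open Pool.Agent.PTH

variable {s₀ s₁ : ℝ × ℝ} {u u' u'' : ℝ → ℝ × ℝ} {ε ε' : ℝ}

theorem CPath.mono (h : CPath s₀ s₁ ε u) (he : ε' ≤ ε) : CPath s₀ s₁ ε' u :=
  ⟨h.cont, fun ρ hρ => h.start ρ (hρ.trans he), fun ρ hρ => h.stop ρ (by linarith), h.avoid⟩

theorem SPath.cpath (h : SPath s₀ s₁ u) : ∃ ε : ℝ, 0 < ε ∧ CPath s₀ s₁ ε u := by
  obtain ⟨ε, hε, h1⟩ := h.start
  obtain ⟨ε', hε', h2⟩ := h.stop
  exact ⟨min ε ε', lt_min hε hε', h.smooth.continuous, fun ρ hρ => h1 ρ (hρ.trans (min_le_left _ _)),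
    fun ρ hρ => h2 ρ (by have := min_le_right ε ε'; linarith), h.avoid⟩

theorem PH.refl (hε : 0 < ε) (h : CPath s₀ s₁ ε u) : PH s₀ s₁ u u :=
  ⟨fun _ => u, ε, hε, h.cont.comp continuous_snd, rfl, rfl, fun _ _ _ => h⟩

theorem PH.symm (h : PH s₀ s₁ u u') : PH s₀ s₁ u' u := by
  obtain ⟨H, ε, hε, hc, h0, h1, hp⟩ := h
  have hc' : Continuous fun q : ℝ × ℝ => H (1 - q.1) q.2 :=
    hc.comp (g := fun q : ℝ × ℝ => H q.1 q.2) (f := fun q : ℝ × ℝ => (1 - q.1, q.2))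
      ((continuous_const.sub continuous_fst).prodMk continuous_snd)
  refine ⟨fun l => H (1 - l), ε, hε, hc', ?_, ?_, ?_⟩
  · show H (1 - 0) = u'
    rw [sub_zero, h1]
  · show H (1 - 1) = u
    rw [sub_self, h0]
  · intro l hl0 hl1
    exact hp (1 - l) (by linarith) (by linarith)

theorem PH.trans (h : PH s₀ s₁ u u') (h' : PH s₀ s₁ u' u'') : PH s₀ s₁ u u'' := by
  obtain ⟨H, ε, hε, hc, h0, h1, hp⟩ := h
  obtain ⟨H', ε', hε', hc', h0', h1', hp'⟩ := h'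
  refine ⟨fun l => if l ≤ 1 / 2 then H (2 * l) else H' (2 * l - 1), min ε ε', lt_min hε hε', ?_, ?_, ?_, ?_⟩
  · have e1 : (fun q : ℝ × ℝ => (if q.1 ≤ 1 / 2 then H (2 * q.1) else H' (2 * q.1 - 1)) q.2) =
        fun q : ℝ × ℝ => if q.1 ≤ 1 / 2 then H (2 * q.1) q.2 else H' (2 * q.1 - 1) q.2 := by
      funext q
      split_ifs <;> rfl
    show Continuous (fun q : ℝ × ℝ => (if q.1 ≤ 1 / 2 then H (2 * q.1) else H' (2 * q.1 - 1)) q.2)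
    rw [e1]
    refine Continuous.if_le
      (hc.comp ((continuous_const.mul continuous_fst).prodMk continuous_snd))
      (hc'.comp (((continuous_const.mul continuous_fst).sub continuous_const).prodMk continuous_snd))
      continuous_fst continuous_const ?_
    intro q hq
    have e2 : 2 * q.1 = 1 := by rw [hq]; norm_num
    have e3 : 2 * q.1 - 1 = 0 := by linarith
    show H (2 * q.1) q.2 = H' (2 * q.1 - 1) q.2
    rw [e3, e2, h1, h0']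
  · have : (0 : ℝ) ≤ 1 / 2 := by norm_num
    show (if (0 : ℝ) ≤ 1 / 2 then H (2 * 0) else H' (2 * 0 - 1)) = u
    rw [if_pos this, mul_zero, h0]
  · have : ¬ (1 : ℝ) ≤ 1 / 2 := by norm_num
    show (if (1 : ℝ) ≤ 1 / 2 then H (2 * 1) else H' (2 * 1 - 1)) = u''
    rw [if_neg this]
    have e : (2 * 1 - 1 : ℝ) = 1 := by norm_num
    rw [e, h1']
  · intro l hl0 hl1
    show CPath s₀ s₁ (min ε ε') (if l ≤ 1 / 2 then H (2 * l) else H' (2 * l - 1))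
    split_ifs with hl
    · exact (hp (2 * l) (by linarith) (by linarith)).mono (min_le_left _ _)
    · push Not at hl
      exact (hp' (2 * l - 1) (by linarith) (by linarith)).mono (min_le_right _ _)

theorem ph_linear (hε : 0 < ε) (h : CPath s₀ s₁ ε u) (h' : CPath s₀ s₁ ε u')
    (ha : ∀ ρ l : ℝ, 0 ≤ l → l ≤ 1 → ¬ Obs ((1 - l) • u ρ + l • u' ρ)) : PH s₀ s₁ u u' := by
  refine ⟨fun l ρ => (1 - l) • u ρ + l • u' ρ, ε, hε, ?_, ?_, ?_, ?_⟩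
  · exact ((continuous_const.sub continuous_fst).smul (h.cont.comp continuous_snd)).add
      (continuous_fst.smul (h'.cont.comp continuous_snd))
  · funext ρ
    simp
  · funext ρ
    simp
  · intro l hl0 hl1
    have c0 : Continuous fun ρ => (1 - l) • u ρ + l • u' ρ := by
      have a1 := h.cont
      have a2 := h'.cont
      fun_prop
    refine ⟨c0, ?_, ?_, fun ρ => ha ρ l hl0 hl1⟩
    · intro ρ hρ
      show (1 - l) • u ρ + l • u' ρ = s₀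
      rw [h.start ρ hρ, h'.start ρ hρ, ← add_smul]
      simp
    · intro ρ hρ
      show (1 - l) • u ρ + l • u' ρ = s₁
      rw [h.stop ρ hρ, h'.stop ρ hρ, ← add_smul]
      simp

theorem ph_clock {c : ℝ → ℝ × ℝ} (hc : Continuous c) {T : ℝ} (ha : ∀ y, 0 ≤ y → y ≤ T → ¬ Obs (c y))
    {θ θ' : ℝ → ℝ} (hθ : Continuous θ) (hθ' : Continuous θ') (hε : 0 < ε)
    (h0 : ∀ ρ ≤ ε, θ ρ = 0 ∧ θ' ρ = 0) (h1 : ∀ ρ, 1 - ε ≤ ρ → θ ρ = T ∧ θ' ρ = T)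
    (hr : ∀ ρ, θ ρ ∈ Icc 0 T ∧ θ' ρ ∈ Icc 0 T) : PH (c 0) (c T) (c ∘ θ) (c ∘ θ') := by
  refine ⟨fun l ρ => c ((1 - l) * θ ρ + l * θ' ρ), ε, hε, ?_, ?_, ?_, ?_⟩
  · exact hc.comp (((continuous_const.sub continuous_fst).mul (hθ.comp continuous_snd)).add
      (continuous_fst.mul (hθ'.comp continuous_snd)))
  · funext ρ
    simp
  · funext ρ
    simp
  · intro l hl0 hl1
    refine ⟨hc.comp ((continuous_const.mul hθ).add (continuous_const.mul hθ')), ?_, ?_, ?_⟩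
    · intro ρ hρ
      show c ((1 - l) * θ ρ + l * θ' ρ) = c 0
      rw [(h0 ρ hρ).1, (h0 ρ hρ).2]
      simp
    · intro ρ hρ
      show c ((1 - l) * θ ρ + l * θ' ρ) = c T
      rw [(h1 ρ hρ).1, (h1 ρ hρ).2]
      congr 1
      ring
    · intro ρ
      refine ha _ ?_ ?_
      · have a1 := (hr ρ).1.1
        have a2 := (hr ρ).2.1
        have : 0 ≤ 1 - l := by linarith
        positivity
      · have a1 := (hr ρ).1.2
        have a2 := (hr ρ).2.2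
        have b : 0 ≤ 1 - l := by linarith
        nlinarith [mul_le_mul_of_nonneg_left a1 b, mul_le_mul_of_nonneg_left a2 hl0]

/-- bump on `(ρ₀, 1 - ε)` -/
noncomputable def PHa_psi (ρ₀ ε ρ : ℝ) : ℝ := min 1 (max 0 (min (ρ - ρ₀) (1 - ε - ρ)))

theorem PHa_psi_cont (ρ₀ ε : ℝ) : Continuous (PHa_psi ρ₀ ε) :=
  continuous_const.min (continuous_const.max ((continuous_id.sub continuous_const).min
    (continuous_const.sub continuous_id)))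

theorem PHa_psi_nn (ρ₀ ε ρ : ℝ) : 0 ≤ PHa_psi ρ₀ ε ρ := le_min zero_le_one (le_max_left _ _)

theorem PHa_psi_le (ρ₀ ε ρ : ℝ) : PHa_psi ρ₀ ε ρ ≤ 1 := min_le_left _ _

theorem PHa_psi_zero {ρ₀ ε ρ : ℝ} (h : ρ ≤ ρ₀ ∨ 1 - ε ≤ ρ) : PHa_psi ρ₀ ε ρ = 0 := by
  have : min (ρ - ρ₀) (1 - ε - ρ) ≤ 0 := by
    rcases h with h | h
    · exact (min_le_left _ _).trans (by linarith)
    · exact (min_le_right _ _).trans (by linarith)
  rw [PHa_psi, max_eq_left this, min_eq_right zero_le_one]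

theorem PHa_psi_pos {ρ₀ ε ρ : ℝ} (h1 : ρ₀ < ρ) (h2 : ρ < 1 - ε) : 0 < PHa_psi ρ₀ ε ρ :=
  lt_min zero_lt_one (lt_max_of_lt_right (lt_min (by linarith) (by linarith)))

/-- push `u` to the middle of the strip -/
noncomputable def PHa_lift (u : ℝ → ℝ × ℝ) (ρ₀ ε : ℝ) (N : ℤ) (l ρ : ℝ) : ℝ × ℝ :=
  ((u ρ).1, (1 - l * PHa_psi ρ₀ ε ρ) * (u ρ).2 + l * PHa_psi ρ₀ ε ρ * (N + 1 / 2))

theorem PHa_lift_eq {u : ℝ → ℝ × ℝ} {ρ₀ ε : ℝ} {N : ℤ} {l ρ : ℝ} (h : l * PHa_psi ρ₀ ε ρ = 0) :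
    PHa_lift u ρ₀ ε N l ρ = u ρ := by
  rw [PHa_lift, h]
  simp

theorem PHa_lift_in {u : ℝ → ℝ × ℝ} {ρ₀ ε : ℝ} {N : ℤ} {l ρ : ℝ} (hl1 : l ≤ 1)
    (hs1 : (N : ℝ) ≤ (u ρ).2) (hs2 : (u ρ).2 < N + 1) (h : 0 < l * PHa_psi ρ₀ ε ρ) :
    (N : ℝ) < (PHa_lift u ρ₀ ε N l ρ).2 ∧ (PHa_lift u ρ₀ ε N l ρ).2 < N + 1 := by
  have h1 : l * PHa_psi ρ₀ ε ρ ≤ 1 := by
    have a := PHa_psi_nn ρ₀ ε ρ
    have b := PHa_psi_le ρ₀ ε ρ
    nlinarith
  simp only [PHa_lift]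
  set x := l * PHa_psi ρ₀ ε ρ with hx
  constructor
  · nlinarith [mul_le_mul_of_nonneg_left hs1 (by linarith : (0 : ℝ) ≤ 1 - x)]
  · rcases eq_or_lt_of_le h1 with h2 | h2
    · rw [h2]; norm_num
    · nlinarith [mul_lt_mul_of_pos_left hs2 (by linarith : (0 : ℝ) < 1 - x)]

theorem PHa_not_obs {q : ℝ × ℝ} {N : ℤ} (h1 : (N : ℝ) < q.2) (h2 : q.2 < N + 1) : ¬ Obs q := by
  rintro ⟨m, n, h⟩
  rw [h] at h1 h2
  simp only at h1 h2
  have a : N < n := by exact_mod_cast h1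
  have b : n < N + 1 := by exact_mod_cast h2
  omega

theorem PHa_lift_cpath {ρ₀ : ℝ} {N : ℤ} (h : CPath s₀ s₁ ε u) (hε : ε ≤ ρ₀)
    (hs : ∀ ρ, ρ₀ ≤ ρ → (N : ℝ) ≤ (u ρ).2 ∧ (u ρ).2 < N + 1) {l : ℝ} (hl0 : 0 ≤ l) (hl1 : l ≤ 1) :
    CPath s₀ s₁ ε (PHa_lift u ρ₀ ε N l) := by
  refine ⟨?_, ?_, ?_, ?_⟩
  · have c1 := PHa_psi_cont ρ₀ ε
    have c2 := h.cont.snd
    have c3 := h.cont.fst
    exact c3.prodMk (((continuous_const.sub (continuous_const.mul c1)).mul c2).add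
      ((continuous_const.mul c1).mul continuous_const))
  · intro ρ hρ
    rw [PHa_lift_eq (by rw [PHa_psi_zero (Or.inl (hρ.trans hε)), mul_zero]), h.start ρ hρ]
  · intro ρ hρ
    rw [PHa_lift_eq (by rw [PHa_psi_zero (Or.inr hρ), mul_zero]), h.stop ρ hρ]
  · intro ρ
    by_cases h0 : l * PHa_psi ρ₀ ε ρ = 0
    · rw [PHa_lift_eq h0]
      exact h.avoid ρ
    · have hp : 0 < l * PHa_psi ρ₀ ε ρ := lt_of_le_of_ne (mul_nonneg hl0 (PHa_psi_nn _ _ _)) (Ne.symm h0)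
      have hρ : ρ₀ ≤ ρ := by
        by_contra hn
        push Not at hn
        exact h0 (by rw [PHa_psi_zero (Or.inl hn.le), mul_zero])
      have := PHa_lift_in hl1 (hs ρ hρ).1 (hs ρ hρ).2 hp
      exact PHa_not_obs this.1 this.2

theorem PHa_lift_ph {ρ₀ : ℝ} {N : ℤ} (hε0 : 0 < ε) (h : CPath s₀ s₁ ε u) (hε : ε ≤ ρ₀)
    (hs : ∀ ρ, ρ₀ ≤ ρ → (N : ℝ) ≤ (u ρ).2 ∧ (u ρ).2 < N + 1) :
    PH s₀ s₁ u (PHa_lift u ρ₀ ε N 1) := by
  refine ⟨fun l => PHa_lift u ρ₀ ε N l, ε, hε0, ?_, ?_, rfl, fun l h0 h1 => PHa_lift_cpath h hε hs h0 h1⟩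
  · have c1 : Continuous fun q : ℝ × ℝ => PHa_psi ρ₀ ε q.2 := (PHa_psi_cont ρ₀ ε).comp continuous_snd
    have c2 : Continuous fun q : ℝ × ℝ => (u q.2).2 := h.cont.snd.comp continuous_snd
    have c3 : Continuous fun q : ℝ × ℝ => (u q.2).1 := h.cont.fst.comp continuous_snd
    exact c3.prodMk (((continuous_const.sub (continuous_fst.mul c1)).mul c2).add
      ((continuous_fst.mul c1).mul continuous_const))
  · funext ρ
    exact PHa_lift_eq (by rw [zero_mul])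

theorem ph_strip (hε : 0 < ε) (h : CPath s₀ s₁ ε u) (h' : CPath s₀ s₁ ε u') {ρ₀ : ℝ} {N : ℤ}
    (he : ∀ ρ ≤ ρ₀, u ρ = u' ρ) (hs : ∀ ρ, ρ₀ ≤ ρ → (N : ℝ) ≤ (u ρ).2 ∧ (u ρ).2 < N + 1)
    (hs' : ∀ ρ, ρ₀ ≤ ρ → (N : ℝ) ≤ (u' ρ).2 ∧ (u' ρ).2 < N + 1) : PH s₀ s₁ u u' := by
  set r := max ρ₀ ε with hr
  have e0 : ε ≤ r := le_max_right _ _
  have he' : ∀ ρ ≤ r, u ρ = u' ρ := by
    intro ρ hρ
    rcases le_or_gt ρ ρ₀ with h1 | h1
    · exact he ρ h1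
    · have h2 : ρ ≤ ε := by
        rcases le_max_iff.1 hρ with h2 | h2
        · exact absurd h2 (not_le.2 h1)
        · exact h2
      rw [h.start ρ h2, h'.start ρ h2]
  have hsr : ∀ ρ, r ≤ ρ → (N : ℝ) ≤ (u ρ).2 ∧ (u ρ).2 < N + 1 := fun ρ hρ => hs ρ ((le_max_left _ _).trans hρ)
  have hsr' : ∀ ρ, r ≤ ρ → (N : ℝ) ≤ (u' ρ).2 ∧ (u' ρ).2 < N + 1 := fun ρ hρ => hs' ρ ((le_max_left _ _).trans hρ)
  refine (PHa_lift_ph hε h e0 hsr).trans (PH.trans ?_ (PHa_lift_ph hε h' e0 hsr').symm)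
  refine ph_linear hε (PHa_lift_cpath h e0 hsr zero_le_one le_rfl) (PHa_lift_cpath h' e0 hsr' zero_le_one le_rfl) ?_
  intro ρ l hl0 hl1
  by_cases hψ : r < ρ ∧ ρ < 1 - ε
  · have hp : 0 < 1 * PHa_psi r ε ρ := by rw [one_mul]; exact PHa_psi_pos hψ.1 hψ.2
    have a1 := PHa_lift_in (u := u) le_rfl (hsr ρ hψ.1.le).1 (hsr ρ hψ.1.le).2 hp
    have a2 := PHa_lift_in (u := u') le_rfl (hsr' ρ hψ.1.le).1 (hsr' ρ hψ.1.le).2 hp
    have l1 : 0 ≤ 1 - l := by linarith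
    refine PHa_not_obs (N := N) ?_ ?_
    · simp only [Prod.snd_add, Prod.smul_snd, smul_eq_mul]
      rcases eq_or_lt_of_le hl0 with h0 | h0
      · rw [← h0]; simpa using a1.1
      · nlinarith [mul_le_mul_of_nonneg_left a1.1.le l1, mul_lt_mul_of_pos_left a2.1 h0]
    · simp only [Prod.snd_add, Prod.smul_snd, smul_eq_mul]
      rcases eq_or_lt_of_le hl0 with h0 | h0
      · rw [← h0]; simpa using a1.2
      · nlinarith [mul_le_mul_of_nonneg_left a1.2.le l1, mul_lt_mul_of_pos_left a2.2 h0]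
  · have hor : ρ ≤ r ∨ 1 - ε ≤ ρ := by
      by_contra hn
      push Not at hn
      exact hψ hn
    have hz : (1 : ℝ) * PHa_psi r ε ρ = 0 := by rw [PHa_psi_zero hor, mul_zero]
    have hu : u ρ = u' ρ := by
      rcases hor with h1 | h1
      · exact he' ρ h1
      · rw [h.stop ρ h1, h'.stop ρ h1]
    rw [PHa_lift_eq hz, PHa_lift_eq hz, ← hu, ← add_smul]
    simpa using h.avoid ρ

end Pool.Agent.GLB
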