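import Pool.Agent.GLB.FgB
import Pool.Agent.GLB.HomG
import Pool.Agent.GLB.PHa

/-!
# GLB/FgC: paths which turn around an obstacle   (difficulty 3)

`pol z r θ = z + r (cos 2πθ, sin 2πθ)`.
* `ph_polar`: `H l ρ = pol z ((1 - l) r + l r') ((1 - l) θ + l θ')` for `ρ ∈ [ρ₁, ρ₂]`, `= u ρ` elsewhere (continuity: `Continuous.if_le`, twice; at `ρ₁`, `ρ₂` the two
  formulas agree).  For `ρ` in `[ρ₁, ρ₂]` the point is at distance in `(0, 1)` of the obstacle `z = (m + 1/2, j)`, and the distance of two obstacles is at least `1`.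
  `CPath`: near the ends (`ρ ≤ min ε ρ₁`, `ρ ≥ max (1 - ε) ρ₂`) it is `u`.
* `turn_two` (`±2` turns, one implication): `ρ₀ ∈ (ρ₁, min ρ₂ (3/4))`, `δ > 0` with `[ρ₀ - 2δ, ρ₀ + 2δ] ⊂ (ρ₁, min ρ₂ (3/4))`, `χ` smooth, `= 1` on `[ρ₀ - δ, ρ₀ + δ]`, `= 0` off
  `(ρ₀ - 2δ, ρ₀ + 2δ)` (`ContDiffBump`, or `smoothTransition`).  `u₁ = pol z (r + χ (1/8 - r)) (θ + χ (1/2 - θ))` on `[ρ₁, ρ₂]`, `= u` elsewhere: smooth (near `ρ₁`, `ρ₂` it is `u`), `u₁ = (m + 3/8, j)` on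
  `[ρ₀ - δ, ρ₀ + δ]`, `u ~ u₁` (`ph_polar`).  `four_glob` (`ε = δ`): `u₂ = u₁` off that interval, `= pol z (1/8) (1/2 - o 2 gs (..))` there (`Sp 1 ϑ = (1/2 - cos (2πϑ)/8, sin (2πϑ)/8)`, so
  `(m, j) + Sp 1 ϑ = pol z (1/8) (1/2 - ϑ)`): `u₂ = pol z (r₁) (θ₁ + o 2 g̃)` on `[ρ₁, ρ₂]` where `g̃ = gs (2 (ρ - ρ₀) / δ)` (smooth, `0` for `ρ ≤ ρ₀ - δ/16`, `1` for `ρ ≥ ρ₀ + δ/32`; adding an integer to `θ`
  does not change `pol`).  `u₂ ~ u'` (`ph_polar` with the angles `θ₁ + 2 o g̃` and `θ'`, where `θ' ρ₂ = θ ρ₂ + 2 o`).  `hom_gcar` twice.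
* `turn_even`: `k = 0`: `ph_polar`, `hom_gcar`.  Induction on `|k|`: intermediate path with the angle `θ'' = θ + 2 (k ∓ 1) σ`, `σ` a smooth step from `0` to `1` inside `(ρ₁, ρ₂)`, radius `r`; `turn_two` with `o = 1` and
  `o = -1` gives both implications.
-/

open scoped Manifold ContDiff Topology
open Set Filter

namespace Pool.Agent.GLB

open Pool.Agent.PTH
open Pool.Agent.RSG (E4)

universe u

/-- polar coordinates around `z` -/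
noncomputable def pol (z : ℝ × ℝ) (r θ : ℝ) : ℝ × ℝ :=
  (z.1 + r * Real.cos (2 * Real.pi * θ), z.2 + r * Real.sin (2 * Real.pi * θ))

theorem pol_add (z : ℝ × ℝ) (r θ : ℝ) (k : ℤ) : pol z r (θ + k) = pol z r θ := by
  have h : 2 * Real.pi * (θ + k) = 2 * Real.pi * θ + k * (2 * Real.pi) := by ring
  unfold pol
  rw [h, Real.cos_add_int_mul_two_pi, Real.sin_add_int_mul_two_pi]

theorem FgC_avoid (m j : ℤ) {r θ : ℝ} (h0 : 0 < r) (h1 : r < 1) :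
    ¬ Obs (pol ((m : ℝ) + 1 / 2, (j : ℝ)) r θ) := by
  rintro ⟨a, b, hab⟩
  unfold pol at hab
  rw [Prod.mk.injEq] at hab
  obtain ⟨ha, hb⟩ := hab
  have h2 : r * Real.cos (2 * Real.pi * θ) = ((a - m : ℤ) : ℝ) := by
    push_cast
    simp only at ha
    linarith
  have h3 : r * Real.sin (2 * Real.pi * θ) = ((b - j : ℤ) : ℝ) := by
    push_cast
    simp only at hb
    linarith
  have h4 : (((a - m) ^ 2 + (b - j) ^ 2 : ℤ) : ℝ) = r ^ 2 := by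
    have h5 := Real.sin_sq_add_cos_sq (2 * Real.pi * θ)
    have h6 : (((a - m) ^ 2 + (b - j) ^ 2 : ℤ) : ℝ) = ((a - m : ℤ) : ℝ) ^ 2 + ((b - j : ℤ) : ℝ) ^ 2 := by
      push_cast
      ring
    rw [h6, ← h2, ← h3]
    linear_combination r ^ 2 * h5
  have h5 : (0 : ℝ) < (((a - m) ^ 2 + (b - j) ^ 2 : ℤ) : ℝ) := by rw [h4]; positivity
  have h6 : (((a - m) ^ 2 + (b - j) ^ 2 : ℤ) : ℝ) < (1 : ℤ) := by
    rw [h4]
    push_cast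
    nlinarith
  have h7 : (0 : ℤ) < (a - m) ^ 2 + (b - j) ^ 2 := by exact_mod_cast h5
  have h8 : (a - m) ^ 2 + (b - j) ^ 2 < (1 : ℤ) := by exact_mod_cast h6
  omega

theorem FgC_pol_cont (z : ℝ × ℝ) {Y : Type*} [TopologicalSpace Y] {r θ : Y → ℝ} (hr : Continuous r)
    (hθ : Continuous θ) : Continuous fun y => pol z (r y) (θ y) := by
  unfold pol
  fun_prop

theorem FgC_pol_smooth (z : ℝ × ℝ) {r θ : ℝ → ℝ} (hr : ContDiff ℝ ∞ r) (hθ : ContDiff ℝ ∞ θ) :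
    ContDiff ℝ ∞ fun y => pol z (r y) (θ y) := by
  unfold pol
  have h1 : ContDiff ℝ ∞ fun y => 2 * Real.pi * θ y := contDiff_const.mul hθ
  exact (contDiff_const.add (hr.mul (Real.contDiff_cos.comp h1))).prodMk
    (contDiff_const.add (hr.mul (Real.contDiff_sin.comp h1)))

theorem ph_polar {s₀ s₁ : ℝ × ℝ} {u u' : ℝ → ℝ × ℝ} {ε : ℝ} (hε : 0 < ε) (hu : CPath s₀ s₁ ε u) (hu' : CPath s₀ s₁ ε u')
    {m j : ℤ} {ρ₁ ρ₂ : ℝ} (h0 : 0 < ρ₁) (h1 : ρ₁ < ρ₂) (h2 : ρ₂ < 1) {r θ r' θ' : ℝ → ℝ} (cr : Continuous r)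
    (cθ : Continuous θ) (cr' : Continuous r') (cθ' : Continuous θ')
    (hr : ∀ ρ ∈ Icc ρ₁ ρ₂, 0 < r ρ ∧ r ρ < 1) (hr' : ∀ ρ ∈ Icc ρ₁ ρ₂, 0 < r' ρ ∧ r' ρ < 1)
    (hp : ∀ ρ ∈ Icc ρ₁ ρ₂, u ρ = pol ((m : ℝ) + 1 / 2, (j : ℝ)) (r ρ) (θ ρ))
    (hp' : ∀ ρ ∈ Icc ρ₁ ρ₂, u' ρ = pol ((m : ℝ) + 1 / 2, (j : ℝ)) (r' ρ) (θ' ρ))
    (he : ∀ ρ, ρ ∉ Ioo ρ₁ ρ₂ → u' ρ = u ρ) (e1 : r' ρ₁ = r ρ₁) (e2 : θ' ρ₁ = θ ρ₁) (e3 : r' ρ₂ = r ρ₂)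
    (e4 : θ' ρ₂ = θ ρ₂) : PH s₀ s₁ u u' := by
  set z : ℝ × ℝ := ((m : ℝ) + 1 / 2, (j : ℝ)) with hz
  set c : ℝ → ℝ := fun ρ => max ρ₁ (min ρ ρ₂) with hc
  have cc : Continuous c := by
    rw [hc]
    fun_prop
  have c1 : ∀ ρ, ρ ≤ ρ₁ → c ρ = ρ₁ := fun ρ h => by
    simp only [hc]
    rw [min_eq_left (by linarith), max_eq_left h]
  have c2 : ∀ ρ, ρ₂ ≤ ρ → c ρ = ρ₂ := fun ρ h => by
    simp only [hc]
    rw [min_eq_right h, max_eq_right h1.le]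
  have c3 : ∀ ρ, ρ₁ ≤ ρ → ρ ≤ ρ₂ → c ρ = ρ := fun ρ h h' => by
    simp only [hc]
    rw [min_eq_left h', max_eq_right h]
  set H : ℝ → ℝ → ℝ × ℝ := fun l ρ => u ρ + (pol z ((1 - l) * r (c ρ) + l * r' (c ρ))
    ((1 - l) * θ (c ρ) + l * θ' (c ρ)) - pol z (r (c ρ)) (θ (c ρ))) with hH
  have out1 : ∀ l ρ, ρ ≤ ρ₁ → H l ρ = u ρ := by
    intro l ρ h
    have q1 : (1 - l) * r ρ₁ + l * r ρ₁ = r ρ₁ := by ring
    have q2 : (1 - l) * θ ρ₁ + l * θ ρ₁ = θ ρ₁ := by ring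
    simp only [hH]
    rw [c1 ρ h, e1, e2, q1, q2, sub_self, add_zero]
  have out2 : ∀ l ρ, ρ₂ ≤ ρ → H l ρ = u ρ := by
    intro l ρ h
    have q1 : (1 - l) * r ρ₂ + l * r ρ₂ = r ρ₂ := by ring
    have q2 : (1 - l) * θ ρ₂ + l * θ ρ₂ = θ ρ₂ := by ring
    simp only [hH]
    rw [c2 ρ h, e3, e4, q1, q2, sub_self, add_zero]
  have inn : ∀ l ρ, ρ₁ ≤ ρ → ρ ≤ ρ₂ → H l ρ = pol z ((1 - l) * r ρ + l * r' ρ) ((1 - l) * θ ρ + l * θ' ρ) := by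
    intro l ρ h h'
    simp only [hH]
    rw [c3 ρ h h', hp ρ ⟨h, h'⟩]
    abel
  refine ⟨H, min ε (min ρ₁ (1 - ρ₂)), lt_min hε (lt_min h0 (by linarith)), ?_, ?_, ?_, ?_⟩
  · have hcu : Continuous fun q : ℝ × ℝ => u q.2 := hu.cont.comp continuous_snd
    have k1 : Continuous fun q : ℝ × ℝ => r (c q.2) := cr.comp (cc.comp continuous_snd)
    have k2 : Continuous fun q : ℝ × ℝ => θ (c q.2) := cθ.comp (cc.comp continuous_snd)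
    have k3 : Continuous fun q : ℝ × ℝ => r' (c q.2) := cr'.comp (cc.comp continuous_snd)
    have k4 : Continuous fun q : ℝ × ℝ => θ' (c q.2) := cθ'.comp (cc.comp continuous_snd)
    have k5 : Continuous fun q : ℝ × ℝ => (1 - q.1) * r (c q.2) + q.1 * r' (c q.2) :=
      ((continuous_const.sub continuous_fst).mul k1).add (continuous_fst.mul k3)
    have k6 : Continuous fun q : ℝ × ℝ => (1 - q.1) * θ (c q.2) + q.1 * θ' (c q.2) :=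
      ((continuous_const.sub continuous_fst).mul k2).add (continuous_fst.mul k4)
    exact hcu.add ((FgC_pol_cont z k5 k6).sub (FgC_pol_cont z k1 k2))
  · funext ρ
    simp only [hH, sub_zero, one_mul, zero_mul, add_zero, sub_self]
  · funext ρ
    by_cases h : ρ₁ ≤ ρ ∧ ρ ≤ ρ₂
    · rw [inn 1 ρ h.1 h.2, hp' ρ h]
      simp only [sub_self, zero_mul, one_mul, zero_add]
    · have h' : ρ ∉ Ioo ρ₁ ρ₂ := fun hh => h ⟨hh.1.le, hh.2.le⟩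
      rw [he ρ h']
      rcases lt_or_ge ρ ρ₁ with h2 | h2
      · exact out1 1 ρ h2.le
      · exact out2 1 ρ (by
          by_contra h3
          exact h ⟨h2, (not_le.1 h3).le⟩)
  · intro l hl0 hl1
    refine ⟨?_, ?_, ?_, ?_⟩
    · have k1 : Continuous fun ρ : ℝ => r (c ρ) := cr.comp cc
      have k2 : Continuous fun ρ : ℝ => θ (c ρ) := cθ.comp cc
      have k3 : Continuous fun ρ : ℝ => r' (c ρ) := cr'.comp cc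
      have k4 : Continuous fun ρ : ℝ => θ' (c ρ) := cθ'.comp cc
      have k5 : Continuous fun ρ : ℝ => (1 - l) * r (c ρ) + l * r' (c ρ) :=
        (continuous_const.mul k1).add (continuous_const.mul k3)
      have k6 : Continuous fun ρ : ℝ => (1 - l) * θ (c ρ) + l * θ' (c ρ) :=
        (continuous_const.mul k2).add (continuous_const.mul k4)
      exact hu.cont.add ((FgC_pol_cont z k5 k6).sub (FgC_pol_cont z k1 k2))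
    · intro ρ h
      rw [out1 l ρ (h.trans ((min_le_right _ _).trans (min_le_left _ _)))]
      exact hu.start ρ (h.trans (min_le_left _ _))
    · intro ρ h
      have h3 : min ε (min ρ₁ (1 - ρ₂)) ≤ 1 - ρ₂ := (min_le_right _ _).trans (min_le_right _ _)
      have h4 : min ε (min ρ₁ (1 - ρ₂)) ≤ ε := min_le_left _ _
      rw [out2 l ρ (by linarith)]
      exact hu.stop ρ (by linarith)
    · intro ρ
      rcases le_or_gt ρ ρ₁ with h2 | h2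
      · rw [out1 l ρ h2]
        exact hu.avoid ρ
      rcases le_or_gt ρ₂ ρ with h3 | h3
      · rw [out2 l ρ h3]
        exact hu.avoid ρ
      rw [inn l ρ h2.le h3.le]
      obtain ⟨a1, a2⟩ := hr ρ ⟨h2.le, h3.le⟩
      obtain ⟨b1, b2⟩ := hr' ρ ⟨h2.le, h3.le⟩
      apply FgC_avoid
      · rcases lt_or_ge l 1 with h5 | h5
        · have := mul_pos (sub_pos.2 h5) a1
          have := mul_nonneg hl0 b1.le
          linarith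
        · have h6 : l = 1 := le_antisymm hl1 h5
          rw [h6]
          linarith
      · rcases lt_or_ge l 1 with h5 | h5
        · have := mul_pos (sub_pos.2 h5) (sub_pos.2 a2)
          have := mul_nonneg hl0 (sub_pos.2 b2).le
          nlinarith
        · have h6 : l = 1 := le_antisymm hl1 h5
          rw [h6]
          linarith

variable {v : ℤ × ℤ × ℤ} {p q : ℤ} {n₁ : ℤ × ℤ × ℤ}

/-- a path which turns around an obstacle during `[ρ₁, ρ₂]` -/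
structure Turn (s₁ : ℝ × ℝ) (m j : ℤ) (ρ₁ ρ₂ : ℝ) (r θ : ℝ → ℝ) (u : ℝ → ℝ × ℝ) : Prop where
  path : SPath (0, 0) s₁ u
  lo : 0 < ρ₁
  lt : ρ₁ < ρ₂
  lo' : ρ₁ < 3 / 4
  hi : ρ₂ < 1
  smr : ContDiff ℝ ∞ r
  smt : ContDiff ℝ ∞ θ
  rad : ∀ ρ ∈ Icc ρ₁ ρ₂, 0 < r ρ ∧ r ρ < 1
  eq : ∀ ρ ∈ Icc ρ₁ ρ₂, u ρ = pol ((m : ℝ) + 1 / 2, (j : ℝ)) (r ρ) (θ ρ)

/-- change the radius and the angle of a turning path -/
theorem FgC_mk {s₁ : ℝ × ℝ} {m j : ℤ} {ρ₁ ρ₂ : ℝ} {r θ : ℝ → ℝ} {u : ℝ → ℝ × ℝ} (hu : Turn s₁ m j ρ₁ ρ₂ r θ u)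
    {r₂ θ₂ : ℝ → ℝ} (hr : ContDiff ℝ ∞ r₂) (hθ : ContDiff ℝ ∞ θ₂) (hrad : ∀ ρ ∈ Icc ρ₁ ρ₂, 0 < r₂ ρ ∧ r₂ ρ < 1)
    (hout : ∀ ρ, ρ ∉ Ioo ρ₁ ρ₂ → pol ((m : ℝ) + 1 / 2, (j : ℝ)) (r₂ ρ) (θ₂ ρ) =
      pol ((m : ℝ) + 1 / 2, (j : ℝ)) (r ρ) (θ ρ)) :
    ∃ u₂ : ℝ → ℝ × ℝ, Turn s₁ m j ρ₁ ρ₂ r₂ θ₂ u₂ ∧ (∀ ρ, pol ((m : ℝ) + 1 / 2, (j : ℝ)) (r₂ ρ) (θ₂ ρ) =
      pol ((m : ℝ) + 1 / 2, (j : ℝ)) (r ρ) (θ ρ) → u₂ ρ = u ρ) := by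
  set z : ℝ × ℝ := ((m : ℝ) + 1 / 2, (j : ℝ)) with hz
  set u₂ : ℝ → ℝ × ℝ := fun ρ => u ρ + (pol z (r₂ ρ) (θ₂ ρ) - pol z (r ρ) (θ ρ)) with hu₂
  have hsame : ∀ ρ, pol z (r₂ ρ) (θ₂ ρ) = pol z (r ρ) (θ ρ) → u₂ ρ = u ρ := fun ρ h => by
    simp only [hu₂]
    rw [h, sub_self, add_zero]
  have hin : ∀ ρ ∈ Icc ρ₁ ρ₂, u₂ ρ = pol z (r₂ ρ) (θ₂ ρ) := fun ρ h => by
    simp only [hu₂]
    rw [hu.eq ρ h]
    abel
  refine ⟨u₂, ⟨⟨?_, ?_, ?_, ?_⟩, hu.lo, hu.lt, hu.lo', hu.hi, hr, hθ, hrad, hin⟩, hsame⟩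
  · exact hu.path.smooth.add ((FgC_pol_smooth z hr hθ).sub (FgC_pol_smooth z hu.smr hu.smt))
  · obtain ⟨ε, hε, h⟩ := hu.path.start
    refine ⟨min ε ρ₁, lt_min hε hu.lo, fun ρ hρ => ?_⟩
    rw [hsame ρ (hout ρ fun hh => absurd hh.1 (not_lt.2 (hρ.trans (min_le_right _ _))))]
    exact h ρ (hρ.trans (min_le_left _ _))
  · obtain ⟨ε, hε, h⟩ := hu.path.stop
    refine ⟨min ε (1 - ρ₂), lt_min hε (sub_pos.2 hu.hi), fun ρ hρ => ?_⟩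
    have h3 : min ε (1 - ρ₂) ≤ 1 - ρ₂ := min_le_right _ _
    have h4 : min ε (1 - ρ₂) ≤ ε := min_le_left _ _
    rw [hsame ρ (hout ρ fun hh => absurd hh.2 (not_lt.2 (by linarith)))]
    exact h ρ (by linarith)
  · intro ρ
    by_cases h : ρ ∈ Ioo ρ₁ ρ₂
    · have h' : ρ ∈ Icc ρ₁ ρ₂ := ⟨h.1.le, h.2.le⟩
      rw [hin ρ h']
      exact FgC_avoid m j (hrad ρ h').1 (hrad ρ h').2
    · rw [hsame ρ (hout ρ h)]
      exact hu.path.avoid ρ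

theorem FgC_hom (hv : VGood v) (hb : VB v p q) {u u' : ℝ → ℝ × ℝ} {m j : ℤ} {ρ₁ ρ₂ : ℝ} {r θ r' θ' : ℝ → ℝ}
    (hu : Turn (pl v p q (fin n₁)) m j ρ₁ ρ₂ r θ u) (hu' : Turn (pl v p q (fin n₁)) m j ρ₁ ρ₂ r' θ' u')
    (he : ∀ ρ, ρ ∉ Ioo ρ₁ ρ₂ → u' ρ = u ρ) (e1 : r' ρ₁ = r ρ₁) (e2 : θ' ρ₁ = θ ρ₁) (e3 : r' ρ₂ = r ρ₂)
    (e4 : θ' ρ₂ = θ ρ₂) : GEq.{u} v (up v p q n₁ u) (up v p q n₁ u') := by
  obtain ⟨ε, hε, h⟩ := SPath.cpath hu.path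
  obtain ⟨ε', hε', h'⟩ := SPath.cpath hu'.path
  exact hom_gcar hv hb hu.path hu'.path (ph_polar (lt_min hε hε') (h.mono (min_le_left _ _))
    (h'.mono (min_le_right _ _)) hu.lo hu.lt hu.hi hu.smr.continuous hu.smt.continuous hu'.smr.continuous
    hu'.smt.continuous hu.rad hu'.rad hu.eq hu'.eq he e1 e2 e3 e4)

theorem turn_two (hv : VGood v) (hb : VB v p q) {u u' : ℝ → ℝ × ℝ} {m j : ℤ} {ρ₁ ρ₂ : ℝ} {r θ r' θ' : ℝ → ℝ}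
    (hu : Turn (pl v p q (fin n₁)) m j ρ₁ ρ₂ r θ u) (hu' : Turn (pl v p q (fin n₁)) m j ρ₁ ρ₂ r' θ' u')
    (he : ∀ ρ, ρ ∉ Ioo ρ₁ ρ₂ → u' ρ = u ρ) (e1 : r' ρ₁ = r ρ₁) (e2 : θ' ρ₁ = θ ρ₁) (e3 : r' ρ₂ = r ρ₂)
    {o : ℝ} (ho : o = 1 ∨ o = -1) (e4 : θ' ρ₂ = θ ρ₂ + 2 * o) (k : ℤ) (X : Type u) [TopologicalSpace X]
    [ChartedSpace E4 X] [T2Space X] (h : GCar v k (up v p q n₁ u) X) : GCar v k (up v p q n₁ u') X := by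
  -- constants
  obtain ⟨M, hM⟩ : ∃ M, M = min ρ₂ (3 / 4) := ⟨_, rfl⟩
  have hM1 : ρ₁ < M := by rw [hM]; exact lt_min hu.lt hu.lo'
  have hM2 : M ≤ ρ₂ := by rw [hM]; exact min_le_left _ _
  have hM3 : M ≤ 3 / 4 := by rw [hM]; exact min_le_right _ _
  obtain ⟨ρ₀, hρ₀⟩ : ∃ ρ₀, ρ₀ = (ρ₁ + M) / 2 := ⟨_, rfl⟩
  obtain ⟨δ, hδ⟩ : ∃ δ, δ = (M - ρ₁) / 8 := ⟨_, rfl⟩
  have hδ0 : 0 < δ := by rw [hδ]; linarith
  have b1 : ρ₁ < ρ₀ - 2 * δ := by rw [hρ₀, hδ]; linarith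
  have b2 : ρ₀ + 2 * δ < M := by rw [hρ₀, hδ]; linarith
  have lo := hu.lo
  -- the bump function
  set χ : ℝ → ℝ := fun ρ => Real.smoothTransition ((ρ - ρ₀ + 2 * δ) / δ) *
    Real.smoothTransition ((ρ₀ + 2 * δ - ρ) / δ) with hχ
  have χs : ContDiff ℝ ∞ χ := by
    have k1 : ContDiff ℝ ∞ fun ρ : ℝ => (ρ - ρ₀ + 2 * δ) / δ :=
      ((contDiff_id.sub contDiff_const).add contDiff_const).div_const _
    have k2 : ContDiff ℝ ∞ fun ρ : ℝ => (ρ₀ + 2 * δ - ρ) / δ :=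
      (contDiff_const.sub contDiff_id).div_const _
    exact (Real.smoothTransition.contDiff.comp k1).mul (Real.smoothTransition.contDiff.comp k2)
  have χ0 : ∀ ρ, 0 ≤ χ ρ := fun ρ => mul_nonneg (Real.smoothTransition.nonneg _) (Real.smoothTransition.nonneg _)
  have χ1 : ∀ ρ, χ ρ ≤ 1 := fun ρ => mul_le_one₀ (Real.smoothTransition.le_one _)
    (Real.smoothTransition.nonneg _) (Real.smoothTransition.le_one _)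
  have χin : ∀ ρ, |ρ - ρ₀| ≤ δ → χ ρ = 1 := by
    intro ρ hρ
    rw [abs_le] at hρ
    have k1 : Real.smoothTransition ((ρ - ρ₀ + 2 * δ) / δ) = 1 := by
      apply Real.smoothTransition.one_of_one_le
      rw [le_div_iff₀ hδ0]
      linarith [hρ.1]
    have k2 : Real.smoothTransition ((ρ₀ + 2 * δ - ρ) / δ) = 1 := by
      apply Real.smoothTransition.one_of_one_le
      rw [le_div_iff₀ hδ0]
      linarith [hρ.2]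
    simp only [hχ]
    rw [k1, k2, one_mul]
  have χl : ∀ ρ, ρ ≤ ρ₀ - 2 * δ → χ ρ = 0 := by
    intro ρ hρ
    have k1 : Real.smoothTransition ((ρ - ρ₀ + 2 * δ) / δ) = 0 :=
      Real.smoothTransition.zero_of_nonpos (div_nonpos_of_nonpos_of_nonneg (by linarith) hδ0.le)
    simp only [hχ]
    rw [k1, zero_mul]
  have χr : ∀ ρ, ρ₀ + 2 * δ ≤ ρ → χ ρ = 0 := by
    intro ρ hρ
    have k1 : Real.smoothTransition ((ρ₀ + 2 * δ - ρ) / δ) = 0 :=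
      Real.smoothTransition.zero_of_nonpos (div_nonpos_of_nonpos_of_nonneg (by linarith) hδ0.le)
    simp only [hχ]
    rw [k1, mul_zero]
  have χout : ∀ ρ, ρ ∉ Ioo ρ₁ ρ₂ → χ ρ = 0 := by
    intro ρ hρ
    rcases le_or_gt ρ ρ₁ with h1 | h1
    · exact χl ρ (by linarith)
    · refine χr ρ ?_
      by_contra h2
      exact hρ ⟨h1, by linarith [not_le.1 h2]⟩
  -- first path
  set r₁ : ℝ → ℝ := fun ρ => r ρ + χ ρ * (1 / 8 - r ρ) with hr₁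
  set θ₁ : ℝ → ℝ := fun ρ => θ ρ + χ ρ * (1 / 2 - θ ρ) with hθ₁
  have r₁s : ContDiff ℝ ∞ r₁ := hu.smr.add (χs.mul (contDiff_const.sub hu.smr))
  have θ₁s : ContDiff ℝ ∞ θ₁ := hu.smt.add (χs.mul (contDiff_const.sub hu.smt))
  have r₁0 : ∀ ρ, χ ρ = 0 → r₁ ρ = r ρ := fun ρ h => by simp only [hr₁]; rw [h]; ring
  have θ₁0 : ∀ ρ, χ ρ = 0 → θ₁ ρ = θ ρ := fun ρ h => by simp only [hθ₁]; rw [h]; ring
  have r₁1 : ∀ ρ, χ ρ = 1 → r₁ ρ = 1 / 8 := fun ρ h => by simp only [hr₁]; rw [h]; ring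
  have θ₁1 : ∀ ρ, χ ρ = 1 → θ₁ ρ = 1 / 2 := fun ρ h => by simp only [hθ₁]; rw [h]; ring
  have r₁rad : ∀ ρ ∈ Icc ρ₁ ρ₂, 0 < r₁ ρ ∧ r₁ ρ < 1 := by
    intro ρ hρ
    obtain ⟨a1, a2⟩ := hu.rad ρ hρ
    have c0 := χ0 ρ
    have c1 := χ1 ρ
    simp only [hr₁]
    constructor
    · rcases lt_or_ge (χ ρ) 1 with h5 | h5
      · have := mul_pos (sub_pos.2 h5) a1
        nlinarith
      · have h6 : χ ρ = 1 := le_antisymm c1 h5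
        rw [h6]
        linarith
    · rcases lt_or_ge (χ ρ) 1 with h5 | h5
      · have := mul_pos (sub_pos.2 h5) (sub_pos.2 a2)
        nlinarith
      · have h6 : χ ρ = 1 := le_antisymm c1 h5
        rw [h6]
        linarith
  obtain ⟨u₁, hu₁, hs₁⟩ := FgC_mk hu r₁s θ₁s r₁rad fun ρ hρ => by
    rw [r₁0 ρ (χout ρ hρ), θ₁0 ρ (χout ρ hρ)]
  have he₁ : ∀ ρ, ρ ∉ Ioo ρ₁ ρ₂ → u₁ ρ = u ρ := fun ρ hρ => hs₁ ρ (by
    rw [r₁0 ρ (χout ρ hρ), θ₁0 ρ (χout ρ hρ)])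
  have x1 : χ ρ₁ = 0 := χl ρ₁ b1.le
  have x2 : χ ρ₂ = 0 := χr ρ₂ (by linarith)
  have A := FgC_hom hv hb hu hu₁ he₁ (r₁0 _ x1) (θ₁0 _ x1) (r₁0 _ x2) (θ₁0 _ x2)
  -- second path
  obtain ⟨N, hN⟩ : ∃ N : ℤ, (N : ℝ) = 2 * o := by
    rcases ho with h | h
    · exact ⟨2, by rw [h]; norm_num⟩
    · exact ⟨-2, by rw [h]; norm_num⟩
  set g : ℝ → ℝ := fun ρ => Pool.Agent.RBM.gs (2 * (ρ - ρ₀) / δ) with hg
  have gsm : ContDiff ℝ ∞ g := by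
    have k1 : ContDiff ℝ ∞ fun ρ : ℝ => 2 * (ρ - ρ₀) / δ :=
      (contDiff_const.mul (contDiff_id.sub contDiff_const)).div_const _
    exact (Pool.Agent.CSG.stp_smooth _ _).comp k1
  have gl : ∀ ρ, ρ ≤ ρ₀ - δ → g ρ = 0 := by
    intro ρ hρ
    refine Pool.Agent.CSG.stp_zero (by norm_num) ?_
    rw [div_le_iff₀ hδ0]
    linarith
  have gr : ∀ ρ, ρ₀ + δ ≤ ρ → g ρ = 1 := by
    intro ρ hρ
    refine Pool.Agent.CSG.stp_one (by norm_num) ?_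
    rw [le_div_iff₀ hδ0]
    linarith
  set θ₂ : ℝ → ℝ := fun ρ => θ₁ ρ + 2 * o * g ρ with hθ₂
  have θ₂s : ContDiff ℝ ∞ θ₂ := θ₁s.add (contDiff_const.mul gsm)
  have hp2 : ∀ ρ, δ ≤ |ρ - ρ₀| → pol ((m : ℝ) + 1 / 2, (j : ℝ)) (r₁ ρ) (θ₂ ρ) =
      pol ((m : ℝ) + 1 / 2, (j : ℝ)) (r₁ ρ) (θ₁ ρ) := by
    intro ρ hρ
    rcases le_abs.1 hρ with h1 | h1
    · have h2 : θ₂ ρ = θ₁ ρ + (N : ℝ) := by
        simp only [hθ₂]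
        rw [gr ρ (by linarith), hN, mul_one]
      rw [h2, pol_add]
    · have h2 : θ₂ ρ = θ₁ ρ := by
        simp only [hθ₂]
        rw [gl ρ (by linarith), mul_zero, add_zero]
      rw [h2]
  have hδout : ∀ ρ, ρ ∉ Ioo ρ₁ ρ₂ → δ ≤ |ρ - ρ₀| := by
    intro ρ hρ
    rcases le_or_gt ρ ρ₁ with h1 | h1
    · exact le_abs.2 (Or.inr (by linarith))
    · refine le_abs.2 (Or.inl ?_)
      have h2 : ρ₂ ≤ ρ := by
        by_contra h2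
        exact hρ ⟨h1, not_le.1 h2⟩
      linarith
  obtain ⟨u₂, hu₂, hs₂⟩ := FgC_mk hu₁ r₁s θ₂s r₁rad fun ρ hρ => hp2 ρ (hδout ρ hρ)
  have he₂ : ∀ ρ, δ ≤ |ρ - ρ₀| → u₂ ρ = u₁ ρ := fun ρ hρ => hs₂ ρ (hp2 ρ hρ)
  -- the 4-move
  have hcar₁ : GCar v k (up v p q n₁ u₁) X := (A k X).1 h
  have hicc : ∀ ρ, |ρ - ρ₀| ≤ δ → ρ ∈ Icc ρ₁ ρ₂ := by
    intro ρ hρ
    rw [abs_le] at hρ
    exact ⟨by linarith [hρ.1], by linarith [hρ.2]⟩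
  have hcar₂ : GCar v k (up v p q n₁ u₂) X := by
    refine four_glob hv hb (m := m) (n := j) (ρ₀ := ρ₀) (ε := δ) hδ0 (by linarith) (by linarith) ho ?_ ?_ he₂ k X hcar₁
    · intro ρ hρ
      rw [hu₁.eq ρ (hicc ρ hρ), r₁1 ρ (χin ρ hρ), θ₁1 ρ (χin ρ hρ)]
      have h1 : 2 * Real.pi * (1 / 2) = Real.pi := by ring
      unfold pol
      rw [h1, Real.cos_pi, Real.sin_pi]
      ext
      · simp only
        ring
      · simp only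
        ring
    · intro ρ hρ
      rw [hu₂.eq ρ (hicc ρ hρ), r₁1 ρ (χin ρ hρ)]
      have h1 : 2 * Real.pi * θ₂ ρ = Real.pi - 2 * Real.pi * (-o * (2 * Pool.Agent.RBM.gs (2 * (ρ - ρ₀) / δ))) := by
        simp only [hθ₂, hg]
        rw [θ₁1 ρ (χin ρ hρ)]
        ring
      unfold pol Sp
      rw [h1, Real.cos_pi_sub, Real.sin_pi_sub]
      ext
      · simp only [Prod.fst_add]
        ring
      · simp only [Prod.snd_add]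
  -- second homotopy
  have B := FgC_hom hv hb hu₂ hu' (fun ρ hρ => by rw [he ρ hρ, he₂ ρ (hδout ρ hρ), he₁ ρ hρ])
    (by rw [r₁0 _ x1]; exact e1)
    (by
      have h2 : θ₂ ρ₁ = θ ρ₁ := by
        simp only [hθ₂]
        rw [gl ρ₁ (by linarith), mul_zero, add_zero, θ₁0 _ x1]
      rw [h2, e2])
    (by rw [r₁0 _ x2]; exact e3)
    (by
      have h2 : θ₂ ρ₂ = θ ρ₂ + 2 * o := by
        simp only [hθ₂]
        rw [gr ρ₂ (by linarith), mul_one, θ₁0 _ x2]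
      rw [h2, e4])
  exact (B k X).1 hcar₂

theorem FgC_one (hv : VGood v) (hb : VB v p q) {u u' : ℝ → ℝ × ℝ} {m j : ℤ} {ρ₁ ρ₂ : ℝ} {r θ r' θ' : ℝ → ℝ}
    (hu : Turn (pl v p q (fin n₁)) m j ρ₁ ρ₂ r θ u) (hu' : Turn (pl v p q (fin n₁)) m j ρ₁ ρ₂ r' θ' u')
    (he : ∀ ρ, ρ ∉ Ioo ρ₁ ρ₂ → u' ρ = u ρ) (e1 : r' ρ₁ = r ρ₁) (e2 : θ' ρ₁ = θ ρ₁) (e3 : r' ρ₂ = r ρ₂)
    (e4 : θ' ρ₂ = θ ρ₂ + 2) : GEq.{u} v (up v p q n₁ u) (up v p q n₁ u') := by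
  intro n X _ _ _
  constructor
  · exact turn_two hv hb hu hu' he e1 e2 e3 (Or.inl rfl) (by rw [e4]; ring) n X
  · exact turn_two hv hb hu' hu (fun ρ hρ => (he ρ hρ).symm) e1.symm e2.symm e3.symm (Or.inr rfl)
      (by rw [e4]; ring) n X

theorem FgC_mid {s₁ : ℝ × ℝ} {m j : ℤ} {ρ₁ ρ₂ : ℝ} {r θ : ℝ → ℝ} {u : ℝ → ℝ × ℝ}
    (hu : Turn s₁ m j ρ₁ ρ₂ r θ u) (k : ℤ) :
    ∃ (θ₂ : ℝ → ℝ) (u₂ : ℝ → ℝ × ℝ), Turn s₁ m j ρ₁ ρ₂ r θ₂ u₂ ∧ (∀ ρ, ρ ∉ Ioo ρ₁ ρ₂ → u₂ ρ = u ρ) ∧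
      θ₂ ρ₁ = θ ρ₁ ∧ θ₂ ρ₂ = θ ρ₂ + 2 * k := by
  have hlt := hu.lt
  have hd : 0 < ρ₂ - ρ₁ := by linarith
  set σ : ℝ → ℝ := fun ρ => Real.smoothTransition ((ρ - ρ₁) / (ρ₂ - ρ₁)) with hσ
  have σs : ContDiff ℝ ∞ σ := Real.smoothTransition.contDiff.comp
    ((contDiff_id.sub contDiff_const).div_const _)
  have σl : ∀ ρ, ρ ≤ ρ₁ → σ ρ = 0 := fun ρ h =>
    Real.smoothTransition.zero_of_nonpos (div_nonpos_of_nonpos_of_nonneg (by linarith) hd.le)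
  have σr : ∀ ρ, ρ₂ ≤ ρ → σ ρ = 1 := fun ρ h => by
    apply Real.smoothTransition.one_of_one_le
    rw [le_div_iff₀ hd]
    linarith
  set θ₂ : ℝ → ℝ := fun ρ => θ ρ + 2 * k * σ ρ with hθ₂
  have θ₂s : ContDiff ℝ ∞ θ₂ := hu.smt.add (contDiff_const.mul σs)
  have l0 : ∀ ρ, ρ ≤ ρ₁ → θ₂ ρ = θ ρ := fun ρ h => by
    simp only [hθ₂]
    rw [σl ρ h, mul_zero, add_zero]
  have l1 : ∀ ρ, ρ₂ ≤ ρ → θ₂ ρ = θ ρ + 2 * k := fun ρ h => by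
    simp only [hθ₂]
    rw [σr ρ h, mul_one]
  have hout : ∀ ρ, ρ ∉ Ioo ρ₁ ρ₂ → pol ((m : ℝ) + 1 / 2, (j : ℝ)) (r ρ) (θ₂ ρ) =
      pol ((m : ℝ) + 1 / 2, (j : ℝ)) (r ρ) (θ ρ) := by
    intro ρ hρ
    rcases le_or_gt ρ ρ₁ with h1 | h1
    · rw [l0 ρ h1]
    · have h2 : ρ₂ ≤ ρ := by
        by_contra h2
        exact hρ ⟨h1, not_le.1 h2⟩
      rw [l1 ρ h2]
      have h3 : θ ρ + 2 * (k : ℝ) = θ ρ + ((2 * k : ℤ) : ℝ) := by push_cast; ring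
      rw [h3, pol_add]
  obtain ⟨u₂, hu₂, hs₂⟩ := FgC_mk hu hu.smr θ₂s hu.rad hout
  exact ⟨θ₂, u₂, hu₂, fun ρ hρ => hs₂ ρ (hout ρ hρ), l0 _ le_rfl, l1 _ le_rfl⟩

/-- **An even number of turns around an obstacle may be added.** -/
theorem turn_even (hv : VGood v) (hb : VB v p q) {u u' : ℝ → ℝ × ℝ} {m j : ℤ} {ρ₁ ρ₂ : ℝ} {r θ r' θ' : ℝ → ℝ}
    (hu : Turn (pl v p q (fin n₁)) m j ρ₁ ρ₂ r θ u) (hu' : Turn (pl v p q (fin n₁)) m j ρ₁ ρ₂ r' θ' u')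
    (he : ∀ ρ, ρ ∉ Ioo ρ₁ ρ₂ → u' ρ = u ρ) (e1 : r' ρ₁ = r ρ₁) (e2 : θ' ρ₁ = θ ρ₁) (e3 : r' ρ₂ = r ρ₂)
    (k : ℤ) (e4 : θ' ρ₂ = θ ρ₂ + 2 * k) : GEq.{u} v (up v p q n₁ u) (up v p q n₁ u') := by
  induction k using Int.induction_on generalizing u' r' θ' with
  | zero => exact FgC_hom hv hb hu hu' he e1 e2 e3 (by rw [e4]; push_cast; ring)
  | succ i ih =>
    obtain ⟨θ₂, u₂, hu₂, he₂, f1, f2⟩ := FgC_mid hu (i : ℤ)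
    refine (ih hu₂ he₂ rfl f1 rfl f2).trans ?_
    exact FgC_one hv hb hu₂ hu' (fun ρ hρ => by rw [he ρ hρ, he₂ ρ hρ]) e1 (by rw [e2, f1]) e3
      (by rw [e4, f2]; push_cast; ring)
  | pred i ih =>
    obtain ⟨θ₂, u₂, hu₂, he₂, f1, f2⟩ := FgC_mid hu (-(i : ℤ))
    refine (ih hu₂ he₂ rfl f1 rfl f2).trans (GEq.symm ?_)
    exact FgC_one hv hb hu' hu₂ (fun ρ hρ => by rw [he ρ hρ, he₂ ρ hρ]) e1.symm (by rw [e2, f1]) e3.symm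
      (by rw [e4, f2]; push_cast; ring)

end Pool.Agent.GLB
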