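import Pool.Agent.GLB.BMo
import Pool.Agent.GLB.Sgn

/-!
# GLB/Fin: all monotone paths carry the same manifolds   (difficulty 3)

* `two_eq` (`d > 0`): `w`, `w'` with the same third coordinate `n₁.2.2 = n₁'.2.2`, each of them with `ht1` monotone or `ht2` antitone.
  `T = (T₁, T₂, n₁.2.2)`, `T₁ = n₁.1 - A` and `T₂ = n₁.2.1 + B`, `A, B` large: `hz2 v T = d T₁ - a T₃`, so `M(T) = (d - 1)/2 - hz2 v T` is large, `N(T) =
  (d - 1)/2 + hz1 v T` is large (`d` odd; `NM v T N M` with `M, N ≥ 2 d`).  Each `w` is equivalent to a bi-monotone path in `T`: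
  if `ht1` is monotone: `N` for `n₁` is `≥ 0` (`ht1 v (fin n₁) = d/2 + hz1 v n₁ ≥ 0`): `mono_bm` with `n₁ + (T₁ - n₁.1, 0, 0)`, then the new path has `ht2`
  antitone: `anti_bm` to `T`; if `ht2` is antitone: `anti_bm` first (`M` for `n₁` is `≥ 0`: `ht2` goes down from `d/2` to `hz2 v n₁`), then `mono_bm`.
  Then `bm_eq`.
* `two_eq'`: the same for paths with arbitrary `n₀`: translation (`GPath.add`, `geq_add`; `ht1`, `ht2` change by a constant).
* `mono4` (`d > 0`): by reflection `e = (true, false, true)` (`ht1 ↦ -ht1`, `ht2 ↦ ht2`): ht1 antitone or ht2 antitone all equivalent;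
  `e = (false, true, true)`: ht1 monotone or ht2 monotone all equivalent (`gcar_sg`, `sg_gpath`, `ht1_sg`, `ht2_sg`).  There is a path
  with `ht2` antitone and one with `ht1` monotone, for the given third coordinate (`yw`), so all four classes are equivalent:
  class(ht1 mono) = class(ht2 anti) (`two_eq'`), class(ht1 anti) = class(ht2 anti), class(ht1 mono) = class(ht2 mono).
* `gcar_all`: `d < 0`: reflection `(true, true, false)`.
-/

open scoped Manifold ContDiff Topology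
open Set Filter

namespace Pool.Agent.GLB

open Pool.Agent.PTH

universe u

variable {v : ℤ × ℤ × ℤ} {n₀ n₁ n₀' n₁' : ℤ × ℤ × ℤ} {w w' : ℝ → ℝ × ℝ × ℝ}

theorem Fin_ht1_add (v m : ℤ × ℤ × ℤ) (x : ℝ × ℝ × ℝ) : ht1 v (x + rv m) = ht1 v x + hz1 v m := by
  simp only [ht1, hz1, rv, Prod.fst_add, Prod.snd_add]
  push_cast
  ring

theorem Fin_ht2_add (v m : ℤ × ℤ × ℤ) (x : ℝ × ℝ × ℝ) : ht2 v (x + rv m) = ht2 v x + hz2 v m := by
  simp only [ht2, hz2, rv, Prod.fst_add, Prod.snd_add]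
  push_cast
  ring

theorem Fin_ends (hw : GPath v 0 n₁ w) : w 0 = (1 / 2, 0, 0) ∧ w 1 = fin n₁ := by
  obtain ⟨ε, hε, h0⟩ := hw.start
  obtain ⟨ε', hε', h1⟩ := hw.stop
  refine ⟨?_, ?_⟩
  · rw [h0 0 hε.le]
    simp
  · rw [h1 1 (by linarith), fin]

theorem Fin_N (hv : VGood v) (hw : GPath v 0 n₁ w) (hm : Monotone fun ρ => ht1 v (w ρ)) :
    ∃ N : ℕ, 2 * (N : ℤ) + 1 = v.2.2 + 2 * hz1 v n₁ := by
  obtain ⟨h0, h1⟩ := Fin_ends hw
  have h2 : ht1 v (w 0) ≤ ht1 v (w 1) := hm zero_le_one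
  rw [h0, h1] at h2
  have h3 : (0 : ℝ) ≤ ((v.2.2 + 2 * hz1 v n₁ : ℤ) : ℝ) := by
    simp only [ht1, fin] at h2
    simp only [hz1]
    push_cast
    linarith
  have h4 : 0 ≤ v.2.2 + 2 * hz1 v n₁ := by exact_mod_cast h3
  have h5 := hv.odd
  generalize hz1 v n₁ = z at *
  exact ⟨((v.2.2 + 2 * z - 1) / 2).toNat, by omega⟩

theorem Fin_M (hv : VGood v) (hw : GPath v 0 n₁ w) (hm : Antitone fun ρ => ht2 v (w ρ)) :
    ∃ M : ℕ, 2 * (M : ℤ) + 1 + 2 * hz2 v n₁ = v.2.2 := by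
  obtain ⟨h0, h1⟩ := Fin_ends hw
  have h2 : ht2 v (w 1) ≤ ht2 v (w 0) := hm zero_le_one
  rw [h0, h1] at h2
  have h3 : (0 : ℝ) ≤ ((v.2.2 - 2 * hz2 v n₁ : ℤ) : ℝ) := by
    simp only [ht2, fin] at h2
    simp only [hz2]
    push_cast
    linarith
  have h4 : 0 ≤ v.2.2 - 2 * hz2 v n₁ := by exact_mod_cast h3
  have h5 := hv.odd
  generalize hz2 v n₁ = z at *
  exact ⟨((v.2.2 - 2 * z - 1) / 2).toNat, by omega⟩

theorem Fin_T (hv : VGood v) (hd : 0 < v.2.2) (c : ℤ) :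
    ∃ (T : ℤ × ℤ × ℤ) (N M : ℕ), T.2.2 = c ∧ NM v T N M ∧ 1 ≤ N ∧ 2 * v.2.2 ≤ N ∧
      2 * v.2.2 ≤ M := by
  have h5 := hv.odd
  obtain ⟨T, hT⟩ : ∃ T : ℤ × ℤ × ℤ, T = (-(2 + |v.1 * c|), 2 + |v.2.1 * c|, c) := ⟨_, rfl⟩
  have h1 : 2 * v.2.2 ≤ hz1 v T := by
    rw [hT]
    simp only [hz1]
    have e1 := le_abs_self (v.2.1 * c)
    have e2 := abs_nonneg (v.2.1 * c)
    nlinarith
  have h2 : hz2 v T ≤ -(2 * v.2.2) := by
    rw [hT]
    simp only [hz2]
    have e1 := neg_abs_le (v.1 * c)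
    have e2 := abs_nonneg (v.1 * c)
    nlinarith
  have hc : T.2.2 = c := by rw [hT]
  refine ⟨T, ((v.2.2 + 2 * hz1 v T - 1) / 2).toNat, ((v.2.2 - 2 * hz2 v T - 1) / 2).toNat, hc,
    ⟨?_, ?_⟩, ?_, ?_, ?_⟩ <;>
    · generalize hz1 v T = z1 at *
      generalize hz2 v T = z2 at *
      omega

theorem Fin_bm (hΓ : CSW.WIn Gam.{u}) (hv : VGood v) (hd : 0 < v.2.2) (hw : GPath v 0 n₁ w)
    (hm : Monotone (fun ρ => ht1 v (w ρ)) ∨ Antitone (fun ρ => ht2 v (w ρ)))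
    {T : ℤ × ℤ × ℤ} {N M : ℕ} (hT : T.2.2 = n₁.2.2) (h : NM v T N M) (hN : v.2.2 ≤ N)
    (hM : v.2.2 ≤ M) : ∃ w', BM v T w' ∧ GEq.{u} v w w' := by
  rcases hm with hm | hm
  · obtain ⟨N', hN'⟩ := Fin_N hv hw hm
    have h1 : NM v (n₁ + (T.1 - n₁.1, 0, 0)) N' M := by
      refine ⟨?_, ?_⟩
      · rw [hN']
        simp [hz1]
      · rw [← h.hM]
        simp [hz2, hT]
    obtain ⟨w1, hb1, he1⟩ := mono_bm hΓ hv hd hw hm h1 hM
    have e : n₁ + (T.1 - n₁.1, 0, 0) + (0, T.2.1 - n₁.2.1, 0) = T := by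
      ext <;> simp [hT]
    obtain ⟨w2, hb2, he2⟩ := anti_bm hΓ hv hd hb1.path hb1.anti (i := T.2.1 - n₁.2.1)
      (N := N) (M := M) (by rw [e]; exact h) hN
    rw [e] at hb2
    exact ⟨w2, hb2, he1.trans he2⟩
  · obtain ⟨M', hM'⟩ := Fin_M hv hw hm
    have h1 : NM v (n₁ + (0, T.2.1 - n₁.2.1, 0)) N M' := by
      refine ⟨?_, ?_⟩
      · rw [h.hN]
        simp [hz1, hT]
      · rw [← hM']
        simp [hz2]
    obtain ⟨w1, hb1, he1⟩ := anti_bm hΓ hv hd hw hm h1 hN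
    have e : n₁ + (0, T.2.1 - n₁.2.1, 0) + (T.1 - n₁.1, 0, 0) = T := by
      ext <;> simp [hT]
    obtain ⟨w2, hb2, he2⟩ := mono_bm hΓ hv hd hb1.path hb1.mono (i := T.1 - n₁.1)
      (N := N) (M := M) (by rw [e]; exact h) hM
    rw [e] at hb2
    exact ⟨w2, hb2, he1.trans he2⟩

theorem two_eq (hΓ : CSW.WIn Gam.{u}) (hv : VGood v) (hd : 0 < v.2.2) (hw : GPath v 0 n₁ w) (hw' : GPath v 0 n₁' w')
    (hn : n₁.2.2 = n₁'.2.2)
    (hm : Monotone (fun ρ => ht1 v (w ρ)) ∨ Antitone (fun ρ => ht2 v (w ρ)))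
    (hm' : Monotone (fun ρ => ht1 v (w' ρ)) ∨ Antitone (fun ρ => ht2 v (w' ρ))) : GEq.{u} v w w' := by
  obtain ⟨T, N, M, hT, hNM, h1, h2, h3⟩ := Fin_T hv hd n₁.2.2
  obtain ⟨w1, hb1, he1⟩ := Fin_bm hΓ hv hd hw hm hT hNM (by linarith) (by linarith)
  obtain ⟨w2, hb2, he2⟩ := Fin_bm hΓ hv hd hw' hm' (hT.trans hn) hNM (by linarith) (by linarith)
  exact he1.trans ((bm_eq hΓ hv hd hNM h1 h3 hb1 hb2).trans he2.symm)

theorem two_eq' (hΓ : CSW.WIn Gam.{u}) (hv : VGood v) (hd : 0 < v.2.2) (hw : GPath v n₀ n₁ w) (hw' : GPath v n₀' n₁' w')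
    (hn : n₁.2.2 - n₀.2.2 = n₁'.2.2 - n₀'.2.2)
    (hm : Monotone (fun ρ => ht1 v (w ρ)) ∨ Antitone (fun ρ => ht2 v (w ρ)))
    (hm' : Monotone (fun ρ => ht1 v (w' ρ)) ∨ Antitone (fun ρ => ht2 v (w' ρ))) : GEq.{u} v w w' := by
  have key : ∀ {n m : ℤ × ℤ × ℤ} {z : ℝ → ℝ × ℝ × ℝ}, GPath v n m z →
      (Monotone (fun ρ => ht1 v (z ρ)) ∨ Antitone (fun ρ => ht2 v (z ρ))) →
      GPath v 0 (m + -n) (fun ρ => z ρ + rv (-n)) ∧
      (Monotone (fun ρ => ht1 v (z ρ + rv (-n))) ∨ Antitone (fun ρ => ht2 v (z ρ + rv (-n)))) := by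
    intro n m z hz hmz
    refine ⟨?_, ?_⟩
    · have := GPath.add hz (-n)
      rwa [add_neg_cancel] at this
    · rcases hmz with h | h
      · left
        intro x y hxy
        have := h hxy
        simp only [Fin_ht1_add] at this ⊢
        linarith
      · right
        intro x y hxy
        have := h hxy
        simp only [Fin_ht2_add] at this ⊢
        linarith
  obtain ⟨a1, a2⟩ := key hw hm
  obtain ⟨b1, b2⟩ := key hw' hm'
  have h := two_eq hΓ hv hd a1 b1 (by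
    show n₁.2.2 + -n₀.2.2 = n₁'.2.2 + -n₀'.2.2
    linarith) a2 b2
  exact (geq_add v w (-n₀)).symm.trans (h.trans (geq_add v w' (-n₀')))

/-- one of the two heights is monotone or antitone along the path -/
def Mono4 (v : ℤ × ℤ × ℤ) (w : ℝ → ℝ × ℝ × ℝ) : Prop :=
  Monotone (fun ρ => ht1 v (w ρ)) ∨ Antitone (fun ρ => ht1 v (w ρ)) ∨
    Monotone (fun ρ => ht2 v (w ρ)) ∨ Antitone (fun ρ => ht2 v (w ρ))

theorem Fin_sg (e : Sg3)
    (h : GEq.{u} (smz e v) (fun ρ => smr e (w ρ)) (fun ρ => smr e (w' ρ))) : GEq.{u} v w w' := by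
  intro n X _ _ _
  rw [gcar_sg e w, gcar_sg e w']
  exact h n X

/-- `ht1` antitone or `ht2` antitone -/
theorem Fin_two_b (hΓ : CSW.WIn Gam.{u}) (hv : VGood v) (hd : 0 < v.2.2) (hw : GPath v n₀ n₁ w)
    (hw' : GPath v n₀' n₁' w') (hn : n₁.2.2 - n₀.2.2 = n₁'.2.2 - n₀'.2.2)
    (hm : Antitone (fun ρ => ht1 v (w ρ)) ∨ Antitone (fun ρ => ht2 v (w ρ)))
    (hm' : Antitone (fun ρ => ht1 v (w' ρ)) ∨ Antitone (fun ρ => ht2 v (w' ρ))) :
    GEq.{u} v w w' := by
  have key : ∀ {z : ℝ → ℝ × ℝ × ℝ},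
      (Antitone (fun ρ => ht1 v (z ρ)) ∨ Antitone (fun ρ => ht2 v (z ρ))) →
      (Monotone (fun ρ => ht1 (smz (true, false, true) v) (smr (true, false, true) (z ρ))) ∨
        Antitone (fun ρ => ht2 (smz (true, false, true) v) (smr (true, false, true) (z ρ)))) := by
    intro z hz
    rcases hz with h | h
    · left
      intro x y hxy
      have := h hxy
      simp only [ht1_sg, sr] at this ⊢
      simpa using this
    · right
      intro x y hxy
      have := h hxy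
      simp only [ht2_sg, sr] at this ⊢
      simpa using this
  refine Fin_sg (true, false, true) ?_
  refine two_eq' hΓ (smz_good _ hv) ?_ (sg_gpath (true, false, true) hw)
    (sg_gpath (true, false, true) hw') ?_ (key hm) (key hm')
  · simpa [smz, sz] using hd
  · simpa [sg0, sg1, sz] using hn

/-- `ht1` monotone or `ht2` monotone -/
theorem Fin_two_c (hΓ : CSW.WIn Gam.{u}) (hv : VGood v) (hd : 0 < v.2.2) (hw : GPath v n₀ n₁ w)
    (hw' : GPath v n₀' n₁' w') (hn : n₁.2.2 - n₀.2.2 = n₁'.2.2 - n₀'.2.2)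
    (hm : Monotone (fun ρ => ht1 v (w ρ)) ∨ Monotone (fun ρ => ht2 v (w ρ)))
    (hm' : Monotone (fun ρ => ht1 v (w' ρ)) ∨ Monotone (fun ρ => ht2 v (w' ρ))) :
    GEq.{u} v w w' := by
  have key : ∀ {z : ℝ → ℝ × ℝ × ℝ},
      (Monotone (fun ρ => ht1 v (z ρ)) ∨ Monotone (fun ρ => ht2 v (z ρ))) →
      (Monotone (fun ρ => ht1 (smz (false, true, true) v) (smr (false, true, true) (z ρ))) ∨
        Antitone (fun ρ => ht2 (smz (false, true, true) v) (smr (false, true, true) (z ρ)))) := by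
    intro z hz
    rcases hz with h | h
    · left
      intro x y hxy
      have := h hxy
      simp only [ht1_sg, sr] at this ⊢
      simpa using this
    · right
      intro x y hxy
      have := h hxy
      simp only [ht2_sg, sr] at this ⊢
      simpa using this
  refine Fin_sg (false, true, true) ?_
  refine two_eq' hΓ (smz_good _ hv) ?_ (sg_gpath (false, true, true) hw)
    (sg_gpath (false, true, true) hw') ?_ (key hm) (key hm')
  · simpa [smz, sz] using hd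
  · simpa [sg0, sg1, sz] using hn

theorem mono4 (hΓ : CSW.WIn Gam.{u}) (hv : VGood v) (hd : 0 < v.2.2) (hw : GPath v n₀ n₁ w) (hw' : GPath v n₀' n₁' w')
    (hn : n₁.2.2 - n₀.2.2 = n₁'.2.2 - n₀'.2.2) (hm : Mono4 v w) (hm' : Mono4 v w') : GEq.{u} v w w' := by
  obtain ⟨T, N, M, hT, hNM, h1, h2, h3⟩ := Fin_T hv hd (n₁.2.2 - n₀.2.2)
  have hY : CSW.YD N M (fun _ => 0) := ⟨fun _ _ _ _ _ => le_rfl, fun _ _ _ => Nat.zero_le _⟩
  have hz : GPath v 0 T (yw v T N M (fun _ => 0)) := yw_gpath hd.ne' hNM hY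
  have z1 : Monotone fun ρ => ht1 v (yw v T N M (fun _ => 0) ρ) := yw_mono hd.ne'
  have z2 : Antitone fun ρ => ht2 v (yw v T N M (fun _ => 0) ρ) := yw_anti hd.ne' hY
  have key : ∀ {n m : ℤ × ℤ × ℤ} {z : ℝ → ℝ × ℝ × ℝ}, GPath v n m z →
      m.2.2 - n.2.2 = n₁.2.2 - n₀.2.2 → Mono4 v z → GEq.{u} v z (yw v T N M (fun _ => 0)) := by
    intro n m z hgz hnm hmz
    have e : m.2.2 - n.2.2 = T.2.2 - (0 : ℤ × ℤ × ℤ).2.2 := by
      rw [hnm, hT]
      simp
    rcases hmz with h | h | h | h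
    · exact two_eq' hΓ hv hd hgz hz e (Or.inl h) (Or.inl z1)
    · exact Fin_two_b hΓ hv hd hgz hz e (Or.inl h) (Or.inr z2)
    · exact Fin_two_c hΓ hv hd hgz hz e (Or.inr h) (Or.inl z1)
    · exact two_eq' hΓ hv hd hgz hz e (Or.inr h) (Or.inl z1)
  exact (key hw rfl hm).trans (key hw' hn.symm hm').symm

/-- **All monotone paths carry the same manifolds.** -/
theorem gcar_all (hΓ : CSW.WIn Gam.{u}) (hv : VGood v) (hw : GPath v n₀ n₁ w) (hw' : GPath v n₀' n₁' w')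
    (hn : n₁.2.2 - n₀.2.2 = n₁'.2.2 - n₀'.2.2) (hm : Mono4 v w) (hm' : Mono4 v w') : GEq.{u} v w w' := by
  rcases lt_trichotomy v.2.2 0 with hd | hd | hd
  · have key : ∀ {z : ℝ → ℝ × ℝ × ℝ}, Mono4 v z →
        Mono4 (smz (true, true, false) v) (fun ρ => smr (true, true, false) (z ρ)) := by
      intro z hz
      rcases hz with h | h | h | h
      · right; left
        intro x y hxy
        have := h hxy
        simp only [ht1_sg, sr] at this ⊢
        simpa using this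
      · left
        intro x y hxy
        have := h hxy
        simp only [ht1_sg, sr] at this ⊢
        simpa using this
      · right; right; right
        intro x y hxy
        have := h hxy
        simp only [ht2_sg, sr] at this ⊢
        simpa using this
      · right; right; left
        intro x y hxy
        have := h hxy
        simp only [ht2_sg, sr] at this ⊢
        simpa using this
    refine Fin_sg (true, true, false) ?_
    refine mono4 hΓ (smz_good _ hv) ?_ (sg_gpath (true, true, false) hw)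
      (sg_gpath (true, true, false) hw') ?_ (key hm) (key hm')
    · simpa [smz, sz] using hd
    · simp only [sg0, sg1, sz]
      simp only [Bool.false_eq_true, if_false]
      linarith
  · have := hv.odd
    rw [hd] at this
    norm_num at this
  · exact mono4 hΓ hv hd hw hw' hn hm hm'

end Pool.Agent.GLB
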