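import Pool.Agent.GLB.PHa

/-!
# GLB/Gex: monotone paths have gaps   (difficulty 2)

* `exists_gaps`: `u` continuous, avoids the obstacles, second coordinate monotone.  For a height `j` which is attained choose `ρ_j` and
  let `G j = round (u ρ_j).1` (`0` if it is not attained).  Let `(u ρ).2 = j`, `x = (u ρ).1`.  If not `|x - G j| < 1/2`: on the interval
  between `ρ` and `ρ_j` the second coordinate is constantly `j` (monotone), the first coordinate is continuous; `|(u ρ_j).1 - G j| ≤ 1/2`, and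
  it is not `1/2` (`(G j ± 1/2, j)` is an obstacle), so by the intermediate value theorem it takes the value `G j + 1/2` or
  `G j - 1/2 = (G j - 1) + 1/2` between `ρ` and `ρ_j`: an obstacle.
* `gaps_zero`: `j = 0`, `ρ = 0`: `|0 - G 0| < 1/2`.
* `mono_range`: values of a monotone function which is `0` for `ρ ≤ ε` and `T` for `ρ ≥ 1 - ε` (take `ρ' = min ρ ε`, ...).
-/

open scoped ContDiff Topology
open Set Filter

namespace Pool.Agent.GLB

open Pool.Agent.PTH

variable {s₁ : ℝ × ℝ} {u : ℝ → ℝ × ℝ} {ε : ℝ}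

theorem exists_gaps (hc : Continuous u) (ha : ∀ ρ, ¬ Obs (u ρ)) (hm : Monotone fun ρ => (u ρ).2) :
    ∃ G : ℕ → ℤ, Gaps u G := by
  classical
  refine ⟨fun j => if h : ∃ ρ, (u ρ).2 = (j : ℝ) then round (u h.choose).1 else 0, ?_⟩
  intro j ρ hρ
  have hex : ∃ ρ, (u ρ).2 = (j : ℝ) := ⟨ρ, hρ⟩
  show |(u ρ).1 - ((if h : ∃ ρ, (u ρ).2 = (j : ℝ) then round (u h.choose).1 else 0 : ℤ) : ℝ)| < 1 / 2
  rw [dif_pos hex]
  set ρ' := hex.choose with hρ'
  have h2 : (u ρ').2 = (j : ℝ) := hex.choose_spec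
  set g : ℤ := round (u ρ').1 with hg
  have hlt : |(u ρ').1 - g| < 1 / 2 := by
    refine lt_of_le_of_ne (abs_sub_round _) ?_
    intro hne
    rcases (abs_eq (by norm_num : (0 : ℝ) ≤ 1 / 2)).1 hne with h | h
    · exact ha ρ' ⟨g, j, Prod.ext (by simp only; linarith) (by simpa using h2)⟩
    · exact ha ρ' ⟨g - 1, j, Prod.ext (by push_cast; linarith) (by simpa using h2)⟩
  have hj : ∀ s ∈ uIcc ρ ρ', (u s).2 = (j : ℝ) := by
    intro s hs
    rcases le_total ρ ρ' with h | h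
    · rw [uIcc_of_le h] at hs
      have a1 : (u ρ).2 ≤ (u s).2 := hm hs.1
      have a2 : (u s).2 ≤ (u ρ').2 := hm hs.2
      linarith
    · rw [uIcc_of_ge h] at hs
      have a1 : (u ρ').2 ≤ (u s).2 := hm hs.1
      have a2 : (u s).2 ≤ (u ρ).2 := hm hs.2
      linarith
  have hcf : ContinuousOn (fun s => (u s).1) (uIcc ρ ρ') := (continuous_fst.comp hc).continuousOn
  have hiv := intermediate_value_uIcc hcf
  have key : ∀ m : ℤ, ((m : ℝ) + 1 / 2) ∉ uIcc (u ρ).1 (u ρ').1 := by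
    intro m hm'
    obtain ⟨s, hs, he⟩ := hiv hm'
    exact ha s ⟨m, j, Prod.ext he (by simpa using hj s hs)⟩
  rw [abs_lt] at hlt ⊢
  constructor
  · by_contra hn
    push Not at hn
    refine key (g - 1) ?_
    rw [mem_uIcc]
    left
    push_cast
    constructor <;> linarith [hlt.1, hlt.2]
  · by_contra hn
    push Not at hn
    refine key g ?_
    rw [mem_uIcc]
    right
    constructor <;> linarith [hlt.1, hlt.2]

theorem gaps_zero (hε : 0 < ε) (hu : CPath (0, 0) s₁ ε u) {G : ℕ → ℤ} (hG : Gaps u G) : G 0 = 0 := by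
  have h0 : u 0 = (0, 0) := hu.start 0 hε.le
  have h1 := hG 0 0 (by rw [h0]; simp)
  rw [h0] at h1
  have h2 : |((G 0 : ℤ) : ℝ)| < 1 := by
    have : |(0 : ℝ) - G 0| = |((G 0 : ℤ) : ℝ)| := by rw [zero_sub, abs_neg]
    have h3 : |(0 : ℝ) - G 0| < 1 / 2 := h1
    rw [this] at h3
    linarith
  have h4 : |G 0| < 1 := by exact_mod_cast h2
  exact Int.abs_lt_one_iff.1 h4

theorem mono_range (hu : CPath (0, 0) s₁ ε u) (hm : Monotone fun ρ => (u ρ).2) (ρ : ℝ) : (u ρ).2 ∈ Icc 0 s₁.2 := by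
  constructor
  · have h1 : u (min ρ ε) = (0, 0) := hu.start _ (min_le_right _ _)
    have h2 : (u (min ρ ε)).2 ≤ (u ρ).2 := hm (min_le_left _ _)
    rw [h1] at h2
    exact h2
  · have h1 : u (max ρ (1 - ε)) = s₁ := hu.stop _ (le_max_right _ _)
    have h2 : (u ρ).2 ≤ (u (max ρ (1 - ε))).2 := hm (le_max_left _ _)
    rw [h1] at h2
    exact h2

end Pool.Agent.GLB
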