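import Pool.Agent.GLB.PHa
import Pool.Agent.PTH.Seg
import Pool.Agent.PTH.Wrd

/-!
# GLB/SHP: homotopic segments, followed by a straight tail   (difficulty 2)

`tl z ϑ e s₁ ρ = z (ϑ ρ) + st (4ρ - 5/2) (s₁ - e)`: the segment `z` (from `0` to `e`) with clock `ϑ` (`ϑ ρ ≤ 0` for `ρ ≤ 1/8`, `ϑ ρ ≥ m` for
`ρ ≥ 1/2`), then the straight segment from `e` to `s₁` for `5/8 ≤ ρ ≤ 7/8`, where `e.2 < s₁.2 < e.2 + 1`.
* `tl_cpath`: `ε = 1/8`.  start: `ϑ ρ ≤ 0`, `st (4ρ - 5/2) = 0` (for `ρ ≤ 5/8`).  stop: `ρ ≥ 7/8`: `e + (s₁ - e)`.  avoid: for `ρ ≤ 5/8`: `z` avoids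
  the obstacles; for `ρ ≥ 1/2`: the point is `e + σ (s₁ - e)`, `σ ∈ [0, 1]`: for `σ = 0` it is `e` (not an obstacle), for `σ > 0` its second
  coordinate is in `(e.2, e.2 + 1)`.
* `tl_sh`: `SH z z' e` with homotopy `H`, duration `M`.  Three homotopies: first `z ∘ ϑ ~ z ∘ ϑ''`, then `H l ∘ ϑ''`, then
  `z' ∘ ϑ'' ~ z' ∘ ϑ'`, where `ϑ'' ρ = (max M (max m m') + 1) (8ρ - 1) / 3` (`≤ 0` for `ρ ≤ 1/8`, `≥ M, m, m'` for `ρ ≥ 1/2`); in each of them all
  stages are of the form `tl ..` (the clocks `(1 - l) ϑ + l ϑ''` have the same properties), so `tl_cpath` gives `CPath`.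
* `cmpr_tl`: `wpath L (2ρ) = pos L (|L| st (4ρ - 1/2))` : `cmpr L s₁ = tl (pos L) (fun ρ => |L| st (4ρ - 1/2)) (sumZ L) s₁`, `st (4ρ - 1/2) = 0` for
  `ρ ≤ 1/8`, `= 1` for `ρ ≥ 3/8`.
* `cmpr_spath`: smooth (`pos_smooth`), the rest by `cmpr_tl`, `tl_cpath`, `pos_seg`.
-/

open scoped ContDiff Topology
open Set Filter

namespace Pool.Agent.GLB

open Pool.Agent.PTH

/-- the segment `z` with clock `ϑ`, then a straight tail to `s₁` -/
noncomputable def tl (z : ℝ → ℝ × ℝ) (ϑ : ℝ → ℝ) (e : ℤ × ℤ) (s₁ : ℝ × ℝ) (ρ : ℝ) : ℝ × ℝ :=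
  z (ϑ ρ) + Real.smoothTransition (4 * ρ - 5 / 2) • (s₁ - ((((e.1 : ℤ) : ℝ), ((e.2 : ℤ) : ℝ))))

/-- clocks -/
structure Clk (ϑ : ℝ → ℝ) (m : ℝ) : Prop where
  cont : Continuous ϑ
  lo : ∀ ρ ≤ 1 / 8, ϑ ρ ≤ 0
  hi : ∀ ρ, 1 / 2 ≤ ρ → m ≤ ϑ ρ

variable {z z' : ℝ → ℝ × ℝ} {ϑ ϑ' : ℝ → ℝ} {m m' : ℝ} {e : ℤ × ℤ} {s₁ : ℝ × ℝ}

theorem tl_cpath (hz : IsSeg z m e) (hϑ : Clk ϑ m) (h1 : (e.2 : ℝ) < s₁.2) (h2 : s₁.2 < e.2 + 1) :
    CPath (0, 0) s₁ (1 / 8) (tl z ϑ e s₁) := by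
  have hst : Continuous Real.smoothTransition := Real.smoothTransition.continuous
  have hzc := hz.cont
  have hϑc := hϑ.cont
  refine ⟨?_, ?_, ?_, ?_⟩
  · unfold tl
    exact (hzc.comp hϑc).add ((hst.comp ((continuous_const.mul continuous_id).sub continuous_const)).smul
      continuous_const)
  · intro ρ hρ
    have h3 : Real.smoothTransition (4 * ρ - 5 / 2) = 0 := Real.smoothTransition.zero_of_nonpos (by linarith)
    rw [tl, hz.start _ (hϑ.lo ρ hρ), h3, zero_smul, add_zero]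
  · intro ρ hρ
    have h3 : Real.smoothTransition (4 * ρ - 5 / 2) = 1 := Real.smoothTransition.one_of_one_le (by linarith)
    rw [tl, hz.stop _ (hϑ.hi ρ (by linarith)), h3, one_smul, add_sub_cancel]
  · intro ρ
    rcases le_total ρ (1 / 2) with h | h
    · have h3 : Real.smoothTransition (4 * ρ - 5 / 2) = 0 := Real.smoothTransition.zero_of_nonpos (by linarith)
      rw [tl, h3, zero_smul, add_zero]
      exact hz.avoid _
    · rw [tl, hz.stop _ (hϑ.hi ρ h)]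
      set σ := Real.smoothTransition (4 * ρ - 5 / 2) with hσ
      have s0 : 0 ≤ σ := Real.smoothTransition.nonneg _
      have s1 : σ ≤ 1 := Real.smoothTransition.le_one _
      rcases eq_or_lt_of_le s0 with h0 | h0
      · rw [← h0, zero_smul, add_zero]
        exact not_obs_int _ _
      · refine PHa_not_obs (N := e.2) ?_ ?_
        · simp only [Prod.snd_add, Prod.smul_snd, Prod.snd_sub, smul_eq_mul]
          nlinarith [mul_pos h0 (by linarith : 0 < s₁.2 - e.2)]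
        · simp only [Prod.snd_add, Prod.smul_snd, Prod.snd_sub, smul_eq_mul]
          nlinarith [mul_le_mul_of_nonneg_right s1 (by linarith : 0 ≤ s₁.2 - e.2)]

theorem SHP_clk_conv (h : Clk ϑ m) (h' : Clk ϑ' m) {l : ℝ} (hl0 : 0 ≤ l) (hl1 : l ≤ 1) :
    Clk (fun ρ => (1 - l) * ϑ ρ + l * ϑ' ρ) m := by
  have l1 : 0 ≤ 1 - l := by linarith
  refine ⟨(continuous_const.mul h.cont).add (continuous_const.mul h'.cont), ?_, ?_⟩
  · intro ρ hρ
    nlinarith [mul_nonpos_of_nonneg_of_nonpos l1 (h.lo ρ hρ), mul_nonpos_of_nonneg_of_nonpos hl0 (h'.lo ρ hρ)]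
  · intro ρ hρ
    nlinarith [mul_le_mul_of_nonneg_left (h.hi ρ hρ) l1, mul_le_mul_of_nonneg_left (h'.hi ρ hρ) hl0]

theorem SHP_clk (hz : IsSeg z m e) (hϑ : Clk ϑ m) (hϑ' : Clk ϑ' m) (h1 : (e.2 : ℝ) < s₁.2) (h2 : s₁.2 < e.2 + 1) :
    PH (0, 0) s₁ (tl z ϑ e s₁) (tl z ϑ' e s₁) := by
  have hst : Continuous Real.smoothTransition := Real.smoothTransition.continuous
  refine ⟨fun l => tl z (fun ρ => (1 - l) * ϑ ρ + l * ϑ' ρ) e s₁, 1 / 8, by norm_num, ?_, ?_, ?_, ?_⟩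
  · have c1 : Continuous fun q : ℝ × ℝ => z ((1 - q.1) * ϑ q.2 + q.1 * ϑ' q.2) :=
      hz.cont.comp (((continuous_const.sub continuous_fst).mul (hϑ.cont.comp continuous_snd)).add
        (continuous_fst.mul (hϑ'.cont.comp continuous_snd)))
    exact c1.add ((hst.comp ((continuous_const.mul continuous_snd).sub continuous_const)).smul
      continuous_const)
  · funext ρ
    simp [tl]
  · funext ρ
    simp [tl]
  · intro l hl0 hl1
    exact tl_cpath hz (SHP_clk_conv hϑ hϑ' hl0 hl1) h1 h2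

theorem tl_sh (hz : IsSeg z m e) (hz' : IsSeg z' m' e) (h : SH z z' e) (hϑ : Clk ϑ m) (hϑ' : Clk ϑ' m')
    (h1 : (e.2 : ℝ) < s₁.2) (h2 : s₁.2 < e.2 + 1) : PH (0, 0) s₁ (tl z ϑ e s₁) (tl z' ϑ' e s₁) := by
  have hst : Continuous Real.smoothTransition := Real.smoothTransition.continuous
  obtain ⟨M, H, hc, hH0, hH1, hs⟩ := h
  set K : ℝ := max M (max m m') + 1 with hK
  have k1 : M ≤ K := by have := le_max_left M (max m m'); linarith
  have k2 : m ≤ K := by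
    have a := le_max_right M (max m m')
    have b := le_max_left m m'
    linarith
  have k3 : m' ≤ K := by
    have a := le_max_right M (max m m')
    have b := le_max_right m m'
    linarith
  have k0 : 0 ≤ K := hz.nn.trans k2
  have hck : ∀ x, x ≤ K → Clk (fun ρ : ℝ => K * ((8 * ρ - 1) / 3)) x := by
    intro x hx
    refine ⟨by fun_prop, ?_, ?_⟩
    · intro ρ hρ
      exact mul_nonpos_of_nonneg_of_nonpos k0 (by linarith)
    · intro ρ hρ
      have : (1 : ℝ) ≤ (8 * ρ - 1) / 3 := by linarith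
      nlinarith
  refine (SHP_clk hz hϑ (hck m k2) h1 h2).trans (PH.trans ?_ (SHP_clk hz' (hck m' k3) hϑ' h1 h2))
  refine ⟨fun l => tl (H l) (fun ρ : ℝ => K * ((8 * ρ - 1) / 3)) e s₁, 1 / 8, by norm_num, ?_, ?_, ?_, ?_⟩
  · have c1 : Continuous fun q : ℝ × ℝ => H q.1 (K * ((8 * q.2 - 1) / 3)) :=
      hc.comp (g := fun q : ℝ × ℝ => H q.1 q.2) (f := fun q : ℝ × ℝ => (q.1, K * ((8 * q.2 - 1) / 3)))
        (by fun_prop)
    exact c1.add ((hst.comp ((continuous_const.mul continuous_snd).sub continuous_const)).smul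
      continuous_const)
  · show tl (H 0) _ e s₁ = _
    rw [hH0]
  · show tl (H 1) _ e s₁ = _
    rw [hH1]
  · intro l hl0 hl1
    exact tl_cpath (hs l hl0 hl1) (hck M k1) h1 h2

theorem cmpr_tl (L : List (Bool × Bool)) (s₁ : ℝ × ℝ) :
    cmpr L s₁ = tl (pos L) (fun ρ => L.length * Real.smoothTransition (4 * ρ - 1 / 2)) (sumZ L) s₁ := by
  funext ρ
  have e1 : (2 * (2 * ρ) - 1 / 2 : ℝ) = 4 * ρ - 1 / 2 := by ring
  simp only [cmpr, tl, wpath, e1]

theorem cmpr_clk (L : List (Bool × Bool)) :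
    Clk (fun ρ => L.length * Real.smoothTransition (4 * ρ - 1 / 2)) L.length := by
  have hst : Continuous Real.smoothTransition := Real.smoothTransition.continuous
  refine ⟨continuous_const.mul (hst.comp ((continuous_const.mul continuous_id).sub continuous_const)), ?_, ?_⟩
  · intro ρ hρ
    rw [Real.smoothTransition.zero_of_nonpos (by linarith), mul_zero]
  · intro ρ hρ
    rw [Real.smoothTransition.one_of_one_le (by linarith), mul_one]

theorem cmpr_spath (L : List (Bool × Bool)) (h1 : ((sumZ L).2 : ℝ) < s₁.2) (h2 : s₁.2 < (sumZ L).2 + 1) :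
    SPath (0, 0) s₁ (cmpr L s₁) := by
  have h := tl_cpath (pos_seg L) (cmpr_clk L) h1 h2
  rw [← cmpr_tl] at h
  refine ⟨?_, ⟨1 / 8, by norm_num, h.start⟩, ⟨1 / 8, by norm_num, h.stop⟩, h.avoid⟩
  have hs : ContDiff ℝ ∞ Real.smoothTransition := Real.smoothTransition.contDiff
  rw [cmpr_tl]
  have c1 : ContDiff ℝ ∞ fun ρ : ℝ => pos L (L.length * Real.smoothTransition (4 * ρ - 1 / 2)) :=
    (pos_smooth L).comp (contDiff_const.mul (hs.comp ((contDiff_const.mul contDiff_id).sub contDiff_const)))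
  have c2 : ContDiff ℝ ∞ fun ρ : ℝ => Real.smoothTransition (4 * ρ - 5 / 2) :=
    hs.comp ((contDiff_const.mul contDiff_id).sub contDiff_const)
  exact c1.add (c2.smul contDiff_const)

end Pool.Agent.GLB
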