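import Pool.Agent.GLB.Str
import Pool.Agent.GLB.SHP

/-!
# GLB/Gph: a monotone path is homotopic to its gap word   (difficulty 3)

`u` a continuous path from `(0, 0)` to `s₁`, `N < s₁.2 < N + 1`, second coordinate in `[0, s₁.2]`, gap data `G`, `G 0 = 0`.
`CC y = (Gf G N y + (s₁.1 - G N) st ((y - N) / (s₁.2 - N)), y)`: `CC j = (G j, j)` for `0 ≤ j ≤ N`, `CC 0 = (0, 0)`, `CC s₁.2 = s₁`; it avoids the
obstacles on `[0, s₁.2]` (the integers there are `0, .., N`).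
`gaps_cc`: (1) `u ~ CC ∘ u₂` by `ph_linear`: `u₂` is the second coordinate of both, and where it is an integer `j`, both first coordinates are in
  `(G j - 1/2, G j + 1/2)`, hence the convex combination too.  (2) `CC ∘ u₂ ~ CC ∘ θ` for every clock `θ` with values in `[0, s₁.2]` (`ph_clock`).
`gaps_word`, `L = gw G N ++ xs k`, `sumZ L = (G N + k, N)`:
  `cmpr L s₁ = tl (pos L) .. ~ tl z ϑ (sumZ L) s₁` with `z = cat (cs G N) N (pos (xs k))`, `ϑ ρ = N clamp (8ρ - 1) + |k| clamp (4ρ - 1)` where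
  `clamp x = max 0 (min x 1)` (`tl_sh`; `SH (pos L) z` by `pos_append`, `sh_gw`, `sh_cat`, `sh_refl`; duration `N + |k|`, `|xs k| = |k|`).
  `ρ₀ = 1/4`: for `ρ ≤ 1/4`, `ϑ ρ = N clamp (8ρ - 1) =: y ∈ [0, N]` and `z y = cs G N y = CC y` (`G 0 = 0`; `st ((y - N)/..) = 0`).
  For `ρ ≥ 1/4`, `ϑ ρ ≥ N`, `z (ϑ ρ) = (G N, N) + pos (xs k) (ϑ ρ - N)` has second coordinate in `[N, N + 1/2]` (`PTH.pos_xs_snd`, `PTH.xs_mem`), and for `ρ ≥ 1/2` it is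
  `(G N + k, N)`; the tail adds something only for `ρ ≥ 5/8`: second coordinate in `[N, s₁.2]`.
  Let `θ ρ = N clamp (8ρ - 1) + (s₁.2 - N) clamp (2ρ - 1/2)`, a clock (`0` for `ρ ≤ 1/8`, `s₁.2` for `ρ ≥ 3/4`): for `ρ ≤ 1/4`, `θ = ϑ`; for
  `ρ ≥ 1/4`, `θ ρ ∈ [N, s₁.2]`.  `ph_strip` (`ρ₀ = 1/4`): `tl z ϑ .. ~ CC ∘ θ`.
-/

open scoped ContDiff Topology
open Set Filter

namespace Pool.Agent.GLB

open Pool.Agent.PTH

/-- the canonical curve to `s₁` -/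
noncomputable def CC (G : ℕ → ℤ) (N : ℕ) (s₁ : ℝ × ℝ) (y : ℝ) : ℝ × ℝ :=
  (Gf G N y + (s₁.1 - G N) * Real.smoothTransition ((y - N) / (s₁.2 - N)), y)

variable {s₁ : ℝ × ℝ} {u u' : ℝ → ℝ × ℝ} {G : ℕ → ℤ} {N : ℕ}


/-- `0` for `x ≤ 0`, `x` in between, `1` for `x ≥ 1` -/
noncomputable def Gph_c (x : ℝ) : ℝ := max 0 (min x 1)

theorem Gph_c_cont : Continuous Gph_c := by unfold Gph_c; fun_prop

theorem Gph_c_zero {x : ℝ} (h : x ≤ 0) : Gph_c x = 0 := by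
  unfold Gph_c
  rw [max_eq_left]
  exact (min_le_left _ _).trans h

theorem Gph_c_one {x : ℝ} (h : 1 ≤ x) : Gph_c x = 1 := by
  unfold Gph_c
  rw [min_eq_right h, max_eq_right zero_le_one]

theorem Gph_c_nn (x : ℝ) : 0 ≤ Gph_c x := le_max_left _ _

theorem Gph_c_le (x : ℝ) : Gph_c x ≤ 1 := max_le zero_le_one (min_le_right _ _)

theorem Gph_cc_cont (G : ℕ → ℤ) (N : ℕ) (s₁ : ℝ × ℝ) : Continuous (CC G N s₁) := by
  have h1 := Gf_cont G N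
  have h2 : Continuous Real.smoothTransition := Real.smoothTransition.continuous
  unfold CC
  refine Continuous.prodMk (h1.add (continuous_const.mul (h2.comp ?_))) continuous_id
  exact (continuous_id.sub continuous_const).div_const _

theorem Gph_cc_le (h1 : (N : ℝ) < s₁.2) {y : ℝ} (hy : y ≤ N) :
    CC G N s₁ y = (Gf G N y, y) := by
  unfold CC
  rw [Real.smoothTransition.zero_of_nonpos, mul_zero, add_zero]
  exact div_nonpos_of_nonpos_of_nonneg (by linarith) (by linarith)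

theorem Gph_cc_nat (h1 : (N : ℝ) < s₁.2) {j : ℕ} (hj : j ≤ N) :
    CC G N s₁ j = ((G j : ℝ), (j : ℝ)) := by
  rw [Gph_cc_le h1 (by exact_mod_cast hj), Gf_nat G hj]

theorem Gph_cc_zero (h1 : (N : ℝ) < s₁.2) (h0 : G 0 = 0) : CC G N s₁ 0 = (0, 0) := by
  have := Gph_cc_nat (G := G) h1 (Nat.zero_le N)
  rw [h0] at this
  simpa using this

theorem Gph_cc_end (h1 : (N : ℝ) < s₁.2) : CC G N s₁ s₁.2 = s₁ := by
  unfold CC
  rw [Gf_ge G N h1.le, div_self (by linarith), Real.smoothTransition.one_of_one_le le_rfl]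
  ext
  · simp
  · rfl

/-- an integer height in `[0, s₁.2]` is `j ≤ N` -/
theorem Gph_int (h2 : s₁.2 < N + 1) {y : ℝ} (hy0 : 0 ≤ y) (hy1 : y ≤ s₁.2) {n : ℤ} (hn : y = n) :
    ∃ j : ℕ, j ≤ N ∧ y = j := by
  have e1 : (0 : ℤ) ≤ n := by
    have : (0 : ℝ) ≤ (n : ℝ) := hn ▸ hy0
    exact_mod_cast this
  obtain ⟨j, rfl⟩ := Int.eq_ofNat_of_zero_le e1
  refine ⟨j, ?_, by rw [hn]; simp⟩
  have : (j : ℝ) < N + 1 := by
    have h3 : ((j : ℤ) : ℝ) = (j : ℝ) := by simp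
    rw [← h3, ← hn]
    linarith
  have h4 : j < N + 1 := by exact_mod_cast this
  omega

theorem Gph_half (a b : ℤ) (h : |((a : ℝ) + 1 / 2) - b| < 1 / 2) : False := by
  rw [abs_lt] at h
  have h1 : ((b : ℤ) : ℝ) < a + 1 := by linarith [h.1]
  have h2 : ((a : ℤ) : ℝ) < b := by linarith [h.2]
  have h3 : b < a + 1 := by exact_mod_cast h1
  have h4 : a < b := by exact_mod_cast h2
  omega

theorem Gph_avoid (h1 : (N : ℝ) < s₁.2) (h2 : s₁.2 < N + 1) (y : ℝ) (hy0 : 0 ≤ y)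
    (hy1 : y ≤ s₁.2) : ¬ Obs (CC G N s₁ y) := by
  rintro ⟨m, n, h⟩
  have hy : y = n := congrArg Prod.snd h
  obtain ⟨j, hj, rfl⟩ := Gph_int h2 hy0 hy1 hy
  rw [Gph_cc_nat h1 hj] at h
  have h3 : (G j : ℝ) = m + 1 / 2 := congrArg Prod.fst h
  exact Gph_half m (G j) (by rw [← h3]; norm_num)

theorem Gph_clock {θ : ℝ → ℝ} (hθ : Continuous θ) {ε : ℝ} (h1 : (N : ℝ) < s₁.2) (h2 : s₁.2 < N + 1)
    (h0 : G 0 = 0) (hθ0 : ∀ ρ ≤ ε, θ ρ = 0) (hθ1 : ∀ ρ, 1 - ε ≤ ρ → θ ρ = s₁.2)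
    (hθr : ∀ ρ, θ ρ ∈ Icc 0 s₁.2) : CPath (0, 0) s₁ ε (CC G N s₁ ∘ θ) := by
  refine ⟨(Gph_cc_cont G N s₁).comp hθ, ?_, ?_, ?_⟩
  · intro ρ hρ
    show CC G N s₁ (θ ρ) = _
    rw [hθ0 ρ hρ, Gph_cc_zero h1 h0]
  · intro ρ hρ
    show CC G N s₁ (θ ρ) = _
    rw [hθ1 ρ hρ, Gph_cc_end h1]
  · intro ρ
    exact Gph_avoid h1 h2 _ (hθr ρ).1 (hθr ρ).2

theorem gaps_cc {ε : ℝ} (hε : 0 < ε) (hu : CPath (0, 0) s₁ ε u) (h1 : (N : ℝ) < s₁.2) (h2 : s₁.2 < N + 1)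
    (hr : ∀ ρ, (u ρ).2 ∈ Icc 0 s₁.2) (hG : Gaps u G) (h0 : G 0 = 0) {θ : ℝ → ℝ} (hθ : Continuous θ)
    {ε' : ℝ} (hε' : 0 < ε') (hθ0 : ∀ ρ ≤ ε', θ ρ = 0) (hθ1 : ∀ ρ, 1 - ε' ≤ ρ → θ ρ = s₁.2)
    (hθr : ∀ ρ, θ ρ ∈ Icc 0 s₁.2) : PH (0, 0) s₁ u (CC G N s₁ ∘ θ) := by
  have hu2c : Continuous fun ρ => (u ρ).2 := hu.cont.snd
  have hu20 : ∀ ρ ≤ ε, (u ρ).2 = 0 := fun ρ hρ => by rw [hu.start ρ hρ]
  have hu21 : ∀ ρ, 1 - ε ≤ ρ → (u ρ).2 = s₁.2 := fun ρ hρ => by rw [hu.stop ρ hρ]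
  have hcu := Gph_clock (G := G) hu2c h1 h2 h0 hu20 hu21 hr
  refine PH.trans (ph_linear hε hu hcu ?_) ?_
  · rintro ρ l hl0 hl1 ⟨m, n, h⟩
    have e2 : ((1 - l) • u ρ + l • (CC G N s₁ ∘ fun ρ => (u ρ).2) ρ).2 = (u ρ).2 := by
      show (1 - l) * (u ρ).2 + l * (u ρ).2 = (u ρ).2
      ring
    have hy : (u ρ).2 = n := by
      rw [← e2]
      exact congrArg Prod.snd h
    obtain ⟨j, hj, hj2⟩ := Gph_int h2 (hr ρ).1 (hr ρ).2 hy
    have e1 : ((1 - l) • u ρ + l • (CC G N s₁ ∘ fun ρ => (u ρ).2) ρ).1 =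
        (1 - l) * (u ρ).1 + l * (G j : ℝ) := by
      show (1 - l) * (u ρ).1 + l * (CC G N s₁ (u ρ).2).1 = _
      rw [hj2, Gph_cc_nat h1 hj]
    have h3 : (1 - l) * (u ρ).1 + l * (G j : ℝ) = m + 1 / 2 := by
      rw [← e1]
      exact congrArg Prod.fst h
    have h4 := hG j ρ hj2
    apply Gph_half m (G j)
    rw [← h3]
    have e5 : (1 - l) * (u ρ).1 + l * (G j : ℝ) - G j = (1 - l) * ((u ρ).1 - G j) := by ring
    rw [e5, abs_mul, abs_of_nonneg (by linarith : 0 ≤ 1 - l)]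
    have := abs_nonneg ((u ρ).1 - G j)
    nlinarith
  · have h3 := ph_clock (Gph_cc_cont G N s₁) (T := s₁.2) (fun y hy0 hy1 => Gph_avoid h1 h2 y hy0 hy1)
      hu2c hθ (ε := min ε ε') (lt_min hε hε')
      (fun ρ hρ => ⟨hu20 ρ (hρ.trans (min_le_left _ _)), hθ0 ρ (hρ.trans (min_le_right _ _))⟩)
      (fun ρ hρ => ⟨hu21 ρ (by have := min_le_left ε ε'; linarith),
        hθ1 ρ (by have := min_le_right ε ε'; linarith)⟩)
      (fun ρ => ⟨hr ρ, hθr ρ⟩)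
    rw [Gph_cc_zero h1 h0, Gph_cc_end h1] at h3
    exact h3

/-- two monotone paths with the same gaps are homotopic -/
theorem gaps_eq {ε : ℝ} (hε : 0 < ε) (hu : CPath (0, 0) s₁ ε u) (hu' : CPath (0, 0) s₁ ε u') (h1 : (N : ℝ) < s₁.2)
    (h2 : s₁.2 < N + 1) (hr : ∀ ρ, (u ρ).2 ∈ Icc 0 s₁.2) (hr' : ∀ ρ, (u' ρ).2 ∈ Icc 0 s₁.2)
    (hG : Gaps u G) (hG' : Gaps u' G) (h0 : G 0 = 0) : PH (0, 0) s₁ u u' := by
  have hu2c : Continuous fun ρ => (u ρ).2 := hu.cont.snd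
  have hu20 : ∀ ρ ≤ ε, (u ρ).2 = 0 := fun ρ hρ => by rw [hu.start ρ hρ]
  have hu21 : ∀ ρ, 1 - ε ≤ ρ → (u ρ).2 = s₁.2 := fun ρ hρ => by rw [hu.stop ρ hρ]
  exact (gaps_cc hε hu h1 h2 hr hG h0 hu2c hε hu20 hu21 hr).trans
    (gaps_cc hε hu' h1 h2 hr' hG' h0 hu2c hε hu20 hu21 hr).symm

theorem gaps_word {ε : ℝ} (hε : 0 < ε) (hu : CPath (0, 0) s₁ ε u) (h1 : (N : ℝ) < s₁.2) (h2 : s₁.2 < N + 1)
    (hr : ∀ ρ, (u ρ).2 ∈ Icc 0 s₁.2) (hG : Gaps u G) (h0 : G 0 = 0) (k : ℤ) :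
    PH (0, 0) s₁ u (cmpr (gw G N ++ xs k) s₁) := by
  have hs0 : 0 ≤ s₁.2 - N := by linarith
  have hN0 : (0 : ℝ) ≤ N := Nat.cast_nonneg N
  -- the clock of the canonical curve
  obtain ⟨θ, hθd⟩ : ∃ θ : ℝ → ℝ, θ = fun ρ => N * Gph_c (8 * ρ - 1) + (s₁.2 - N) * Gph_c (2 * ρ - 1 / 2) :=
    ⟨_, rfl⟩
  have hθ : Continuous θ := by
    rw [hθd]
    have := Gph_c_cont
    fun_prop
  have hθ0 : ∀ ρ ≤ 1 / 8, θ ρ = 0 := by
    intro ρ hρ
    rw [hθd]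
    simp only
    rw [Gph_c_zero (by linarith), Gph_c_zero (by linarith)]
    ring
  have hθ1 : ∀ ρ, 1 - 1 / 8 ≤ ρ → θ ρ = s₁.2 := by
    intro ρ hρ
    rw [hθd]
    simp only
    rw [Gph_c_one (by linarith), Gph_c_one (by linarith)]
    ring
  have hθr : ∀ ρ, θ ρ ∈ Icc 0 s₁.2 := by
    intro ρ
    rw [hθd]
    simp only
    have a1 := mul_nonneg hN0 (Gph_c_nn (8 * ρ - 1))
    have a2 := mul_nonneg hs0 (Gph_c_nn (2 * ρ - 1 / 2))
    have a3 := mul_le_mul_of_nonneg_left (Gph_c_le (8 * ρ - 1)) hN0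
    have a4 := mul_le_mul_of_nonneg_left (Gph_c_le (2 * ρ - 1 / 2)) hs0
    constructor <;> linarith
  refine PH.trans (gaps_cc hε hu h1 h2 hr hG h0 hθ (by norm_num : (0 : ℝ) < 1 / 8) hθ0 hθ1 hθr) ?_
  refine PH.symm ?_
  -- the word
  obtain ⟨L, hL⟩ : ∃ L, L = gw G N ++ xs k := ⟨_, rfl⟩
  have hsum : sumZ L = (G N + k, (N : ℤ)) := by
    rw [hL, sumZ_append, sumZ_gw, sumZ_xs, h0]
    simp
  have hcs := cs_seg G N
  rw [h0, sub_zero] at hcs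
  have hxs := pos_seg (xs k)
  rw [sumZ_xs] at hxs
  have hgw := pos_seg (gw G N)
  rw [sumZ_gw, h0, sub_zero] at hgw
  have hlen : ((xs k).length : ℝ) = |(k : ℝ)| := by
    unfold xs
    rw [List.length_replicate, Nat.cast_natAbs, Int.cast_abs]
  have hz' : IsSeg (cat (cs G N) N (pos (xs k))) (N + |(k : ℝ)|) (sumZ L) := by
    have := isSeg_cat hcs hxs
    rw [hlen] at this
    have e : ((G N, (N : ℤ)) + (k, 0) : ℤ × ℤ) = sumZ L := by rw [hsum]; simp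
    rw [e] at this
    exact this
  have hSH : SH (pos L) (cat (cs G N) N (pos (xs k))) (sumZ L) := by
    have hg := sh_gw G N
    rw [h0, sub_zero] at hg
    have := sh_cat hgw hcs hxs hxs hg (sh_refl hxs)
    have e : ((G N, (N : ℤ)) + (k, 0) : ℤ × ℤ) = sumZ L := by rw [hsum]; simp
    rw [e] at this
    rw [hL, pos_append, ← hL]
    exact this
  have he2 : ((sumZ L).2 : ℝ) = N := by rw [hsum]; simp
  obtain ⟨ϑ, hϑd⟩ : ∃ ϑ : ℝ → ℝ, ϑ = fun ρ => N * Gph_c (8 * ρ - 1) + |(k : ℝ)| * Gph_c (4 * ρ - 1) :=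
    ⟨_, rfl⟩
  have hϑ : Clk ϑ (N + |(k : ℝ)|) := by
    refine ⟨?_, ?_, ?_⟩
    · rw [hϑd]
      have := Gph_c_cont
      fun_prop
    · intro ρ hρ
      rw [hϑd]
      simp only
      rw [Gph_c_zero (by linarith), Gph_c_zero (by linarith)]
      simp
    · intro ρ hρ
      rw [hϑd]
      simp only
      rw [Gph_c_one (by linarith), Gph_c_one (by linarith)]
      simp
  have hA := tl_sh (pos_seg L) hz' hSH (cmpr_clk L) hϑ (s₁ := s₁) (by rw [he2]; exact h1)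
    (by rw [he2]; exact h2)
  rw [← cmpr_tl] at hA
  rw [← hL]
  refine PH.trans hA ?_
  have hcp := tl_cpath hz' hϑ (s₁ := s₁) (by rw [he2]; exact h1) (by rw [he2]; exact h2)
  refine ph_strip (by norm_num : (0 : ℝ) < 1 / 8) hcp (Gph_clock hθ h1 h2 h0 hθ0 hθ1 hθr)
    (ρ₀ := 1 / 4) (N := (N : ℤ)) ?_ ?_ ?_
  · intro ρ hρ
    obtain ⟨y, hy⟩ : ∃ y, y = N * Gph_c (8 * ρ - 1) := ⟨_, rfl⟩
    have hy0 : 0 ≤ y := by rw [hy]; exact mul_nonneg hN0 (Gph_c_nn _)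
    have hy1 : y ≤ N := by
      have := mul_le_mul_of_nonneg_left (Gph_c_le (8 * ρ - 1)) hN0
      rw [hy]
      linarith
    have e1 : ϑ ρ = y := by
      rw [hϑd]
      simp only
      rw [Gph_c_zero (x := 4 * ρ - 1) (by linarith), ← hy]
      ring
    have e2 : θ ρ = y := by
      rw [hθd]
      simp only
      rw [Gph_c_zero (x := 2 * ρ - 1 / 2) (by linarith), ← hy]
      ring
    show cat (cs G N) N (pos (xs k)) (ϑ ρ) + Real.smoothTransition (4 * ρ - 5 / 2) • _ =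
      CC G N s₁ (θ ρ)
    rw [e1, e2, Real.smoothTransition.zero_of_nonpos (by linarith), zero_smul, add_zero,
      Gph_cc_le h1 hy1]
    show cs G N y + pos (xs k) (y - N) = _
    rw [hxs.start (y - N) (by linarith)]
    unfold cs
    rw [min_eq_left hy1, max_eq_right hy0, h0]
    ext <;> simp
  · intro ρ hρ
    have e1 : ϑ ρ = N + |(k : ℝ)| * Gph_c (4 * ρ - 1) := by
      rw [hϑd]
      simp only
      rw [Gph_c_one (x := 8 * ρ - 1) (by linarith), mul_one]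
    have hk0 : 0 ≤ |(k : ℝ)| * Gph_c (4 * ρ - 1) := mul_nonneg (abs_nonneg _) (Gph_c_nn _)
    have e2 : (tl (cat (cs G N) N (pos (xs k))) ϑ (sumZ L) s₁ ρ).2 =
        N + (pos (xs k) (|(k : ℝ)| * Gph_c (4 * ρ - 1))).2 +
          Real.smoothTransition (4 * ρ - 5 / 2) * (s₁.2 - N) := by
      show (cs G N (ϑ ρ)).2 + (pos (xs k) (ϑ ρ - N)).2 +
        Real.smoothTransition (4 * ρ - 5 / 2) * (s₁.2 - ((sumZ L).2 : ℝ)) = _
      rw [he2, e1, add_sub_cancel_left]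
      unfold cs
      simp only
      rw [min_eq_right (by linarith), max_eq_right hN0]
    rw [e2]
    have p1 := pos_xs_snd (xs k) (xs_mem k) (|(k : ℝ)| * Gph_c (4 * ρ - 1))
    push_cast
    rcases le_total ρ (5 / 8) with h3 | h3
    · rw [Real.smoothTransition.zero_of_nonpos (by linarith), zero_mul]
      constructor <;> linarith [p1.1, p1.2]
    · rw [Gph_c_one (x := 4 * ρ - 1) (by linarith), mul_one, ← hlen,
        hxs.stop _ le_rfl]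
      simp only [Int.cast_zero, add_zero]
      have q0 := Real.smoothTransition.nonneg (4 * ρ - 5 / 2)
      have q1 := Real.smoothTransition.le_one (4 * ρ - 5 / 2)
      constructor
      · have := mul_nonneg q0 hs0
        linarith
      · have := mul_le_mul_of_nonneg_right q1 hs0
        linarith
  · intro ρ hρ
    show _ ≤ θ ρ ∧ θ ρ < _
    rw [hθd]
    simp only
    rw [Gph_c_one (x := 8 * ρ - 1) (by linarith), mul_one]
    push_cast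
    have a2 := mul_nonneg hs0 (Gph_c_nn (2 * ρ - 1 / 2))
    have a4 := mul_le_mul_of_nonneg_left (Gph_c_le (2 * ρ - 1 / 2)) hs0
    constructor <;> linarith

end Pool.Agent.GLB
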