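import Pool.Agent.GLB.Defs
import Pool.Agent.PTH.Gap
import Pool.Agent.PTH.Seg

/-!
# GLB/Str: gap words are monotone curves   (difficulty 2-3)

* `sh_strip`: `u, u'` segments from `0` to `e` with second coordinate in `[0, 1]`.  Let `M ≥ m, m'`, `M > 0` and `ψ τ = 0` for `τ ≤ 0`, `τ ≥ M`,
  `0 < ψ ≤ 1` in `(0, M)` (e.g. `min 1 (max 0 (min τ (M - τ)))`).  `u ~ U`, `U = (u₁, (1 - ψ) u₂ + ψ / 2)` by
  `H l = (u₁, (1 - l ψ) u₂ + l ψ / 2)`: where `l ψ > 0` the second coordinate is in `(0, 1)`, elsewhere it is `u`.  `U ~ U'` linear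
  (`sh_linear`): for `τ` in `(0, M)` both second coordinates are in `(0, 1)`, elsewhere both are `0` or `e`.  `U' ~ u'`.  `sh_trans`, `sh_symm`.
* `pos_xsy_mem`: second coordinate of `pos (xs k ++ [(false, true)])` in `[0, 1]`: `pos_append`: for `τ ≤ |k|` the second part vanishes
  (`pos_left`) and `0 ≤ (pos (xs k) τ).2 ≤ 1/2` (`PTH.pos_xs_snd`, `xs_mem`); for `τ ≥ |k|` the first part is constant `(k, 0)` (`pos_seg`,
  `sumZ_xs`) and `pos [(false, true)] τ = (0, smoothTransition τ)`.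
* `Gf G N y = G 0 + Σ_{j < N} (G (j+1) - G j) st (y - j)`: `Gf_nat`: `Gf G N j = G j` for `j ≤ N` (`st (j - i) = 1` for `i < j`, `0` for
  `i ≥ j`; telescoping sum).
* `cs G N τ = (Gf G N y - G 0, y)`, `y = max 0 (min τ N)`.  `cs_seg`: at an integer height `y = j ∈ [0, N]` the first coordinate is an
  integer: `¬ Obs`.
* `cs_succ`: `cs G (N + 1) = cat (cs G N) N (cs (fun j => G (N + j)) 1)`: for `τ ≤ N` and for `τ ≥ N` separately.
* `sh_gw`: induction on `N`: `gw G (N + 1) = gw G N ++ xs k ++ [y] = gw G N ++ (xs k ++ [y])` (`List.append_assoc`), `pos_append`, `sh_cat` with the induction hypothesis and `sh_strip`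
  (`pos (xs k ++ [y])` and `cs (..) 1` are in the strip, `pos_xsy_mem`; the duration of `pos (gw G N)` is its length), `sumZ_gw`,
  `sumZ_append`.
-/

open scoped ContDiff Topology
open Set Filter

namespace Pool.Agent.GLB

open Pool.Agent.PTH

theorem Str_aux {q : ℝ × ℝ} {c : ℝ} (hq : ¬ Obs q) (h0 : 0 ≤ q.2) (h1 : q.2 ≤ 1) (hc : 0 ≤ c) (hc' : c ≤ 1) :
    ¬ Obs (q.1, (1 - c) * q.2 + c / 2) := by
  rcases hc.eq_or_lt with h | h
  · rw [← h]
    have e : ((q.1, (1 - 0) * q.2 + 0 / 2) : ℝ × ℝ) = q := by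
      refine Prod.ext rfl ?_
      show (1 - 0) * q.2 + 0 / 2 = q.2
      ring
    rw [e]
    exact hq
  · refine not_obs_snd (k := 0) ?_ ?_
    · show ((0 : ℤ) : ℝ) < (1 - c) * q.2 + c / 2
      have := mul_nonneg (show 0 ≤ 1 - c by linarith) h0
      push_cast
      linarith
    · show (1 - c) * q.2 + c / 2 < ((0 : ℤ) : ℝ) + 1
      have := mul_le_mul_of_nonneg_left h1 (show 0 ≤ 1 - c by linarith)
      push_cast
      linarith

/-- the tent -/
noncomputable def StrP (M τ : ℝ) : ℝ := min 1 (max 0 (min τ (M - τ)))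

theorem StrP_nonneg (M τ : ℝ) : 0 ≤ StrP M τ := le_min zero_le_one (le_max_left _ _)
theorem StrP_le (M τ : ℝ) : StrP M τ ≤ 1 := min_le_left _ _
theorem StrP_cont (M : ℝ) : Continuous (StrP M) := by unfold StrP; fun_prop
theorem StrP_pos {M τ : ℝ} (h : 0 < τ) (h' : τ < M) : 0 < StrP M τ :=
  lt_min one_pos (lt_max_of_lt_right (lt_min h (by linarith)))
theorem StrP_left {M τ : ℝ} (h : τ ≤ 0) : StrP M τ = 0 := by
  unfold StrP
  rw [max_eq_left ((min_le_left _ _).trans h)]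
  exact min_eq_right zero_le_one
theorem StrP_right {M τ : ℝ} (h : M ≤ τ) : StrP M τ = 0 := by
  unfold StrP
  rw [max_eq_left ((min_le_right _ _).trans (by linarith))]
  exact min_eq_right zero_le_one

/-- pushed towards the middle of the strip -/
noncomputable def StrU (M : ℝ) (u : ℝ → ℝ × ℝ) (τ : ℝ) : ℝ × ℝ :=
  ((u τ).1, (1 - StrP M τ) * (u τ).2 + StrP M τ / 2)

theorem StrU_seg {u : ℝ → ℝ × ℝ} {m M : ℝ} {e : ℤ × ℤ} (h : IsSeg u m e) (hM : m ≤ M)
    (hs : ∀ τ, 0 ≤ (u τ).2 ∧ (u τ).2 ≤ 1) : IsSeg (StrU M u) M e := by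
  refine ⟨h.nn.trans hM, ?_, ?_, ?_, fun τ => Str_aux (h.avoid τ) (hs τ).1 (hs τ).2 (StrP_nonneg _ _) (StrP_le _ _)⟩
  · have hc := h.cont
    have hP := StrP_cont M
    unfold StrU
    fun_prop
  · intro τ hτ
    unfold StrU
    rw [StrP_left hτ, h.start τ hτ]
    simp
  · intro τ hτ
    unfold StrU
    rw [StrP_right hτ, h.stop τ (hM.trans hτ)]
    simp

theorem StrU_sh {u : ℝ → ℝ × ℝ} {m M : ℝ} {e : ℤ × ℤ} (h : IsSeg u m e) (hM : m ≤ M)
    (hs : ∀ τ, 0 ≤ (u τ).2 ∧ (u τ).2 ≤ 1) : SH u (StrU M u) e := by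
  refine sh_linear h (StrU_seg h hM hs) fun τ l hl hl' => ?_
  have e1 : (1 - l) • u τ + l • StrU M u τ = ((u τ).1, (1 - l * StrP M τ) * (u τ).2 + (l * StrP M τ) / 2) := by
    refine Prod.ext ?_ ?_
    · show (1 - l) * (u τ).1 + l * (u τ).1 = (u τ).1
      ring
    · show (1 - l) * (u τ).2 + l * ((1 - StrP M τ) * (u τ).2 + StrP M τ / 2) = _
      ring
  rw [e1]
  exact Str_aux (h.avoid τ) (hs τ).1 (hs τ).2 (mul_nonneg hl (StrP_nonneg _ _))
    (mul_le_one₀ hl' (StrP_nonneg _ _) (StrP_le _ _))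

theorem StrU_strip {u : ℝ → ℝ × ℝ} {M τ : ℝ} (hs : 0 ≤ (u τ).2 ∧ (u τ).2 ≤ 1) (h : 0 < τ) (h' : τ < M) :
    0 < (StrU M u τ).2 ∧ (StrU M u τ).2 < 1 := by
  have hP := StrP_pos h h'
  have hP1 := StrP_le M τ
  have a1 := mul_nonneg (show 0 ≤ 1 - StrP M τ by linarith) hs.1
  have a2 := mul_le_mul_of_nonneg_left hs.2 (show 0 ≤ 1 - StrP M τ by linarith)
  constructor
  · show 0 < (1 - StrP M τ) * (u τ).2 + StrP M τ / 2
    linarith
  · show (1 - StrP M τ) * (u τ).2 + StrP M τ / 2 < 1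
    linarith

theorem sh_strip {u u' : ℝ → ℝ × ℝ} {m m' : ℝ} {e : ℤ × ℤ} (h : IsSeg u m e) (h' : IsSeg u' m' e)
    (hs : ∀ τ, 0 ≤ (u τ).2 ∧ (u τ).2 ≤ 1) (hs' : ∀ τ, 0 ≤ (u' τ).2 ∧ (u' τ).2 ≤ 1) : SH u u' e := by
  set M : ℝ := max m m' with hM
  have h1 : m ≤ M := le_max_left _ _
  have h2 : m' ≤ M := le_max_right _ _
  refine sh_trans (StrU_sh h h1 hs) (sh_trans ?_ (sh_symm (StrU_sh h' h2 hs')))
  have hU := StrU_seg h h1 hs
  have hU' := StrU_seg h' h2 hs'
  refine sh_linear hU hU' fun τ l hl hl' => ?_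
  rcases le_or_gt τ 0 with ht | ht
  · have e1 : (1 - l) • StrU M u τ + l • StrU M u' τ = (((0 : ℤ) : ℝ), ((0 : ℤ) : ℝ)) := by
      rw [hU.start τ ht, hU'.start τ ht]
      simp
    rw [e1]
    exact not_obs_int 0 0
  · rcases le_or_gt M τ with ht' | ht'
    · have e1 : (1 - l) • StrU M u τ + l • StrU M u' τ = ((e.1 : ℝ), (e.2 : ℝ)) := by
        rw [hU.stop τ ht', hU'.stop τ ht', ← add_smul, sub_add_cancel, one_smul]
      rw [e1]
      exact not_obs_int _ _
    · have a1 := StrU_strip (M := M) (hs τ) ht ht'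
      have a2 := StrU_strip (M := M) (hs' τ) ht ht'
      refine not_obs_snd (k := 0) ?_ ?_
      · show ((0 : ℤ) : ℝ) < (1 - l) * (StrU M u τ).2 + l * (StrU M u' τ).2
        rw [Int.cast_zero]
        exact lt_comb a1.1 a2.1 hl hl'
      · show (1 - l) * (StrU M u τ).2 + l * (StrU M u' τ).2 < ((0 : ℤ) : ℝ) + 1
        rw [Int.cast_zero, zero_add]
        exact comb_lt a1.2 a2.2 hl hl'

theorem pos_xsy_mem (k : ℤ) (τ : ℝ) :
    0 ≤ (pos (xs k ++ [(false, true)]) τ).2 ∧ (pos (xs k ++ [(false, true)]) τ).2 ≤ 1 := by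
  have h1 := pos_xs_snd (xs k) (xs_mem k) τ
  rcases pos_app_cases (xs k) [(false, true)] τ with h | ⟨-, h⟩
  · rw [h]
    exact ⟨h1.1, h1.2.trans (by norm_num)⟩
  · rw [h, sumZ_xs]
    have e : (pos [(false, true)] (τ - (xs k).length)).2 = Real.smoothTransition (τ - (xs k).length) := by
      show (ltr (false, true) (τ - (xs k).length) + 0).2 = _
      simp [ltr, sgn]
    have e2 : ((((((k, (0 : ℤ)) : ℤ × ℤ).1 : ℤ) : ℝ), ((((k, (0 : ℤ)) : ℤ × ℤ).2 : ℤ) : ℝ)) +
        pos [(false, true)] (τ - (xs k).length)).2 = Real.smoothTransition (τ - (xs k).length) := by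
      rw [Prod.snd_add, e]
      simp
    rw [e2]
    exact ⟨Real.smoothTransition.nonneg _, Real.smoothTransition.le_one _⟩

/-- the abscissa of the canonical curve at the height `y` -/
noncomputable def Gf (G : ℕ → ℤ) (N : ℕ) (y : ℝ) : ℝ :=
  G 0 + ∑ j ∈ Finset.range N, ((G (j + 1) - G j : ℤ) : ℝ) * Real.smoothTransition (y - j)

theorem Gf_cont (G : ℕ → ℤ) (N : ℕ) : Continuous (Gf G N) := by
  unfold Gf
  refine continuous_const.add (continuous_finset_sum _ fun j _ => continuous_const.mul ?_)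
  exact Real.smoothTransition.continuous.comp (continuous_id.sub continuous_const)

theorem Gf_succ (G : ℕ → ℤ) (N : ℕ) (y : ℝ) :
    Gf G (N + 1) y = Gf G N y + ((G (N + 1) - G N : ℤ) : ℝ) * Real.smoothTransition (y - N) := by
  unfold Gf
  rw [Finset.sum_range_succ, add_assoc]

/-- constant for `y ≤ 0` and for `y ≥ N` -/
theorem Gf_le (G : ℕ → ℤ) (N : ℕ) {y : ℝ} (h : y ≤ 0) : Gf G N y = G 0 := by
  induction N with
  | zero => simp [Gf]
  | succ N ih =>
    rw [Gf_succ, ih, Real.smoothTransition.zero_of_nonpos, mul_zero, add_zero]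
    have : (0 : ℝ) ≤ N := Nat.cast_nonneg N
    linarith

theorem Gf_ge (G : ℕ → ℤ) (N : ℕ) {y : ℝ} (h : (N : ℝ) ≤ y) : Gf G N y = G N := by
  induction N with
  | zero => simp [Gf]
  | succ N ih =>
    rw [Nat.cast_add, Nat.cast_one] at h
    rw [Gf_succ, ih (by linarith), Real.smoothTransition.one_of_one_le (by linarith), mul_one]
    push_cast
    ring

theorem Gf_nat (G : ℕ → ℤ) {N j : ℕ} (h : j ≤ N) : Gf G N j = G j := by
  induction N with
  | zero =>
    have : j = 0 := Nat.le_zero.1 h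
    subst this
    simp [Gf]
  | succ N ih =>
    rcases Nat.lt_or_ge N j with h1 | h1
    · have h2 : j = N + 1 := le_antisymm h h1
      subst h2
      exact Gf_ge G (N + 1) (le_refl _)
    · rw [Gf_succ, ih h1, Real.smoothTransition.zero_of_nonpos, mul_zero, add_zero]
      have : (j : ℝ) ≤ N := by exact_mod_cast h1
      linarith

/-- the canonical monotone curve as a segment -/
noncomputable def cs (G : ℕ → ℤ) (N : ℕ) (τ : ℝ) : ℝ × ℝ := (Gf G N (max 0 (min τ N)) - G 0, max 0 (min τ N))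

theorem cs_left (G : ℕ → ℤ) (N : ℕ) {τ : ℝ} (h : τ ≤ 0) : cs G N τ = (0, 0) := by
  unfold cs
  rw [max_eq_left ((min_le_left _ _).trans h), Gf_le G N (le_refl 0), sub_self]

theorem cs_right (G : ℕ → ℤ) (N : ℕ) {τ : ℝ} (h : (N : ℝ) ≤ τ) : cs G N τ = ((G N : ℝ) - G 0, (N : ℝ)) := by
  unfold cs
  rw [min_eq_right h, max_eq_right (Nat.cast_nonneg N), Gf_ge G N (le_refl _)]

theorem cs_seg (G : ℕ → ℤ) (N : ℕ) : IsSeg (cs G N) N (G N - G 0, (N : ℤ)) := by
  refine ⟨Nat.cast_nonneg N, ?_, fun τ h => cs_left G N h, ?_, ?_⟩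
  · have hG := Gf_cont G N
    unfold cs
    have h1 : Continuous fun τ : ℝ => max 0 (min τ (N : ℝ)) := by fun_prop
    exact ((hG.comp h1).sub continuous_const).prodMk h1
  · intro τ h
    rw [cs_right G N h]
    simp
  · intro τ
    set y := max 0 (min τ (N : ℝ)) with hy
    have hy0 : 0 ≤ y := le_max_left _ _
    have hyN : y ≤ N := max_le (Nat.cast_nonneg N) (min_le_right _ _)
    rintro ⟨a, b, hab⟩
    have h1 : Gf G N y - G 0 = (a : ℝ) + 1 / 2 := congrArg Prod.fst hab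
    have h2 : y = (b : ℝ) := congrArg Prod.snd hab
    have hb0 : 0 ≤ b := by
      have : (0 : ℝ) ≤ b := by rw [← h2]; exact hy0
      exact_mod_cast this
    obtain ⟨j, rfl⟩ := Int.eq_ofNat_of_zero_le hb0
    have hjN : j ≤ N := by
      have : (j : ℝ) ≤ N := by
        have := h2 ▸ hyN
        exact_mod_cast this
      exact_mod_cast this
    have h3 : y = (j : ℝ) := by rw [h2]; simp
    rw [h3, Gf_nat G hjN] at h1
    have h4 : (2 * ((G j : ℝ) - G 0)) = 2 * a + 1 := by rw [h1]; ring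
    have h5 : (2 * (G j - G 0) : ℤ) = 2 * a + 1 := by exact_mod_cast h4
    omega

theorem cs_succ (G : ℕ → ℤ) (N : ℕ) : cs G (N + 1) = cat (cs G N) N (cs (fun j => G (N + j)) 1) := by
  funext τ
  show cs G (N + 1) τ = cs G N τ + cs (fun j => G (N + j)) 1 (τ - N)
  have hN : (0 : ℝ) ≤ N := Nat.cast_nonneg N
  rcases le_total τ N with h | h
  · rw [cs_left _ _ (show τ - N ≤ 0 by linarith)]
    have e0 : min τ ((N + 1 : ℕ) : ℝ) = τ := min_eq_left (by push_cast; linarith)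
    have e1 : min τ (N : ℝ) = τ := min_eq_left h
    unfold cs
    rw [e0, e1, Gf_succ, Real.smoothTransition.zero_of_nonpos (show max 0 τ - (N : ℝ) ≤ 0 by
      have := max_le hN h
      linarith), mul_zero, add_zero]
    exact (add_zero _).symm
  · rw [cs_right G N h]
    set z := max 0 (min (τ - N) 1) with hz
    have hz0 : 0 ≤ z := le_max_left _ _
    have e0 : max 0 (min τ ((N + 1 : ℕ) : ℝ)) = N + z := by
      rw [hz, max_eq_right (le_min (by linarith) zero_le_one), max_eq_right (le_min (hN.trans h) (by positivity))]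
      push_cast
      rw [← min_add_add_left, add_sub_cancel]
    have e1 : cs (fun j => G (N + j)) 1 (τ - N) = (Gf (fun j => G (N + j)) 1 z - G N, z) := by
      unfold cs
      rw [Nat.cast_one]
      rfl
    have e2 : Gf (fun j => G (N + j)) 1 z = G N + ((G (N + 1) - G N : ℤ) : ℝ) * Real.smoothTransition z := by
      unfold Gf
      simp
    rw [e1, e2]
    unfold cs
    rw [e0, Gf_succ, Gf_ge G N (show (N : ℝ) ≤ N + z by linarith), add_sub_cancel_left]
    refine Prod.ext ?_ rfl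
    show (G N : ℝ) + ((G (N + 1) - G N : ℤ) : ℝ) * Real.smoothTransition z - G 0 = ((G N : ℝ) - G 0) +
      (G N + ((G (N + 1) - G N : ℤ) : ℝ) * Real.smoothTransition z - G N)
    ring

theorem sh_gw (G : ℕ → ℤ) (N : ℕ) : SH (pos (gw G N)) (cs G N) (G N - G 0, (N : ℤ)) := by
  induction N with
  | zero =>
    have e : cs G 0 = pos (gw G 0) := by
      funext τ
      unfold cs
      have e1 : max 0 (min τ ((0 : ℕ) : ℝ)) = 0 := by
        rw [Nat.cast_zero]
        exact max_eq_left (min_le_right _ _)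
      rw [e1, Gf_le G 0 (le_refl 0), sub_self]
      rfl
    rw [← e]
    exact sh_refl (cs_seg G 0)
  | succ N ih =>
    have e1 : gw G (N + 1) = gw G N ++ (xs (G (N + 1) - G N) ++ [(false, true)]) := by
      show gw G N ++ xs (G (N + 1) - G N) ++ [(false, true)] = _
      rw [List.append_assoc]
    set k := G (N + 1) - G N with hk
    have e2 : sumZ (xs k ++ [(false, true)]) = (k, 1) := by
      rw [sumZ_append, sumZ_xs]
      simp [sumZ, dirZ, sgn]
    have s1 : IsSeg (pos (gw G N)) (gw G N).length (G N - G 0, (N : ℤ)) := by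
      have := pos_seg (gw G N)
      rwa [sumZ_gw] at this
    have s2 : IsSeg (pos (xs k ++ [(false, true)])) (xs k ++ [(false, true)]).length (k, 1) := by
      have := pos_seg (xs k ++ [(false, true)])
      rwa [e2] at this
    have s3 : IsSeg (cs (fun j => G (N + j)) 1) ((1 : ℕ) : ℝ) (k, 1) := by
      have := cs_seg (fun j => G (N + j)) 1
      exact this
    have h1 : SH (pos (xs k ++ [(false, true)])) (cs (fun j => G (N + j)) 1) (k, 1) := by
      refine sh_strip s2 s3 (pos_xsy_mem k) fun τ => ⟨le_max_left _ _, ?_⟩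
      exact max_le zero_le_one ((min_le_right _ _).trans (by simp))
    have h2 := sh_cat s1 (cs_seg G N) s2 s3 ih h1
    rw [e1, pos_append, cs_succ]
    have e3 : ((G (N + 1) - G 0, ((N + 1 : ℕ) : ℤ)) : ℤ × ℤ) = (G N - G 0, (N : ℤ)) + (k, 1) := by
      refine Prod.ext ?_ ?_
      · show G (N + 1) - G 0 = (G N - G 0) + k
        rw [hk]; ring
      · show ((N + 1 : ℕ) : ℤ) = (N : ℤ) + 1
        push_cast; ring
    rw [e3]
    exact h2

end Pool.Agent.GLB
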