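import Pool.Agent.GLB.GEa
import Pool.Agent.RSG.SphB
import Pool.Agent.CSG.LDa

/-!
# GLB/TwR: reversal of the torus; carried knots and equivariant maps   (difficulty 2)

* `sg z = pS4 (conj c2) (conj c1) ht`: an involution, `c1 (sg z) = conj (c2 z)`, `c2 (sg z) = conj (c1 z)`, `ht (sg z) = ht z` (`pS4_c`, `S4_sq`),
  `fh (sg z) = -conj (fh z)` (def of `fh`); smooth (`pS4_smooth`), so a local diffeomorphism (`ld_of_involution`).
* `TwinP.rev`: `κ' (l, v, t) = κ (1/2 - l, conj v, t)`, `A' = A`, `Q' = Q ∘ sg`, `n' = -n`, `j' = 1 - j`.  `glue`: let `c1 z = |c1| ex (m' + (1 - j') t)`,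
  `c2 z = |c2| ex (m' - j' t)`, `fh z = |fh| ex (l' + n t)`.  Then `c1 (sg z) = |c2| ex (-m' + (1 - j) t)`, `c2 (sg z) = |c1| ex (-m' - j t)`,
  `fh (sg z) = |fh| ex (1/2 - l' - n t)` (`ex (1/2) = -1`, `ex_neg`), so by `glue` for `κ` with `m = -m'`, `l = 1/2 - l'`:
  `Q (sg z) = A (κ (1/2 - l', 2|c1||c2| ex (-m'), t)) = A (κ' (l', 2|c1||c2| ex m', t))`.
  `OnT κ' ↔ OnT κ`.  `disj`, `cover`, `Q_loc`, `Q_inj`: composition with the involution `sg` (`fh (sg z) = 0 ↔ fh z = 0`).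
* `Carries.conj`: `S : P → P` an involution, local diffeomorphism, `S (a t p) = a' t (S p)`: `κ' = S ∘ κ`, `A' = A ∘ S`, `Q' = Q`.
* `Carries.rev`: `TwinP.rev`, `ThickT` of `κ'` (composition with the permutation `(l, v, t) ↦ (1/2 - l, conj v, t)` of `ℝ × ℂ × ℝ`).
-/

open scoped Manifold ContDiff Topology
open Set Filter
open Complex (I)

namespace Pool.Agent.GLB

open Pool.Agent.PTH
open Pool.Agent.RSG (E4 S3 S4 pS3 pS4 ex c1 c2 ht fh)
open Pool.Agent.RBM (ThickT TwinP OnT)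

/-- the symmetry of the twin -/
noncomputable def sg (z : S4) : S4 := pS4 ((starRingEnd ℂ) (c2 z)) ((starRingEnd ℂ) (c1 z)) (ht z)

theorem sg_c (z : S4) : c1 (sg z) = (starRingEnd ℂ) (c2 z) ∧ c2 (sg z) = (starRingEnd ℂ) (c1 z) ∧ ht (sg z) = ht z := by
  have h := RSG.S4_sq z
  refine RSG.pS4_c (a := (starRingEnd ℂ) (c2 z)) (b := (starRingEnd ℂ) (c1 z)) (h := ht z) ?_
  rw [Complex.norm_conj, Complex.norm_conj]
  linarith

theorem sg_fh (z : S4) : fh (sg z) = -(starRingEnd ℂ) (fh z) := by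
  obtain ⟨h1, h2, h3⟩ := sg_c z
  unfold fh
  rw [h1, h2, h3, Complex.norm_conj, Complex.norm_conj]
  apply Complex.ext
  · simp
  · simp

theorem sg_sg (z : S4) : sg (sg z) = z := by
  obtain ⟨h1, h2, h3⟩ := sg_c z
  obtain ⟨g1, g2, g3⟩ := sg_c (sg z)
  refine RSG.S4_ext ?_ ?_ ?_
  · rw [g1, h2, Complex.conj_conj]
  · rw [g2, h1, Complex.conj_conj]
  · rw [g3, h3]

theorem TwR_conj_smooth : ContDiff ℝ ∞ (fun z : ℂ => (starRingEnd ℂ) z) := Complex.conjCLE.contDiff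

theorem TwR_sg_smooth : ContMDiff (𝓡 4) (𝓡 4) ∞ sg := by
  intro z
  have h := RSG.S4_sq z
  have hc : ContMDiff 𝓘(ℝ, ℂ) 𝓘(ℝ, ℂ) ∞ (fun z : ℂ => (starRingEnd ℂ) z) := TwR_conj_smooth.contMDiff
  refine RSG.pS4_smooth (a := fun z => (starRingEnd ℂ) (c2 z)) (b := fun z => (starRingEnd ℂ) (c1 z)) (h := ht)
    (hc.comp RSG.c2_smooth).contMDiffAt (hc.comp RSG.c1_smooth).contMDiffAt RSG.ht_smooth.contMDiffAt ?_
  show 0 < ‖(starRingEnd ℂ) (c2 z)‖ ^ 2 + ‖(starRingEnd ℂ) (c1 z)‖ ^ 2 + ht z ^ 2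
  rw [Complex.norm_conj, Complex.norm_conj]
  linarith

theorem sg_ld (z : S4) : IsLocalDiffeomorphAt (𝓡 4) (𝓡 4) ∞ sg z := ld_of_involution TwR_sg_smooth sg_sg z

theorem TwR_fh_ne {z : S4} (h : fh z ≠ 0) : fh (sg z) ≠ 0 := by
  rw [sg_fh]
  intro h0
  rw [neg_eq_zero] at h0
  exact h ((map_eq_zero _).1 h0)

section
variable {EP : Type*} [NormedAddCommGroup EP] [NormedSpace ℝ EP] {HP : Type*} [TopologicalSpace HP]
  {IP : ModelWithCorners ℝ EP HP} {P : Type*} [TopologicalSpace P] [ChartedSpace HP P]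
  {X : Type*} [TopologicalSpace X] [ChartedSpace E4 X]

theorem TwR_onT {κ : ℝ × ℂ × ℝ → P} {p : P} :
    OnT (fun q : ℝ × ℂ × ℝ => κ (1 / 2 - q.1, (starRingEnd ℂ) q.2.1, q.2.2)) p ↔ OnT κ p := by
  constructor
  · rintro ⟨l, t, h⟩
    refine ⟨1 / 2 - l, t, ?_⟩
    rw [h]
    simp
  · rintro ⟨l, t, h⟩
    refine ⟨1 / 2 - l, t, ?_⟩
    rw [h]
    simp

noncomputable def TwinP.rev {κ : ℝ × ℂ × ℝ → P} {n j : ℤ} (D : TwinP IP κ n j X) :
    TwinP IP (fun q => κ (1 / 2 - q.1, (starRingEnd ℂ) q.2.1, q.2.2)) (-n) (1 - j) X where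
  A := D.A
  Q := fun z => D.Q (sg z)
  A_loc := fun p hp => D.A_loc p (fun h => hp (TwR_onT.2 h))
  A_inj := fun p p' hp hp' => D.A_inj p p' (fun h => hp (TwR_onT.2 h)) (fun h => hp' (TwR_onT.2 h))
  Q_loc := fun z hz => IsLocalDiffeomorphAt.comp (hf := sg_ld z) (hg := D.Q_loc (sg z) (TwR_fh_ne hz)) ..
  Q_inj := fun z z' hz hz' he => by
    have h1 := D.Q_inj (sg z) (sg z') (TwR_fh_ne hz) (TwR_fh_ne hz') he
    rw [← sg_sg z, h1, sg_sg]
  glue := fun z l m t hf h1 h2 e1 e2 e3 => by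
    obtain ⟨g1, g2, g3⟩ := sg_c z
    have n1 : ‖c1 (sg z)‖ = ‖c2 z‖ := by rw [g1, Complex.norm_conj]
    have n2 : ‖c2 (sg z)‖ = ‖c1 z‖ := by rw [g2, Complex.norm_conj]
    have n3 : ‖fh (sg z)‖ = ‖fh z‖ := by rw [sg_fh, norm_neg, Complex.norm_conj]
    have key := D.glue (sg z) (1 / 2 - l) (-m) t (TwR_fh_ne hf)
      (by rw [g1]; exact (map_ne_zero _).2 h2) (by rw [g2]; exact (map_ne_zero _).2 h1)
      (by
        rw [n1, g1]
        conv_lhs => rw [e2]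
        rw [map_mul, Complex.conj_ofReal, ← RSG.ex_neg]
        congr 2
        push_cast
        ring)
      (by
        rw [n2, g2]
        conv_lhs => rw [e1]
        rw [map_mul, Complex.conj_ofReal, ← RSG.ex_neg]
        congr 2
        push_cast
        ring)
      (by
        rw [n3, sg_fh]
        conv_lhs => rw [e3]
        rw [map_mul, Complex.conj_ofReal, ← RSG.ex_neg]
        have e4 : (1 / 2 - l - n * t : ℝ) = 1 / 2 + -(l - ((-n : ℤ) : ℝ) * t) := by push_cast; ring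
        rw [e4, RSG.ex_add, RSG.ex_half]
        ring)
    rw [key, n1, n2]
    congr 2
    have e5 : (starRingEnd ℂ) (((2 * ‖c1 z‖ * ‖c2 z‖ : ℝ) : ℂ) * ex m) = ((2 * ‖c2 z‖ * ‖c1 z‖ : ℝ) : ℂ) * ex (-m) := by
      rw [map_mul, Complex.conj_ofReal, ← RSG.ex_neg]
      congr 2
      ring
    show (_, _, _) = (_, _, _)
    rw [← e5]
  disj := fun z p hf hc hp => D.disj (sg z) p (TwR_fh_ne hf) (by
    obtain ⟨g1, g2, g3⟩ := sg_c z
    rcases hc with h | h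
    · right; rw [g2, h, map_zero]
    · left; rw [g1, h, map_zero]) (fun h => hp (TwR_onT.2 h))
  cover := fun q => by
    rcases D.cover q with ⟨p, hp, h⟩ | ⟨z, hz, h⟩
    · exact Or.inl ⟨p, fun h' => hp (TwR_onT.1 h'), h⟩
    · refine Or.inr ⟨sg z, TwR_fh_ne hz, ?_⟩
      rw [sg_sg]
      exact h

theorem TwR_perm_ld (x : ℝ × ℂ × ℝ) : IsLocalDiffeomorphAt 𝓘(ℝ, ℝ × ℂ × ℝ) 𝓘(ℝ, ℝ × ℂ × ℝ) ∞
    (fun q : ℝ × ℂ × ℝ => (1 / 2 - q.1, (starRingEnd ℂ) q.2.1, q.2.2)) x := by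
  refine ld_of_involution (S := fun q : ℝ × ℂ × ℝ => (1 / 2 - q.1, (starRingEnd ℂ) q.2.1, q.2.2)) ?_ ?_ x
  · have h1 : ContDiff ℝ ∞ fun q : ℝ × ℂ × ℝ => (1 / 2 - q.1, (starRingEnd ℂ) q.2.1, q.2.2) :=
      (contDiff_const.sub contDiff_fst).prodMk ((TwR_conj_smooth.comp contDiff_snd.fst).prodMk contDiff_snd.snd)
    exact h1.contMDiff
  · intro q
    refine Prod.ext ?_ (Prod.ext ?_ rfl)
    · simp
    · simp

theorem TwR_thick {κ : ℝ × ℂ × ℝ → P} (h : ThickT IP κ) :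
    ThickT IP (fun q : ℝ × ℂ × ℝ => κ (1 / 2 - q.1, (starRingEnd ℂ) q.2.1, q.2.2)) := by
  refine ⟨?_, ?_, ?_, ?_⟩
  · intro l v t
    show κ (1 / 2 - (l + 1), _, t) = κ (1 / 2 - l, _, t)
    rw [← h.perl (1 / 2 - (l + 1))]
    congr 2
    ring
  · intro l v t
    exact h.pert _ _ _
  · intro l v t hv
    exact IsLocalDiffeomorphAt.comp (hf := TwR_perm_ld (l, v, t))
      (hg := h.loc (1 / 2 - l) ((starRingEnd ℂ) v) t (by rw [Complex.norm_conj]; exact hv)) ..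
  · intro l v t l' v' t' hv hv' he
    obtain ⟨h1, ⟨m, h2⟩, h3⟩ := h.inj (1 / 2 - l) ((starRingEnd ℂ) v) t (1 / 2 - l') ((starRingEnd ℂ) v') t'
      (by rw [Complex.norm_conj]; exact hv) (by rw [Complex.norm_conj]; exact hv') he
    refine ⟨(starRingEnd ℂ).injective h1, ⟨-m, ?_⟩, h3⟩
    push_cast
    linarith

theorem Carries.rev {a : ℝ → P → P} {n : ℤ} {K : ℝ → P} (h : Carries IP a n K X) :
    Carries IP a (-n) (fun l => K (1 / 2 - l)) X := by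
  obtain ⟨κ, j, hT, heq, hK, ⟨D⟩⟩ := h
  refine ⟨fun q => κ (1 / 2 - q.1, (starRingEnd ℂ) q.2.1, q.2.2), 1 - j, TwR_thick hT, ?_, ?_, ⟨TwinP.rev D⟩⟩
  · intro l v t
    exact heq _ _ _
  · intro l
    show κ (1 / 2 - l, (starRingEnd ℂ) 0, 0) = K (1 / 2 - l)
    rw [map_zero]
    exact hK _

theorem Carries.conj {a a' : ℝ → P → P} {n : ℤ} {K : ℝ → P} {S : P → P} (hS : ∀ p, IsLocalDiffeomorphAt IP IP ∞ S p)
    (hSS : ∀ p, S (S p) = p) (hSa : ∀ t p, S (a t p) = a' t (S p)) (h : Carries IP a n K X) :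
    Carries IP a' n (fun l => S (K l)) X := by
  obtain ⟨κ, j, hT, heq, hK, ⟨D⟩⟩ := h
  have hinj : Function.Injective S := fun p p' hp => by rw [← hSS p, hp, hSS]
  have hon : ∀ p, OnT (fun q => S (κ q)) p ↔ OnT κ (S p) := by
    intro p
    constructor
    · rintro ⟨l, t, h⟩
      exact ⟨l, t, by rw [h]; exact hSS _⟩
    · rintro ⟨l, t, h⟩
      exact ⟨l, t, by show p = S (κ (l, 0, t)); rw [← h, hSS]⟩
  refine ⟨fun q => S (κ q), j, ⟨?_, ?_, ?_, ?_⟩, ?_, ?_, ⟨?_⟩⟩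
  · intro l v t
    exact congrArg S (hT.perl l v t)
  · intro l v t
    exact congrArg S (hT.pert l v t)
  · intro l v t hv
    exact IsLocalDiffeomorphAt.comp (hf := hT.loc l v t hv) (hg := hS _) ..
  · intro l v t l' v' t' hv hv' he
    exact hT.inj l v t l' v' t' hv hv' (hinj he)
  · intro l v t
    show S (κ (l, v, t)) = a' t (S (κ (l, v, 0)))
    rw [← hSa, ← heq]
  · intro l
    exact congrArg S (hK l)
  · refine { A := fun p => D.A (S p), Q := D.Q, A_loc := ?_, A_inj := ?_, Q_loc := D.Q_loc, Q_inj := D.Q_inj, glue := ?_,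
             disj := ?_, cover := ?_ }
    · intro p hp
      exact IsLocalDiffeomorphAt.comp (hf := hS p) (hg := D.A_loc (S p) (fun h => hp ((hon p).2 h))) ..
    · intro p p' hp hp' he
      exact hinj (D.A_inj (S p) (S p') (fun h => hp ((hon p).2 h)) (fun h => hp' ((hon p').2 h)) he)
    · intro z l m t h0 h1 h2 e1 e2 e3
      show D.Q z = D.A (S (S (κ _)))
      rw [hSS]
      exact D.glue z l m t h0 h1 h2 e1 e2 e3
    · intro z p h0 h1 hp
      exact D.disj z (S p) h0 h1 (fun h => hp ((hon p).2 h))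
    · intro q
      rcases D.cover q with ⟨p, hp, h⟩ | ⟨z, hz, h⟩
      · refine Or.inl ⟨S p, fun h' => hp ?_, ?_⟩
        · have := (hon (S p)).1 h'
          rwa [hSS] at this
        · show q = D.A (S (S p))
          rw [hSS]
          exact h
      · exact Or.inr ⟨z, hz, h⟩

end

end Pool.Agent.GLB
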