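import Pool.Agent.GLB.HomG
import Pool.Agent.GLB.Cmp
import Pool.Agent.GLB.Gau
import Pool.Agent.GLB.Gph
import Pool.Agent.GLB.Gex

/-!
# GLB/V1E: `h₁`-monotone paths with the same parity of the gaps carry the same manifolds   (difficulty 3)

`word_eq`: `L = gw G N`, `L' = gw G' N ++ xs (G N + k - G' N)`, `G 0 = G' 0 = 0`.  `mk L = pw G N`, `mk L' = pw G' N * fx ^ (G N + k - G' N)`
(`PTH.mk_gw`, `PTH.mk_xs`, `FreeGroup.mul_mk`).  Claim `mk L * (mk L')⁻¹ ∈ Gam`: `fx ∈ Gam` (`WIn.x`).  If `N = 0`: `mk L = 1`, `mk L' = fx ^ k`.  If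
`N ≥ 1` let `G'' i = G' i - k` for `i ≥ 1`, `G'' 0 = 0`: `pw G'' N = fx ^ (-k) * pw G' N` (induction on `N ≥ 1`: only the first exponent
changes), and `CSW.gap` for `G, G''` with `m = G N` (the parity is `he`): `pw G N * (pw G'' N * fx ^ (G N - G'' N))⁻¹ ∈ Gam`, which is
`mk L * (mk L')⁻¹ * fx ^ k`.  Then `PTH.mem_GamF_iff'` (`L` there `= []`; `Gam` has carrier `GamF`).

`v1eq`: `s₁ = pl (fin n₁)`, `s₁' = pl (fin (n₁ + (k, 0, 0))) = s₁ + (k, 0)`.  `u = pl ∘ w` is an `SPath` (`spath_of_gpath`), a `CPath`, `(u ρ).2 =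
ht1 v (w ρ)` is monotone with values in `[0, s₁.2]` (`mono_range`).  Chain:
`w ~ up n₁ u` (`gcar_pl`) `~ up n₁ (cmpr L s₁)` (`hom_gcar`, `gaps_word` with `k = 0`: `xs 0 = []`, `List.append_nil`; `cmpr_spath`, `sumZ_gw`)
`~ up n₁' (cmpr L' s₁')` (`geq_cmpr`, `word_eq`; `sumZ L = (G N, N)`, `sumZ L' = (G N + k, N)`) `~ up n₁' u' ~ w'`.
-/

open scoped Manifold ContDiff Topology
open Set Filter

namespace Pool.Agent.GLB

open Pool.Agent.PTH
open Pool.Agent.RSG (E4 S3 pS3 ex)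

universe u

/-- the shifted gaps -/
def V1E_sh (G' : ℕ → ℤ) (k : ℤ) (i : ℕ) : ℤ := if i = 0 then 0 else G' i - k

theorem V1E_pw {G' : ℕ → ℤ} (h0' : G' 0 = 0) (k : ℤ) (n : ℕ) :
    CSW.pw (V1E_sh G' k) (n + 1) = CSW.fx ^ (-k) * CSW.pw G' (n + 1) := by
  induction n with
  | zero =>
    show (1 : CSW.F2) * CSW.fx ^ (V1E_sh G' k 1 - V1E_sh G' k 0) * CSW.fy =
      CSW.fx ^ (-k) * (1 * CSW.fx ^ (G' 1 - G' 0) * CSW.fy)
    have e1 : V1E_sh G' k 1 - V1E_sh G' k 0 = -k + (G' 1 - G' 0) := by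
      rw [h0']
      simp only [V1E_sh]
      simp
      ring
    rw [e1, zpow_add]
    group
  | succ n ih =>
    show CSW.pw (V1E_sh G' k) (n + 1) * CSW.fx ^ (V1E_sh G' k (n + 1 + 1) - V1E_sh G' k (n + 1)) * CSW.fy =
      CSW.fx ^ (-k) * (CSW.pw G' (n + 1) * CSW.fx ^ (G' (n + 1 + 1) - G' (n + 1)) * CSW.fy)
    have e1 : V1E_sh G' k (n + 1 + 1) - V1E_sh G' k (n + 1) = G' (n + 1 + 1) - G' (n + 1) := by
      simp only [V1E_sh]
      simp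
    rw [e1, ih]
    simp only [mul_assoc]

theorem V1E_mem (hΓ : CSW.WIn Gam.{u}) {G G' : ℕ → ℤ} {N : ℕ} {k : ℤ} (h0 : G 0 = 0) (h0' : G' 0 = 0)
    (he : Even (∑ i ∈ Finset.range (N + 1), if i % 2 = 1 then G i - (G' i - k) else 0)) :
    CSW.pw G N * (CSW.pw G' N * CSW.fx ^ (G N + k - G' N))⁻¹ ∈ Gam.{u} := by
  have hx : CSW.fx ^ (-k) ∈ Gam.{u} := zpow_mem hΓ.x _
  rcases Nat.eq_zero_or_pos N with hN | hN
  · subst hN
    rw [h0, h0']
    have e1 : CSW.pw G 0 * (CSW.pw G' 0 * CSW.fx ^ (0 + k - 0))⁻¹ = CSW.fx ^ (-k) := by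
      show (1 : CSW.F2) * (1 * CSW.fx ^ (0 + k - 0))⁻¹ = CSW.fx ^ (-k)
      rw [zpow_neg]
      simp
    rw [e1]
    exact hx
  · obtain ⟨n, rfl⟩ : ∃ n, N = n + 1 := ⟨N - 1, by omega⟩
    have hp : Even (∑ i ∈ Finset.range (n + 1 + 1), if i % 2 = 1 then G i - V1E_sh G' k i else 0) := by
      have e : (∑ i ∈ Finset.range (n + 1 + 1), if i % 2 = 1 then G i - V1E_sh G' k i else 0) =
          ∑ i ∈ Finset.range (n + 1 + 1), if i % 2 = 1 then G i - (G' i - k) else 0 := by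
        refine Finset.sum_congr rfl fun i _ => ?_
        split_ifs with hi
        · have : i ≠ 0 := by rintro rfl; simp at hi
          simp only [V1E_sh, if_neg this]
        · rfl
      rw [e]
      exact he
    have h1 := CSW.gap hΓ G (V1E_sh G' k) (n + 1) (G (n + 1)) (by rw [h0]; simp [V1E_sh]) hp
    have h2 := mul_mem h1 hx
    have e2 : V1E_sh G' k (n + 1) = G' (n + 1) - k := by simp [V1E_sh]
    rw [V1E_pw h0', e2] at h2
    have e3 : CSW.pw G (n + 1) * CSW.fx ^ (G (n + 1) - G (n + 1)) *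
        (CSW.fx ^ (-k) * CSW.pw G' (n + 1) * CSW.fx ^ (G (n + 1) - (G' (n + 1) - k)))⁻¹ * CSW.fx ^ (-k) =
        CSW.pw G (n + 1) * (CSW.pw G' (n + 1) * CSW.fx ^ (G (n + 1) + k - G' (n + 1)))⁻¹ := by
      have e4 : G (n + 1) - (G' (n + 1) - k) = G (n + 1) + k - G' (n + 1) := by ring
      rw [e4, sub_self, zpow_zero, mul_one, mul_inv_rev, mul_inv_rev, mul_inv_rev]
      simp only [mul_assoc]
      rw [inv_mul_cancel, mul_one]
    rw [e3] at h2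
    exact h2

theorem word_eq (hΓ : CSW.WIn Gam.{u}) {G G' : ℕ → ℤ} {N : ℕ} {k : ℤ} (h0 : G 0 = 0) (h0' : G' 0 = 0)
    (he : Even (∑ i ∈ Finset.range (N + 1), if i % 2 = 1 then G i - (G' i - k) else 0)) :
    PathEq.{u} (wpath (gw G N)) (wpath (gw G' N ++ xs (G N + k - G' N))) := by
  have h1 := V1E_mem hΓ h0 h0' he
  have e1 : (FreeGroup.mk (gw G' N ++ xs (G N + k - G' N)) : FreeGroup Bool) =
      CSW.pw G' N * CSW.fx ^ (G N + k - G' N) := by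
    rw [← FreeGroup.mul_mk, mk_gw, mk_xs]
  have h2 : (FreeGroup.mk (gw G N) : FreeGroup Bool) *
      (FreeGroup.mk (gw G' N ++ xs (G N + k - G' N)))⁻¹ ∈ GamF.{u} := by
    rw [e1, mk_gw]
    exact h1
  have h3 := (mem_GamF_iff' _ _).1 h2 []
  rw [List.append_nil, List.append_nil] at h3
  exact h3

variable {v : ℤ × ℤ × ℤ} {p q : ℤ}

theorem V1E_cpath {s₀ s₁ : ℝ × ℝ} {u : ℝ → ℝ × ℝ} (h : SPath s₀ s₁ u) : ∃ ε : ℝ, 0 < ε ∧ CPath s₀ s₁ ε u := by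
  obtain ⟨ε, hε, h1⟩ := h.start
  obtain ⟨ε', hε', h2⟩ := h.stop
  refine ⟨min ε ε', lt_min hε hε', h.smooth.continuous, ?_, ?_, h.avoid⟩
  · intro ρ hρ
    exact h1 ρ (hρ.trans (min_le_left _ _))
  · intro ρ hρ
    exact h2 ρ (by have := min_le_right ε ε'; linarith)

/-- the path is equivalent to the one of its gap word -/
theorem V1E_half (hv : VGood v) (hb : VB v p q) {n₁ : ℤ × ℤ × ℤ} {w : ℝ → ℝ × ℝ × ℝ} (hw : GPath v 0 n₁ w)
    (hm : Monotone fun ρ => ht1 v (w ρ)) {N : ℕ} (h1 : (N : ℝ) < ht1 v (fin n₁)) (h2 : ht1 v (fin n₁) < N + 1)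
    {G : ℕ → ℤ} (hG : Gaps (fun ρ => pl v p q (w ρ)) G) (k : ℤ) :
    G 0 = 0 ∧ SPath (0, 0) (pl v p q (fin n₁)) (cmpr (gw G N ++ xs k) (pl v p q (fin n₁))) ∧
      GEq.{u} v w (up v p q n₁ (cmpr (gw G N ++ xs k) (pl v p q (fin n₁)))) := by
  have hu := spath_of_gpath hb hw
  obtain ⟨ε, hε, hc⟩ := V1E_cpath hu
  have hr := mono_range hc hm
  have hG0 := gaps_zero hε hc hG
  have hsz : sumZ (gw G N ++ xs k) = (G N - G 0 + k, (N : ℤ)) := by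
    rw [sumZ_append, sumZ_gw, sumZ_xs]
    simp
  have hsp : SPath (0, 0) (pl v p q (fin n₁)) (cmpr (gw G N ++ xs k) (pl v p q (fin n₁))) := by
    refine cmpr_spath _ ?_ ?_
    · rw [hsz]
      exact_mod_cast h1
    · rw [hsz]
      exact_mod_cast h2
  have hph := gaps_word hε hc h1 h2 hr hG hG0 k
  exact ⟨hG0, hsp, (gcar_pl hv hb hw).trans (hom_gcar hv hb hu hsp hph)⟩

theorem V1E_pl (n₁ : ℤ × ℤ × ℤ) (k : ℤ) : pl v p q (fin (n₁ + (k, 0, 0))) = pl v p q (fin n₁) + ((k : ℝ), 0) := by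
  obtain ⟨a, b, c⟩ := n₁
  refine Prod.ext ?_ ?_
  · simp only [pl, cX, cC, fin, Prod.fst_add, Prod.snd_add, Prod.mk_add_mk]
    push_cast
    ring
  · simp only [pl, ht1, fin, Prod.fst_add, Prod.snd_add, Prod.mk_add_mk]
    push_cast
    ring

/-- **`h₁`-monotone paths with the same parity of the gaps in the odd rows carry the same manifolds.** -/
theorem v1eq (hΓ : CSW.WIn Gam.{u}) (hv : VGood v) (hb : VB v p q) {n₁ : ℤ × ℤ × ℤ} {k : ℤ}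
    {w w' : ℝ → ℝ × ℝ × ℝ} (hw : GPath v 0 n₁ w) (hw' : GPath v 0 (n₁ + (k, 0, 0)) w')
    (hm : Monotone fun ρ => ht1 v (w ρ)) (hm' : Monotone fun ρ => ht1 v (w' ρ))
    {N : ℕ} (h1 : (N : ℝ) < ht1 v (fin n₁)) (h2 : ht1 v (fin n₁) < N + 1)
    {G G' : ℕ → ℤ} (hG : Gaps (fun ρ => pl v p q (w ρ)) G) (hG' : Gaps (fun ρ => pl v p q (w' ρ)) G')
    (he : Even (∑ i ∈ Finset.range (N + 1), if i % 2 = 1 then G i - (G' i - k) else 0)) : GEq.{u} v w w' := by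
  have hs2 : ht1 v (fin (n₁ + (k, 0, 0))) = ht1 v (fin n₁) := by
    have h := congrArg Prod.snd (V1E_pl (v := v) (p := p) (q := q) n₁ k)
    have h' : ht1 v (fin (n₁ + (k, 0, 0))) = ht1 v (fin n₁) + 0 := h
    rw [h', add_zero]
  obtain ⟨g0, sp, ge⟩ := V1E_half hv hb hw hm h1 h2 hG 0
  obtain ⟨g0', sp', ge'⟩ := V1E_half hv hb hw' hm' (by rw [hs2]; exact h1) (by rw [hs2]; exact h2) hG'
    (G N + k - G' N)
  have ex0 : gw G N ++ xs 0 = gw G N := by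
    have : xs 0 = [] := rfl
    rw [this, List.append_nil]
  rw [ex0] at sp ge
  have hpe := word_eq hΓ g0 g0' he
  have hs : sumZ (gw G' N ++ xs (G N + k - G' N)) = sumZ (gw G N) + (k, 0) := by
    rw [sumZ_append, sumZ_gw, sumZ_gw, sumZ_xs, g0, g0']
    refine Prod.ext ?_ ?_
    · simp
    · simp
  exact (ge.trans (geq_cmpr hv hb hpe hs sp sp')).trans ge'.symm

end Pool.Agent.GLB
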