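import Pool.Agent.GLB.TCg
import Pool.Agent.GLB.ActG

/-!
# GLB/V1c: the chart of the solid torus `V₁ = {ρ < 1/2}`   (difficulty 2-3)

`C1 v p q (z, Y, t)` is the point with radius `ρ = ‖z‖ / 2`.
* `C1_pol`: `C1 (r ex X, Y, t) = gE (r / 2) (LL v p q (X, Y) t)` for `r ≥ 0`: `‖r ex X‖ = r`; for `r > 0`,
  `(prf (r/2) / r) (r ex X) ex (1/2) = prf (r/2) ex (1/2 + X)`; for `r = 0`, both are `0`; then `gact_gE` (`C1 (z, Y, t)` is
  `gact v t` of a point of the form `gE (r/2) (LL (X, Y) 0)`), `LL_add_c`.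
* every `z` is `r ex X` with `r = ‖z‖` (`RSG.ex_arg`).
* `perY`: `ex (p (Y + 1)) = ex (p Y)`, `Circle.exp (2π (q (Y + 1))) = ..` (`ex_add_int`, `circle_exp_add_int`).
* `equiv`: `gact v 0 = id` (`(gact_act ..).zero`; or directly).
* `inj`: let `z = r ex X`, `z' = r' ex X'`.  `gE (r/2) .. = gE (r'/2) ..`; by `gE_z1`, `r = 0 ↔ r' = 0`.  If `r, r' > 0`, `gE_inj`
  (`r/2, r'/2 ∈ (0, 1/2)`): `r = r'` and `LL (X', Y') t' = LL (X, Y) t + rv m`, then `pl`, `cC` as in `TCg.inj`: `X' = X + i`,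
  `Y' = Y + j`, `t' = t + k`.  If `r = r' = 0`: `z = z' = 0`, `gE_left`: `p Y' + b t' = p Y + b t + i`, `q Y' + d t' = q Y + d t + j`
  (`pS3_inj` with first coordinate `0`, or `Psi_inj`); multiply by the inverse matrix.
* `loc`: (i) `z ≠ 0`: `Eg (X + iY, ρ, t) = C1 (2ρ ex X, Y, t)` for `ρ ≥ 0`, `Eg` is a local diffeomorphism (`tchart`), and
  `(x, ρ, t) ↦ (2ρ ex (re x), im x, t)` is one for `ρ > 0` (as in `VChart.tchart` of PTH/TC); `CSG.ld_of_comp_left`.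
  (ii) `‖z‖ < 2/3`: `prf (‖z‖/2) = ‖z‖/2`, `prf (1 - ‖z‖/2) = 1`, so near such a point `C1 = Psi ∘ Θ`,
  `Θ (z, Y, t) = (z/2 * ex (1/2 + a t), p Y + b t, q Y + d t)`, a permutation of `ℂ × ℝ × ℝ`, smooth with smooth inverse
  (`t = p t'' - q Y''`, `Y = d Y'' - b t''`, then `z = 2 z'' ex (-(1/2 + a t))`), `CSG.ld_of_perm`, `Psi_ld`.
-/

open scoped Manifold ContDiff Topology
open Set Filter
open Complex (I)

namespace Pool.Agent.GLB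

open Pool.Agent.PTH
open Pool.Agent.RSG (E4 S3 pS3 ex)

/-- the chart of `V₁` -/
noncomputable def C1 (v : ℤ × ℤ × ℤ) (p q : ℤ) (y : ℂ × ℝ × ℝ) : SP :=
  gact v y.2.2 (pS3 (((prf (‖y.1‖ / 2) / ‖y.1‖ : ℝ) : ℂ) * y.1 * ex (1 / 2))
    (((prf (1 - ‖y.1‖ / 2) : ℝ) : ℂ) * ex (p * y.2.1)), Circle.exp (2 * Real.pi * (q * y.2.1)))

variable {v : ℤ × ℤ × ℤ} {p q : ℤ}

theorem V1c_nrm {r : ℝ} (hr : 0 ≤ r) (X : ℝ) : ‖(r : ℂ) * ex X‖ = r := by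
  rw [norm_mul, RSG.ex_norm, mul_one, Complex.norm_real, Real.norm_of_nonneg hr]

theorem V1c_fst {r : ℝ} (hr : 0 ≤ r) (X : ℝ) :
    ((prf (r / 2) / r : ℝ) : ℂ) * ((r : ℂ) * ex X) * ex (1 / 2) = ((prf (r / 2) : ℝ) : ℂ) * ex (1 / 2 + X) := by
  rw [RSG.ex_add]
  rcases hr.eq_or_lt with h | h
  · rw [← h]
    simp [prf_zero]
  · have h2 : (r : ℂ) ≠ 0 := by exact_mod_cast h.ne'
    push_cast
    field_simp

theorem C1_pol (v : ℤ × ℤ × ℤ) (p q : ℤ) {r : ℝ} (hr : 0 ≤ r) (X Y t : ℝ) :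
    C1 v p q (r * ex X, Y, t) = gE (r / 2) (LL v p q (X, Y) t) := by
  have h0 : LL v p q (X, Y) t = ((LL v p q (X, Y) 0).1 + t * v.1, (LL v p q (X, Y) 0).2.1 + t * v.2.1,
      (LL v p q (X, Y) 0).2.2 + t * v.2.2) := by
    rw [← LL_add_c, zero_add]
  rw [h0, ← gact_gE]
  have h1 : LL v p q (X, Y) 0 = (1 / 2 + X, p * Y, q * Y) := by
    refine Prod.ext ?_ (Prod.ext ?_ ?_) <;> simp only [LL] <;> ring
  rw [h1]
  have hn : ‖(r : ℂ) * ex X‖ = r := V1c_nrm hr X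
  show gact v t _ = gact v t _
  congr 1
  refine Prod.ext ?_ ?_
  · show pS3 (((prf (‖(r : ℂ) * ex X‖ / 2) / ‖(r : ℂ) * ex X‖ : ℝ) : ℂ) * ((r : ℂ) * ex X) * ex (1 / 2))
        (((prf (1 - ‖(r : ℂ) * ex X‖ / 2) : ℝ) : ℂ) * ex (p * Y)) =
      pS3 (((prf (r / 2) : ℝ) : ℂ) * ex (1 / 2 + X)) (((prf (1 - r / 2) : ℝ) : ℂ) * ex (p * Y))
    rw [hn, V1c_fst hr]
  · rfl

theorem V1c_pol (v : ℤ × ℤ × ℤ) (p q : ℤ) (z : ℂ) (Y t : ℝ) :
    C1 v p q (z, Y, t) = gE (‖z‖ / 2) (LL v p q (Complex.arg z / (2 * Real.pi), Y) t) := by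
  rw [← C1_pol v p q (norm_nonneg z), RSG.ex_arg]

/-- the permutation `Θ` -/
noncomputable def V1c_Th (v : ℤ × ℤ × ℤ) (p q : ℤ) (hb : VB v p q) : (ℂ × ℝ × ℝ) ≃ (ℂ × ℝ × ℝ) where
  toFun y := (y.1 / 2 * ex (1 / 2 + v.1 * y.2.2), p * y.2.1 + v.2.1 * y.2.2, q * y.2.1 + v.2.2 * y.2.2)
  invFun y := (2 * y.1 * ex (-(1 / 2 + v.1 * (p * y.2.2 - q * y.2.1))), v.2.2 * y.2.1 - v.2.1 * y.2.2,
    p * y.2.2 - q * y.2.1)
  left_inv y := by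
    have h := LLm_vbR hb
    have e1 : (p : ℝ) * (q * y.2.1 + v.2.2 * y.2.2) - q * (p * y.2.1 + v.2.1 * y.2.2) = y.2.2 := by
      linear_combination y.2.2 * h
    have e2 : (v.2.2 : ℝ) * (p * y.2.1 + v.2.1 * y.2.2) - v.2.1 * (q * y.2.1 + v.2.2 * y.2.2) = y.2.1 := by
      linear_combination y.2.1 * h
    have e3 := RSG.ex_add (1 / 2 + v.1 * y.2.2) (-(1 / 2 + v.1 * y.2.2))
    rw [add_neg_cancel, RSG.ex_zero] at e3
    refine Prod.ext ?_ (Prod.ext e2 e1)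
    show 2 * (y.1 / 2 * ex (1 / 2 + v.1 * y.2.2)) * ex (-(1 / 2 + v.1 *
      ((p : ℝ) * (q * y.2.1 + v.2.2 * y.2.2) - q * (p * y.2.1 + v.2.1 * y.2.2)))) = y.1
    rw [e1]
    linear_combination (-y.1) * e3
  right_inv y := by
    have h := LLm_vbR hb
    have e1 : (p : ℝ) * (v.2.2 * y.2.1 - v.2.1 * y.2.2) + v.2.1 * (p * y.2.2 - q * y.2.1) = y.2.1 := by
      linear_combination y.2.1 * h
    have e2 : (q : ℝ) * (v.2.2 * y.2.1 - v.2.1 * y.2.2) + v.2.2 * (p * y.2.2 - q * y.2.1) = y.2.2 := by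
      linear_combination y.2.2 * h
    have e3 := RSG.ex_add (1 / 2 + v.1 * (p * y.2.2 - q * y.2.1)) (-(1 / 2 + v.1 * (p * y.2.2 - q * y.2.1)))
    rw [add_neg_cancel, RSG.ex_zero] at e3
    refine Prod.ext ?_ (Prod.ext e1 e2)
    show 2 * y.1 * ex (-(1 / 2 + v.1 * (p * y.2.2 - q * y.2.1))) / 2 *
      ex (1 / 2 + v.1 * (p * y.2.2 - q * y.2.1)) = y.1
    linear_combination (-y.1) * e3

theorem V1c_Th_ld (hb : VB v p q) (y : ℂ × ℝ × ℝ) :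
    IsLocalDiffeomorphAt 𝓘(ℝ, ℂ × ℝ × ℝ) 𝓘(ℝ, ℂ × ℝ × ℝ) ∞ (V1c_Th v p q hb) y := by
  have hz : ContDiff ℝ ∞ fun y : ℂ × ℝ × ℝ => y.1 := contDiff_fst
  have hY : ContDiff ℝ ∞ fun y : ℂ × ℝ × ℝ => y.2.1 := contDiff_snd.fst
  have ht : ContDiff ℝ ∞ fun y : ℂ × ℝ × ℝ => y.2.2 := contDiff_snd.snd
  have hc : ContDiff ℝ ∞ fun y : ℂ × ℝ × ℝ => (p : ℝ) * y.2.2 - q * y.2.1 :=
    (contDiff_const.mul ht).sub (contDiff_const.mul hY)
  refine CSG.ld_of_perm ?_ ?_ y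
  · have h1 : ContDiff ℝ ∞ fun y : ℂ × ℝ × ℝ => y.1 / 2 * ex (1 / 2 + v.1 * y.2.2) :=
      (hz.div_const 2).mul (RSG.ex_smooth.comp (contDiff_const.add (contDiff_const.mul ht)))
    exact h1.prodMk (((contDiff_const.mul hY).add (contDiff_const.mul ht)).prodMk
      ((contDiff_const.mul hY).add (contDiff_const.mul ht)))
  · have h1 : ContDiff ℝ ∞ fun y : ℂ × ℝ × ℝ => 2 * y.1 * ex (-(1 / 2 + v.1 * (p * y.2.2 - q * y.2.1))) :=
      (contDiff_const.mul hz).mul (RSG.ex_smooth.comp (contDiff_const.add (contDiff_const.mul hc)).neg)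
    exact h1.prodMk (((contDiff_const.mul hY).sub (contDiff_const.mul ht)).prodMk hc)

theorem V1c_Psi (hb : VB v p q) {z : ℂ} (hz : ‖z‖ < 2 / 3) (Y t : ℝ) :
    C1 v p q (z, Y, t) = Psi (V1c_Th v p q hb (z, Y, t)) := by
  have e1 : prf (‖z‖ / 2) = ‖z‖ / 2 := prf_small (by linarith)
  have e2 : prf (1 - ‖z‖ / 2) = 1 := prf_big (by linarith)
  have e3 : ((prf (‖z‖ / 2) / ‖z‖ : ℝ) : ℂ) * z * ex (1 / 2) = z / 2 * ex (1 / 2) := by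
    rw [e1]
    rcases eq_or_ne z 0 with h | h
    · rw [h]; simp
    · have h2 : (‖z‖ : ℂ) ≠ 0 := by exact_mod_cast norm_ne_zero_iff.2 h
      push_cast
      field_simp
  have h0 : 0 < ‖z / 2 * ex (1 / 2)‖ ^ 2 + ‖((1 : ℝ) : ℂ) * ex (p * Y)‖ ^ 2 := by
    rw [Complex.ofReal_one, one_mul, RSG.ex_norm]
    positivity
  show gact v t (pS3 (((prf (‖z‖ / 2) / ‖z‖ : ℝ) : ℂ) * z * ex (1 / 2))
    (((prf (1 - ‖z‖ / 2) : ℝ) : ℂ) * ex (p * Y)), Circle.exp (2 * Real.pi * (q * Y))) = _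
  rw [e3, e2, gact_pS3 v t h0]
  refine Prod.ext ?_ ?_
  · show pS3 _ _ = pS3 (z / 2 * ex (1 / 2 + v.1 * t)) (ex (p * Y + v.2.1 * t))
    congr 1
    · rw [RSG.ex_add]; ring
    · rw [RSG.ex_add, Complex.ofReal_one]; ring
  · show Circle.exp (2 * Real.pi * (v.2.2 * t)) * Circle.exp (2 * Real.pi * (q * Y)) =
      Circle.exp (2 * Real.pi * (q * Y + v.2.2 * t))
    rw [← Circle.exp_add]
    congr 1
    ring

/-- halving the radius -/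
noncomputable def V1c_half : (ℂ × ℝ × ℝ) ≃ (ℂ × ℝ × ℝ) where
  toFun y := (y.1, y.2.1 / 2, y.2.2)
  invFun y := (y.1, 2 * y.2.1, y.2.2)
  left_inv y := by
    refine Prod.ext rfl (Prod.ext ?_ rfl)
    show 2 * (y.2.1 / 2) = y.2.1
    ring
  right_inv y := by
    refine Prod.ext rfl (Prod.ext ?_ rfl)
    show 2 * y.2.1 / 2 = y.2.1
    ring

theorem V1c_half_ld (y : ℂ × ℝ × ℝ) :
    IsLocalDiffeomorphAt 𝓘(ℝ, ℂ × ℝ × ℝ) 𝓘(ℝ, ℂ × ℝ × ℝ) ∞ V1c_half y := by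
  refine CSG.ld_of_perm ?_ ?_ y
  · exact contDiff_fst.prodMk ((contDiff_snd.fst.div_const 2).prodMk contDiff_snd.snd)
  · exact contDiff_fst.prodMk ((contDiff_const.mul contDiff_snd.fst).prodMk contDiff_snd.snd)

theorem V1c_loc (hb : VB v p q) {z : ℂ} (Y t : ℝ) (hz : ‖z‖ < 1) :
    IsLocalDiffeomorphAt 𝓘(ℝ, ℂ × ℝ × ℝ) ISP ∞ (C1 v p q) (z, Y, t) := by
  rcases eq_or_ne z 0 with h0 | h0
  · have hc : ContinuousAt (fun y : ℂ × ℝ × ℝ => ‖y.1‖) (z, Y, t) := continuous_fst.norm.continuousAt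
    have hev : ∀ᶠ y : ℂ × ℝ × ℝ in 𝓝 (z, Y, t), ‖y.1‖ < 2 / 3 := by
      apply hc.eventually_lt continuousAt_const
      show ‖z‖ < 2 / 3
      rw [h0]; norm_num
    have h1 : IsLocalDiffeomorphAt 𝓘(ℝ, ℂ × ℝ × ℝ) ISP ∞ (Psi ∘ V1c_Th v p q hb) (z, Y, t) :=
      IsLocalDiffeomorphAt.comp (hf := V1c_Th_ld hb (z, Y, t)) (hg := Psi_ld _) ..
    refine CSG.ld_congr h1 ?_
    filter_upwards [hev] with y hy
    obtain ⟨z', Y', t'⟩ := y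
    exact V1c_Psi hb hy Y' t'
  · have hr : 0 < ‖z‖ := norm_pos_iff.2 h0
    set X : ℝ := Complex.arg z / (2 * Real.pi) with hX
    have hzX : (‖z‖ : ℂ) * ex X = z := RSG.ex_arg
    set x : ℂ := ⟨X, Y⟩ with hx
    have hf := TC_polar_ld x ‖z‖ t hr
    have h1 : IsLocalDiffeomorphAt 𝓘(ℝ, ℂ × ℝ × ℝ) ISP ∞ (Eg v p q ∘ V1c_half) (x, ‖z‖, t) :=
      IsLocalDiffeomorphAt.comp (hf := V1c_half_ld (x, ‖z‖, t))
        (hg := (tchart hb).loc x (‖z‖ / 2) t (by linarith) (by linarith)) ..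
    have hc : ContinuousAt (fun y : ℂ × ℝ × ℝ => y.2.1) (x, ‖z‖, t) := continuous_snd.fst.continuousAt
    have hev : ∀ᶠ y : ℂ × ℝ × ℝ in 𝓝 (x, ‖z‖, t), 0 < y.2.1 :=
      continuousAt_const.eventually_lt hc hr
    have h2 : IsLocalDiffeomorphAt 𝓘(ℝ, ℂ × ℝ × ℝ) ISP ∞
        (C1 v p q ∘ fun q : ℂ × ℝ × ℝ => ((q.2.1 : ℂ) * ex q.1.re, q.1.im, q.2.2)) (x, ‖z‖, t) := by
      refine CSG.ld_congr h1 ?_
      filter_upwards [hev] with y hy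
      exact C1_pol v p q hy.le _ _ _
    have h3 := CSG.ld_of_comp_left h2 hf
    have h4 : ((fun q : ℂ × ℝ × ℝ => ((q.2.1 : ℂ) * ex q.1.re, q.1.im, q.2.2)) (x, ‖z‖, t)) = (z, Y, t) := by
      show ((‖z‖ : ℂ) * ex X, Y, t) = (z, Y, t)
      rw [hzX]
    rw [← h4]
    exact h3

theorem V1c_inj (hb : VB v p q) {z z' : ℂ} {Y t Y' t' : ℝ} (hz : ‖z‖ < 1) (hz' : ‖z'‖ < 1)
    (h : C1 v p q (z, Y, t) = C1 v p q (z', Y', t')) :
    z = z' ∧ (∃ m : ℤ, Y' = Y + m) ∧ ∃ m : ℤ, t' = t + m := by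
  have hR := LLm_vbR hb
  rw [V1c_pol, V1c_pol] at h
  rcases eq_or_ne z 0 with h0 | h0
  · have h1 : z' = 0 := by
      have e1 : z1 (gE (‖z‖ / 2) (LL v p q (Complex.arg z / (2 * Real.pi), Y) t)).1 = 0 :=
        (gE_z1 _ _).2 (by rw [h0]; simp)
      rw [h, gE_z1] at e1
      exact norm_eq_zero.1 (by linarith)
    have e2 : ‖z‖ / 2 = 0 := by rw [h0]; simp
    have e2' : ‖z'‖ / 2 = 0 := by rw [h1]; simp
    rw [e2, e2', gE_left, gE_left] at h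
    obtain ⟨-, ⟨m, hm⟩, n, hn⟩ := Psi_inj (q := (0, (LL v p q (Complex.arg z / (2 * Real.pi), Y) t).2.1,
      (LL v p q (Complex.arg z / (2 * Real.pi), Y) t).2.2))
      (q' := (0, (LL v p q (Complex.arg z' / (2 * Real.pi), Y') t').2.1,
      (LL v p q (Complex.arg z' / (2 * Real.pi), Y') t').2.2)) h
    simp only [LL] at hm hn
    refine ⟨by rw [h0, h1], ⟨v.2.2 * m - v.2.1 * n, ?_⟩, ⟨p * n - q * m, ?_⟩⟩
    · push_cast
      linear_combination (v.2.2 : ℝ) * hm - (v.2.1 : ℝ) * hn + (Y - Y') * hR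
    · push_cast
      linear_combination (p : ℝ) * hn - (q : ℝ) * hm + (t - t') * hR
  · have hr : 0 < ‖z‖ := norm_pos_iff.2 h0
    have h1 : z' ≠ 0 := by
      intro h1
      have e1 : z1 (gE (‖z'‖ / 2) (LL v p q (Complex.arg z' / (2 * Real.pi), Y') t')).1 = 0 :=
        (gE_z1 _ _).2 (by rw [h1]; simp)
      rw [← h, gE_z1] at e1
      linarith
    have hr' : 0 < ‖z'‖ := norm_pos_iff.2 h1
    obtain ⟨e1, m, hm⟩ := gE_inj (by linarith) (by linarith) (by linarith) (by linarith) h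
    have e2 : ‖z'‖ = ‖z‖ := by linarith
    have m1 := congrArg Prod.fst hm
    have m2 := congrArg (fun x : ℝ × ℝ × ℝ => x.2.1) hm
    have m3 := congrArg (fun x : ℝ × ℝ × ℝ => x.2.2) hm
    simp only [LL, rv, Prod.fst_add, Prod.snd_add] at m1 m2 m3
    have eY : Y' = Y + ((v.2.2 * m.2.1 - v.2.1 * m.2.2 : ℤ) : ℝ) := by
      push_cast
      linear_combination (v.2.2 : ℝ) * m2 - (v.2.1 : ℝ) * m3 + (Y - Y') * hR
    have et : t' = t + ((p * m.2.2 - q * m.2.1 : ℤ) : ℝ) := by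
      push_cast
      linear_combination (p : ℝ) * m3 - (q : ℝ) * m2 + (t - t') * hR
    refine ⟨?_, ⟨_, eY⟩, ⟨_, et⟩⟩
    have eX : Complex.arg z' / (2 * Real.pi) =
        Complex.arg z / (2 * Real.pi) + ((m.1 - (p * m.2.2 - q * m.2.1) * v.1 : ℤ) : ℝ) := by
      rw [et] at m1
      push_cast at m1 ⊢
      linarith
    rw [← RSG.ex_arg (p := z'), ← RSG.ex_arg (p := z), eX, RSG.ex_add_int, e2]

theorem vchart1 (hb : VB v p q) (h1 : IsCoprime v.1 v.2.2) (h2 : IsCoprime v.2.1 v.2.2) :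
    VChart ISP (gact v) (C1 v p q) := by
  refine ⟨?_, ?_, ?_, ?_⟩
  · intro z Y t
    show gact v t (pS3 (((prf (‖z‖ / 2) / ‖z‖ : ℝ) : ℂ) * z * ex (1 / 2))
      (((prf (1 - ‖z‖ / 2) : ℝ) : ℂ) * ex (p * (Y + 1))), Circle.exp (2 * Real.pi * (q * (Y + 1)))) =
      gact v t (pS3 (((prf (‖z‖ / 2) / ‖z‖ : ℝ) : ℂ) * z * ex (1 / 2))
      (((prf (1 - ‖z‖ / 2) : ℝ) : ℂ) * ex (p * Y)), Circle.exp (2 * Real.pi * (q * Y)))
    have e1 : (p : ℝ) * (Y + 1) = p * Y + p := by ring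
    have e2 : (q : ℝ) * (Y + 1) = q * Y + q := by ring
    rw [e1, e2, RSG.ex_add_int, circle_exp_add_int]
  · intro z Y t
    have e0 := (gact_act h1 h2).zero (pS3 (((prf (‖z‖ / 2) / ‖z‖ : ℝ) : ℂ) * z * ex (1 / 2))
      (((prf (1 - ‖z‖ / 2) : ℝ) : ℂ) * ex (p * Y)), Circle.exp (2 * Real.pi * (q * Y)))
    show gact v t _ = gact v t (gact v 0 _)
    exact congrArg (gact v t) e0.symm
  · intro z Y t hz
    exact V1c_loc hb Y t hz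
  · intro z Y t z' Y' t' hz hz' h
    exact V1c_inj hb hz hz' h

end Pool.Agent.GLB
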