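import Pool.Agent.GLB.Col
import Pool.Agent.CSW.Young

/-!
# GLB/Yw: the path of a Young diagram   (difficulty 2-3)

In the coordinates `(x, y) = (ht1, ht2 - c₂)`: the graph of `y = Yd x` from `(0, M + 1/2)` to `(N + 1/2, 0)`; `kk M k 0 = M`, `kk M k j = k j` for
`j ≥ 1`; `Yd x = M + 1/2 - Σ_{j < N} (kk j - kk (j+1)) st (x - j) - (kk N + 1/2) st (2 (x - N))`.
* `Yd_nat`: for `j ≤ N`: `st (j - i) = 1` for `i < j`, `0` for `i ≥ j`, `st (2 (j - N)) = 0`: telescoping, `Yd j = kk j + 1/2`.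
* `Yd_end`: `x = N + 1/2`: `M + 1/2 - (M - kk N) - (kk N + 1/2) = 0`.
* `Yd_anti`: all coefficients are `≥ 0` (`YD`: `k (j+1) ≤ kk j`), `st` is monotone.
* `yw v n₁ N M k ρ`: `σ = st (2ρ - 1/2)` (`0` for `ρ ≤ 1/4`, `1` for `ρ ≥ 3/4`), `x = (N + 1/2) σ`, `γ = n₁.2.2 σ`,
  `((Yd x + c₂ + a γ) / d, (x + b γ) / d, γ)`: `ht1 = x`, `ht2 = Yd x + c₂` (`d ≠ 0`).
* `yw_gpath`: smooth; start: `x = 0`, `γ = 0`: `(M + 1/2 + c₂) / d = 1/2` (`hM`), `0`, `0`; stop: `x = N + 1/2`, `γ = n₁.2.2`, `Yd = 0`: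
  `(c₂ + a n₁.2.2) / d = n₁.1`, `(N + 1/2 + b n₁.2.2) / d = 1/2 + n₁.2.1` (`hN`), `n₁.2.2`; avoid: if `yw ρ = m + s v` then `x = ht1 = hz1 v m` and
  `Yd x + c₂ = hz2 v m` are integers: `x = j ∈ {0, .., N}` (`0 ≤ x ≤ N + 1/2`), so `Yd x = kk j + 1/2` is not an integer.
* `yw_col`: `x = j`, `1 ≤ j ≤ N`: `Yd x = k j + 1/2`.
* `yw_row`: `Yd x = i`, `1 ≤ i ≤ M`, `T = trp N k i`: claim `T < x < T + 1`.  If `T ≥ 1`: `k T ≥ i` (`mem_trp`), `Yd T = k T + 1/2 > i = Yd x`,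
  so `x > T` (`Yd` is antitone); if `T = 0`: `Yd 0 = M + 1/2 > i`, so `x > 0`.  If `T + 1 ≤ N`: `k (T + 1) < i`, `Yd (T + 1) = k (T+1) + 1/2 < i`, so
  `x < T + 1`; if `T = N`: `x ≤ N + 1/2`.
-/

open scoped Manifold ContDiff Topology
open Set Filter

namespace Pool.Agent.GLB

open Pool.Agent.PTH
open Pool.Agent.CSW (YD trp n1 n2 cnt)

universe u

def kk (M : ℕ) (k : ℕ → ℕ) (j : ℕ) : ℕ := if j = 0 then M else k j

noncomputable def Yd (N M : ℕ) (k : ℕ → ℕ) (x : ℝ) : ℝ :=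
  M + 1 / 2 - ∑ j ∈ Finset.range N, ((kk M k j : ℝ) - kk M k (j + 1)) * Real.smoothTransition (x - j) -
    (kk M k N + 1 / 2) * Real.smoothTransition (2 * (x - N))

/-- the path of the diagram `k` -/
noncomputable def yw (v n₁ : ℤ × ℤ × ℤ) (N M : ℕ) (k : ℕ → ℕ) (ρ : ℝ) : ℝ × ℝ × ℝ :=
  let σ := Real.smoothTransition (2 * ρ - 1 / 2)
  ((Yd N M k ((N + 1 / 2) * σ) + hz2 v n₁ + v.1 * (n₁.2.2 * σ)) / v.2.2,
    ((N + 1 / 2) * σ + v.2.1 * (n₁.2.2 * σ)) / v.2.2, n₁.2.2 * σ)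

variable {v : ℤ × ℤ × ℤ} {n₁ : ℤ × ℤ × ℤ} {N M : ℕ} {k : ℕ → ℕ}

theorem Yd_smooth (N M : ℕ) (k : ℕ → ℕ) : ContDiff ℝ ∞ (Yd N M k) := by
  unfold Yd
  refine (contDiff_const.sub (ContDiff.sum fun j _ => ?_)).sub ?_
  · exact contDiff_const.mul (Real.smoothTransition.contDiff.comp (contDiff_id.sub contDiff_const))
  · exact contDiff_const.mul (Real.smoothTransition.contDiff.comp
      (contDiff_const.mul (contDiff_id.sub contDiff_const)))

theorem Yd_nat {j : ℕ} (hj : j ≤ N) : Yd N M k j = kk M k j + 1 / 2 := by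
  have h1 : ∑ i ∈ Finset.range N, ((kk M k i : ℝ) - kk M k (i + 1)) * Real.smoothTransition ((j : ℝ) - i) =
      ∑ i ∈ Finset.range N, if i < j then ((kk M k i : ℝ) - kk M k (i + 1)) else 0 := by
    refine Finset.sum_congr rfl fun i _ => ?_
    split_ifs with h
    · have : (i : ℝ) + 1 ≤ j := by exact_mod_cast h
      rw [Real.smoothTransition.one_of_one_le (by linarith), mul_one]
    · have : (j : ℝ) ≤ i := by exact_mod_cast (not_lt.mp h)
      rw [Real.smoothTransition.zero_of_nonpos (by linarith), mul_zero]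
  have h2 : (Finset.range N).filter (fun i => i < j) = Finset.range j := by
    ext i
    simp only [Finset.mem_filter, Finset.mem_range]
    omega
  have h3 : (j : ℝ) ≤ N := by exact_mod_cast hj
  unfold Yd
  rw [h1, ← Finset.sum_filter, h2, Finset.sum_range_sub' (fun i => (kk M k i : ℝ)),
    Real.smoothTransition.zero_of_nonpos (by linarith)]
  simp only [kk, if_true]
  ring

theorem Yd_end : Yd N M k (N + 1 / 2) = 0 := by
  have h1 : ∑ i ∈ Finset.range N, ((kk M k i : ℝ) - kk M k (i + 1)) *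
      Real.smoothTransition ((N : ℝ) + 1 / 2 - i) =
      ∑ i ∈ Finset.range N, ((kk M k i : ℝ) - kk M k (i + 1)) := by
    refine Finset.sum_congr rfl fun i hi => ?_
    have h : i < N := Finset.mem_range.mp hi
    have : (i : ℝ) + 1 ≤ N := by exact_mod_cast h
    rw [Real.smoothTransition.one_of_one_le (by linarith), mul_one]
  unfold Yd
  rw [h1, Finset.sum_range_sub' (fun i => (kk M k i : ℝ)),
    Real.smoothTransition.one_of_one_le (by linarith)]
  simp only [kk, if_true]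
  ring

theorem Yw_kk (hk : YD N M k) {j : ℕ} (hj : j < N) : kk M k (j + 1) ≤ kk M k j := by
  unfold kk
  rw [if_neg (Nat.succ_ne_zero j)]
  split_ifs with h
  · subst h; exact hk.bd _ (by omega) (by omega)
  · exact hk.anti _ _ (by omega) (by omega) (by omega)

theorem Yd_anti (hk : YD N M k) : Antitone (Yd N M k) := by
  intro x y h
  unfold Yd
  have h1 : ∑ j ∈ Finset.range N, ((kk M k j : ℝ) - kk M k (j + 1)) * Real.smoothTransition (x - j) ≤
      ∑ j ∈ Finset.range N, ((kk M k j : ℝ) - kk M k (j + 1)) * Real.smoothTransition (y - j) := by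
    refine Finset.sum_le_sum fun j hj => ?_
    have h2 : (kk M k (j + 1) : ℝ) ≤ kk M k j := by
      exact_mod_cast Yw_kk hk (Finset.mem_range.mp hj)
    exact mul_le_mul_of_nonneg_left (Real.smoothTransition.monotone (by linarith)) (sub_nonneg.mpr h2)
  have h2 : ((kk M k N : ℝ) + 1 / 2) * Real.smoothTransition (2 * (x - N)) ≤
      (kk M k N + 1 / 2) * Real.smoothTransition (2 * (y - N)) :=
    mul_le_mul_of_nonneg_left (Real.smoothTransition.monotone (by linarith)) (by positivity)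
  linarith

theorem yw_ht1 (hd : v.2.2 ≠ 0) (ρ : ℝ) :
    ht1 v (yw v n₁ N M k ρ) = (N + 1 / 2) * Real.smoothTransition (2 * ρ - 1 / 2) := by
  have hd' : (v.2.2 : ℝ) ≠ 0 := by exact_mod_cast hd
  simp only [ht1, yw]
  rw [mul_div_cancel₀ _ hd']
  ring

theorem yw_ht2 (hd : v.2.2 ≠ 0) (ρ : ℝ) :
    ht2 v (yw v n₁ N M k ρ) = Yd N M k (ht1 v (yw v n₁ N M k ρ)) + hz2 v n₁ := by
  have hd' : (v.2.2 : ℝ) ≠ 0 := by exact_mod_cast hd
  rw [yw_ht1 hd]
  simp only [ht2, yw]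
  rw [mul_div_cancel₀ _ hd']
  ring

theorem Yw_range (hd : v.2.2 ≠ 0) (ρ : ℝ) :
    0 ≤ ht1 v (yw v n₁ N M k ρ) ∧ ht1 v (yw v n₁ N M k ρ) ≤ N + 1 / 2 := by
  rw [yw_ht1 hd]
  have h1 := Real.smoothTransition.nonneg (2 * ρ - 1 / 2)
  have h2 := Real.smoothTransition.le_one (2 * ρ - 1 / 2)
  have h3 : (0 : ℝ) ≤ N + 1 / 2 := by positivity
  exact ⟨mul_nonneg h3 h1, by nlinarith⟩

theorem yw_gpath (hd : v.2.2 ≠ 0) (h : NM v n₁ N M) (hk : YD N M k) : GPath v 0 n₁ (yw v n₁ N M k) := by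
  have hd' : (v.2.2 : ℝ) ≠ 0 := by exact_mod_cast hd
  have hN : 2 * (N : ℝ) + 1 = v.2.2 + 2 * (v.2.2 * n₁.2.1 - v.2.1 * n₁.2.2) := by
    have := h.hN
    unfold hz1 at this
    exact_mod_cast this
  have hM : 2 * (M : ℝ) + 1 + 2 * (hz2 v n₁ : ℝ) = v.2.2 := by
    have := h.hM
    exact_mod_cast this
  have hz : (hz2 v n₁ : ℝ) = v.2.2 * n₁.1 - v.1 * n₁.2.2 := by
    unfold hz2
    push_cast
    ring
  have hσ : ContDiff ℝ ∞ fun ρ : ℝ => Real.smoothTransition (2 * ρ - 1 / 2) :=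
    Real.smoothTransition.contDiff.comp ((contDiff_const.mul contDiff_id).sub contDiff_const)
  refine ⟨?_, ?_, ?_, ?_⟩
  · unfold yw
    have a1 : ContDiff ℝ ∞ fun ρ : ℝ => ((N : ℝ) + 1 / 2) * Real.smoothTransition (2 * ρ - 1 / 2) :=
      contDiff_const.mul hσ
    have a2 : ContDiff ℝ ∞ fun ρ : ℝ => Yd N M k (((N : ℝ) + 1 / 2) * Real.smoothTransition (2 * ρ - 1 / 2)) :=
      (Yd_smooth N M k).comp a1
    have a3 : ContDiff ℝ ∞ fun ρ : ℝ => (n₁.2.2 : ℝ) * Real.smoothTransition (2 * ρ - 1 / 2) :=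
      contDiff_const.mul hσ
    exact (((a2.add contDiff_const).add (contDiff_const.mul a3)).div_const _).prodMk
      (((a1.add (contDiff_const.mul a3)).div_const _).prodMk a3)
  · refine ⟨1 / 4, by norm_num, fun ρ hρ => ?_⟩
    have e : Real.smoothTransition (2 * ρ - 1 / 2) = 0 :=
      Real.smoothTransition.zero_of_nonpos (by linarith)
    have e0 : Yd N M k 0 = M + 1 / 2 := by
      have := Yd_nat (N := N) (M := M) (k := k) (Nat.zero_le N)
      simpa [kk] using this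
    simp only [yw, e, mul_zero, add_zero, zero_div, e0]
    refine Prod.ext ?_ (Prod.ext ?_ ?_)
    · change ((M : ℝ) + 1 / 2 + hz2 v n₁) / v.2.2 = 1 / 2 + ((0 : ℤ) : ℝ)
      rw [div_eq_iff hd']
      push_cast
      linarith
    · simp
    · simp
  · refine ⟨1 / 4, by norm_num, fun ρ hρ => ?_⟩
    have e : Real.smoothTransition (2 * ρ - 1 / 2) = 1 :=
      Real.smoothTransition.one_of_one_le (by linarith)
    simp only [yw, e, mul_one, Yd_end]
    refine Prod.ext ?_ (Prod.ext ?_ ?_)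
    · change (0 + (hz2 v n₁ : ℝ) + v.1 * n₁.2.2) / v.2.2 = n₁.1
      rw [div_eq_iff hd', hz]
      ring
    · change ((N : ℝ) + 1 / 2 + v.2.1 * n₁.2.2) / v.2.2 = 1 / 2 + n₁.2.1
      rw [div_eq_iff hd']
      linarith
    · rfl
  · intro ρ s m he
    have h1 : ht1 v (yw v n₁ N M k ρ) = ((hz1 v m : ℤ) : ℝ) := by
      rw [he]
      simp only [ht1, hz1]
      push_cast
      ring
    have h2 : ht2 v (yw v n₁ N M k ρ) = ((hz2 v m : ℤ) : ℝ) := by
      rw [he]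
      simp only [ht2, hz2]
      push_cast
      ring
    obtain ⟨r1, r2⟩ := Yw_range (v := v) (n₁ := n₁) (N := N) (M := M) (k := k) hd ρ
    rw [h1] at r1 r2
    have r1' : 0 ≤ hz1 v m := by exact_mod_cast r1
    have r2' : hz1 v m ≤ N := by
      by_contra hc
      push Not at hc
      have hc2 : (N : ℤ) + 1 ≤ hz1 v m := hc
      have : (N : ℝ) + 1 ≤ hz1 v m := by exact_mod_cast hc2
      linarith
    obtain ⟨j, hj⟩ := Int.eq_ofNat_of_zero_le r1'
    have hj' : j ≤ N := by omega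
    have h3 := yw_ht2 (v := v) (n₁ := n₁) (N := N) (M := M) (k := k) hd ρ
    rw [h1, h2, hj, Int.cast_natCast, Yd_nat hj'] at h3
    have h4 : (2 * hz2 v m : ℤ) = 2 * kk M k j + 1 + 2 * hz2 v n₁ := by
      have : (2 : ℝ) * hz2 v m = 2 * kk M k j + 1 + 2 * hz2 v n₁ := by rw [h3]; ring
      exact_mod_cast this
    omega

theorem yw_mono (hd : v.2.2 ≠ 0) : Monotone fun ρ => ht1 v (yw v n₁ N M k ρ) := by
  intro x y h
  simp only [yw_ht1 hd]
  exact mul_le_mul_of_nonneg_left (Real.smoothTransition.monotone (by linarith)) (by positivity)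

theorem yw_anti (hd : v.2.2 ≠ 0) (hk : YD N M k) : Antitone fun ρ => ht2 v (yw v n₁ N M k ρ) := by
  intro x y h
  simp only [yw_ht2 hd]
  have := Yd_anti hk (yw_mono (v := v) (n₁ := n₁) (N := N) (M := M) (k := k) hd h)
  simpa using this

theorem yw_col (hd : v.2.2 ≠ 0) {j : ℕ} (h1 : 1 ≤ j) (hj : j ≤ N) {ρ : ℝ} (h : ht1 v (yw v n₁ N M k ρ) = j) :
    ht2 v (yw v n₁ N M k ρ) - hz2 v n₁ = k j + 1 / 2 := by
  rw [yw_ht2 hd, h, Yd_nat hj, add_sub_cancel_right, kk, if_neg (by omega)]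

theorem yw_row (hd : v.2.2 ≠ 0) (hk : YD N M k) {i : ℕ} (h1 : 1 ≤ i) (hi : i ≤ M) {ρ : ℝ}
    (h : ht2 v (yw v n₁ N M k ρ) - hz2 v n₁ = i) :
    (trp N k i : ℝ) < ht1 v (yw v n₁ N M k ρ) ∧ ht1 v (yw v n₁ N M k ρ) < trp N k i + 1 := by
  rw [yw_ht2 hd, add_sub_cancel_right] at h
  obtain ⟨r1, r2⟩ := Yw_range (v := v) (n₁ := n₁) (N := N) (M := M) (k := k) hd ρ
  set x := ht1 v (yw v n₁ N M k ρ) with hx
  have hT := CSW.trp_le N k i
  constructor
  · by_contra hc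
    push Not at hc
    have h2 := Yd_anti hk hc
    rw [h] at h2
    rw [Yd_nat hT] at h2
    have h3 : i ≤ kk M k (trp N k i) := by
      unfold kk
      split_ifs with h0
      · exact hi
      · exact (CSW.mem_trp hk (by omega) hT).1 le_rfl
    have h4 : (i : ℝ) ≤ kk M k (trp N k i) := by exact_mod_cast h3
    linarith
  · rcases eq_or_lt_of_le hT with h0 | h0
    · rw [h0]; linarith
    · by_contra hc
      push Not at hc
      have h2 := Yd_anti hk hc
      have e : ((trp N k i : ℝ) + 1) = ((trp N k i + 1 : ℕ) : ℝ) := by push_cast; ring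
      rw [h, e, Yd_nat (by omega)] at h2
      have h3 : ¬ (trp N k i + 1 ≤ trp N k i) := by omega
      rw [CSW.mem_trp hk (by omega) (by omega)] at h3
      have h4 : kk M k (trp N k i + 1) + 1 ≤ i := by
        unfold kk
        rw [if_neg (by omega)]
        omega
      have h5 : (kk M k (trp N k i + 1) : ℝ) + 1 ≤ i := by exact_mod_cast h4
      linarith

end Pool.Agent.GLB
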