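import Pool.Agent.GLB.Yw

/-!
# GLB/YwE: Young diagrams with the same parities   (difficulty 3)

* `v1col`: `w, w'` monotone, `n₁' = n₁ + (k, 0, 0)`, the columns `1 ≤ j ≤ N` are crossed at heights with integer part `κ j`, `κ' j` (natural
  numbers; heights relative to `hz2 v n₁`, `hz2 v n₁'`).  Gap data: `G 0 = 0`, `G j = (κ j + (c₂ + a q j)) / d`, for `w'`: `G' j = (κ' j + (c₂ + d k +
  a q j)) / d = k + (κ' j + (c₂ + a q j)) / d` (`cols_gap`; `hz2 v n₁' = c₂ + d k`); at `j = 0`: `pl (w ρ) = (x, 0)`: the path starts at `(0, 0)`, so by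
  `exists_gaps` and `gaps_zero` `|x - 0| < 1/2`; for `j > N` the height `j` is not attained (`mono_range`, `ht1 v (fin n₁) = N + 1/2`).
  By `div_cnt`: `G j - (G' j - k) = cnt j (κ j) - cnt j (κ' j)`, so the sum in `v1eq` is `n1 κ - n1 κ'` (`n1` is the sum over the odd `j` in
  `[1, N]`; `range (N + 1)` contains also `0`, which is even), even by `he`.
* `yw_v1`: `v1col` with `k = 0`, `yw_col`, `yw_mono`, `yw_gpath`.
* `yw_v2`: apply `v1col` to `sw n₁ (yw k)`, `sw n₁ (yw k')` (direction `swv v`, `NM.sw`, `M` columns, `κ = trp N k`): they are `h₁`-monotone by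
  `ht1_sw` and `yw_anti`; the column data by `yw_row` and `ht1_sw`, `ht2_sw`, `hz2_swn`: `ht2 (swv v) (sw ..) - hz2 (swv v) (swn n₁) = ht1 v (yw (1 - ρ))`.
  `n1 (Lob (swv v) (swn n₁)) M (trp N k) = n2 (Lob v n₁) N M k` by `lob_sw` (`n2 L N M k = n1 (fun i j => L j i) M (trp N k)`; `funext`, `propext`).
  Then `geq_sw` for the swapped paths, `sw_sw`, `swv_swv`.
* `yw_all`: `CSW.all_eq` with `E k k' = GEq (yw k) (yw k')`; obstacle: `j = 1`, `i ∈ [1, 2d]` even with `d ∣ i + (c₂ + a q)`: let `i₀ ∈ [1, d]` be such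
  that `d ∣ i₀ + ..` (`i₀ = d - (c₂ + a q) % d`); `i₀` or `i₀ + d` is even as `d` is odd (`lob_iff`).
-/

open scoped Manifold ContDiff Topology
open Set Filter

namespace Pool.Agent.GLB

open Pool.Agent.PTH
open Pool.Agent.CSW (YD trp n1 n2 cnt)

universe u

variable {v : ℤ × ℤ × ℤ} {p q : ℤ} {n₁ : ℤ × ℤ × ℤ} {N M : ℕ} {k : ℕ → ℕ}

/-- the column `j` is crossed at a height in `[κ j, κ j + 1)` -/
def ColD (v n₁ : ℤ × ℤ × ℤ) (N : ℕ) (κ : ℕ → ℕ) (w : ℝ → ℝ × ℝ × ℝ) : Prop :=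
  ∀ (j : ℕ) (ρ : ℝ), 1 ≤ j → j ≤ N → ht1 v (w ρ) = j →
    (κ j : ℝ) ≤ ht2 v (w ρ) - hz2 v n₁ ∧ ht2 v (w ρ) - hz2 v n₁ < κ j + 1

theorem YwE_fin {n₁ : ℤ × ℤ × ℤ} {N : ℕ} (hN : 2 * (N : ℤ) + 1 = v.2.2 + 2 * hz1 v n₁) :
    ht1 v (fin n₁) = N + 1 / 2 := by
  have h1 : 2 * (N : ℝ) + 1 = (v.2.2 : ℝ) + 2 * ((hz1 v n₁ : ℤ) : ℝ) := by exact_mod_cast hN
  have h2 : ((hz1 v n₁ : ℤ) : ℝ) = v.2.2 * n₁.2.1 - v.2.1 * n₁.2.2 := by
    simp only [hz1]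
    push_cast
    ring
  rw [h2] at h1
  show (v.2.2 : ℝ) * (1 / 2 + (n₁.2.1 : ℝ)) - v.2.1 * (n₁.2.2 : ℝ) = N + 1 / 2
  linarith

theorem YwE_gaps (hb : VB v p q) (hd : 0 < v.2.2) {N : ℕ} {n₁ : ℤ × ℤ × ℤ}
    (hN : 2 * (N : ℤ) + 1 = v.2.2 + 2 * hz1 v n₁) {w : ℝ → ℝ × ℝ × ℝ} (hw : GPath v 0 n₁ w)
    (hm : Monotone fun ρ => ht1 v (w ρ)) {κ : ℕ → ℕ} (hκ : ColD v n₁ N κ w) :
    Gaps (fun ρ => pl v p q (w ρ))
      (fun j => if j = 0 then 0 else ((κ j : ℤ) + (hz2 v n₁ + v.1 * q * j)) / v.2.2) := by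
  obtain ⟨ε, hε, hc⟩ := SPath.cpath (spath_of_gpath hb hw)
  have hm' : Monotone fun ρ => (pl v p q (w ρ)).2 := hm
  intro j ρ hj
  have hj' : ht1 v (w ρ) = j := hj
  by_cases hj0 : j = 0
  · subst hj0
    obtain ⟨G, hG⟩ := exists_gaps hc.cont hc.avoid hm'
    have h1 := gaps_zero hε hc hG
    have h2 := hG 0 ρ hj
    rw [h1] at h2
    exact h2
  · beta_reduce
    rw [if_neg hj0]
    by_cases hjN : j ≤ N
    · obtain ⟨h2, h3⟩ := hκ j ρ (by omega) hjN hj'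
      have h4 := cols_gap hb hd (x := w ρ) (hc.avoid ρ) (j := (j : ℤ)) (k := (κ j : ℤ)) (c := hz2 v n₁)
        (by exact_mod_cast hj') (by exact_mod_cast h2) (by exact_mod_cast h3)
      exact h4
    · exfalso
      have hr := (mono_range hc hm' ρ).2
      have h5 : (pl v p q (fin n₁)).2 = N + 1 / 2 := YwE_fin hN
      have h6 : (pl v p q (w ρ)).2 = j := hj
      rw [h5, h6] at hr
      have h7 : (N : ℝ) + 1 ≤ j := by
        have : N + 1 ≤ j := by omega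
        exact_mod_cast this
      linarith

theorem YwE_n1 (L : ℕ → ℕ → Prop) (N : ℕ) (κ : ℕ → ℕ) :
    ((n1 L N κ : ℕ) : ℤ) = ∑ j ∈ Finset.range (N + 1), if j % 2 = 1 then (cnt L j (κ j) : ℤ) else 0 := by
  classical
  rw [← Finset.sum_filter]
  unfold n1
  push_cast
  refine Finset.sum_congr ?_ fun _ _ => rfl
  ext j
  simp only [Finset.mem_filter, Finset.mem_Icc, Finset.mem_range]
  constructor
  · rintro ⟨⟨h1, h2⟩, h3⟩
    exact ⟨by omega, h3⟩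
  · rintro ⟨h1, h3⟩
    exact ⟨⟨by omega, by omega⟩, h3⟩

theorem v1col (hΓ : CSW.WIn Gam.{u}) (hv : VGood v) (hd : 0 < v.2.2) {i : ℤ}
    (hN : 2 * (N : ℤ) + 1 = v.2.2 + 2 * hz1 v n₁)
    {w w' : ℝ → ℝ × ℝ × ℝ} (hw : GPath v 0 n₁ w) (hw' : GPath v 0 (n₁ + (i, 0, 0)) w')
    (hm : Monotone fun ρ => ht1 v (w ρ)) (hm' : Monotone fun ρ => ht1 v (w' ρ))
    {κ κ' : ℕ → ℕ} (hκ : ColD v n₁ N κ w) (hκ' : ColD v (n₁ + (i, 0, 0)) N κ' w')
    (he : n1 (Lob v n₁) N κ % 2 = n1 (Lob v n₁) N κ' % 2) : GEq.{u} v w w' := by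
  obtain ⟨p, q, hb⟩ := exists_vb hv.cop2
  have hz1' : hz1 v (n₁ + (i, 0, 0)) = hz1 v n₁ := by
    simp [hz1]
  have hz2' : hz2 v (n₁ + (i, 0, 0)) = hz2 v n₁ + v.2.2 * i := by
    simp [hz2]
    ring
  have hN' : 2 * (N : ℤ) + 1 = v.2.2 + 2 * hz1 v (n₁ + (i, 0, 0)) := by rw [hz1']; exact hN
  have hG := YwE_gaps hb hd hN hw hm hκ
  have hG' := YwE_gaps hb hd hN' hw' hm' hκ'
  have hf := YwE_fin hN
  refine v1eq hΓ hv hb hw hw' hm hm' (N := N) (by rw [hf]; linarith) (by rw [hf]; linarith) hG hG' ?_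
  have key : (∑ j ∈ Finset.range (N + 1), if j % 2 = 1 then
      (fun j : ℕ => if j = 0 then 0 else ((κ j : ℤ) + (hz2 v n₁ + v.1 * q * j)) / v.2.2) j -
        ((fun j : ℕ => if j = 0 then 0 else
          ((κ' j : ℤ) + (hz2 v (n₁ + (i, 0, 0)) + v.1 * q * j)) / v.2.2) j - i) else 0) =
      ((n1 (Lob v n₁) N κ : ℕ) : ℤ) - ((n1 (Lob v n₁) N κ' : ℕ) : ℤ) := by
    rw [YwE_n1, YwE_n1, ← Finset.sum_sub_distrib]
    refine Finset.sum_congr rfl fun j _ => ?_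
    by_cases hj : j % 2 = 1
    · have hj0 : j ≠ 0 := by rintro rfl; simp at hj
      rw [if_pos hj, if_pos hj, if_pos hj]
      simp only [if_neg hj0]
      have h1 := div_cnt hb hd n₁ j (κ j)
      have h2 := div_cnt hb hd n₁ j (κ' j)
      have h3 : ((κ' j : ℤ) + (hz2 v (n₁ + (i, 0, 0)) + v.1 * q * j)) / v.2.2 =
          ((κ' j : ℤ) + (hz2 v n₁ + v.1 * q * j)) / v.2.2 + i := by
        rw [hz2', show (κ' j : ℤ) + (hz2 v n₁ + v.2.2 * i + v.1 * q * j) =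
          ((κ' j : ℤ) + (hz2 v n₁ + v.1 * q * j)) + v.2.2 * i by ring,
          Int.add_mul_ediv_left _ _ hd.ne']
      rw [h3, h1, h2]
      ring
    · rw [if_neg hj, if_neg hj, if_neg hj, sub_zero]
  rw [key, Int.even_iff]
  omega

theorem YwE_col (hd : v.2.2 ≠ 0) (k : ℕ → ℕ) : ColD v n₁ N k (yw v n₁ N M k) := by
  intro j ρ h1 h2 h3
  have h4 := yw_col (n₁ := n₁) (M := M) (k := k) hd h1 h2 h3
  rw [h4]
  constructor <;> linarith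

theorem yw_v1 (hΓ : CSW.WIn Gam.{u}) (hv : VGood v) (hd : 0 < v.2.2) (h : NM v n₁ N M) {k k' : ℕ → ℕ}
    (hk : YD N M k) (hk' : YD N M k') (he : n1 (Lob v n₁) N k % 2 = n1 (Lob v n₁) N k' % 2) :
    GEq.{u} v (yw v n₁ N M k) (yw v n₁ N M k') := by
  have h0 : n₁ + ((0 : ℤ), (0 : ℤ), (0 : ℤ)) = n₁ := by
    have : ((0 : ℤ), (0 : ℤ), (0 : ℤ)) = 0 := rfl
    rw [this, add_zero]
  refine v1col (i := 0) (κ := k) (κ' := k') hΓ hv hd h.hN (yw_gpath hd.ne' h hk) ?_ (yw_mono hd.ne')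
    (yw_mono hd.ne') (YwE_col hd.ne' k) ?_ he
  · rw [h0]
    exact yw_gpath hd.ne' h hk'
  · rw [h0]
    exact YwE_col hd.ne' k'

theorem YwE_row (hd : v.2.2 ≠ 0) (hk : YD N M k) :
    ColD (swv v) (swn n₁) M (trp N k) (sw n₁ (yw v n₁ N M k)) := by
  intro j ρ h1 h2 h3
  rw [ht1_sw] at h3
  obtain ⟨h4, h5⟩ := yw_row (n₁ := n₁) hd hk h1 h2 h3
  rw [ht2_sw, hz2_swn]
  push_cast
  constructor <;> linarith

theorem YwE_mono (hd : v.2.2 ≠ 0) (hk : YD N M k) :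
    Monotone fun ρ => ht1 (swv v) (sw n₁ (yw v n₁ N M k) ρ) := by
  intro ρ ρ' hρ
  show ht1 (swv v) (sw n₁ (yw v n₁ N M k) ρ) ≤ ht1 (swv v) (sw n₁ (yw v n₁ N M k) ρ')
  rw [ht1_sw, ht1_sw]
  have h1 := yw_anti (n₁ := n₁) hd hk (show 1 - ρ' ≤ 1 - ρ by linarith)
  have h2 : ht2 v (yw v n₁ N M k (1 - ρ)) ≤ ht2 v (yw v n₁ N M k (1 - ρ')) := h1
  linarith

theorem yw_v2 (hΓ : CSW.WIn Gam.{u}) (hv : VGood v) (hd : 0 < v.2.2) (h : NM v n₁ N M) {k k' : ℕ → ℕ}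
    (hk : YD N M k) (hk' : YD N M k') (he : n2 (Lob v n₁) N M k % 2 = n2 (Lob v n₁) N M k' % 2) :
    GEq.{u} v (yw v n₁ N M k) (yw v n₁ N M k') := by
  have hw := yw_gpath hd.ne' h hk
  have hw' := yw_gpath hd.ne' h hk'
  have hsw := sw_gpath hw
  have hsw' := sw_gpath hw'
  have h0 : swn n₁ + ((0 : ℤ), (0 : ℤ), (0 : ℤ)) = swn n₁ := by
    have : ((0 : ℤ), (0 : ℤ), (0 : ℤ)) = 0 := rfl
    rw [this, add_zero]
  have hL : Lob (swv v) (swn n₁) = fun i j => Lob v n₁ j i := by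
    funext i j
    exact propext (lob_sw v n₁ i j)
  have hd' : 0 < (swv v).2.2 := hd
  have key : GEq.{u} (swv v) (sw n₁ (yw v n₁ N M k)) (sw n₁ (yw v n₁ N M k')) := by
    refine v1col (i := 0) (N := M) (κ := trp N k) (κ' := trp N k') hΓ (swv_good hv) hd' h.sw.hN hsw ?_
      (YwE_mono hd.ne' hk) (YwE_mono hd.ne' hk') (YwE_row hd.ne' hk) ?_ ?_
    · rw [h0]
      exact hsw'
    · rw [h0]
      exact YwE_row hd.ne' hk'
    · rw [hL]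
      exact he
  have h1 := geq_sw hsw hsw' key
  rw [swv_swv, sw_sw, sw_sw] at h1
  exact h1

theorem YwE_obs (hv : VGood v) (hd : 0 < v.2.2) (hb : VB v p q) (n₁ : ℤ × ℤ × ℤ) (h2 : 2 * v.2.2 ≤ (M : ℤ)) :
    ∃ b : ℕ, 1 ≤ b ∧ b ≤ M ∧ Lob v n₁ 1 b ∧ (1 + b) % 2 = 1 := by
  have hodd := hv.odd
  set d := v.2.2 with hdd
  set c := hz2 v n₁ + v.1 * q * ((1 : ℕ) : ℤ) with hc
  have h3 := Int.emod_nonneg c hd.ne'
  have h4 := Int.emod_lt_of_pos c hd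
  have h5 : d ∣ (d - c % d) + c := by
    have h6 : d ∣ c - c % d := Int.dvd_self_sub_emod
    have h7 : (d - c % d) + c = d + (c - c % d) := by ring
    rw [h7]
    exact dvd_add (dvd_refl d) h6
  by_cases hpar : (d - c % d) % 2 = 0
  · refine ⟨(d - c % d).toNat, by omega, by omega, ?_, by omega⟩
    rw [lob_iff hb]
    rw [Int.toNat_of_nonneg (by omega)]
    exact h5
  · refine ⟨(d - c % d + d).toNat, by omega, by omega, ?_, by omega⟩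
    rw [lob_iff hb]
    rw [Int.toNat_of_nonneg (by omega)]
    have h8 : d - c % d + d + c = (d - c % d) + c + d := by ring
    rw [h8]
    exact dvd_add h5 (dvd_refl d)

theorem yw_all (hΓ : CSW.WIn Gam.{u}) (hv : VGood v) (hd : 0 < v.2.2) (h : NM v n₁ N M) (h1 : 1 ≤ N)
    (h2 : 2 * v.2.2 ≤ M) {k k' : ℕ → ℕ} (hk : YD N M k) (hk' : YD N M k') :
    GEq.{u} v (yw v n₁ N M k) (yw v n₁ N M k') := by
  obtain ⟨p, q, hb⟩ := exists_vb hv.cop2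
  obtain ⟨b, hb1, hbM, hL, hpar⟩ := YwE_obs hv hd hb n₁ h2
  exact CSW.all_eq (L := Lob v n₁) (E := fun k k' => GEq.{u} v (yw v n₁ N M k) (yw v n₁ N M k'))
    (fun _ _ h => h.symm) (fun _ _ _ h h' => h.trans h')
    (fun _ _ hk hk' he => yw_v1 hΓ hv hd h hk hk' he)
    (fun _ _ hk hk' he => yw_v2 hΓ hv hd h hk hk' he)
    ⟨1, b, le_rfl, h1, hb1, hbM, hL, hpar⟩ hk hk'

end Pool.Agent.GLB
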